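import Pool.Agent.Lib.MP_ffe3a0_co.Curve

/-!
Moving curves do not cross fault curves transversally.
-/

set_option autoImplicit false
set_option linter.unusedSectionVars false

open Set Metric Filter Topology Pointwise ComplexConjugate

noncomputable section

namespace Pool.Agent.Lib.MP_ffe3a0_co

variable {ι : Type} [Finite ι] {Q : ι → Set ℂ} {U : Ultrafilter ℕ} {Tn : ℕ → Set (Set ℂ)}
  {T : Set (Set ℂ)} {d : Set ℂ → ℕ → Mot} {a : ℝ} {b : ℂ} {c : ℝ} {t₁ t₂ : Set ℂ}

theorem tendsto_EE_div (a : ℝ) : Tendsto (fun s : ℝ => EE a s / s) (𝓝[≠] 0) (𝓝 Complex.I) := by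
  have h1 : Tendsto (fun s : ℝ => Complex.I * Circle.exp (a * s) * Real.sinc (a * s)) (𝓝[≠] 0)
      (𝓝 Complex.I) := by
    have h2 : Continuous fun s : ℝ => Real.sinc (a * s) :=
      Real.continuous_sinc.comp (continuous_const.mul continuous_id)
    have h3 : Continuous fun s : ℝ => Circle.exp (a * s) :=
      Circle.exp.continuous.comp (continuous_const.mul continuous_id)
    have h4 : Continuous fun s : ℝ => (Circle.exp (a * s) : ℂ) := continuous_subtype_val.comp h3
    have h5 : Continuous fun s : ℝ => ((Real.sinc (a * s) : ℝ) : ℂ) :=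
      Complex.continuous_ofReal.comp h2
    have h6 : Continuous fun s : ℝ => Complex.I * Circle.exp (a * s) * Real.sinc (a * s) :=
      (continuous_const.mul h4).mul h5
    have h7 : Tendsto (fun s : ℝ => Complex.I * Circle.exp (a * s) * Real.sinc (a * s)) (𝓝[≠] 0)
        (𝓝 (Complex.I * Circle.exp (a * 0) * Real.sinc (a * 0))) :=
      (h6.tendsto 0).mono_left nhdsWithin_le_nhds
    have e : Complex.I * Circle.exp (a * 0) * Real.sinc (a * 0) = Complex.I := by simp
    rwa [e] at h7
  apply h1.congr'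
  filter_upwards [self_mem_nhdsWithin] with s hs
  have hs' : (s : ℂ) ≠ 0 := by exact_mod_cast hs
  rw [EE]
  field_simp

/-- transversal level curves: sign of `ham` along the flow of another function -/
theorem sign_along {a' : ℝ} {b' p : ℂ}
    (hX : 0 < (conj (grad a b p) * (Complex.I * grad a' b' p)).re) :
    ∀ᶠ s : ℝ in 𝓝[≠] 0, 0 < (ham a b (flow a' b' s • p) - ham a b p) / s := by
  set G := grad a b p with hG
  set G' := grad a' b' p with hG'
  have h1 : Tendsto (fun s : ℝ => (conj G * (EE a' s / s * G')).re +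
      a * (Complex.normSq (EE a' s / s) * s * Complex.normSq G')) (𝓝[≠] 0)
      (𝓝 ((conj G * (Complex.I * G')).re + a * (Complex.normSq Complex.I * 0 *
        Complex.normSq G'))) := by
    have h2 := tendsto_EE_div a'
    apply Tendsto.add
    · exact (Complex.continuous_re.tendsto _).comp ((h2.mul_const _).const_mul _)
    · apply Tendsto.const_mul
      apply Tendsto.mul_const
      apply Tendsto.mul
      · exact (Complex.continuous_normSq.tendsto _).comp h2
      · exact tendsto_id.mono_left nhdsWithin_le_nhds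
  rw [mul_zero, zero_mul, mul_zero, add_zero] at h1
  filter_upwards [h1.eventually (lt_mem_nhds hX), self_mem_nhdsWithin] with s hs hs0
  have hs0' : s ≠ 0 := hs0
  have hs' : (s : ℂ) ≠ 0 := by exact_mod_cast hs0'
  have h3 := ham_sub' a b (flow a' b' s • p) p
  rw [flow_smul_sub, ← hG, ← hG'] at h3
  have h4 : conj G * (EE a' s * G') = (s : ℂ) * (conj G * (EE a' s / s * G')) := by
    field_simp
  have h5 : Complex.normSq (EE a' s * G') =
      s * (Complex.normSq (EE a' s / s) * s * Complex.normSq G') := by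
    rw [map_mul, map_div₀, Complex.normSq_ofReal]
    field_simp
  rw [h3, h4, h5, Complex.re_ofReal_mul]
  have h6 : (s * (conj G * (EE a' s / s * G')).re + a * (s * (Complex.normSq (EE a' s / s) * s *
      Complex.normSq G'))) / s = (conj G * (EE a' s / s * G')).re +
      a * (Complex.normSq (EE a' s / s) * s * Complex.normSq G') := by
    field_simp
  rw [h6]
  exact hs

namespace MCurve

theorem rel_flow (hQ : ∀ i, IsDisk (Q i)) (S : Sys Q U Tn T d)
    (C : MCurve U d T a b c t₁ t₂) :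
    ∀ᶠ n in U, ∀ z, ham a b (((d t₁ n)⁻¹ * d t₂ n) • z) = ham a b z := by
  obtain ⟨q, hq⟩ := C.ex
  have h1 := C.bd q hq
  rw [← hq] at h1
  have h2 := Sys.exists_near_level (C.reg q hq) h1
  have h3 : ∀ᶠ z in 𝓝[≠] q, grad a b z ≠ 0 :=
    (grad_ne_near (C.reg q hq)).filter_mono nhdsWithin_le_nhds
  obtain ⟨z, ⟨-, u₁, hu₁, u₂, hu₂, s1, s2, L1, L2⟩, hz⟩ := (h2.and_eventually h3).exists
  have hE := Lo.not_E3 hQ S.h hu₁ hu₂ L1 L2 hz
  filter_upwards [S.rel_flow hQ hu₁ hu₂ (C.rel.congr s1 s2) L1.mem L2.mem hE, s1, s2]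
    with n k1 k2 k3
  rw [k2, k3]
  exact k1

theorem nc_aux_pos (hQ : ∀ i, IsDisk (Q i)) (S : Sys Q U Tn T d)
    (C : MCurve U d T a b c t₁ t₂) {p : ℂ} (hp : ham a b p = c) {a' : ℝ} {b' : ℂ}
    {g' : ℕ → Mot} (hg' : Tendsto g' U (𝓝 1)) {r : ℝ} (hr : 0 < r)
    (hfault : ∀ᶠ n in U, ∀ z ∈ ball p r, ham a' b' z = ham a' b' p → ∀ s ∈ Tn n,
      g' n • z ∉ interior s)
    (hX : 0 < (conj (grad a b p) * (Complex.I * grad a' b' p)).re) :
    ∀ᶠ n in U, ham a' b' (((g' n)⁻¹ * d t₁ n) • p) = ham a' b' p := by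
  obtain ⟨r₁, hr₁, hrs⟩ := S.h.exists_ball hQ p
  have hbd := C.bd p hp
  rw [eventually_nhdsWithin_iff, Metric.eventually_nhds_iff] at hbd
  obtain ⟨r₂, hr₂, hbd⟩ := hbd
  set ρ := min r (min r₁ r₂) with hρ
  have hρpos : 0 < ρ := by positivity
  obtain ⟨δ, hδ, hsmall⟩ := exists_small a' b' p (half_pos hρpos)
  have hsign := sign_along hX
  rw [eventually_nhdsWithin_iff, Metric.eventually_nhds_iff] at hsign
  obtain ⟨ε, hε, hsign⟩ := hsign
  set δ' := min δ ε / 2 with hδ'
  have hmin : 0 < min δ ε := lt_min hδ hε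
  have hδ'pos : 0 < δ' := by positivity
  have hδ'δ : δ' < δ := by linarith [min_le_left δ ε]
  have hδ'ε : δ' < ε := by linarith [min_le_right δ ε]
  set γ : ℝ → ℂ := fun s => flow a' b' s • p with hγ
  have hγcont : Continuous γ := (continuous_flow a' b').smul continuous_const
  have hpos : c < ham a b (γ δ') := by
    have := hsign (y := δ') (by rw [Real.dist_eq, sub_zero, abs_of_pos hδ'pos]; exact hδ'ε)
      hδ'pos.ne'
    rw [hp] at this
    rw [div_pos_iff] at this
    rcases this with h | h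
    · simp only [hγ]; linarith [h.1]
    · linarith [h.2]
  have hneg : ham a b (γ (-δ')) < c := by
    have := hsign (y := -δ') (by
      rw [Real.dist_eq, sub_zero, abs_neg, abs_of_pos hδ'pos]; exact hδ'ε) (by
      intro h
      have h' : -δ' = 0 := h
      linarith)
    rw [hp] at this
    rw [div_pos_iff] at this
    rcases this with h | h
    · linarith [h.2]
    · simp only [hγ]; linarith [h.1]
  set m : ℕ → Mot := fun n => (g' n)⁻¹ * d t₁ n with hm
  have hm1 : Tendsto m U (𝓝 1) := by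
    have := hg'.inv.mul (S.lim t₁ C.mem₁)
    rwa [inv_one, one_mul] at this
  have hminv : Tendsto (fun n => (m n)⁻¹) U (𝓝 1) := by
    have := hm1.inv
    rwa [inv_one] at this
  have hlim : ∀ z : ℂ, Tendsto (fun n => ham a b ((m n)⁻¹ • z)) U (𝓝 (ham a b z)) := by
    intro z
    have h1 : Tendsto (fun n => (m n)⁻¹ • z) U (𝓝 ((1 : Mot) • z)) := hminv.smul_const z
    rw [one_smul] at h1
    exact ((continuous_ham a b).tendsto z).comp h1
  have hK := S.finite_at hQ p
  have hfin : ∀ᶠ n in U, ∀ u ∈ {u ∈ T | p ∈ u}, Sim U d t₁ u → d t₁ n = d u n ∧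
      d u n • u ∈ Tn n := by
    rw [eventually_all_finite hK]
    intro u hu
    by_cases h : Sim U d t₁ u
    · filter_upwards [h, S.mem u hu.1] with n h2 h3 _
      exact ⟨h2, h3⟩
    · exact Eventually.of_forall fun n h' => absurd h' h
  filter_upwards [hfault, (hlim (γ δ')).eventually (lt_mem_nhds hpos),
    (hlim (γ (-δ'))).eventually (gt_mem_nhds hneg), hfin,
    eventually_smul_mem_ball hminv p (half_lt_self hρpos)] with n e1 e2 e3 e4 e5
  set f : ℝ → ℝ := fun s => ham a b ((m n)⁻¹ • γ s) with hf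
  have hfc : Continuous f :=
    (continuous_ham a b).comp ((continuous_const_smul _).comp hγcont)
  set A : Set ℝ := {s | s ∈ Icc (-δ') δ' ∧ c ≤ f s} with hA
  have hAne : A.Nonempty := ⟨δ', ⟨⟨by linarith, le_rfl⟩, e2.le⟩⟩
  have hAbd : BddBelow A := ⟨-δ', fun s hs => hs.1.1⟩
  have hAcl : IsClosed A := isClosed_Icc.inter (isClosed_le continuous_const hfc)
  set σ := sInf A with hσ
  have hσA : σ ∈ A := hAcl.csInf_mem hAne hAbd
  have hbelow : ∀ s, -δ' ≤ s → s < σ → f s < c := by
    intro s h1 h2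
    by_contra hcon
    push Not at hcon
    have : σ ≤ s := csInf_le hAbd ⟨⟨h1, by linarith [hσA.1.2]⟩, hcon⟩
    linarith
  have hσlt : -δ' < σ := by
    rcases hσA.1.1.lt_or_eq with h | h
    · exact h
    · exfalso
      have := hσA.2
      rw [← h] at this
      exact absurd e3 (not_lt.2 this)
  have hfσ : f σ = c := by
    apply le_antisymm _ hσA.2
    have h1 : Tendsto f (𝓝[<] σ) (𝓝 (f σ)) := (hfc.tendsto σ).mono_left nhdsWithin_le_nhds
    apply le_of_tendsto h1
    filter_upwards [Ioo_mem_nhdsLT hσlt] with s hs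
    exact (hbelow s hs.1.le hs.2).le
  have hball : ∀ s ∈ Icc (-δ') δ', γ s ∈ ball p (ρ / 2) := fun s hs =>
    (hsmall s (abs_lt.2 ⟨by linarith [hs.1], by linarith [hs.2]⟩)).2
  have hzb : (m n)⁻¹ • γ σ ∈ ball p ρ := e5 _ (hball σ hσA.1)
  by_cases hz : (m n)⁻¹ • γ σ = p
  · have : γ σ = m n • p := by rw [← hz, smul_inv_smul]
    show ham a' b' (m n • p) = _
    rw [← this]
    exact ham_flow _ _
  · exfalso
    obtain ⟨u₁, hu₁, -, -, s1, -, L1, -⟩ := hbd (mem_ball.1 (ball_subset_ball
      ((min_le_right _ _).trans (min_le_right _ _)) hzb)) hz hfσ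
    have hpu : p ∈ u₁ := hrs u₁ hu₁ ⟨_, L1.mem, ball_subset_closedBall (ball_subset_ball
      ((min_le_right _ _).trans (min_le_left _ _)) hzb)⟩
    obtain ⟨k1, k2⟩ := e4 u₁ ⟨hu₁, hpu⟩ s1
    have h1 : Tendsto (fun s => (m n)⁻¹ • γ s) (𝓝[<] σ) (𝓝 ((m n)⁻¹ • γ σ)) :=
      (((continuous_const_smul _).comp hγcont).tendsto σ).mono_left nhdsWithin_le_nhds
    obtain ⟨s, hs1, hs2⟩ := ((h1.eventually L1.near_interior).and
      (Ioo_mem_nhdsLT hσlt)).exists
    have h2 := hs1 (by
      have := hbelow s hs2.1.le hs2.2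
      have h3 : ham a b ((m n)⁻¹ • γ σ) = c := hfσ
      rw [h3]
      exact this)
    apply e1 (γ s) (ball_subset_ball ((half_le_self hρpos.le).trans (min_le_left _ _))
      (hball s ⟨hs2.1.le, by linarith [hs2.2, hσA.1.2]⟩)) (ham_flow _ _) _ k2
    rw [Mot.smul_set_interior, ← k1, mem_smul_set_iff_inv_smul_mem, ← mul_smul]
    have h3 : (d t₁ n)⁻¹ * g' n = (m n)⁻¹ := by simp [hm]
    rw [h3]
    exact h2

theorem nc_aux (hQ : ∀ i, IsDisk (Q i)) (S : Sys Q U Tn T d)
    (C : MCurve U d T a b c t₁ t₂) {p : ℂ} (hp : ham a b p = c) {a' : ℝ} {b' : ℂ}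
    {g' : ℕ → Mot} (hg' : Tendsto g' U (𝓝 1)) {r : ℝ} (hr : 0 < r)
    (hfault : ∀ᶠ n in U, ∀ z ∈ ball p r, ham a' b' z = ham a' b' p → ∀ s ∈ Tn n,
      g' n • z ∉ interior s)
    (hX : (conj (grad a b p) * (Complex.I * grad a' b' p)).re ≠ 0) :
    ∀ᶠ n in U, ham a' b' (((g' n)⁻¹ * d t₁ n) • p) = ham a' b' p := by
  rcases lt_or_gt_of_ne hX with h | h
  · have := C.nc_aux_pos hQ S hp (a' := -a') (b' := -b') hg' hr (by
      filter_upwards [hfault] with n hn z hz hz'
      exact hn z hz (by rw [ham_neg, ham_neg] at hz'; linarith)) (by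
      rw [grad_neg]
      simp only [mul_neg, Complex.neg_re]
      linarith)
    filter_upwards [this] with n hn
    rw [ham_neg, ham_neg] at hn
    linarith
  · exact C.nc_aux_pos hQ S hp hg' hr hfault h

/-- A moving curve does not cross a fault curve transversally. -/
theorem nc (hQ : ∀ i, IsDisk (Q i)) (S : Sys Q U Tn T d)
    (C : MCurve U d T a b c t₁ t₂) {p : ℂ} (hp : ham a b p = c) {a' : ℝ} {b' : ℂ}
    {g' : ℕ → Mot} (hg' : Tendsto g' U (𝓝 1)) {r : ℝ} (hr : 0 < r)
    (hfault : ∀ᶠ n in U, ∀ z ∈ ball p r, ham a' b' z = ham a' b' p → ∀ s ∈ Tn n,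
      g' n • z ∉ interior s) :
    (conj (grad a b p) * (Complex.I * grad a' b' p)).re = 0 := by
  by_contra hX
  have h1 := C.nc_aux hQ S hp hg' hr hfault hX
  have h2 := C.symm.nc_aux hQ S (p := p) (by rw [ham_neg, hp]) hg' hr hfault (by
    rw [grad_neg]
    simp only [map_neg, neg_mul, Complex.neg_re]
    exact neg_ne_zero.2 hX)
  have h3 := C.rel_flow hQ S
  have hG := C.reg p hp
  have hne : ∀ᶠ n in U, (d t₁ n)⁻¹ * d t₂ n ≠ 1 := by
    rcases C.rel with D | D
    · exact D.ne
    · exact D.ne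
  set h : ℕ → Mot := fun n => (d t₁ n)⁻¹ * d t₂ n with hh
  set m : ℕ → Mot := fun n => (g' n)⁻¹ * d t₁ n with hm
  have hm1 : Tendsto m U (𝓝 1) := by
    have := hg'.inv.mul (S.lim t₁ C.mem₁)
    rwa [inv_one, one_mul] at this
  have hh1 : Tendsto h U (𝓝 1) := S.tendsto_rel C.mem₁ C.mem₂
  set w : ℕ → ℂ := fun n => h n • p - p with hw
  have hw0 : Tendsto w U (𝓝 0) := by
    have h4 : Tendsto (fun n => h n • p - p) U (𝓝 ((1 : Mot) • p - p)) :=
      (hh1.smul_const p).sub_const p
    rwa [one_smul, sub_self] at h4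
  have hwne : ∀ᶠ n in U, w n ≠ 0 := by
    filter_upwards [h3, hne] with n k1 k2 k3
    exact k2 (eq_one_of_fix hG k1 (sub_eq_zero.1 k3))
  -- the two relations
  have r1 : ∀ᶠ n in U, (conj (grad a b p) * w n).re + a * Complex.normSq (w n) = 0 := by
    filter_upwards [h3] with n k1
    have := ham_sub' a b (h n • p) p
    rw [k1, sub_self] at this
    exact this.symm
  have r2 : ∀ᶠ n in U, (conj (grad a' b' (m n • p)) * ((m n).u * w n)).re +
      a' * Complex.normSq (w n) = 0 := by
    filter_upwards [h1, h2] with n k1 k2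
    have e1 : (g' n)⁻¹ * d t₂ n = m n * h n := by simp [hm, hh]
    rw [e1] at k2
    have := ham_sub' a' b' ((m n * h n) • p) (m n • p)
    have e2 : (m n * h n) • p - m n • p = (m n).u * w n := by
      rw [mul_smul, Mot.smul_sub_smul]
    have e3 : Complex.normSq ((m n).u * w n) = Complex.normSq (w n) := by
      rw [map_mul, Complex.normSq_eq_norm_sq, Circle.norm_coe]; ring
    have k1' : ham a' b' (m n • p) = ham a' b' p := k1
    rw [k2, k1', sub_self, e2, e3] at this
    exact this.symm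
  -- unit vectors
  set e : ℕ → ℂ := fun n => w n / (‖w n‖ : ℂ) with he
  have hen : ∀ᶠ n in U, ‖e n‖ = 1 := by
    filter_upwards [hwne] with n k
    rw [he]
    simp only [norm_div, Complex.norm_real, norm_norm]
    exact div_self (norm_ne_zero_iff.2 k)
  obtain ⟨e₀, -, he₀⟩ := (isCompact_closedBall (0 : ℂ) 1).ultrafilter_le_nhds' (U.map e) (by
    rw [Ultrafilter.mem_map]
    refine hen.mono fun n hn => ?_
    show e n ∈ closedBall (0 : ℂ) 1
    rw [mem_closedBall_zero_iff]
    exact hn.le)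
  have te : Tendsto e U (𝓝 e₀) := he₀
  have he1 : ‖e₀‖ = 1 := by
    have t1 : Tendsto (fun n => ‖e n‖) U (𝓝 ‖e₀‖) := te.norm
    have t2 : Tendsto (fun n => ‖e n‖) U (𝓝 1) :=
      Tendsto.congr' (hen.mono fun n hn => hn.symm) tendsto_const_nhds
    exact tendsto_nhds_unique t1 t2
  have hwn : Tendsto (fun n => ‖w n‖) U (𝓝 0) := by simpa using hw0.norm
  have q1 : (conj (grad a b p) * e₀).re = 0 := by
    have t1 : Tendsto (fun n => (conj (grad a b p) * e n).re + a * ‖w n‖) U
        (𝓝 ((conj (grad a b p) * e₀).re + a * 0)) :=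
      ((Complex.continuous_re.tendsto _).comp (te.const_mul _)).add (hwn.const_mul a)
    have t2 : Tendsto (fun n => (conj (grad a b p) * e n).re + a * ‖w n‖) U (𝓝 0) := by
      apply Tendsto.congr' _ tendsto_const_nhds
      filter_upwards [r1, hwne] with n k1 k2
      have k3 : (‖w n‖ : ℝ) ≠ 0 := norm_ne_zero_iff.2 k2
      have k4 : w n = (‖w n‖ : ℂ) * e n := by
        rw [he]
        have : (‖w n‖ : ℂ) ≠ 0 := by exact_mod_cast k3
        field_simp
      have k5 : (conj (grad a b p) * w n).re = ‖w n‖ * (conj (grad a b p) * e n).re := by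
        conv_lhs => rw [k4]
        rw [mul_left_comm, Complex.re_ofReal_mul]
      rw [k5, Complex.normSq_eq_norm_sq] at k1
      have k6 : ‖w n‖ * ((conj (grad a b p) * e n).re + a * ‖w n‖) = 0 := by
        linear_combination k1
      exact ((mul_eq_zero.1 k6).resolve_left k3).symm
    have := tendsto_nhds_unique t1 t2
    simpa using this
  have q2 : (conj (grad a' b' p) * e₀).re = 0 := by
    have tm : Tendsto (fun n => grad a' b' (m n • p)) U (𝓝 (grad a' b' p)) := by
      have h4 : Tendsto (fun n => m n • p) U (𝓝 ((1 : Mot) • p)) := hm1.smul_const p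
      rw [one_smul] at h4
      exact ((continuous_grad a' b').tendsto p).comp h4
    have tu : Tendsto (fun n => ((m n).u : ℂ)) U (𝓝 1) := by
      have h4 := (Mot.tendsto_iff.1 hm1).1
      have h5 : Tendsto (fun n => ((m n).u : ℂ)) U (𝓝 ((1 : Mot).u : ℂ)) :=
        (continuous_subtype_val.tendsto _).comp h4
      rwa [Mot.one_u, Circle.coe_one] at h5
    have t1 : Tendsto (fun n => (conj (grad a' b' (m n • p)) * ((m n).u * e n)).re +
        a' * ‖w n‖) U (𝓝 ((conj (grad a' b' p) * (1 * e₀)).re + a' * 0)) :=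
      ((Complex.continuous_re.tendsto _).comp
        (((Complex.continuous_conj.tendsto _).comp tm).mul (tu.mul te))).add (hwn.const_mul a')
    have t2 : Tendsto (fun n => (conj (grad a' b' (m n • p)) * ((m n).u * e n)).re +
        a' * ‖w n‖) U (𝓝 0) := by
      apply Tendsto.congr' _ tendsto_const_nhds
      filter_upwards [r2, hwne] with n k1 k2
      have k3 : (‖w n‖ : ℝ) ≠ 0 := norm_ne_zero_iff.2 k2
      have k4 : w n = (‖w n‖ : ℂ) * e n := by
        rw [he]
        have : (‖w n‖ : ℂ) ≠ 0 := by exact_mod_cast k3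
        field_simp
      have k5 : (conj (grad a' b' (m n • p)) * ((m n).u * w n)).re =
          ‖w n‖ * (conj (grad a' b' (m n • p)) * ((m n).u * e n)).re := by
        conv_lhs => rw [k4]
        rw [← Complex.re_ofReal_mul]
        congr 1
        ring
      rw [k5, Complex.normSq_eq_norm_sq] at k1
      have k6 : ‖w n‖ * ((conj (grad a' b' (m n • p)) * ((m n).u * e n)).re + a' * ‖w n‖) = 0 := by
        linear_combination k1
      exact ((mul_eq_zero.1 k6).resolve_left k3).symm
    have := tendsto_nhds_unique t1 t2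
    simpa using this
  apply hX
  have hn1 : e₀.re * e₀.re + e₀.im * e₀.im = 1 := by
    rw [← Complex.normSq_apply, Complex.normSq_eq_norm_sq, he1]; norm_num
  rw [re_conj_mul] at q1 q2 ⊢
  simp only [Complex.mul_re, Complex.mul_im, Complex.I_re, Complex.I_im, zero_mul, one_mul,
    zero_sub, zero_add]
  set x := (grad a b p).re
  set y := (grad a b p).im
  set x' := (grad a' b' p).re
  set y' := (grad a' b' p).im
  linear_combination (x * -y' + y * x') * (-hn1) + (-y' * e₀.re + x' * e₀.im) * q1 +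
    (y * e₀.re - x * e₀.im) * q2

end MCurve

end Pool.Agent.Lib.MP_ffe3a0_co
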