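import Pool.Agent.Lib.MP_ffe3a0_co.Straight

/-!
Moving curves: complete lines and circles along which two classes of tiles slide.
-/

set_option autoImplicit false
set_option linter.unusedSectionVars false

open Set Metric Filter Topology Pointwise ComplexConjugate

noncomputable section

namespace Pool.Agent.Lib.MP_ffe3a0_co

variable {ι : Type} [Finite ι] {Q : ι → Set ℂ} {U : Ultrafilter ℕ} {Tn : ℕ → Set (Set ℂ)}
  {T : Set (Set ℂ)} {d : Set ℂ → ℕ → Mot} {a : ℝ} {b : ℂ}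

theorem sim_conj {g : ℕ → Mot} {t t' : Set ℂ} :
    Sim U (fun t n => (g n)⁻¹ * d t n) t t' ↔ Sim U d t t' := by
  unfold Sim
  constructor
  · intro h
    filter_upwards [h] with n hn
    exact mul_left_cancel hn
  · intro h
    filter_upwards [h] with n hn
    rw [hn]

theorem rel_conj {g : ℕ → Mot} {t t' : Set ℂ} :
    Rel U (fun t n => (g n)⁻¹ * d t n) t t' a b ↔ Rel U d t t' a b := by
  unfold Rel
  have : (fun n => ((g n)⁻¹ * d t n)⁻¹ * ((g n)⁻¹ * d t' n)) = fun n => (d t n)⁻¹ * d t' n := by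
    funext n
    group
  rw [this]

namespace Sys

/-- The moving set continues straight through every point. -/
theorem straight (hQ : ∀ i, IsDisk (Q i)) (S : Sys Q U Tn T d) {p : ℂ} {t₁ t₂ : Set ℂ}
    (ht₁ : t₁ ∈ T) (ht₂ : t₂ ∈ T) (R : Rel U d t₁ t₂ a b) (hG : grad a b p ≠ 0) {η : ℝ}
    (hη : η = 1 ∨ η = -1) {δ : ℝ} (hδ : 0 < δ)
    (hback : ∀ s, -δ < s → s < 0 → Lo a b t₁ (flow a b (η * s) • p) ∧
      Lo (-a) (-b) t₂ (flow a b (η * s) • p)) :
    ∃ u₁ ∈ T, ∃ u₂ ∈ T, Sim U d t₁ u₁ ∧ Sim U d t₂ u₂ ∧ ∃ δ' > 0, ∀ s, 0 < s → s < δ' →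
      Lo a b u₁ (flow a b (η * s) • p) ∧ Lo (-a) (-b) u₂ (flow a b (η * s) • p) := by
  have hηη : η * η = 1 := by rcases hη with h | h <;> rw [h] <;> norm_num
  have hηabs : |η| = 1 := by rcases hη with h | h <;> rw [h] <;> simp
  have hγcont : Continuous fun s : ℝ => flow a b (η * s) • p :=
    ((continuous_flow a b).comp (continuous_const.mul continuous_id)).smul continuous_const
  have hγlim : ∀ {l : Filter ℝ}, l ≤ 𝓝 0 → Tendsto (fun s : ℝ => flow a b (η * s) • p) l (𝓝 p) := by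
    intro l hl
    have := (hγcont.tendsto 0).mono_left hl
    simpa [flow_zero] using this
  have hp₁ : p ∈ t₁ := by
    apply (S.isDisk hQ ht₁).isClosed.mem_of_tendsto (hγlim (nhdsWithin_le_nhds (s := Iio 0)))
    filter_upwards [Ioo_mem_nhdsLT (show -δ < 0 by linarith)] with s hs
    exact (hback s hs.1 hs.2).1.mem
  have hp₂ : p ∈ t₂ := by
    apply (S.isDisk hQ ht₂).isClosed.mem_of_tendsto (hγlim (nhdsWithin_le_nhds (s := Iio 0)))
    filter_upwards [Ioo_mem_nhdsLT (show -δ < 0 by linarith)] with s hs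
    exact (hback s hs.1 hs.2).2.mem
  by_cases hpE : p ∈ IsTiling.E3 T
  · -- displacement of `t₂` relative to `t₁`
    have hrf : ∀ᶠ n in U, ∀ z, ham a b (((d t₁ n)⁻¹ * d t₂ n) • z) = ham a b z := by
      obtain ⟨r₃, hr₃, hiso⟩ := S.h.E3_isolated hQ p
      obtain ⟨δ₁, hδ₁, hsmall⟩ := exists_small a b p hr₃
      set s := -(min δ δ₁ / 2) with hs
      have hm : 0 < min δ δ₁ := lt_min hδ hδ₁
      have hs0 : s < 0 := by rw [hs]; linarith
      have hs1 : -δ < s := by rw [hs]; linarith [min_le_left δ δ₁]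
      have hs2 : |η * s| < δ₁ := by
        rw [abs_mul, hηabs, one_mul, abs_of_neg hs0, hs]; linarith [min_le_right δ δ₁]
      have hb := hback s hs1 hs0
      apply S.rel_flow hQ ht₁ ht₂ R hb.1.mem hb.2.mem
      intro hE
      have e := hiso _ hE (hsmall _ hs2).2
      have e' : flow a b (η * s) • p = flow a b 0 • p := by rw [e, flow_zero, one_smul]
      have := flow_inj hG (by rw [sub_zero]; linarith [(hsmall _ hs2).1, Real.pi_pos]) e'
      rcases mul_eq_zero.1 this with h | h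
      · rw [h] at hηabs; simp at hηabs
      · linarith
    have hex : ∀ n, ∃ s : ℝ, (∀ z, ham a b (((d t₁ n)⁻¹ * d t₂ n) • z) = ham a b z) →
        ((d t₁ n)⁻¹ * d t₂ n = flow a b (η * s) ∧
          |s| * ‖grad a b p‖ ≤ Real.pi / 2 * ‖((d t₁ n)⁻¹ * d t₂ n) • p - p‖) := by
      intro n
      by_cases hh : ∀ z, ham a b (((d t₁ n)⁻¹ * d t₂ n) • z) = ham a b z
      · obtain ⟨s, hs1, hs2⟩ := eq_flow hG hh
        refine ⟨η * s, fun _ => ⟨?_, ?_⟩⟩
        · rw [← mul_assoc, hηη, one_mul]; exact hs1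
        · rw [abs_mul, hηabs, one_mul]; exact hs2
      · exact ⟨0, fun h' => absurd h' hh⟩
    choose α hα using hex
    have hα1 : ∀ᶠ n in U, (d t₁ n)⁻¹ * d t₂ n = flow a b (η * α n) :=
      hrf.mono fun n hn => (hα n hn).1
    have hGpos : 0 < ‖grad a b p‖ := norm_pos_iff.2 hG
    have hα0 : Tendsto α U (𝓝 0) := by
      rw [Metric.tendsto_nhds]
      intro ε hε
      have hε' : 0 < ε * ‖grad a b p‖ / (Real.pi / 2) := by positivity
      filter_upwards [hrf, eventually_dist_smul_lt (S.tendsto_rel ht₁ ht₂) ‖p‖ hε'] with n h1 h2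
      rw [Real.dist_eq, sub_zero]
      have h3 := (hα n h1).2
      have h4 : Real.pi / 2 * ‖((d t₁ n)⁻¹ * d t₂ n) • p - p‖ < ε * ‖grad a b p‖ := by
        calc Real.pi / 2 * ‖((d t₁ n)⁻¹ * d t₂ n) • p - p‖
            < Real.pi / 2 * (ε * ‖grad a b p‖ / (Real.pi / 2)) :=
              mul_lt_mul_of_pos_left (h2 p le_rfl) (by positivity)
          _ = ε * ‖grad a b p‖ := by field_simp
      exact lt_of_mul_lt_mul_right (h3.trans_lt h4) hGpos.le
    have hne : ∀ᶠ n in U, α n ≠ 0 := by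
      have h1 : ∀ᶠ n in U, (d t₁ n)⁻¹ * d t₂ n ≠ 1 := by
        rcases R with D | D
        · exact D.ne
        · exact D.ne
      filter_upwards [h1, hα1] with n h2 h3 h4
      apply h2
      rw [h3, h4, mul_zero, flow_zero]
    have hsign : ∀ᶠ n in U, 0 < α n ∨ α n < 0 := hne.mono fun n hn => by
      rcases lt_trichotomy (α n) 0 with h | h | h
      · exact Or.inr h
      · exact absurd h hn
      · exact Or.inl h
    rcases Ultrafilter.eventually_or.1 hsign with hpos | hneg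
    · have S' := S.conj hQ (S.lim t₁ ht₁)
      obtain ⟨u₁, hu₁, u₂, hu₂, s1, s2, h⟩ := S'.straight_aux hQ hpE ht₁ ht₂ (rel_conj.2 R) hG hη
        (fun n => inv_mul_cancel _) hδ hback hα0 (by
          filter_upwards [hpos, hα1] with n h1 h2
          exact ⟨h1, h2⟩)
      exact ⟨u₁, hu₁, u₂, hu₂, sim_conj.1 s1, sim_conj.1 s2, h⟩
    · have S' := S.conj hQ (S.lim t₂ ht₂)
      have hη' : -η = 1 ∨ -η = -1 := by
        rcases hη with h | h
        · right; rw [h]
        · left; rw [h]; norm_num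
      have hfl : ∀ s : ℝ, flow (-a) (-b) (-η * s) = flow a b (η * s) := by
        intro s
        rw [flow_neg_neg]; ring_nf
      obtain ⟨u₂, hu₂, u₁, hu₁, s2, s1, δ', hδ', h⟩ := S'.straight_aux (a := -a) (b := -b) hQ hpE
        ht₂ ht₁ (rel_conj.2 R.symm.neg) (grad_neg_ne hG) hη'
        (fun n => inv_mul_cancel _) hδ (by
          intro s hs1 hs2
          rw [hfl, neg_neg, neg_neg]
          exact ⟨(hback s hs1 hs2).2, (hback s hs1 hs2).1⟩) (α := fun n => -α n)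
        (by simpa using hα0.neg) (by
          filter_upwards [hneg, hα1] with n h1 h2
          refine ⟨by linarith, ?_⟩
          rw [hfl, mul_neg, flow_neg, ← h2]
          group)
      refine ⟨u₁, hu₁, u₂, hu₂, sim_conj.1 s1, sim_conj.1 s2, δ', hδ', ?_⟩
      intro s hs1 hs2
      have := h s hs1 hs2
      rw [hfl, neg_neg, neg_neg] at this
      exact ⟨this.2, this.1⟩
  · -- a good contact
    refine ⟨t₁, ht₁, t₂, ht₂, Sim.refl _ _ _, Sim.refl _ _ _, ?_⟩
    have hLo : Lo a b t₁ p ∧ Lo (-a) (-b) t₂ p := by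
      rcases S.rel_Lo hQ ht₁ ht₂ R hp₁ hp₂ hpE with h | ⟨h, -⟩
      · exact h
      · exfalso
        have h1 := (hγlim (nhdsWithin_le_nhds (s := Iio 0))).eventually
          (h.near.and (grad_ne_near hG))
        obtain ⟨s, ⟨k1, k2⟩, hs⟩ := (h1.and (Ioo_mem_nhdsLT (show -δ < 0 by linarith))).exists
        have k3 := k1 (by rw [ham_neg, ham_neg, ham_flow])
        exact ((hback s hs.1 hs.2).1.ne_neg k3 k2) rfl
    have h1 := (hγlim le_rfl).eventually (hLo.1.near.and hLo.2.near)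
    obtain ⟨δ', hδ', h2⟩ := Metric.eventually_nhds_iff.1 h1
    refine ⟨δ', hδ', fun s hs1 hs2 => ?_⟩
    have h3 := h2 (y := s) (by rw [Real.dist_eq, sub_zero, abs_of_pos hs1]; exact hs2)
    exact ⟨h3.1 (ham_flow _ _), h3.2 (by rw [ham_neg, ham_neg, ham_flow])⟩

end Sys

/-- `z` is on the boundary between the class of `t₁` (below) and the class of `t₂` (above). -/
def Bd (U : Ultrafilter ℕ) (d : Set ℂ → ℕ → Mot) (T : Set (Set ℂ)) (a : ℝ) (b : ℂ)
    (t₁ t₂ : Set ℂ) (z : ℂ) : Prop :=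
  ∃ u₁ ∈ T, ∃ u₂ ∈ T, Sim U d t₁ u₁ ∧ Sim U d t₂ u₂ ∧ Lo a b u₁ z ∧ Lo (-a) (-b) u₂ z

/-- a moving curve -/
structure MCurve (U : Ultrafilter ℕ) (d : Set ℂ → ℕ → Mot) (T : Set (Set ℂ)) (a : ℝ) (b : ℂ)
    (c : ℝ) (t₁ t₂ : Set ℂ) : Prop where
  rel : Rel U d t₁ t₂ a b
  mem₁ : t₁ ∈ T
  mem₂ : t₂ ∈ T
  ex : ∃ x, ham a b x = c
  reg : ∀ q, ham a b q = c → grad a b q ≠ 0
  bd : ∀ q, ham a b q = c → ∀ᶠ z in 𝓝[≠] q, ham a b z = c → Bd U d T a b t₁ t₂ z

theorem Bd.symm {t₁ t₂ : Set ℂ} {z : ℂ} (h : Bd U d T a b t₁ t₂ z) :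
    Bd U d T (-a) (-b) t₂ t₁ z := by
  obtain ⟨u₁, h1, u₂, h2, h3, h4, h5, h6⟩ := h
  exact ⟨u₂, h2, u₁, h1, h4, h3, h6, by rwa [neg_neg, neg_neg]⟩

theorem MCurve.symm {c : ℝ} {t₁ t₂ : Set ℂ} (h : MCurve U d T a b c t₁ t₂) :
    MCurve U d T (-a) (-b) (-c) t₂ t₁ := by
  have e : ∀ z, ham (-a) (-b) z = -c ↔ ham a b z = c := by
    intro z
    rw [ham_neg]
    constructor <;> intro h' <;> linarith
  refine ⟨h.rel.symm.neg, h.mem₂, h.mem₁, ?_, ?_, ?_⟩
  · obtain ⟨x, hx⟩ := h.ex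
    exact ⟨x, (e x).2 hx⟩
  · intro q hq
    exact grad_neg_ne (h.reg q ((e q).1 hq))
  · intro q hq
    filter_upwards [h.bd q ((e q).1 hq)] with z hz hz'
    exact (hz ((e z).1 hz')).symm

namespace Sys

/-- punctured neighbourhoods along the flow -/
theorem bd_flow (hQ : ∀ i, IsDisk (Q i)) (S : Sys Q U Tn T d) {x : ℂ} {t₁ t₂ : Set ℂ}
    (ht₁ : t₁ ∈ T) (ht₂ : t₂ ∈ T) (R : Rel U d t₁ t₂ a b) (hG : grad a b x ≠ 0)
    (h1 : Lo a b t₁ x) (h2 : Lo (-a) (-b) t₂ x) (s : ℝ) :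
    ∀ᶠ s' in 𝓝[≠] s, Bd U d T a b t₁ t₂ (flow a b s' • x) := by
  set γ : ℝ → ℂ := fun s => flow a b s • x with hγ
  have hγcont : Continuous γ := (continuous_flow a b).smul continuous_const
  set P : ℝ → Prop := fun s => ∀ᶠ s' in 𝓝[≠] s, Bd U d T a b t₁ t₂ (γ s') with hP
  have hloc : ∀ s ∈ (univ : Set ℝ), ∀ᶠ s' in 𝓝[univ] s, (P s ↔ P s') := by
    intro s _
    rw [nhdsWithin_univ]
    -- if `P s` then `P s'` nearby
    by_cases hPs : P s
    · have h3 : ∀ᶠ s' in 𝓝[≠] s, P s' := by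
        have := eventually_eventually_nhdsWithin.2 hPs
        filter_upwards [this, self_mem_nhdsWithin] with s' hs' hne
        have hne' : s' ≠ s := hne
        have : 𝓝[≠] s = 𝓝[≠] s := rfl
        have h4 : 𝓝[{s}ᶜ] s' = 𝓝 s' := IsOpen.nhdsWithin_eq isOpen_compl_singleton hne'
        rw [h4] at hs'
        exact hs'.filter_mono nhdsWithin_le_nhds
      have h5 : ∀ᶠ s' in 𝓝 s, P s' := by
        rw [eventually_nhdsWithin_iff] at h3
        filter_upwards [h3] with s' hs'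
        by_cases e : s' = s
        · rw [e]; exact hPs
        · exact hs' e
      filter_upwards [h5] with s' hs'
      exact ⟨fun _ => hs', fun _ => hPs⟩
    · -- otherwise no nearby point is of this kind
      suffices h3 : ∀ᶠ s' in 𝓝 s, ¬ P s' by
        filter_upwards [h3] with s' hs'
        exact ⟨fun h => absurd h hPs, fun h => absurd h hs'⟩
      by_contra hcon
      rw [Filter.not_eventually] at hcon
      simp only [not_not] at hcon
      apply hPs
      set p := γ s with hp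
      have hGp : Pool.Agent.Lib.MP_ffe3a0_co.grad a b p ≠ 0 := grad_flow_ne hG
      obtain ⟨r₃, hr₃, hiso⟩ := S.h.E3_isolated hQ p
      obtain ⟨δ, hδ, hsmall⟩ := exists_small a b p hr₃
      have hγp : ∀ s', γ s' = flow a b (s' - s) • p := by
        intro s'
        rw [hp, hγ]
        simp only
        rw [← mul_smul, ← flow_add]; ring_nf
      have hE : ∀ s', |s' - s| < δ → s' ≠ s → γ s' ∉ IsTiling.E3 T := by
        intro s' hs' hne hE3
        rw [hγp] at hE3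
        have e := hiso _ hE3 (hsmall _ hs').2
        have e' : flow a b (s' - s) • p = flow a b 0 • p := by rw [e, flow_zero, one_smul]
        have := flow_inj hGp (by rw [sub_zero]; linarith [(hsmall _ hs').1, Real.pi_pos]) e'
        exact hne (by linarith)
      -- a nearby boundary point
      obtain ⟨s₁, hs₁, hs₁d, hs₁B⟩ : ∃ s₁, s₁ ≠ s ∧ |s₁ - s| < δ ∧
          Bd U d T a b t₁ t₂ (γ s₁) := by
        have h4 : ∀ᶠ s' in 𝓝 s, |s' - s| < δ := by
          filter_upwards [ball_mem_nhds s hδ] with s' hs'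
          rwa [mem_ball, Real.dist_eq] at hs'
        obtain ⟨s₂, hs₂, hs₂'⟩ := (hcon.and_eventually h4).exists
        have h5 : ∀ᶠ s' in 𝓝[≠] s₂, |s' - s| < δ :=
          ((continuous_id.sub continuous_const).abs.continuousAt.eventually
            (gt_mem_nhds hs₂')).filter_mono nhdsWithin_le_nhds
        by_cases e : s₂ = s
        · rw [e] at hs₂ h5
          obtain ⟨s₃, ⟨h6, h7⟩, h8⟩ := ((hs₂.and h5).and self_mem_nhdsWithin).exists
          exact ⟨s₃, h8, h7, h6⟩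
        · have h9' : ∀ᶠ s' in 𝓝 s₂, s' ≠ s := isOpen_ne.mem_nhds e
          have h9 : ∀ᶠ s' in 𝓝[≠] s₂, s' ≠ s := h9'.filter_mono nhdsWithin_le_nhds
          obtain ⟨s₃, ⟨h6, h7⟩, h8⟩ := ((hs₂.and h5).and h9).exists
          exact ⟨s₃, h8, h7, h6⟩
      obtain ⟨u₁, hu₁, u₂, hu₂, sim1, sim2, L1, L2⟩ := hs₁B
      have Ru : Rel U d u₁ u₂ a b := R.congr sim1 sim2
      rcases lt_or_gt_of_ne hs₁ with hlt | hgt
      · -- the point is behind
        have hs₁d' := abs_lt.1 hs₁d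
        have hb : ∀ s', s - δ < s' → s' < s → Lo a b u₁ (γ s') ∧ Lo (-a) (-b) u₂ (γ s') := by
          intro s' k1 k2
          exact S.arc hQ hu₁ hu₂ Ru (C := γ '' Ioo (s - δ) s) (c := ham a b x)
            (isPreconnected_Ioo.image _ hγcont.continuousOn)
            (by rintro _ ⟨s'', -, rfl⟩; exact ham_flow _ _)
            (by
              rintro _ ⟨s'', hs'', rfl⟩
              exact hE s'' (abs_lt.2 ⟨by linarith [hs''.1], by linarith [hs''.2]⟩) hs''.2.ne)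
            ⟨s₁, ⟨by linarith, hlt⟩, rfl⟩ ⟨s', ⟨k1, k2⟩, rfl⟩ L1 L2
        obtain ⟨v₁, hv₁, v₂, hv₂, sv1, sv2, δ', hδ', hf⟩ := S.straight hQ hu₁ hu₂ Ru hGp
          (η := 1) (Or.inl rfl) hδ (by
            intro σ hσ1 hσ2
            have := hb (s + σ) (by linarith) (by linarith)
            rw [hγp] at this
            rw [one_mul]
            have e : s + σ - s = σ := by ring
            rwa [e] at this)
        rw [hP]
        simp only
        rw [eventually_nhdsWithin_iff]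
        filter_upwards [ball_mem_nhds s (lt_min hδ hδ')] with s' hs' hne
        rw [mem_ball, Real.dist_eq, lt_min_iff] at hs'
        rcases lt_or_gt_of_ne (show s' ≠ s from hne) with k | k
        · have h6 := hb s' (by linarith [(abs_lt.1 hs'.1).1]) k
          exact ⟨u₁, hu₁, u₂, hu₂, sim1, sim2, h6.1, h6.2⟩
        · have h6 := hf (s' - s) (by linarith) (abs_lt.1 hs'.2).2
          rw [one_mul, ← hγp] at h6
          exact ⟨v₁, hv₁, v₂, hv₂, sim1.trans sv1, sim2.trans sv2, h6.1, h6.2⟩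
      · have hs₁d' := abs_lt.1 hs₁d
        have hb : ∀ s', s < s' → s' < s + δ → Lo a b u₁ (γ s') ∧ Lo (-a) (-b) u₂ (γ s') := by
          intro s' k1 k2
          exact S.arc hQ hu₁ hu₂ Ru (C := γ '' Ioo s (s + δ)) (c := ham a b x)
            (isPreconnected_Ioo.image _ hγcont.continuousOn)
            (by rintro _ ⟨s'', -, rfl⟩; exact ham_flow _ _)
            (by
              rintro _ ⟨s'', hs'', rfl⟩
              exact hE s'' (abs_lt.2 ⟨by linarith [hs''.1], by linarith [hs''.2]⟩) hs''.1.ne')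
            ⟨s₁, ⟨hgt, by linarith⟩, rfl⟩ ⟨s', ⟨k1, k2⟩, rfl⟩ L1 L2
        obtain ⟨v₁, hv₁, v₂, hv₂, sv1, sv2, δ', hδ', hf⟩ := S.straight hQ hu₁ hu₂ Ru hGp
          (η := -1) (Or.inr rfl) hδ (by
            intro σ hσ1 hσ2
            have := hb (s - σ) (by linarith) (by linarith)
            rw [hγp] at this
            have e : s - σ - s = -1 * σ := by ring
            rwa [e] at this)
        rw [hP]
        simp only
        rw [eventually_nhdsWithin_iff]
        filter_upwards [ball_mem_nhds s (lt_min hδ hδ')] with s' hs' hne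
        rw [mem_ball, Real.dist_eq, lt_min_iff] at hs'
        rcases lt_or_gt_of_ne (show s' ≠ s from hne) with k | k
        · have h6 := hf (s - s') (by linarith) (by linarith [(abs_lt.1 hs'.2).1])
          have e : -1 * (s - s') = s' - s := by ring
          rw [e, ← hγp] at h6
          exact ⟨v₁, hv₁, v₂, hv₂, sim1.trans sv1, sim2.trans sv2, h6.1, h6.2⟩
        · have h6 := hb s' k (by linarith [(abs_lt.1 hs'.1).2])
          exact ⟨u₁, hu₁, u₂, hu₂, sim1, sim2, h6.1, h6.2⟩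
  have hP0 : P 0 := by
    have h3 : Tendsto γ (𝓝 0) (𝓝 x) := by
      have := hγcont.tendsto 0
      simpa [hγ, flow_zero] using this
    have h4 := h3.eventually (h1.near.and h2.near)
    refine (h4.filter_mono nhdsWithin_le_nhds).mono fun s hs => ?_
    exact ⟨t₁, ht₁, t₂, ht₂, Sim.refl _ _ _, Sim.refl _ _ _, hs.1 (ham_flow _ _),
      hs.2 (by rw [ham_neg, ham_neg, ham_flow])⟩
  exact (local_const isPreconnected_univ hloc (mem_univ 0) (mem_univ s)).1 hP0

/-- Every good contact of non-similar tiles lies on a moving curve. -/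
theorem exists_curve (hQ : ∀ i, IsDisk (Q i)) (S : Sys Q U Tn T d) {x : ℂ} {t t' : Set ℂ}
    (ht : t ∈ T) (ht' : t' ∈ T) (hx : x ∈ t) (hx' : x ∈ t') (hs : ¬ Sim U d t t')
    (hE : x ∉ IsTiling.E3 T) :
    ∃ a b, MCurve U d T a b (ham a b x) t t' ∧ Lo a b t x ∧ Lo (-a) (-b) t' x := by
  obtain ⟨a₀, b₀, R₀⟩ := S.exists_rel ht ht' hs
  obtain ⟨a, b, R, h1, h2⟩ : ∃ a b, Rel U d t t' a b ∧ Lo a b t x ∧ Lo (-a) (-b) t' x := by
    rcases S.rel_Lo hQ ht ht' R₀ hx hx' hE with ⟨k1, k2⟩ | ⟨k1, k2⟩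
    · exact ⟨a₀, b₀, R₀, k1, k2⟩
    · exact ⟨-a₀, -b₀, R₀.neg, k1, by rwa [neg_neg, neg_neg]⟩
  have hG := S.rel_grad hQ ht ht' R hx hx' hE
  refine ⟨a, b, ⟨R, ht, ht', ⟨x, rfl⟩, ?_, ?_⟩, h1, h2⟩
  · intro q hq
    obtain ⟨s, hs, -, -⟩ := exists_flow hG hq
    rw [← hs]; exact grad_flow_ne hG
  · intro q hq
    obtain ⟨s, hs, -, -⟩ := exists_flow hG hq
    have hGq : Pool.Agent.Lib.MP_ffe3a0_co.grad a b q ≠ 0 := by rw [← hs]; exact grad_flow_ne hG
    have h3 := S.bd_flow hQ ht ht' R hG h1 h2 s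
    rw [eventually_nhdsWithin_iff, Metric.eventually_nhds_iff] at h3
    obtain ⟨ε, hε, h4⟩ := h3
    have hGpos : 0 < ‖Pool.Agent.Lib.MP_ffe3a0_co.grad a b q‖ := norm_pos_iff.2 hGq
    have hε' : 0 < ε * ‖Pool.Agent.Lib.MP_ffe3a0_co.grad a b q‖ / (Real.pi / 2) := by positivity
    rw [eventually_nhdsWithin_iff]
    filter_upwards [ball_mem_nhds q hε'] with z hz hne hzF
    obtain ⟨s', hs', hs'2, -⟩ := exists_flow hGq (hzF.trans hq.symm)
    have e : flow a b (s' + s) • x = z := by rw [flow_add, mul_smul, hs, hs']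
    rw [← e]
    apply h4
    · rw [Real.dist_eq]
      have e2 : s' + s - s = s' := by ring
      rw [e2]
      rw [mem_ball, dist_eq_norm] at hz
      have h5 : Real.pi / 2 * ‖z - q‖ < ε * ‖Pool.Agent.Lib.MP_ffe3a0_co.grad a b q‖ := by
        calc Real.pi / 2 * ‖z - q‖
            < Real.pi / 2 * (ε * ‖Pool.Agent.Lib.MP_ffe3a0_co.grad a b q‖ / (Real.pi / 2)) :=
              mul_lt_mul_of_pos_left hz (by positivity)
          _ = _ := by field_simp
      exact lt_of_mul_lt_mul_right (hs'2.trans_lt h5) hGpos.le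
    · intro h6
      have h7 : s' + s = s := h6
      have h8 : s' = 0 := by linarith
      rw [h8, flow_zero, one_smul] at hs'
      exact hne hs'.symm

/-- the punctured neighbourhood of a point of a moving curve accumulates at the point -/
theorem exists_near_level {q : ℂ} (hq : grad a b q ≠ 0) {P : ℂ → Prop}
    (hP : ∀ᶠ z in 𝓝[≠] q, ham a b z = ham a b q → P z) :
    ∃ᶠ z in 𝓝[≠] q, ham a b z = ham a b q ∧ P z := by
  rw [Filter.frequently_iff]
  intro V hV
  have hV' : ∀ᶠ z in 𝓝[≠] q, z ∈ V := hV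
  have h1 := hP.and hV'
  rw [eventually_nhdsWithin_iff] at h1
  obtain ⟨z₁, z₂, z₃, h12, -, -, e1, e2, -, p1, p2, -⟩ := three_near hq
    (P := fun z => z ≠ q → ((ham a b z = ham a b q → P z) ∧ z ∈ V))
    (h1.mono fun z hz _ hne => hz hne)
  by_cases hz : z₁ = q
  · have hz2 : z₂ ≠ q := fun e => h12 (hz.trans e.symm)
    exact ⟨z₂, (p2 hz2).2, e2, (p2 hz2).1 e2⟩
  · exact ⟨z₁, (p1 hz).2, e1, (p1 hz).1 e1⟩

end Sys

namespace MCurve

variable {c : ℝ} {t₁ t₂ : Set ℂ}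

/-- a lower tile at every point of a moving curve -/
theorem exists_lower (hQ : ∀ i, IsDisk (Q i)) (S : Sys Q U Tn T d)
    (C : MCurve U d T a b c t₁ t₂) {q : ℂ} (hq : ham a b q = c) :
    ∃ u ∈ T, Sim U d t₁ u ∧ q ∈ u ∧ q ∉ interior u := by
  obtain ⟨r, hr, hrs⟩ := S.h.exists_ball hQ q
  have h1 := C.bd q hq
  rw [← hq] at h1
  have h2 := Sys.exists_near_level (C.reg q hq) h1
  -- finitely many tiles
  have hK := S.finite_at hQ q
  have h3 : ∃ᶠ z in 𝓝[≠] q, ∃ u ∈ {u ∈ T | q ∈ u}, Sim U d t₁ u ∧ z ∉ interior u := by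
    have h4' : ∀ᶠ z in 𝓝 q, z ∈ closedBall q r := closedBall_mem_nhds q hr
    have h4 : ∀ᶠ z in 𝓝[≠] q, z ∈ closedBall q r ∧ grad a b z ≠ 0 :=
      (h4'.and (grad_ne_near (C.reg q hq))).filter_mono nhdsWithin_le_nhds
    refine (h2.and_eventually h4).mono ?_
    rintro z ⟨⟨-, u₁, hu₁, u₂, hu₂, s1, s2, L1, L2⟩, hz, hzG⟩
    exact ⟨u₁, ⟨hu₁, hrs u₁ hu₁ ⟨z, L1.mem, hz⟩⟩, s1, L1.ne_mem_interior hzG⟩
  have h5 : ∃ u ∈ {u ∈ T | q ∈ u}, ∃ᶠ z in 𝓝[≠] q, Sim U d t₁ u ∧ z ∉ interior u := by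
    by_contra hcon
    push Not at hcon
    have h6 : ∀ᶠ z in 𝓝[≠] q, ∀ u ∈ {u ∈ T | q ∈ u}, ¬ (Sim U d t₁ u ∧ z ∉ interior u) := by
      rw [eventually_all_finite hK]
      intro u hu
      filter_upwards [hcon u hu] with z hz
      rintro ⟨k1, k2⟩
      exact k2 (hz k1)
    obtain ⟨z, ⟨u, hu, h7⟩, h8⟩ := (h3.and_eventually h6).exists
    exact h8 u hu h7
  obtain ⟨u, ⟨hu, hqu⟩, h6⟩ := h5
  obtain ⟨z, hz, -⟩ := h6.exists
  refine ⟨u, hu, hz, hqu, ?_⟩
  intro hi
  have h7 : ∀ᶠ z in 𝓝[≠] q, z ∈ interior u := by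
    have : ∀ᶠ z in 𝓝 q, z ∈ interior u := isOpen_interior.mem_nhds hi
    exact this.filter_mono nhdsWithin_le_nhds
  obtain ⟨z, hz1, hz2⟩ := (h6.and_eventually h7).exists
  exact hz1.2 hz2

theorem exists_upper (hQ : ∀ i, IsDisk (Q i)) (S : Sys Q U Tn T d)
    (C : MCurve U d T a b c t₁ t₂) {q : ℂ} (hq : ham a b q = c) :
    ∃ u ∈ T, Sim U d t₂ u ∧ q ∈ u ∧ q ∉ interior u :=
  C.symm.exists_lower hQ S (by rw [ham_neg, hq])

/-- no tile crosses a moving curve -/
theorem not_interior (hQ : ∀ i, IsDisk (Q i)) (S : Sys Q U Tn T d)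
    (C : MCurve U d T a b c t₁ t₂) {q : ℂ} (hq : ham a b q = c) {s : Set ℂ} (hs : s ∈ T) :
    q ∉ interior s := by
  obtain ⟨u, hu, -, h1, h2⟩ := C.exists_lower hQ S hq
  intro hi
  have := S.h.unique_of_interior hQ hs hu hi h1
  rw [this] at hi
  exact h2 hi

/-- no tile of the approximating tilings crosses the displaced curve -/
theorem fault (hQ : ∀ i, IsDisk (Q i)) (S : Sys Q U Tn T d)
    (C : MCurve U d T a b c t₁ t₂) {W : Set ℂ} (hW : Bornology.IsBounded W) :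
    ∀ᶠ n in U, ∀ z ∈ W, ham a b z = c → ∀ s ∈ Tn n, d t₁ n • z ∉ interior s := by
  have hfin := S.h.finite_meet hQ W hW
  have h1 : ∀ᶠ n in U, ∀ u ∈ {u ∈ T | (u ∩ W).Nonempty}, Sim U d t₁ u →
      d t₁ n = d u n ∧ d u n • u ∈ Tn n := by
    rw [eventually_all_finite hfin]
    intro u hu
    by_cases h : Sim U d t₁ u
    · filter_upwards [h, S.mem u hu.1] with n h2 h3 _
      exact ⟨h2, h3⟩
    · exact Eventually.of_forall fun n h' => absurd h' h
  filter_upwards [h1] with n hn z hz hzc s hs hi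
  obtain ⟨u, hu, hsim, hzu, hzi⟩ := C.exists_lower hQ S hzc
  obtain ⟨e1, e2⟩ := hn u ⟨hu, z, hzu, hz⟩ hsim
  rw [e1] at hi
  have h3 : d u n • z ∈ d u n • u := smul_mem_smul_set hzu
  have := (S.hn n).unique_of_interior hQ hs e2 hi h3
  rw [this, Mot.smul_set_interior] at hi
  rw [smul_mem_smul_set_iff] at hi
  exact hzi hi

/-- the two tiles at a regular point of a moving curve -/
theorem at_point (hQ : ∀ i, IsDisk (Q i)) (S : Sys Q U Tn T d)
    (C : MCurve U d T a b c t₁ t₂) {q : ℂ} (hq : ham a b q = c) (hE : q ∉ IsTiling.E3 T) :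
    Bd U d T a b t₁ t₂ q := by
  obtain ⟨r, hr, hiso⟩ := S.h.E3_isolated hQ q
  have hno : ∀ z ∈ ball q r, z ∉ IsTiling.E3 T := by
    intro z hz hzE
    rw [hiso z hzE hz] at hzE
    exact hE hzE
  have h1 := C.bd q hq
  rw [← hq] at h1
  have h2 := Sys.exists_near_level (C.reg q hq) h1
  have h3 : ∀ᶠ z in 𝓝[≠] q, z ∈ ball q r := by
    have : ∀ᶠ z in 𝓝 q, z ∈ ball q r := ball_mem_nhds q hr
    exact this.filter_mono nhdsWithin_le_nhds
  obtain ⟨z, ⟨hzF, u₁, hu₁, u₂, hu₂, s1, s2, L1, L2⟩, hz⟩ := (h2.and_eventually h3).exists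
  obtain ⟨s, hs1, -, hs3⟩ := exists_flow (C.reg q hq) hzF
  have := S.arc hQ hu₁ hu₂ (C.rel.congr s1 s2)
    (C := (fun s' => flow a b s' • q) '' Icc (-|s|) |s|) (c := ham a b q)
    (isPreconnected_Icc.image _ ((continuous_flow a b).smul continuous_const).continuousOn)
    (by rintro _ ⟨s', -, rfl⟩; exact ham_flow _ _)
    (by
      rintro _ ⟨s', hs', rfl⟩
      apply hno
      rw [mem_ball, dist_eq_norm]
      refine (hs3 s' (abs_le.2 ⟨hs'.1, hs'.2⟩)).trans_lt ?_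
      rwa [mem_ball, dist_eq_norm] at hz)
    (x := z) (y := q) ⟨s, ⟨neg_abs_le s, le_abs_self s⟩, hs1⟩
    ⟨0, ⟨by simp, by simp⟩, by simp [flow_zero]⟩ L1 L2
  exact ⟨u₁, hu₁, u₂, hu₂, s1, s2, this.1, this.2⟩

end MCurve

end Pool.Agent.Lib.MP_ffe3a0_co
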