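import Pool.Agent.Lib.MP_ffe3a0_co.Logs

/-!
Closed topological disks in the plane.
-/

set_option autoImplicit false

open Set Metric Filter Topology

namespace Pool.Agent.Lib.MP_ffe3a0_co

/-- `K` is the image of the closed unit disk under a continuous injection. -/
def IsDisk (K : Set ℂ) : Prop :=
  ∃ φ : ℂ → ℂ, Continuous φ ∧ InjOn φ (closedBall 0 1) ∧ φ '' closedBall 0 1 = K

/-- Invariance of domain for small disks. -/
theorem image_mem_interior' (φ : ℂ → ℂ) (c : ℂ) (r : ℝ) (hr : 0 < r)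
    (hφ : ContinuousOn φ (closedBall c r)) (hinj : InjOn φ (closedBall c r)) :
    φ c ∈ interior (φ '' closedBall c r) := by
  let ψ : ℂ → ℂ := fun z => φ (c + r * retr z)
  have hmem : ∀ z, c + r * retr z ∈ closedBall c r := by
    intro z
    have h := mem_closedBall_zero_iff.1 (retr_mem z)
    rw [mem_closedBall, dist_eq_norm, add_sub_cancel_left, norm_mul, Complex.norm_real,
      Real.norm_of_nonneg hr.le]
    nlinarith
  have hψ : Continuous ψ := by
    apply hφ.comp_continuous _ hmem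
    exact continuous_const.add (continuous_const.mul continuous_retr)
  have hr' : (r : ℂ) ≠ 0 := by exact_mod_cast hr.ne'
  have hψinj : InjOn ψ (closedBall 0 1) := by
    intro z hz w hw h
    have h1 := hinj (hmem z) (hmem w) h
    rw [retr_eq hz, retr_eq hw] at h1
    exact mul_left_cancel₀ hr' (add_left_cancel h1)
  have h1 := image_mem_interior ψ hψ hψinj 0 (mem_ball_self one_pos)
  have h2 : ψ 0 = φ c := by
    show φ (c + r * retr 0) = φ c
    rw [retr_eq (mem_closedBall_self zero_le_one), mul_zero, add_zero]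
  have h3 : ψ '' closedBall 0 1 ⊆ φ '' closedBall c r := by
    rintro _ ⟨z, _, rfl⟩
    exact ⟨_, hmem z, rfl⟩
  rw [← h2]
  exact interior_mono h3 h1

theorem interior_disk_eq (φ : ℂ → ℂ) (hφ : Continuous φ) (hinj : InjOn φ (closedBall 0 1)) :
    interior (φ '' closedBall 0 1) = φ '' ball 0 1 := by
  apply Subset.antisymm
  · intro q hq
    obtain ⟨z, hz, rfl⟩ := interior_subset hq
    refine ⟨z, ?_, rfl⟩
    by_contra hzb
    have hz1 : ‖z‖ = 1 := by
      have h1 := mem_closedBall_zero_iff.1 hz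
      have h2 : ¬ ‖z‖ < 1 := fun h => hzb (mem_ball_zero_iff.2 h)
      linarith
    obtain ⟨r, hr, hrs⟩ := Metric.isOpen_iff.1 isOpen_interior _ hq
    have hrs' : closedBall (φ z) (r / 2) ⊆ φ '' closedBall 0 1 := by
      intro w hw
      apply interior_subset
      apply hrs
      exact (closedBall_subset_ball (by linarith)) hw
    -- the inverse map
    let ψ : ℂ → ℂ := Function.invFunOn φ (closedBall 0 1)
    have hψ1 : ∀ w ∈ φ '' closedBall 0 1, ψ w ∈ closedBall (0 : ℂ) 1 :=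
      fun w hw => Function.invFunOn_mem hw
    have hψ2 : ∀ w ∈ φ '' closedBall 0 1, φ (ψ w) = w :=
      fun w hw => Function.invFunOn_eq hw
    have hψc : ContinuousOn ψ (φ '' closedBall 0 1) := by
      rw [continuousOn_iff_isClosed]
      intro t ht
      refine ⟨φ '' (closedBall 0 1 ∩ t), ?_, ?_⟩
      · exact (((isCompact_closedBall _ _).inter_right ht).image hφ).isClosed
      · ext w
        constructor
        · rintro ⟨hw1, hw2⟩
          exact ⟨⟨ψ w, ⟨hψ1 w hw2, hw1⟩, hψ2 w hw2⟩, hw2⟩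
        · rintro ⟨⟨v, ⟨hv1, hv2⟩, rfl⟩, hw2⟩
          refine ⟨?_, hw2⟩
          have : ψ (φ v) = v := hinj (hψ1 _ hw2) hv1 (hψ2 _ hw2)
          show ψ (φ v) ∈ t
          rw [this]; exact hv2
    have h1 := image_mem_interior' ψ (φ z) (r / 2) (by linarith) (hψc.mono hrs') (by
      intro v hv w hw h
      rw [← hψ2 v (hrs' hv), ← hψ2 w (hrs' hw), h])
    have h2 : ψ (φ z) = z := hinj (hψ1 _ ⟨z, hz, rfl⟩) hz (hψ2 _ ⟨z, hz, rfl⟩)
    rw [h2] at h1
    have h3 : ψ '' closedBall (φ z) (r / 2) ⊆ closedBall 0 1 := by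
      rintro _ ⟨w, hw, rfl⟩
      exact hψ1 w (hrs' hw)
    have h4 := interior_mono h3 h1
    rw [interior_closedBall _ one_ne_zero] at h4
    exact hzb h4
  · rintro _ ⟨z, hz, rfl⟩
    exact image_mem_interior φ hφ hinj z hz

namespace IsDisk

variable {K : Set ℂ}

theorem isCompact (h : IsDisk K) : IsCompact K := by
  obtain ⟨φ, hφ, -, rfl⟩ := h
  exact (isCompact_closedBall _ _).image hφ

theorem isClosed (h : IsDisk K) : IsClosed K := h.isCompact.isClosed

theorem isConnected (h : IsDisk K) : IsConnected K := by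
  obtain ⟨φ, hφ, -, rfl⟩ := h
  exact ((convex_closedBall (0 : ℂ) 1).isConnected ⟨0, by simp⟩).image _ hφ.continuousOn

theorem isConnected_interior (h : IsDisk K) : IsConnected (interior K) := by
  obtain ⟨φ, hφ, hinj, rfl⟩ := h
  rw [interior_disk_eq φ hφ hinj]
  exact ((convex_ball (0 : ℂ) 1).isConnected ⟨0, by simp⟩).image _ hφ.continuousOn

theorem closure_interior (h : IsDisk K) : closure (interior K) = K := by
  apply Subset.antisymm
  · exact closure_minimal interior_subset h.isClosed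
  · obtain ⟨φ, hφ, hinj, rfl⟩ := h
    rw [interior_disk_eq φ hφ hinj]
    have h1 : closure (ball (0 : ℂ) 1) = closedBall 0 1 := closure_ball _ one_ne_zero
    rw [← h1]
    exact image_closure_subset_closure_image hφ

/-- the interior of a disk is locally connected at every point of the disk -/
theorem locally_connected (h : IsDisk K) (p : ℂ) (hp : p ∈ K) (ε : ℝ) (hε : 0 < ε) :
    ∃ δ > 0, ∀ a ∈ interior K ∩ ball p δ, ∀ b ∈ interior K ∩ ball p δ,
      ∃ C ⊆ interior K ∩ ball p ε, IsPreconnected C ∧ a ∈ C ∧ b ∈ C := by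
  obtain ⟨φ, hφ, hinj, rfl⟩ := h
  obtain ⟨z, hz, rfl⟩ := hp
  -- continuity of `φ` at `z`
  obtain ⟨η, hη, hηs⟩ := Metric.continuousAt_iff.1 (hφ.continuousAt (x := z)) ε hε
  -- points of the disk outside `ball z η` have image at positive distance
  have hc : IsCompact (φ '' (closedBall 0 1 \ ball z η)) :=
    ((isCompact_closedBall _ _).diff isOpen_ball).image hφ
  have hn : φ z ∉ φ '' (closedBall 0 1 \ ball z η) := by
    rintro ⟨w, ⟨hw1, hw2⟩, hw3⟩
    have := hinj hw1 hz hw3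
    rw [this] at hw2
    exact hw2 (mem_ball_self hη)
  obtain ⟨δ, hδ, hδs⟩ := Metric.isOpen_iff.1 hc.isClosed.isOpen_compl _ hn
  refine ⟨δ, hδ, ?_⟩
  rintro a ⟨ha1, ha2⟩ b ⟨hb1, hb2⟩
  rw [interior_disk_eq φ hφ hinj] at ha1 hb1 ⊢
  obtain ⟨a', ha', rfl⟩ := ha1
  obtain ⟨b', hb', rfl⟩ := hb1
  have key : ∀ v ∈ ball (0 : ℂ) 1, φ v ∈ ball (φ z) δ → v ∈ ball z η := by
    intro v hv h1
    by_contra h2
    exact hδs h1 ⟨v, ⟨ball_subset_closedBall hv, h2⟩, rfl⟩
  refine ⟨φ '' (ball 0 1 ∩ ball z η), ?_, ?_, ⟨a', ⟨ha', key a' ha' ha2⟩, rfl⟩,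
    ⟨b', ⟨hb', key b' hb' hb2⟩, rfl⟩⟩
  · rintro _ ⟨v, ⟨hv1, hv2⟩, rfl⟩
    exact ⟨⟨v, hv1, rfl⟩, hηs hv2⟩
  · exact (((convex_ball (0 : ℂ) 1).inter (convex_ball z η)).isPreconnected).image _
      hφ.continuousOn

end IsDisk

end Pool.Agent.Lib.MP_ffe3a0_co
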