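import Pool.Agent.Lib.MP_ffe3a0_co.Tiling

/-!
Cutting and pasting along a periodic slab.
-/

set_option autoImplicit false
set_option linter.unusedSectionVars false

open Set Metric Filter Topology Pointwise

noncomputable section

namespace Pool.Agent.Lib.MP_ffe3a0_co

theorem tendsto_add_at (c z : ℂ) : Tendsto (fun w : ℂ => w + c) (𝓝 (z - c)) (𝓝 z) := by
  have h : Continuous (fun w : ℂ => w + c) := by fun_prop
  have := h.tendsto (z - c)
  rwa [sub_add_cancel] at this

theorem tendsto_sub_at (c z : ℂ) : Tendsto (fun w : ℂ => w - c) (𝓝 (z + c)) (𝓝 z) := by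
  have h : Continuous (fun w : ℂ => w - c) := by fun_prop
  have := h.tendsto (z + c)
  rwa [add_sub_cancel_right] at this

/-- the translation by `v` is a symmetry of `T` -/
def Inv (T : Set (Set ℂ)) (v : ℂ) : Prop := ∀ t, t ∈ T ↔ Mot.tr v • t ∈ T

theorem tr_tr (v w : ℂ) (t : Set ℂ) : Mot.tr v • Mot.tr w • t = Mot.tr (v + w) • t := by
  rw [← mul_smul, ← Mot.tr_add]

theorem mem_tr {v : ℂ} {t : Set ℂ} {z : ℂ} : z ∈ Mot.tr v • t ↔ z - v ∈ t := by
  rw [mem_smul_set_iff_inv_smul_mem, ← Mot.tr_neg, Mot.tr_smul, sub_eq_add_neg]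

theorem mem_interior_tr {v : ℂ} {t : Set ℂ} {z : ℂ} :
    z ∈ interior (Mot.tr v • t) ↔ z - v ∈ interior t := by
  rw [Mot.smul_set_interior, mem_tr]

theorem tr_zero_set (t : Set ℂ) : Mot.tr 0 • t = t := by rw [Mot.tr_zero, one_smul]

theorem Inv.of {T : Set (Set ℂ)} {v : ℂ} (h1 : ∀ t ∈ T, Mot.tr v • t ∈ T)
    (h2 : ∀ t ∈ T, Mot.tr (-v) • t ∈ T) : Inv T v := by
  intro t
  refine ⟨h1 t, fun h => ?_⟩
  have := h2 _ h
  rwa [tr_tr, neg_add_cancel, tr_zero_set] at this

theorem Inv.neg {T : Set (Set ℂ)} {v : ℂ} (h : Inv T v) : Inv T (-v) := by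
  intro t
  have := h (Mot.tr (-v) • t)
  rw [tr_tr, add_neg_cancel, tr_zero_set] at this
  exact this.symm

theorem Inv.nat {T : Set (Set ℂ)} {v : ℂ} (h : Inv T v) (k : ℕ) : Inv T (k * v) := by
  induction k with
  | zero => intro t; simp [tr_zero_set]
  | succ k ih =>
    intro t
    rw [ih t, h]
    rw [tr_tr]
    push_cast
    rw [show v + k * v = (k + 1) * v by ring]

theorem Inv.int {T : Set (Set ℂ)} {v : ℂ} (h : Inv T v) (k : ℤ) : Inv T (k * v) := by
  obtain ⟨n, rfl | rfl⟩ := k.eq_nat_or_neg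
  · exact_mod_cast h.nat n
  · have := (h.nat n).neg
    push_cast
    rwa [neg_mul]

variable {ι : Type} [Finite ι] {Q : ι → Set ℂ}

theorem cut_paste (hQ : ∀ i, IsDisk (Q i)) {T : Set (Set ℂ)} (h : IsTiling Q T) {τ : ℝ}
    (hper : Inv T τ) {B : Set ℂ} {v : ℂ} {K : ℝ} (hB1 : ∀ z : ℂ, z.im ≤ -K → z ∈ B)
    (hB2 : ∀ z ∈ B, z.im ≤ K) (hBτ : ∀ z : ℂ, z ∈ B ↔ z + τ ∈ B)
    (hreg : B ⊆ closure (interior B)) (hv : 2 * K < v.im)
    (hs1 : ∀ t ∈ T, t ⊆ B ∨ Disjoint t (interior B))
    (hs2 : ∀ t ∈ T, Mot.tr (-v) • t ⊆ B ∨ Disjoint (Mot.tr (-v) • t) (interior B)) :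
    ∃ T', IsTiling Q T' ∧ Inv T' τ ∧ Inv T' v := by
  have hK : 0 ≤ K := by
    have h1 := hB2 _ (hB1 (-K * Complex.I) (by simp))
    simp at h1
    linarith
  have hvpos : 0 < v.im := by linarith
  have hBv : ∀ z ∈ B, z - v ∈ B := by
    intro z hz
    apply hB1
    have := hB2 z hz
    rw [Complex.sub_im]
    linarith
  have hBvi : ∀ z ∈ interior B, z - v ∈ interior B := by
    intro z hz
    rw [mem_interior_iff_mem_nhds] at hz ⊢
    have h1 := tendsto_add_at v z
    filter_upwards [h1 hz] with w hw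
    have := hBv (w + v) hw
    simpa using this
  have hBvn : ∀ n : ℕ, ∀ z ∈ interior B, z - n * v ∈ interior B := by
    intro n
    induction n with
    | zero => intro z hz; simpa using hz
    | succ n ih =>
      intro z hz
      have := hBvi _ (ih z hz)
      have e : z - ((n + 1 : ℕ) : ℂ) * v = z - n * v - v := by push_cast; ring
      rwa [e]
  have hBτi : ∀ z : ℂ, z ∈ interior B ↔ z + τ ∈ interior B := by
    have hset : (fun z : ℂ => z + τ) ⁻¹' B = B := by
      ext z; exact (hBτ z).symm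
    intro z
    have h1 : interior ((Homeomorph.addRight (τ : ℂ)) ⁻¹' B) =
        (Homeomorph.addRight (τ : ℂ)) ⁻¹' interior B :=
      ((Homeomorph.addRight (τ : ℂ)).preimage_interior B).symm
    have h2 : (Homeomorph.addRight (τ : ℂ)) ⁻¹' B = B := hset
    rw [h2] at h1
    have h3 : z ∈ interior B ↔ z ∈ (Homeomorph.addRight (τ : ℂ)) ⁻¹' interior B := by
      rw [← h1]
    exact h3
  set P : Set ℂ → Prop := fun t => Mot.tr (-v) • t ⊆ B ∧ Disjoint t (interior B) with hP
  set T' : Set (Set ℂ) := {s | ∃ k : ℤ, ∃ t ∈ T, P t ∧ s = Mot.tr (k * v) • t} with hT'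
  have hPτ : ∀ t, P t → P (Mot.tr τ • t) := by
    rintro t ⟨h1, h2⟩
    constructor
    · intro z hz
      rw [mem_tr, mem_tr] at hz
      have h3 : z - τ ∈ B := by
        apply h1
        rw [mem_tr]
        have e : z - (τ : ℂ) - -v = z - -v - τ := by ring
        rw [e]; exact hz
      have := (hBτ (z - τ)).1 h3
      simpa using this
    · rw [disjoint_left]
      intro z hz hzi
      rw [mem_tr] at hz
      apply disjoint_left.1 h2 hz
      rw [hBτi]
      simpa using hzi
  have hPτ' : ∀ t, P t → P (Mot.tr (-τ) • t) := by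
    rintro t ⟨h1, h2⟩
    constructor
    · intro z hz
      rw [mem_tr, mem_tr] at hz
      have h3 : z + τ ∈ B := by
        apply h1
        rw [mem_tr]
        have e : z + (τ : ℂ) - -v = z - -v - -τ := by ring
        rw [e]; exact hz
      exact (hBτ z).2 h3
    · rw [disjoint_left]
      intro z hz hzi
      rw [mem_tr] at hz
      apply disjoint_left.1 h2 hz
      have e : z - -(τ : ℂ) = z + τ := by ring
      rw [e, ← hBτi]
      exact hzi
  refine ⟨T', ⟨?_, ?_, ?_⟩, ?_, ?_⟩
  · rintro s ⟨k, t, ht, -, rfl⟩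
    exact (h.tile t ht).smul _
  · rw [eq_univ_iff_forall]
    intro x
    -- the least `k` with `x - k v ∈ B`
    obtain ⟨N, hN⟩ := exists_int_gt ((x.im + K) / v.im)
    obtain ⟨M, hM⟩ := exists_int_lt ((x.im - K) / v.im)
    have hex : ∃ k : ℤ, x - k * v ∈ B := by
      refine ⟨N, hB1 _ ?_⟩
      rw [div_lt_iff₀ hvpos] at hN
      simp
      linarith
    have hbd : ∃ b : ℤ, ∀ k : ℤ, x - k * v ∈ B → b ≤ k := by
      refine ⟨M, fun k hk => ?_⟩
      by_contra hcon
      push Not at hcon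
      have h1 := hB2 _ hk
      rw [lt_div_iff₀ hvpos] at hM
      simp at h1
      have h2 : (k : ℝ) < M := by exact_mod_cast hcon
      nlinarith
    obtain ⟨k₀, hk₀, hmin⟩ := Int.exists_least_of_bdd hbd hex
    set y := x - ((k₀ - 1 : ℤ) : ℂ) * v with hy
    have hyB : y ∉ B := by
      intro hyB
      have := hmin (k₀ - 1) hyB
      omega
    have hyv : y - v ∈ B := by
      have e : y - v = x - k₀ * v := by rw [hy]; push_cast; ring
      rw [e]; exact hk₀
    obtain ⟨r, hr, hrs⟩ := h.exists_ball hQ y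
    have hcl := hreg hyv
    rw [Metric.mem_closure_iff] at hcl
    obtain ⟨w, hw, hwd⟩ := hcl r hr
    obtain ⟨t, ht, hwt⟩ := h.exists_mem (w + v)
    have hyt : y ∈ t := by
      apply hrs t ht
      refine ⟨w + v, hwt, ?_⟩
      rw [mem_closedBall, dist_eq_norm]
      have e : w + v - y = -(y - v - w) := by ring
      rw [e, norm_neg, ← dist_eq_norm]
      exact hwd.le
    refine ⟨Mot.tr (((k₀ - 1 : ℤ) : ℂ) * v) • t, ⟨k₀ - 1, t, ht, ⟨?_, ?_⟩, rfl⟩, ?_⟩
    · rcases hs2 t ht with h3 | h3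
      · exact h3
      · exfalso
        apply disjoint_left.1 h3 _ hw
        rw [mem_tr]
        simpa using hwt
    · rcases hs1 t ht with h3 | h3
      · exact absurd (h3 hyt) hyB
      · exact h3
    · rw [mem_tr, ← hy]
      exact hyt
  · -- disjointness
    have key : ∀ k k' : ℤ, k < k' → ∀ t ∈ T, P t → ∀ t' ∈ T, P t' →
        Disjoint (interior (Mot.tr (k * v) • t)) (interior (Mot.tr (k' * v) • t')) := by
      intro k k' hkk t ht hPt t' ht' hPt'
      rw [disjoint_left]
      intro z hz hz'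
      rw [mem_interior_tr] at hz hz'
      have h1 : z - k * v - v ∈ interior B := by
        have h2 : interior (Mot.tr (-v) • t) ⊆ interior B := interior_mono hPt.1
        apply h2
        rw [mem_interior_tr]
        have e : z - k * v - v - -v = z - k * v := by ring
        rw [e]; exact hz
      obtain ⟨n, hn⟩ := Int.eq_ofNat_of_zero_le (show 0 ≤ k' - k - 1 by omega)
      have h3 := hBvn n _ h1
      have e : z - k * v - v - n * v = z - k' * v := by
        have : (k' : ℂ) = k + 1 + n := by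
          have : k' = k + 1 + n := by omega
          rw [this]; push_cast; ring
        rw [this]; ring
      rw [e] at h3
      exact disjoint_left.1 hPt'.2 (interior_subset hz') h3
    rintro _ ⟨k, t, ht, hPt, rfl⟩ _ ⟨k', t', ht', hPt', rfl⟩ hne
    rcases lt_trichotomy k k' with hk | hk | hk
    · exact key k k' hk t ht hPt t' ht' hPt'
    · subst hk
      have htt : t ≠ t' := by rintro rfl; exact hne rfl
      rw [disjoint_left]
      intro z hz hz'
      rw [mem_interior_tr] at hz hz'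
      exact disjoint_left.1 (h.disj t ht t' ht' htt) hz hz'
    · exact (key k' k hk t' ht' hPt' t ht hPt).symm
  · apply Inv.of
    · rintro _ ⟨k, t, ht, hPt, rfl⟩
      exact ⟨k, Mot.tr τ • t, (hper t).1 ht, hPτ t hPt, by rw [tr_tr, tr_tr, add_comm]⟩
    · rintro _ ⟨k, t, ht, hPt, rfl⟩
      exact ⟨k, Mot.tr (-τ) • t, (hper.neg t).1 ht, hPτ' t hPt, by rw [tr_tr, tr_tr, add_comm]⟩
  · apply Inv.of
    · rintro _ ⟨k, t, ht, hPt, rfl⟩
      refine ⟨k + 1, t, ht, hPt, ?_⟩
      rw [tr_tr]; push_cast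
      rw [show v + k * v = (k + 1) * v by ring]
    · rintro _ ⟨k, t, ht, hPt, rfl⟩
      refine ⟨k - 1, t, ht, hPt, ?_⟩
      rw [tr_tr]; push_cast
      rw [show -v + k * v = (k - 1) * v by ring]

/-- the slab below a periodic wall -/
def wall (x₀ : ℂ) (τ : ℝ) (J : Set ℂ) : Set ℂ :=
  {z | z.im ≤ x₀.im ∨ ∃ k : ℤ, z - k * τ ∈ J}

theorem saturate (hQ : ∀ i, IsDisk (Q i)) {T : Set (Set ℂ)} (h : IsTiling Q T) {τ : ℝ}
    (hτ : 0 < τ) (hper : Inv T τ) {J : Set ℂ} {x₀ : ℂ}
    (hI : ∀ s : ℝ, 0 ≤ s → s ≤ 1 → x₀ + s * τ ∈ J) {ε : ℂ}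
    (hsplit : ∀ s ∈ T, (∀ z ∈ s, z - ε ∈ J) ∨ (∀ z ∈ interior s, z - ε ∉ J)) :
    ∀ s ∈ T, (∀ z ∈ s, z - ε ∈ wall x₀ τ J) ∨ (∀ z ∈ s, z - ε ∉ interior (wall x₀ τ J)) := by
  intro s hs
  have hd := (h.tile s hs).isDisk hQ
  by_cases hA : ∃ k : ℤ, ∀ z ∈ s, z - ε - k * τ ∈ J
  · obtain ⟨k, hk⟩ := hA
    left
    intro z hz
    exact Or.inr ⟨k, hk z hz⟩
  · push Not at hA
    have hB : ∀ k : ℤ, ∀ z ∈ interior s, z - ε - k * τ ∉ J := by
      intro k z hz hzJ
      have h1 : Mot.tr (-(k * τ)) • s ∈ T := ((hper.int k).neg s).1 hs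
      rcases hsplit _ h1 with h2 | h2
      · obtain ⟨w, hw, hwJ⟩ := hA k
        apply hwJ
        have := h2 (w - k * τ) (by rw [mem_tr]; simpa using hw)
        have e : w - ε - k * τ = w - k * τ - ε := by ring
        rwa [e]
      · apply h2 (z - k * τ) (by rw [mem_interior_tr]; simpa using hz)
        have e : z - k * τ - ε = z - ε - k * τ := by ring
        rwa [e]
    have hL : ∀ z ∈ interior s, z.im ≠ (x₀ + ε).im := by
      intro z hz e
      set ρ := (z.re - (x₀ + ε).re) / τ with hρ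
      have h1 : z = x₀ + ε + ρ * τ := by
        apply Complex.ext
        · simp [hρ]
          field_simp
          ring
        · simp [e]
      have h2 := hI (Int.fract ρ) (Int.fract_nonneg _) (Int.fract_lt_one _).le
      apply hB ⌊ρ⌋ z hz
      have e2 : z - ε - (⌊ρ⌋ : ℤ) * (τ : ℂ) = x₀ + (Int.fract ρ : ℝ) * τ := by
        rw [h1]
        have : ((Int.fract ρ : ℝ) : ℂ) = ρ - ⌊ρ⌋ := by
          rw [← Int.self_sub_floor]; push_cast; ring
        rw [this]; ring
      rw [e2]; exact h2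
    have hconn := hd.isConnected_interior
    have hside : (∀ z ∈ interior s, z.im < (x₀ + ε).im) ∨
        (∀ z ∈ interior s, (x₀ + ε).im < z.im) := by
      by_contra hcon
      push Not at hcon
      obtain ⟨⟨z, hz, hz1⟩, ⟨w, hw, hw1⟩⟩ := hcon
      obtain ⟨y, hy, hy1⟩ := hconn.isPreconnected.intermediate_value hw hz
        Complex.continuous_im.continuousOn ⟨hw1, hz1⟩
      exact hL y hy hy1
    rcases hside with hlt | hgt
    · left
      intro z hz
      left
      have h1 : z ∈ closure (interior s) := by rw [hd.closure_interior]; exact hz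
      have h2 : closure (interior s) ⊆ {z : ℂ | z.im ≤ (x₀ + ε).im} :=
        closure_minimal (fun w hw => (hlt w hw).le)
          (isClosed_le Complex.continuous_im continuous_const)
      have h3 := h2 h1
      simp only [mem_ofPred_eq, Complex.add_im] at h3
      rw [Complex.sub_im]
      linarith
    · right
      intro z hz hzi
      have h1 : z ∈ closure (interior s) := by rw [hd.closure_interior]; exact hz
      have h2 : ∀ᶠ w in 𝓝 z, w - ε ∈ wall x₀ τ J := by
        have h3 : Tendsto (fun w : ℂ => w - ε) (𝓝 z) (𝓝 (z - ε)) :=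
          (continuous_id.sub continuous_const).tendsto z
        exact h3.eventually (mem_interior_iff_mem_nhds.1 hzi)
      obtain ⟨w, hw1, hw2⟩ := mem_closure_iff_nhds.1 h1 _ h2
      rcases hw1 with h4 | ⟨k, h4⟩
      · have := hgt w hw2
        rw [Complex.sub_im] at h4
        rw [Complex.add_im] at this
        linarith
      · exact hB k w hw2 h4

/-- Two good approximations of a splitting wall give a periodic tiling. -/
theorem slab (hQ : ∀ i, IsDisk (Q i)) {T : Set (Set ℂ)} (h : IsTiling Q T) {τ : ℝ}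
    (hτ : 0 < τ) (hper : Inv T τ) {U : Ultrafilter ℕ} (hU : ∀ N : ℕ, ∀ᶠ n in U, N ≤ n)
    {J : Set ℂ} (hJ : Bornology.IsBounded J) {x₀ : ℂ}
    (hI : ∀ s : ℝ, 0 ≤ s → s ≤ 1 → x₀ + s * τ ∈ J)
    (hreg : J ⊆ closure (interior J) ∪ {z | z.im ≤ x₀.im})
    (hsplit : ∀ᶠ n : ℕ in U, ∃ ε : ℂ, ‖ε‖ ≤ 1 ∧ ∀ s ∈ T,
      (∀ z ∈ s, z - n * Complex.I - ε ∈ J) ∨ (∀ z ∈ interior s, z - n * Complex.I - ε ∉ J)) :
    ∃ T', ∃ v : ℂ, IsTiling Q T' ∧ Inv T' τ ∧ Inv T' v ∧ v.im ≠ 0 := by
  obtain ⟨R, hR⟩ := hJ.exists_norm_le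
  set K₀ := max |x₀.im| |R| with hK₀
  have hK₀nn : 0 ≤ K₀ := (abs_nonneg _).trans (le_max_left _ _)
  obtain ⟨n, ε₁, hε₁, hn⟩ := hsplit.exists
  set K : ℝ := K₀ + 1 + n with hK
  obtain ⟨N, hN⟩ := exists_nat_gt (n + 2 + 2 * K)
  obtain ⟨m, ⟨ε₂, hε₂, hm⟩, hNm⟩ := (hsplit.and (hU N)).exists
  have hmn : (n : ℝ) + 2 + 2 * K < m := hN.trans_le (by exact_mod_cast hNm)
  set W := wall x₀ τ J with hW
  set β : ℂ := n * Complex.I + ε₁ with hβ
  set v : ℂ := (m * Complex.I + ε₂) - β with hv
  have him1 := (abs_le.1 ((Complex.abs_im_le_norm ε₁).trans hε₁))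
  have him2 := (abs_le.1 ((Complex.abs_im_le_norm ε₂).trans hε₂))
  have hβim : β.im = n + ε₁.im := by simp [hβ]
  have hvim : v.im = m + ε₂.im - (n + ε₁.im) := by simp [hv, hβ]
  have hW1 : ∀ z : ℂ, z.im ≤ -K₀ → z ∈ W := by
    intro z hz
    left
    have := neg_abs_le x₀.im
    have := le_max_left |x₀.im| |R|
    linarith
  have hW2 : ∀ z ∈ W, z.im ≤ K₀ := by
    rintro z (hz | ⟨k, hz⟩)
    · have := le_abs_self x₀.im
      have := le_max_left |x₀.im| |R|
      linarith
    · have h1 := hR _ hz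
      have h2 := (Complex.abs_im_le_norm (z - k * τ)).trans h1
      have h3 : (z - k * τ).im = z.im := by simp
      rw [h3] at h2
      have := le_abs_self z.im
      have := le_abs_self R
      have := le_max_right |x₀.im| |R|
      linarith
  have hWτ : ∀ z : ℂ, z ∈ W ↔ z + τ ∈ W := by
    intro z
    constructor
    · rintro (hz | ⟨k, hz⟩)
      · left; simpa using hz
      · right
        refine ⟨k + 1, ?_⟩
        push_cast
        rwa [show z + τ - (k + 1) * τ = z - k * τ by ring]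
    · rintro (hz | ⟨k, hz⟩)
      · left; simpa using hz
      · right
        refine ⟨k - 1, ?_⟩
        push_cast
        rwa [show z - (k - 1) * τ = z + τ - k * τ by ring]
  have hWreg : W ⊆ closure (interior W) := by
    have hH : ∀ z : ℂ, z.im ≤ x₀.im → z ∈ closure (interior W) := by
      intro z hz
      have h1 : {z : ℂ | z.im < x₀.im} ⊆ interior W := by
        apply interior_maximal
        · intro w hw; exact Or.inl (le_of_lt hw)
        · exact isOpen_lt Complex.continuous_im continuous_const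
      apply closure_mono h1
      rw [Complex.closure_setOfPred_im_lt]
      exact hz
    rintro z (hz | ⟨k, hz⟩)
    · exact hH z hz
    · rcases hreg hz with h1 | h1
      · have h2 := tendsto_add_at (k * τ) z
        rw [mem_closure_iff_nhds]
        intro V hV
        obtain ⟨w, hw1, hw2⟩ := mem_closure_iff_nhds.1 h1 _ (h2 hV)
        refine ⟨w + k * τ, hw1, ?_⟩
        rw [mem_interior_iff_mem_nhds] at hw2 ⊢
        have h3 := tendsto_sub_at (k * τ) w
        filter_upwards [h3 hw2] with u hu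
        exact Or.inr ⟨k, hu⟩
      · apply hH
        simpa using h1
  -- the shifted slab
  set B : Set ℂ := Mot.tr β • W with hB
  have hsat : ∀ (k : ℕ) (ε : ℂ), (∀ s ∈ T, (∀ z ∈ s, z - k * Complex.I - ε ∈ J) ∨
      (∀ z ∈ interior s, z - k * Complex.I - ε ∉ J)) → ∀ s ∈ T,
      (∀ z ∈ s, z - (k * Complex.I + ε) ∈ W) ∨ (∀ z ∈ s, z - (k * Complex.I + ε) ∉ interior W) := by
    intro k ε hk
    apply saturate hQ h hτ hper hI
    intro s hs
    simpa only [sub_sub] using hk s hs
  obtain ⟨T', hT', p1, p2⟩ := cut_paste hQ h hper (B := B) (v := v) (K := K) (by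
      intro z hz
      rw [hB, mem_tr]
      apply hW1
      rw [Complex.sub_im, hβim]
      linarith [him1.1, him1.2, Nat.cast_nonneg (α := ℝ) n]) (by
      intro z hz
      rw [hB, mem_tr] at hz
      have := hW2 _ hz
      rw [Complex.sub_im, hβim] at this
      linarith [him1.1, him1.2]) (by
      intro z
      rw [hB, mem_tr, mem_tr, hWτ]
      rw [show z - β + τ = z + τ - β by ring]) (by
      rw [hB, Mot.smul_set_interior]
      rintro _ ⟨z, hz, rfl⟩
      rw [mem_closure_iff_nhds]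
      intro V hV
      have h1 : Tendsto (fun w : ℂ => Mot.tr β • w) (𝓝 z) (𝓝 (Mot.tr β • z)) :=
        (continuous_const_smul _).tendsto z
      obtain ⟨w, hw1, hw2⟩ := mem_closure_iff_nhds.1 (hWreg hz) _ (h1 hV)
      exact ⟨Mot.tr β • w, hw1, smul_mem_smul_set hw2⟩) (by
      rw [hvim]
      linarith [him1.1, him1.2, him2.1, him2.2]) (by
      intro t ht
      rcases hsat n ε₁ hn t ht with h1 | h1
      · left
        intro z hz
        rw [hB, mem_tr]
        exact h1 z hz
      · right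
        rw [disjoint_left]
        intro z hz hzi
        rw [hB, mem_interior_tr] at hzi
        exact h1 z hz hzi) (by
      intro t ht
      rcases hsat m ε₂ hm t ht with h1 | h1
      · left
        intro z hz
        rw [mem_tr] at hz
        rw [hB, mem_tr]
        have := h1 _ hz
        rwa [show z - -v - (m * Complex.I + ε₂) = z - β by rw [hv]; ring] at this
      · right
        rw [disjoint_left]
        intro z hz hzi
        rw [mem_tr] at hz
        rw [hB, mem_interior_tr] at hzi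
        apply h1 _ hz
        rwa [show z - -v - (m * Complex.I + ε₂) = z - β by rw [hv]; ring])
  refine ⟨T', v, hT', p1, p2, ?_⟩
  rw [hvim]
  linarith [him1.1, him1.2, him2.1, him2.2]

end Pool.Agent.Lib.MP_ffe3a0_co
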