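import Pool.Agent.Lib.MP_ffe3a0_co.Outer
import Pool.Agent.Lib.MP_ffe3a0_co.Slab

/-!
Equivariant displacements.
-/

set_option autoImplicit false
set_option linter.unusedSectionVars false

open Set Metric Filter Topology Pointwise ComplexConjugate

noncomputable section

namespace Pool.Agent.Lib.MP_ffe3a0_co

variable {ι : Type} [Finite ι] {Q : ι → Set ℂ} {U : Ultrafilter ℕ} {Tn : ℕ → Set (Set ℂ)}
  {T : Set (Set ℂ)} {d : Set ℂ → ℕ → Mot} {a : ℝ} {b : ℂ} {c : ℝ} {t t' t₁ t₂ : Set ℂ}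

namespace Sys

theorem inv_mem (hQ : ∀ i, IsDisk (Q i)) (S : Sys Q U Tn T d) {v : ℂ}
    (hv : ∀ n, Inv (Tn n) v) {t : Set ℂ} (ht : t ∈ T) : Mot.tr v • t ∈ T := by
  have h1 : Tendsto (fun n => Mot.tr v * d t n) U (𝓝 (Mot.tr v)) := by
    have := (S.lim t ht).const_mul (Mot.tr v)
    rwa [mul_one] at this
  refine (S.limit_mem hQ h1 (S.isDisk hQ ht) ?_).1
  filter_upwards [S.mem t ht] with n hn
  rw [mul_smul]
  exact (hv n _).1 hn

theorem inv (hQ : ∀ i, IsDisk (Q i)) (S : Sys Q U Tn T d) {v : ℂ}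
    (hv : ∀ n, Inv (Tn n) v) : Inv T v :=
  Inv.of (fun _ ht => S.inv_mem hQ hv ht) (fun _ ht => S.inv_mem hQ (fun n => (hv n).neg) ht)

theorem change_d (hQ : ∀ i, IsDisk (Q i)) (S : Sys Q U Tn T d) {d' : Set ℂ → ℕ → Mot}
    (hlim : ∀ t ∈ T, Tendsto (d' t) U (𝓝 1)) (hmem : ∀ t ∈ T, ∀ᶠ n in U, d' t n • t ∈ Tn n) :
    Sys Q U Tn T d' := by
  refine ⟨S.hn, S.h, hlim, hmem, ?_⟩
  intro W hW
  have hfin := S.h.finite_meet hQ W hW.isBounded
  have h1 : ∀ᶠ n in U, ∀ t ∈ {t ∈ T | (t ∩ W).Nonempty}, d t n • t = d' t n • t := by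
    rw [eventually_all_finite hfin]
    rintro t ⟨ht, -⟩
    have := (S.limit_mem hQ (hlim t ht) (S.isDisk hQ ht) (hmem t ht)).2
    filter_upwards [this] with n hn
    rw [one_smul] at hn
    exact hn.symm
  filter_upwards [S.approx W hW, h1] with n h2 h3 s hs hsW
  obtain ⟨t, ht, htW, e⟩ := h2 s hs hsW
  exact ⟨t, ht, htW, by rw [e, h3 t ⟨ht, htW⟩]⟩

end Sys

/-- leftmost coordinate of a tile -/
def lft (t : Set ℂ) : ℝ := sInf (Complex.re '' t)

theorem lft_tr {t : Set ℂ} (hd : IsDisk t) (v : ℂ) : lft (Mot.tr v • t) = lft t + v.re := by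
  have h1 : Complex.re '' (Mot.tr v • t) = (OrderIso.addRight v.re) '' (Complex.re '' t) := by
    ext x
    constructor
    · rintro ⟨z, hz, rfl⟩
      rw [mem_tr] at hz
      exact ⟨(z - v).re, ⟨_, hz, rfl⟩, by simp⟩
    · rintro ⟨_, ⟨z, hz, rfl⟩, rfl⟩
      exact ⟨z + v, by rw [mem_tr]; simpa using hz, by simp⟩
  have hne : (Complex.re '' t).Nonempty := hd.isConnected.nonempty.image _
  have hbd : BddBelow (Complex.re '' t) :=
    (hd.isCompact.image Complex.continuous_re).bddBelow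
  rw [lft, h1, ← OrderIso.map_csInf' _ hne hbd]
  rfl

/-- displacements can be chosen equivariantly -/
theorem exists_equi (hQ : ∀ i, IsDisk (Q i)) (S : Sys Q U Tn T d) {τ : ℝ} (hτ : 0 < τ)
    (hper : ∀ n, Inv (Tn n) τ) :
    ∃ d', Sys Q U Tn T d' ∧ ∀ t ∈ T, ∀ n, d' (Mot.tr τ • t) n =
      Mot.tr τ * d' t n * (Mot.tr τ)⁻¹ := by
  have hT := S.inv hQ hper
  set k : Set ℂ → ℤ := fun t => ⌊lft t / τ⌋ with hk
  set rep : Set ℂ → Set ℂ := fun t => Mot.tr (-(k t * τ)) • t with hrep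
  have hk1 : ∀ t ∈ T, k (Mot.tr τ • t) = k t + 1 := by
    intro t ht
    simp only [hk]
    rw [lft_tr (S.isDisk hQ ht)]
    have : (lft t + (τ : ℂ).re) / τ = lft t / τ + 1 := by
      rw [Complex.ofReal_re]; field_simp
    rw [this, Int.floor_add_one]
  have hrep1 : ∀ t ∈ T, rep (Mot.tr τ • t) = rep t := by
    intro t ht
    simp only [hrep]
    rw [hk1 t ht, tr_tr]
    congr 2
    push_cast
    ring
  have hrepT : ∀ t ∈ T, rep t ∈ T := fun t ht => ((hT.int (k t)).neg t).1 ht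
  set d' : Set ℂ → ℕ → Mot := fun t n => Mot.tr (k t * τ) * d (rep t) n * (Mot.tr (k t * τ))⁻¹
    with hd'
  refine ⟨d', S.change_d hQ ?_ ?_, ?_⟩
  · intro t ht
    have h1 := ((S.lim _ (hrepT t ht)).const_mul (Mot.tr (k t * τ))).mul_const
      (Mot.tr (k t * τ))⁻¹
    rw [mul_one, mul_inv_cancel] at h1
    exact h1
  · intro t ht
    filter_upwards [S.mem _ (hrepT t ht)] with n hn
    have h1 : d' t n • t = Mot.tr (k t * τ) • (d (rep t) n • rep t) := by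
      simp only [hd', hrep]
      rw [mul_smul, mul_smul, ← Mot.tr_neg]
    rw [h1]
    exact ((hper n).int (k t) _).1 hn
  · intro t ht n
    simp only [hd']
    rw [hrep1 t ht, hk1 t ht]
    have h2 : Mot.tr (((k t + 1 : ℤ) : ℂ) * τ) = Mot.tr τ * Mot.tr (k t * τ) := by
      rw [← Mot.tr_add]; congr 1; push_cast; ring
    rw [h2]
    group

theorem mem_E3_tr {v : ℂ} (hT : Inv T v) {x : ℂ} (hx : x + v ∈ IsTiling.E3 T) :
    x ∈ IsTiling.E3 T := by
  obtain ⟨s, hs, t, ht, u, hu, h1, h2, h3, h4, h5, h6⟩ := hx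
  have hne : ∀ A B : Set ℂ, A ≠ B → Mot.tr (-v) • A ≠ Mot.tr (-v) • B := fun A B h e =>
    h (smul_left_cancel _ e)
  have hm : ∀ A : Set ℂ, x + v ∈ A → x ∈ Mot.tr (-v) • A := fun A h => by
    rw [mem_tr]; simpa using h
  exact ⟨_, (hT.neg s).1 hs, _, (hT.neg t).1 ht, _, (hT.neg u).1 hu, hne _ _ h1, hne _ _ h2,
    hne _ _ h3, hm _ h4, hm _ h5, hm _ h6⟩

theorem MCurve.congr (C : MCurve U d T a b c t₁ t₂) {s₁ s₂ : Set ℂ} (h₁ : Sim U d t₁ s₁)
    (h₂ : Sim U d t₂ s₂) (hs₁ : s₁ ∈ T) (hs₂ : s₂ ∈ T) : MCurve U d T a b c s₁ s₂ := by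
  refine ⟨C.rel.congr h₁ h₂, hs₁, hs₂, C.ex, C.reg, ?_⟩
  intro q hq
  filter_upwards [C.bd q hq] with z hz hz'
  obtain ⟨u₁, hu₁, u₂, hu₂, k1, k2, L1, L2⟩ := hz hz'
  exact ⟨u₁, hu₁, u₂, hu₂, h₁.symm.trans k1, h₂.symm.trans k2, L1, L2⟩

/-- translating moving disks -/
theorem MDisk.translate (hQ : ∀ i, IsDisk (Q i)) (S : Sys Q U Tn T d) {v : ℂ} (hT : Inv T v)
    (hsim : ∀ t ∈ T, ∀ t' ∈ T, Sim U d t t' ↔ Sim U d (Mot.tr v • t) (Mot.tr v • t'))
    {z₀ : ℂ} {R : ℝ} (h : MDisk U d T z₀ R t) :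
    MDisk U d T (z₀ + v) R (Mot.tr v • t) := by
  obtain ⟨a, b, c, t₁, ha, C, hR, hf⟩ := h
  -- a regular point of the circle
  obtain ⟨q, hq⟩ := C.ex
  have h1 := C.bd q hq
  rw [← hq] at h1
  have h2 := Sys.exists_near_level (C.reg q hq) h1
  have h3 : ∀ᶠ z in 𝓝[≠] q, grad a b z ≠ 0 :=
    (grad_ne_near (C.reg q hq)).filter_mono nhdsWithin_le_nhds
  obtain ⟨x, ⟨hxF, u₁, hu₁, u₂, hu₂, s1, s2, L1, L2⟩, hG⟩ := (h2.and_eventually h3).exists
  have hxc : ham a b x = c := hxF.trans hq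
  have hE := Lo.not_E3 hQ S.h hu₁ hu₂ L1 L2 hG
  have hE' : x + v ∉ IsTiling.E3 T := fun h => hE (mem_E3_tr hT h)
  have hns : ¬ Sim U d (Mot.tr v • u₁) (Mot.tr v • u₂) := by
    rw [← hsim u₁ hu₁ u₂ hu₂]
    exact (C.rel.congr s1 s2).not_sim
  obtain ⟨a', b', C', L1', L2'⟩ := S.exists_curve hQ ((hT u₁).1 hu₁) ((hT u₂).1 hu₂)
    (x := x + v) (by rw [mem_tr]; simpa using L1.mem) (by rw [mem_tr]; simpa using L2.mem) hns hE'
  have hG' := C'.reg _ rfl
  have hnear : ∀ᶠ z in 𝓝 (x + v), (z ∈ Mot.tr v • u₁ ↔ ham a b ((Mot.tr v)⁻¹ • z) ≤ c) := by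
    have := smul_nhds (g := Mot.tr v) L1
    rw [Mot.tr_smul] at this
    filter_upwards [this] with z hz
    rw [mem_smul_set_iff_inv_smul_mem, hz, hxc]
  obtain ⟨l, hl⟩ := Lo.prop (a' := a) (b' := b) (c' := c) (g := Mot.tr v) C'.rel.norm_ne hG' L1'
    hnear
  have hl' : ∀ z, a * (‖z - (z₀ + v)‖ ^ 2 - R ^ 2) =
      l * (ham a' b' z - ham a' b' (x + v)) := by
    intro z
    rw [← hl z, ← Mot.tr_neg, Mot.tr_smul, hf]
    congr 4
    ring
  have hl0 : l ≠ 0 := by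
    intro e
    have := hl' (z₀ + v)
    rw [e, zero_mul, sub_self, norm_zero] at this
    have h4 : a * (0 ^ 2 - R ^ 2) ≠ 0 := by
      have : 0 < R ^ 2 := by positivity
      have : 0 < a * R ^ 2 := by positivity
      intro h
      linarith
    exact h4 this
  -- the sign
  have hlpos : 0 < l := by
    by_contra hcon
    push Not at hcon
    have hneg : l < 0 := lt_of_le_of_ne hcon hl0
    obtain ⟨z, ⟨hz1, hz2⟩, hz3⟩ := exists_lt hG' (L1'.and hnear)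
    have h4 := hz2.1 (hz1.2 hz3.le)
    have h5 := hl z
    have h6 : 0 < l * (ham a' b' z - ham a' b' (x + v)) := mul_pos_of_neg_of_neg hneg (by linarith)
    linarith
  have hform : ∀ z, ham a' b' z - ham a' b' (x + v) = (a / l) * (‖z - (z₀ + v)‖ ^ 2 - R ^ 2) := by
    intro z
    have := hl' z
    field_simp
    linarith
  have ha' : a' = a / l := by
    obtain ⟨e1, -, -⟩ := ham_ext (a := a') (b := b') (a' := a / l) (b' := -(2 * (a / l) * (z₀ + v)))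
      (k := -ham a' b' (x + v)) (k' := a / l * (‖z₀ + v‖ ^ 2 - R ^ 2)) (by
        intro z
        have h4 := hform z
        have e1 : ‖z - (z₀ + v)‖ ^ 2 = Complex.normSq (z - (z₀ + v)) :=
          (Complex.normSq_eq_norm_sq _).symm
        have e2 : ‖z₀ + v‖ ^ 2 = Complex.normSq (z₀ + v) := (Complex.normSq_eq_norm_sq _).symm
        rw [e1] at h4
        rw [e2]
        have h5 : ham a' b' z + -ham a' b' (x + v) = ham a' b' z - ham a' b' (x + v) := by ring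
        rw [h5, h4]
        have e3 : (2 * ((a : ℂ) / l) * (z₀ + v)) = ((2 * (a / l) : ℝ) : ℂ) * (z₀ + v) := by
          push_cast; ring
        rw [e3]
        simp only [ham, Complex.normSq_apply, Complex.sub_re, Complex.sub_im, re_conj_mul,
          Complex.neg_re, Complex.neg_im, Complex.re_ofReal_mul, Complex.im_ofReal_mul,
          Complex.add_re, Complex.add_im]
        ring)
    exact e1
  have htT : Mot.tr v • t ∈ T := (hT t).1 C.mem₂
  refine ⟨a', b', ham a' b' (x + v), Mot.tr v • u₁, by rw [ha']; positivity, ?_, hR, ?_⟩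
  · exact C'.congr (Sim.refl _ _ _) ((hsim t C.mem₂ u₂ hu₂).1 s2).symm C'.mem₁ htT
  · intro z
    rw [hform z, ha']

end Pool.Agent.Lib.MP_ffe3a0_co
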