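import Pool.Agent.Lib.MP_ffe3a0_co.Equi

/-!
Periodic tilings in the absence of non-horizontal moving lines.
-/

set_option autoImplicit false
set_option linter.unusedSectionVars false

open Set Metric Filter Topology Pointwise ComplexConjugate

noncomputable section

namespace Pool.Agent.Lib.MP_ffe3a0_co

variable {ι : Type} [Finite ι] {Q : ι → Set ℂ} {U : Ultrafilter ℕ} {Tn : ℕ → Set (Set ℂ)}
  {T T₀ : Set (Set ℂ)} {d : Set ℂ → ℕ → Mot} {a : ℝ} {b : ℂ} {c : ℝ} {t t' t₁ t₂ : Set ℂ}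

theorem eq_tr_of_u {g : Mot} (h : g.u = 1) : g = Mot.tr g.b := Mot.ext h rfl

theorem closure_ball' (z : ℂ) {R : ℝ} (hR : 0 < R) : closure (ball z R) = closedBall z R :=
  closure_ball z hR.ne'

theorem finish (hQ : ∀ i, IsDisk (Q i)) (h₀ : IsTiling Q T₀) {τ : ℝ} (hτ : 0 < τ)
    (hper : Inv T₀ τ) (hU : ∀ N : ℕ, ∀ᶠ n in U, N ≤ n)
    (S : Sys Q U (fun n => Mot.tr (-(n * Complex.I)) • T₀) T d) {κ : Set ℂ} (hκ : κ ∈ T)
    {Rm : ℝ} (hbdd : ∀ z₀ R t, MDisk U d T z₀ R t → R ≤ Rm) {x₀ : ℂ}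
    (hI : ∀ s : ℝ, 0 ≤ s → s ≤ 1 → GG U d T κ (x₀ + s * τ))
    (htr : ∀ᶠ n in U, (d κ n).u = 1) :
    ∃ T', ∃ v : ℂ, IsTiling Q T' ∧ Inv T' τ ∧ Inv T' v ∧ v.im ≠ 0 := by
  set I : Set ℂ := (fun s : ℝ => x₀ + s * τ) '' Icc 0 1 with hIdef
  have hIc : IsCompact I := by
    apply isCompact_Icc.image
    fun_prop
  set A : Set (Set ℂ) := {s | s ∈ T ∧ Sim U d κ s ∧ (s ∩ I).Nonempty} with hA
  set B : Set (ℂ × ℝ) := {p | ∃ t, MDisk U d T p.1 p.2 t ∧ Sim U d κ t ∧
    (closedBall p.1 p.2 ∩ I).Nonempty} with hB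
  have hAfin : A.Finite := by
    apply (S.h.finite_meet hQ I hIc.isBounded).subset
    rintro s ⟨h1, -, h2⟩
    exact ⟨h1, h2⟩
  have hBfin : B.Finite := by
    apply (MDisk.finite_compact hQ S (hIc.cthickening (r := 2 * Rm))).subset
    rintro ⟨z, R⟩ ⟨t, hD, -, ⟨y, hy1, hy2⟩⟩
    have h1 := hbdd _ _ _ hD
    have h2 := hD.pos
    simp only at h1 h2 hy1
    refine ⟨t, hD, z + R, ?_, ?_⟩
    · rw [mem_sphere, dist_eq_norm]
      simp [abs_of_pos h2]
    · apply mem_cthickening_of_dist_le _ y _ _ hy2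
      rw [mem_closedBall] at hy1
      calc dist (z + R) y ≤ dist (z + R) z + dist z y := dist_triangle _ _ _
        _ ≤ R + R := by
          apply add_le_add
          · rw [dist_eq_norm]; simp [abs_of_pos h2]
          · rw [dist_comm]; exact hy1
        _ ≤ 2 * Rm := by linarith
  set J : Set ℂ := (⋃ s ∈ A, s) ∪ (⋃ p ∈ B, closedBall p.1 p.2) with hJ
  have hJb : Bornology.IsBounded J := by
    apply Bornology.IsBounded.union
    · rw [Bornology.isBounded_biUnion hAfin]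
      intro s hs
      exact (S.isDisk hQ hs.1).isCompact.isBounded
    · rw [Bornology.isBounded_biUnion hBfin]
      intro p _
      exact isBounded_closedBall
  have hIJ : ∀ s : ℝ, 0 ≤ s → s ≤ 1 → x₀ + s * τ ∈ J := by
    intro s h0 h1
    have hmem : x₀ + s * τ ∈ I := ⟨s, ⟨h0, h1⟩, rfl⟩
    rcases hI s h0 h1 with ⟨t, ht, hxt, hsim, -⟩ | ⟨z₀, R, t, hD, -, hx, hsim⟩
    · left
      simp only [mem_iUnion]
      exact ⟨t, ⟨ht, hsim, _, hxt, hmem⟩, hxt⟩
    · right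
      simp only [mem_iUnion]
      exact ⟨(z₀, R), ⟨t, hD, hsim, _, hx, hmem⟩, hx⟩
  have hJreg : J ⊆ closure (interior J) := by
    rintro z (hz | hz)
    · simp only [mem_iUnion] at hz
      obtain ⟨s, hs, hzs⟩ := hz
      have h1 : s ⊆ J := by
        intro w hw
        left
        simp only [mem_iUnion]
        exact ⟨s, hs, hw⟩
      rw [← (S.isDisk hQ hs.1).closure_interior] at hzs
      exact closure_mono (interior_mono h1) hzs
    · simp only [mem_iUnion] at hz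
      obtain ⟨p, hp, hzp⟩ := hz
      have h1 : closedBall p.1 p.2 ⊆ J := by
        intro w hw
        right
        simp only [mem_iUnion]
        exact ⟨p, hp, hw⟩
      obtain ⟨t, hD, -⟩ := hp
      rw [← closure_ball' p.1 hD.pos] at hzp
      exact closure_mono (interior_maximal (ball_subset_closedBall.trans h1) isOpen_ball) hzp
  apply slab hQ h₀ hτ hper hU hJb hIJ (hJreg.trans subset_union_left)
  -- the splitting property
  have e1 : ∀ᶠ n : ℕ in U, ∀ s ∈ A, d κ n = d s n ∧ d s n • s ∈ Mot.tr (-(n * Complex.I)) • T₀ := by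
    rw [eventually_all_finite hAfin]
    intro s hs
    filter_upwards [hs.2.1, S.mem s hs.1] with n h1 h2
    exact ⟨h1, h2⟩
  have e2 : ∀ᶠ n : ℕ in U, ∀ p ∈ B, ∀ z ∈ sphere p.1 p.2, ∀ s ∈ Mot.tr (-(n * Complex.I)) • T₀,
      d κ n • z ∉ interior s := by
    rw [eventually_all_finite hBfin]
    rintro p ⟨t, ⟨a, b, c, t₁, ha, C, hR, hf⟩, hsim, -⟩
    filter_upwards [C.symm.fault hQ S (W := sphere p.1 p.2) isBounded_sphere, hsim]
      with n h1 h2 z hz s hs
    rw [h2]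
    exact h1 z hz (by rw [ham_neg, (form_eq ha hR hf z).2 hz]) s hs
  have e3 : ∀ᶠ n in U, ‖(d κ n).b‖ ≤ 1 := by
    have h1 := (Mot.tendsto_iff.1 (S.lim κ hκ)).2.norm
    rw [Mot.one_b, norm_zero] at h1
    exact h1.eventually (ge_mem_nhds one_pos)
  filter_upwards [e1, e2, e3, htr] with n h1 h2 h3 h4
  refine ⟨(d κ n).b, h3, ?_⟩
  intro s hs
  have hdκ := eq_tr_of_u h4
  set ε := (d κ n).b with hε
  set s' := Mot.tr (-(n * Complex.I)) • s with hs'
  have hs'T : s' ∈ Mot.tr (-(n * Complex.I)) • T₀ := smul_mem_smul_set hs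
  have hTn := S.hn n
  have hmem : ∀ z, z ∈ s ↔ z - n * Complex.I ∈ s' := by
    intro z
    rw [hs', mem_tr]
    rw [show z - n * Complex.I - -(n * Complex.I) = z by ring]
  have hmemi : ∀ z, z ∈ interior s ↔ z - n * Complex.I ∈ interior s' := by
    intro z
    rw [hs', mem_interior_tr]
    rw [show z - n * Complex.I - -(n * Complex.I) = z by ring]
  by_cases hcA : ∃ u ∈ A, s' = d u n • u
  · obtain ⟨u, hu, hsu⟩ := hcA
    left
    intro z hz
    rw [hmem, hsu, ← (h1 u hu).1, hdκ, mem_tr] at hz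
    left
    simp only [mem_iUnion]
    exact ⟨u, hu, hz⟩
  · by_cases hcB : ∃ p ∈ B, s' ⊆ Mot.tr ε • closedBall p.1 p.2
    · obtain ⟨p, hp, hsp⟩ := hcB
      left
      intro z hz
      rw [hmem] at hz
      have := hsp hz
      rw [mem_tr] at this
      right
      simp only [mem_iUnion]
      exact ⟨p, hp, this⟩
    · right
      intro z hz hzJ
      rw [hmemi] at hz
      rcases hzJ with hzJ | hzJ
      · simp only [mem_iUnion] at hzJ
        obtain ⟨u, hu, hzu⟩ := hzJ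
        apply hcA
        refine ⟨u, hu, ?_⟩
        apply hTn.unique_of_interior hQ hs'T (h1 u hu).2 hz
        rw [← (h1 u hu).1, hdκ, mem_tr]
        exact hzu
      · simp only [mem_iUnion] at hzJ
        obtain ⟨p, hp, hzp⟩ := hzJ
        have hpos : 0 < p.2 := by
          obtain ⟨t, hD, -⟩ := hp
          exact hD.pos
        have hd' : IsDisk (Mot.tr (-ε) • s') := ((hTn.tile s' hs'T).isDisk hQ).smul _
        rcases sphere_side (z₀ := p.1) (R := p.2) hd' (by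
          intro w hw hws
          rw [mem_interior_tr] at hw
          have := h2 p hp w hws s' hs'T
          rw [hdκ, Mot.tr_smul] at this
          apply this
          rwa [sub_neg_eq_add] at hw) with h5 | h5
        · apply hcB
          refine ⟨p, hp, ?_⟩
          intro w hw
          rw [mem_tr]
          apply h5
          rw [mem_tr]
          simpa using hw
        · rw [← closure_ball' p.1 hpos, _root_.mem_closure_iff] at hzp
          obtain ⟨w, hw1, hw2⟩ := hzp (interior (Mot.tr (-ε) • s')) isOpen_interior (by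
            rw [mem_interior_tr]
            simpa using hz)
          exact disjoint_left.1 h5 (interior_subset hw1) hw2

theorem countable_E3 (hQ : ∀ i, IsDisk (Q i)) (h : IsTiling Q T) :
    (IsTiling.E3 T).Countable := by
  have h1 : IsTiling.E3 T ⊆ ⋃ n : ℕ, (IsTiling.E3 T ∩ ball 0 n) := by
    intro z hz
    obtain ⟨n, hn⟩ := exists_nat_gt ‖z‖
    exact mem_iUnion.2 ⟨n, hz, by rwa [mem_ball_zero_iff]⟩
  apply (Set.countable_iUnion fun n : ℕ => (h.finite_E3 hQ _ isBounded_ball).countable).mono h1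

/-- a generic horizontal line through the interior of a tile -/
theorem exists_height (hQ : ∀ i, IsDisk (Q i)) (h : IsTiling Q T) {s : Set ℂ} (hd : IsDisk s) :
    ∃ x ∈ interior s, ∀ z ∈ IsTiling.E3 T, z.im ≠ x.im := by
  obtain ⟨p, hp⟩ := hd.isConnected_interior.nonempty
  obtain ⟨r, hr, hrs⟩ := Metric.isOpen_iff.1 isOpen_interior p hp
  have hc : (Complex.im '' IsTiling.E3 T).Countable := (countable_E3 hQ h).image _
  have hu : ¬ (Ioo p.im (p.im + r)).Countable := by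
    intro hcount
    have := Cardinal.mk_Ioo_real (show p.im < p.im + r by linarith)
    rw [← Cardinal.le_aleph0_iff_set_countable, this] at hcount
    exact absurd hcount (not_le.2 Cardinal.aleph0_lt_continuum)
  obtain ⟨y, hy1, hy2⟩ : ∃ y ∈ Ioo p.im (p.im + r), y ∉ Complex.im '' IsTiling.E3 T := by
    by_contra hcon
    push Not at hcon
    exact hu (hc.mono hcon)
  refine ⟨⟨p.re, y⟩, ?_, ?_⟩
  · apply hrs
    rw [mem_ball, dist_eq_norm]
    have : (⟨p.re, y⟩ : ℂ) - p = ((y - p.im : ℝ) : ℂ) * Complex.I := by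
      apply Complex.ext <;> simp
    rw [this, norm_mul, Complex.norm_I, mul_one, Complex.norm_real, Real.norm_of_nonneg
      (by linarith [hy1.1])]
    linarith [hy1.2]
  · intro z hz e
    exact hy2 ⟨z, hz, e⟩

theorem infinite_sphere (z₀ : ℂ) {R : ℝ} (hR : 0 < R) : (sphere z₀ R).Infinite := by
  have h1 : IsPreconnected (sphere z₀ R) := isPreconnected_sphere (by
      rw [Complex.rank_real_complex]; norm_num) z₀ R
  have h2 : (sphere z₀ R).Nontrivial := by
    refine ⟨z₀ + R, ?_, z₀ - R, ?_, ?_⟩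
    · rw [mem_sphere, dist_eq_norm]; simp [abs_of_pos hR]
    · rw [mem_sphere, dist_eq_norm]; simp [abs_of_pos hR]
    · intro e
      have : (R : ℂ) = -R := by linear_combination e
      have h3 : R = -R := by exact_mod_cast this
      linarith
  exact h1.infinite_of_nontrivial h2

theorem exists_out (hQ : ∀ i, IsDisk (Q i)) (S : Sys Q U Tn T d) {Rm : ℝ}
    (hbdd : ∀ z₀ R t, MDisk U d T z₀ R t → R ≤ Rm) : ∃ t ∈ T, Out U d T t := by
  by_cases hex : ∃ z₀ R t, MDisk U d T z₀ R t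
  · obtain ⟨z₀, R, t, hD⟩ := hex
    obtain ⟨z₁, R₁, t₁, hD₁, -, hmax⟩ := exists_maxi hQ S hbdd hD
    obtain ⟨x, hx1, hx2⟩ := ((infinite_sphere z₁ hD₁.pos).sdiff
      (S.h.finite_E3 hQ (sphere z₁ R₁) isBounded_sphere)).nonempty
    have hE : x ∉ IsTiling.E3 T := fun h => hx2 ⟨h, hx1⟩
    obtain ⟨u₁, hu₁, u₂, hu₂, -, hdis, -, -, -, hxu₂, -⟩ := hD₁.at_point hQ S hx1 hE
    exact ⟨u₂, hu₂, out_of_maxi hQ S hD₁ hmax hx1 hE hu₂ hxu₂ hdis⟩
  · obtain ⟨t, ht, -⟩ := S.h.exists_mem 0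
    exact ⟨t, ht, fun z₀ R t' hD => absurd ⟨z₀, R, t', hD⟩ hex⟩

section equi

variable {τ : ℝ}
  (hequi : ∀ t ∈ T, ∀ n, d (Mot.tr τ • t) n = Mot.tr τ * d t n * (Mot.tr τ)⁻¹)

include hequi in
theorem sim_tr {t t' : Set ℂ} (ht : t ∈ T) (ht' : t' ∈ T) :
    Sim U d t t' ↔ Sim U d (Mot.tr τ • t) (Mot.tr τ • t') := by
  unfold Sim
  constructor
  · intro h
    filter_upwards [h] with n hn
    rw [hequi t ht, hequi t' ht', hn]
  · intro h
    filter_upwards [h] with n hn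
    rw [hequi t ht, hequi t' ht'] at hn
    exact mul_left_cancel (mul_right_cancel hn)

include hequi in
theorem u_eq_one (hτ : 0 < τ) {t : Set ℂ} (ht : t ∈ T) (h : Sim U d t (Mot.tr τ • t)) :
    ∀ᶠ n in U, (d t n).u = 1 := by
  filter_upwards [h] with n hn
  rw [hequi t ht, eq_mul_inv_iff_mul_eq] at hn
  have := congrArg Mot.b hn
  simp only [Mot.mul_b, Mot.tr_b, Mot.tr_u, Circle.coe_one, one_mul] at this
  have h1 : ((d t n).u : ℂ) * τ = τ := by linear_combination this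
  have h2 : (τ : ℂ) ≠ 0 := by exact_mod_cast hτ.ne'
  have h3 : ((d t n).u : ℂ) = 1 := mul_right_cancel₀ h2 (by rw [h1, one_mul])
  exact Circle.ext h3

include hequi in
theorem sim_tr_neg (hT : Inv T τ) {t t' : Set ℂ} (ht : t ∈ T) (ht' : t' ∈ T) :
    Sim U d t t' ↔ Sim U d (Mot.tr (-τ) • t) (Mot.tr (-τ) • t') := by
  have h1 := sim_tr hequi (U := U) ((hT.neg t).1 ht) ((hT.neg t').1 ht')
  rw [tr_tr, tr_tr, add_neg_cancel, tr_zero_set, tr_zero_set] at h1
  exact h1.symm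

end equi

/-- the case where all moving curves are circles -/
theorem circle_case (hQ : ∀ i, IsDisk (Q i)) (h₀ : IsTiling Q T₀) {τ : ℝ} (hτ : 0 < τ)
    (hper : Inv T₀ τ) (hU : ∀ N : ℕ, ∀ᶠ n in U, N ≤ n)
    (S : Sys Q U (fun n => Mot.tr (-(n * Complex.I)) • T₀) T d) (hT : Inv T τ)
    (hequi : ∀ t ∈ T, ∀ n, d (Mot.tr τ • t) n = Mot.tr τ * d t n * (Mot.tr τ)⁻¹)
    (hcirc : ∀ a b c t₁ t₂, MCurve U d T a b c t₁ t₂ → a ≠ 0) :
    ∃ T', ∃ v : ℂ, IsTiling Q T' ∧ Inv T' τ ∧ Inv T' v ∧ v.im ≠ 0 := by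
  have hbdd : ∀ z₀ R t, MDisk U d T z₀ R t → R ≤ τ / 2 := by
    intro z₀ R t hD
    have hD' := hD.translate hQ S hT (fun t ht t' ht' => sim_tr hequi ht ht')
    rcases hD.nested hQ S hD' with h1 | h1
    · exfalso
      rw [sub_self, abs_zero, dist_eq_norm] at h1
      simp at h1
      linarith
    · rw [dist_eq_norm] at h1
      simp at h1
      rw [abs_of_pos hτ] at h1
      linarith
  obtain ⟨t₀, ht₀, hout⟩ := exists_out hQ S hbdd
  obtain ⟨x₁, hx₁, hheight⟩ := exists_height hQ S.h (S.isDisk hQ ht₀)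
  set C : Set ℂ := {z | z.im = x₁.im} with hC
  have hCconv : Convex ℝ C := by
    intro z hz w hw α β _ _ hαβ
    simp only [hC, mem_ofPred_eq] at hz hw ⊢
    simp only [Complex.add_im, Complex.real_smul, Complex.mul_im, Complex.ofReal_re,
      Complex.ofReal_im, zero_mul, add_zero]
    rw [hz, hw, ← add_mul, hαβ, one_mul]
  have hG : ∀ x ∈ C, GG U d T t₀ x := by
    intro x hx
    exact GG_const hQ S hCconv.isPreconnected (fun z hz hE => hheight z hE hz)
      (fun z _ a b t₁ t₂ h => hcirc a b _ t₁ t₂ h) (x := x₁) rfl hx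
      (Or.inl ⟨t₀, ht₀, interior_subset hx₁, Sim.refl _ _ _, hout⟩)
  -- the translated tile is similar
  have hτt₀ : Mot.tr τ • t₀ ∈ T := (hT t₀).1 ht₀
  have hout' : Out U d T (Mot.tr τ • t₀) := by
    intro z₀ R t hD hsub
    have hD' := hD.translate hQ S hT.neg (fun t ht t' ht' => sim_tr_neg hequi hT ht ht')
    apply hout _ _ _ hD'
    intro w hw
    have h1 : w + τ ∈ closedBall z₀ R := hsub (by rw [mem_tr]; simpa using hw)
    rw [mem_closedBall, dist_eq_norm] at h1 ⊢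
    rwa [show w - (z₀ + -(τ : ℂ)) = w + τ - z₀ by ring]
  have hx₁τ : x₁ + τ ∈ interior (Mot.tr τ • t₀) := by
    rw [mem_interior_tr]; simpa using hx₁
  have hsim : Sim U d t₀ (Mot.tr τ • t₀) := by
    rcases hG (x₁ + τ) (by simp [hC]) with ⟨t, ht, hxt, hs, -⟩ | ⟨z₀, R, t, hD, -, hx, hs⟩
    · have := S.h.unique_of_interior hQ hτt₀ ht hx₁τ hxt
      rw [this]; exact hs
    · exfalso
      rcases hD.side hQ S hτt₀ with h1 | h1
      · exact hout' z₀ R t hD h1
      · rw [← closure_ball' z₀ hD.pos, _root_.mem_closure_iff] at hx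
        obtain ⟨w, hw1, hw2⟩ := hx _ isOpen_interior hx₁τ
        exact disjoint_left.1 h1 (interior_subset hw1) hw2
  exact finish hQ h₀ hτ hper hU S ht₀ hbdd (x₀ := x₁) (fun s _ _ => hG _ (by simp [hC]))
    (u_eq_one hequi hτ ht₀ hsim)

/-- the case of a horizontal moving line -/
theorem hline_case (hQ : ∀ i, IsDisk (Q i)) (h₀ : IsTiling Q T₀) {τ : ℝ} (hτ : 0 < τ)
    (hper : Inv T₀ τ) (hU : ∀ N : ℕ, ∀ᶠ n in U, N ≤ n)
    (S : Sys Q U (fun n => Mot.tr (-(n * Complex.I)) • T₀) T d) (hT : Inv T τ)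
    (hequi : ∀ t ∈ T, ∀ n, d (Mot.tr τ • t) n = Mot.tr τ * d t n * (Mot.tr τ)⁻¹)
    (C : MCurve U d T 0 b c t₁ t₂) (hb : b.re = 0) :
    ∃ T', ∃ v : ℂ, IsTiling Q T' ∧ Inv T' τ ∧ Inv T' v ∧ v.im ≠ 0 := by
  have hF : ∀ z : ℂ, ham 0 b z = b.im * z.im := by
    intro z
    simp [ham, hb]
  have hbim : b.im ≠ 0 := by
    intro h
    have := C.rel.norm
    have hb0 : b = 0 := Complex.ext hb h
    rw [hb0] at this
    simp at this
  set y₀ := c / b.im with hy₀
  have hlev : ∀ z : ℂ, ham 0 b z = c ↔ z.im = y₀ := by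
    intro z
    rw [hF, hy₀]
    constructor
    · intro h; rw [← h]; field_simp
    · intro h; rw [h]; field_simp
  set x₀ : ℂ := y₀ * Complex.I with hx₀
  have hx₀im : x₀.im = y₀ := by simp [hx₀]
  set J : Set ℂ := (fun s : ℝ => x₀ + s * τ) '' Icc 0 1 with hJ
  have hJc : IsCompact J := by
    apply isCompact_Icc.image
    fun_prop
  have hJim : ∀ z ∈ J, z.im = y₀ := by
    rintro _ ⟨s, -, rfl⟩
    simp [hx₀im]
  -- the lower class moves by translations
  have hsim : ∃ u ∈ T, Sim U d t₁ u ∧ Sim U d u (Mot.tr τ • u) := by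
    obtain ⟨x, hx1, hx2⟩ : ∃ x : ℂ, x.im = y₀ ∧ x ∉ IsTiling.E3 T := by
      have hinf : {z : ℂ | z.im = y₀ ∧ 0 ≤ z.re ∧ z.re ≤ 1}.Infinite := by
        have h1 : (Icc (0 : ℝ) 1).Infinite := Icc_infinite one_pos
        have h2 := h1.image (f := fun s : ℝ => (⟨s, y₀⟩ : ℂ)) (fun s _ s' _ e => by
          have := congrArg Complex.re e
          simpa using this)
        apply h2.mono
        rintro _ ⟨s, hs, rfl⟩
        exact ⟨rfl, hs.1, hs.2⟩
      have hbd : Bornology.IsBounded {z : ℂ | z.im = y₀ ∧ 0 ≤ z.re ∧ z.re ≤ 1} := by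
        rw [isBounded_iff_forall_norm_le]
        refine ⟨1 + |y₀|, ?_⟩
        rintro z ⟨h1, h2, h3⟩
        refine (Complex.norm_le_abs_re_add_abs_im z).trans ?_
        rw [h1, abs_of_nonneg h2]
        linarith
      obtain ⟨x, hx1, hx2⟩ := (hinf.sdiff (S.h.finite_E3 hQ _ hbd)).nonempty
      exact ⟨x, hx1.1, fun h => hx2 ⟨h, hx1⟩⟩
    have hxc := (hlev x).2 hx1
    obtain ⟨u₁, hu₁, u₂, hu₂, s1, s2, L1, L2⟩ := C.at_point hQ S hxc hx2
    have hxτ : x + τ ∉ IsTiling.E3 T := fun h => hx2 (mem_E3_tr hT h)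
    have hxτc : ham 0 b (x + τ) = c := (hlev _).2 (by simp [hx1])
    obtain ⟨v₁, hv₁, v₂, hv₂, s1', s2', L1', L2'⟩ := C.at_point hQ S hxτc hxτ
    have hinv : ∀ z, ham 0 b (Mot.tr τ • z) = ham 0 b z := by
      intro z
      rw [Mot.tr_smul, hF, hF]; simp
    have L3 := L1.smul (g := Mot.tr τ) hinv
    rw [Mot.tr_smul] at L3
    have e := Lo.unique hQ S.h ((hT u₁).1 hu₁) hv₁ L3 L1' (C.reg _ hxτc)
    refine ⟨u₁, hu₁, s1, ?_⟩
    rw [e]
    exact s1.symm.trans s1'
  obtain ⟨u, hu, hsu, hsu'⟩ := hsim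
  have htr : ∀ᶠ n in U, (d t₁ n).u = 1 := by
    filter_upwards [hsu, u_eq_one hequi hτ hu hsu'] with n h1 h2
    rw [h1]; exact h2
  apply slab hQ h₀ hτ hper hU hJc.isBounded (x₀ := x₀)
    (fun s h1 h2 => ⟨s, ⟨h1, h2⟩, rfl⟩) (by
      intro z hz
      right
      show z.im ≤ x₀.im
      rw [hJim z hz, hx₀im])
  have e3 : ∀ᶠ n in U, ‖(d t₁ n).b‖ ≤ 1 := by
    have h1 := (Mot.tendsto_iff.1 (S.lim t₁ C.mem₁)).2.norm
    rw [Mot.one_b, norm_zero] at h1
    exact h1.eventually (ge_mem_nhds one_pos)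
  filter_upwards [C.fault hQ S hJc.isBounded, htr, e3] with n h1 h2 h3
  refine ⟨(d t₁ n).b, h3, ?_⟩
  intro s hs
  right
  intro z hz hzJ
  have h4 := h1 _ hzJ ((hlev _).2 (hJim _ hzJ)) (Mot.tr (-(n * Complex.I)) • s)
    (smul_mem_smul_set hs)
  apply h4
  rw [mem_interior_tr]
  have h5 := eq_tr_of_u h2
  have h6 : d t₁ n • (z - n * Complex.I - (d t₁ n).b) = z - n * Complex.I := by
    conv_lhs => rw [h5]
    rw [Mot.tr_smul, Mot.tr_b]; ring
  rw [h6]
  rw [show z - n * Complex.I - -(n * Complex.I) = z by ring]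
  exact hz

end Pool.Agent.Lib.MP_ffe3a0_co
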