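import Pool.Agent.Lib.MP_ffe3a0_co.Level

/-!
The one-parameter group of motions preserving a quadratic function.
-/

set_option autoImplicit false
set_option linter.unusedSectionVars false

open Set Metric Filter Topology Pointwise ComplexConjugate

noncomputable section

namespace Pool.Agent.Lib.MP_ffe3a0_co

/-- the factor `(e^{2ias} - 1) / (2a)` -/
def EE (a s : ℝ) : ℂ := Complex.I * s * Circle.exp (a * s) * Real.sinc (a * s)

theorem EE_mul (a s : ℝ) : 2 * a * EE a s = Circle.exp (2 * a * s) - 1 := by
  have h1 : ((a * s : ℝ) : ℂ) * Real.sinc (a * s) = Complex.sin (a * s) := by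
    rcases eq_or_ne (a * s) 0 with h | h
    · rw [← Complex.ofReal_mul a s, h]; simp
    · rw [Real.sinc_of_ne_zero h]
      have h' : ((a * s : ℝ) : ℂ) ≠ 0 := by exact_mod_cast h
      push_cast at h' ⊢
      rw [mul_div_cancel₀ _ h']
  have h2 : (Circle.exp (2 * a * s) : ℂ) = Circle.exp (a * s) * Circle.exp (a * s) := by
    rw [← Circle.coe_mul, ← Circle.exp_add]; ring_nf
  have h3 : (Circle.exp (a * s) : ℂ) = Complex.cos (a * s) + Complex.sin (a * s) * Complex.I := by
    rw [Circle.coe_exp, Complex.exp_mul_I]; push_cast; rfl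
  have h4 := Complex.sin_sq_add_cos_sq (a * s)
  have h5 : 2 * (a : ℂ) * EE a s = 2 * Complex.I * Circle.exp (a * s) *
      (((a * s : ℝ) : ℂ) * Real.sinc (a * s)) := by
    unfold EE; push_cast; ring
  rw [h5, h1, h2, h3]
  have hI : Complex.I * Complex.I = -1 := Complex.I_mul_I
  linear_combination (-1 : ℂ) * h4 + Complex.sin (a * s) ^ 2 * hI

theorem EE_zero_left (s : ℝ) : EE 0 s = Complex.I * s := by simp [EE]

theorem EE_zero_right (a : ℝ) : EE a 0 = 0 := by simp [EE]

theorem continuous_EE (a : ℝ) : Continuous (EE a) := by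
  unfold EE
  have h1 : Continuous fun s : ℝ => Real.sinc (a * s) :=
    Real.continuous_sinc.comp (continuous_const.mul continuous_id)
  have h2 : Continuous fun s : ℝ => Circle.exp (a * s) :=
    Circle.exp.continuous.comp (continuous_const.mul continuous_id)
  have h3 : Continuous fun s : ℝ => (Circle.exp (a * s) : ℂ) := continuous_subtype_val.comp h2
  have h4 : Continuous fun s : ℝ => ((Real.sinc (a * s) : ℝ) : ℂ) :=
    Complex.continuous_ofReal.comp h1
  exact ((continuous_const.mul Complex.continuous_ofReal).mul h3).mul h4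

theorem norm_EE_zero (s : ℝ) : ‖EE 0 s‖ = |s| := by
  rw [EE_zero_left, norm_mul, Complex.norm_I, one_mul, Complex.norm_real, Real.norm_eq_abs]

theorem norm_EE {a : ℝ} (s : ℝ) : |a| * ‖EE a s‖ = |Real.sin (a * s)| := by
  unfold EE
  rw [norm_mul, norm_mul, norm_mul, Complex.norm_I, one_mul, Circle.norm_coe, mul_one,
    Complex.norm_real, Complex.norm_real, Real.norm_eq_abs, Real.norm_eq_abs, ← mul_assoc,
    ← abs_mul, ← abs_mul]
  congr 1
  rcases eq_or_ne (a * s) 0 with h | h
  · rw [h]; simp
  · rw [Real.sinc_of_ne_zero h, mul_div_cancel₀ _ h]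

theorem EE_add (a s t : ℝ) : EE a (s + t) = Circle.exp (2 * a * s) * EE a t + EE a s := by
  rcases eq_or_ne a 0 with h | h
  · subst h
    rw [EE_zero_left, EE_zero_left, EE_zero_left]; simp; ring
  · have h' : (2 * (a : ℂ)) ≠ 0 := by
      have : (a : ℂ) ≠ 0 := by exact_mod_cast h
      simpa using this
    apply mul_left_cancel₀ h'
    have h1 : (Circle.exp (2 * a * (s + t)) : ℂ) = Circle.exp (2 * a * s) * Circle.exp (2 * a * t) := by
      rw [← Circle.coe_mul, ← Circle.exp_add]; ring_nf
    have h2 := EE_mul a (s + t)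
    rw [h1] at h2
    linear_combination h2 - (Circle.exp (2 * a * s) : ℂ) * EE_mul a t - EE_mul a s

/-- `EE` satisfies the quadratic relation. -/
theorem EE_rel (a s : ℝ) : (EE a s).re + a * Complex.normSq (EE a s) = 0 := by
  rcases eq_or_ne a 0 with h | h
  · subst h
    rw [EE_zero_left]; simp
  · have h1 := EE_mul a s
    have h2 : Complex.normSq (Circle.exp (2 * a * s) : ℂ) = 1 := by
      rw [Complex.normSq_eq_norm_sq, Circle.norm_coe]; norm_num
    have h3 : (Circle.exp (2 * a * s) : ℂ) = 1 + 2 * a * EE a s := by rw [h1]; ring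
    rw [h3] at h2
    rw [Complex.normSq_apply] at h2 ⊢
    simp only [Complex.add_re, Complex.one_re, Complex.mul_re, Complex.re_ofNat, Complex.ofReal_re,
      Complex.im_ofNat, Complex.ofReal_im, mul_zero, sub_zero, Complex.mul_im, add_zero,
      zero_mul, Complex.add_im, Complex.one_im, zero_add] at h2
    have h4 : a * ((EE a s).re + a * ((EE a s).re * (EE a s).re + (EE a s).im * (EE a s).im)) = 0 := by
      nlinarith
    rcases mul_eq_zero.1 h4 with h5 | h5
    · exact absurd h5 h
    · exact h5

/-- surjectivity of `EE` on the solutions of the quadratic relation -/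
theorem exists_EE {a : ℝ} {w : ℂ} (hw : w.re + a * Complex.normSq w = 0) :
    ∃ s : ℝ, EE a s = w ∧ |a * s| ≤ Real.pi / 2 ∧ ∀ s', |s'| ≤ |s| → ‖EE a s'‖ ≤ ‖w‖ := by
  rcases eq_or_ne a 0 with h | h
  · subst h
    refine ⟨w.im, ?_, by simp; positivity, ?_⟩
    · rw [EE_zero_left]
      have : w.re = 0 := by linarith
      apply Complex.ext
      · simp [this]
      · simp
    · intro s' hs'
      rw [norm_EE_zero]
      exact hs'.trans (Complex.abs_im_le_norm w)
  · have h1 : ‖1 + 2 * a * w‖ = 1 := by
      have h2 : Complex.normSq (1 + 2 * a * w) = 1 := by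
        rw [Complex.normSq_apply] at hw ⊢
        simp only [Complex.add_re, Complex.one_re, Complex.mul_re, Complex.re_ofNat,
          Complex.ofReal_re, Complex.im_ofNat, Complex.ofReal_im, mul_zero, sub_zero,
          Complex.mul_im, add_zero, zero_mul, Complex.add_im, Complex.one_im, zero_add]
        linear_combination 4 * a * hw
      rw [Complex.normSq_eq_norm_sq] at h2
      nlinarith [norm_nonneg (1 + 2 * a * w)]
    set θ := Complex.arg (1 + 2 * a * w) with hθ
    have h3 : (Circle.exp θ : ℂ) = 1 + 2 * a * w := by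
      rw [Circle.coe_exp]
      have := Complex.norm_mul_exp_arg_mul_I (1 + 2 * a * w)
      rw [h1] at this
      simpa using this
    have h4 : |θ| ≤ Real.pi := Complex.abs_arg_le_pi _
    have h5 : a * (θ / (2 * a)) = θ / 2 := by field_simp
    have h6 : EE a (θ / (2 * a)) = w := by
      have h' : (2 * (a : ℂ)) ≠ 0 := by
        have : (a : ℂ) ≠ 0 := by exact_mod_cast h
        simpa using this
      apply mul_left_cancel₀ h'
      have e1 := EE_mul a (θ / (2 * a))
      have : 2 * a * (θ / (2 * a)) = θ := by field_simp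
      rw [this, h3] at e1
      rw [e1]; ring
    refine ⟨θ / (2 * a), h6, ?_, ?_⟩
    · rw [h5, abs_div, abs_two]; linarith
    · intro s' hs'
      have ha : 0 < |a| := abs_pos.2 h
      apply le_of_mul_le_mul_left _ ha
      rw [← h6, norm_EE, norm_EE, h5]
      have h7 : |a * s'| ≤ |θ / 2| := by
        rw [← h5, abs_mul, abs_mul]
        exact mul_le_mul_of_nonneg_left hs' ha.le
      have h8 : |θ / 2| ≤ Real.pi / 2 := by rw [abs_div, abs_two]; linarith
      have h9 : ∀ t : ℝ, |t| ≤ Real.pi / 2 → |Real.sin t| = Real.sin |t| := by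
        intro t ht
        have : 0 ≤ Real.sin |t| := Real.sin_nonneg_of_nonneg_of_le_pi (abs_nonneg t)
          (ht.trans (by linarith [Real.pi_pos]))
        rcases abs_cases t with ⟨e, _⟩ | ⟨e, _⟩
        · rw [e] at this ⊢; exact abs_of_nonneg this
        · rw [e] at this ⊢
          rw [Real.sin_neg] at this ⊢
          exact abs_of_nonpos (by linarith)
      rw [h9 _ (h7.trans h8), h9 _ h8]
      exact Real.sin_le_sin_of_le_of_le_pi_div_two
        (by have := abs_nonneg (a * s'); have := Real.pi_pos; linarith) h8 h7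

/-- lower bound for `EE` -/
theorem le_norm_EE {a s : ℝ} (h : |a * s| ≤ Real.pi / 2) : |s| ≤ Real.pi / 2 * ‖EE a s‖ := by
  rcases eq_or_ne a 0 with ha | ha
  · subst ha
    rw [norm_EE_zero]
    have := Real.pi_gt_three
    have := abs_nonneg s
    nlinarith
  · have ha' : 0 < |a| := abs_pos.2 ha
    have h1 := Real.mul_abs_le_abs_sin h
    have h2 := norm_EE (a := a) s
    rw [← h2, abs_mul] at h1
    have h3 : |a| * (2 / Real.pi * |s|) ≤ |a| * ‖EE a s‖ := by linarith
    have h4 := le_of_mul_le_mul_left h3 ha'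
    have hpi := Real.pi_pos
    calc |s| = Real.pi / 2 * (2 / Real.pi * |s|) := by field_simp
      _ ≤ Real.pi / 2 * ‖EE a s‖ := mul_le_mul_of_nonneg_left h4 (by positivity)

/-- injectivity of the flow -/
theorem EE_eq_zero {a s : ℝ} (h : EE a s = 0) (hs : |a * s| ≤ Real.pi / 2) : s = 0 := by
  have := le_norm_EE hs
  rw [h, norm_zero, mul_zero] at this
  exact abs_eq_zero.1 (le_antisymm this (abs_nonneg s))

/-- The one-parameter group preserving `ham a b`. -/
def flow (a : ℝ) (b : ℂ) (s : ℝ) : Mot := ⟨Circle.exp (2 * a * s), b * EE a s⟩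

variable {a : ℝ} {b : ℂ}

theorem flow_smul_sub (s : ℝ) (z : ℂ) : flow a b s • z - z = EE a s * grad a b z := by
  rw [Mot.smul_def, flow, grad]
  simp only
  linear_combination (-z) * EE_mul a s

theorem flow_smul (s : ℝ) (z : ℂ) : flow a b s • z = z + EE a s * grad a b z := by
  rw [← flow_smul_sub]; ring

theorem flow_zero : flow a b 0 = 1 := by
  ext <;> simp [flow, EE_zero_right]

theorem flow_add (s t : ℝ) : flow a b (s + t) = flow a b s * flow a b t := by
  apply Mot.ext
  · simp only [flow, Mot.mul_u]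
    rw [← Circle.exp_add]; ring_nf
  · simp only [flow, Mot.mul_b]
    rw [EE_add]; ring

theorem flow_neg (s : ℝ) : flow a b (-s) = (flow a b s)⁻¹ := by
  apply eq_inv_of_mul_eq_one_left
  rw [← flow_add]; simp [flow_zero]

theorem continuous_flow (a : ℝ) (b : ℂ) : Continuous (flow a b) := by
  rw [Mot.isInducing.continuous_iff]
  have h2 : Continuous fun s : ℝ => Circle.exp (2 * a * s) :=
    Circle.exp.continuous.comp (continuous_const.mul continuous_id)
  exact h2.prodMk (continuous_const.mul (continuous_EE a))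

theorem grad_flow (s : ℝ) (z : ℂ) :
    grad a b (flow a b s • z) = Circle.exp (2 * a * s) * grad a b z := by
  have h1 := EE_mul a s
  have h2 := grad_sub a b (flow a b s • z) z
  rw [flow_smul_sub] at h2
  linear_combination h2 + (grad a b z) * h1

theorem norm_grad_flow (s : ℝ) (z : ℂ) : ‖grad a b (flow a b s • z)‖ = ‖grad a b z‖ := by
  rw [grad_flow, norm_mul, Circle.norm_coe, one_mul]

theorem grad_flow_ne {s : ℝ} {z : ℂ} (h : grad a b z ≠ 0) : grad a b (flow a b s • z) ≠ 0 := by
  rw [← norm_ne_zero_iff, norm_grad_flow, norm_ne_zero_iff]; exact h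

theorem ham_flow (s : ℝ) (z : ℂ) : ham a b (flow a b s • z) = ham a b z := by
  have h1 := ham_sub' a b (flow a b s • z) z
  rw [flow_smul_sub] at h1
  have h2 : conj (grad a b z) * (EE a s * grad a b z) = (Complex.normSq (grad a b z) : ℂ) * EE a s := by
    rw [Complex.normSq_eq_conj_mul_self]; ring
  rw [h2, Complex.re_ofReal_mul, map_mul] at h1
  have h3 := EE_rel a s
  have h4 : Complex.normSq (grad a b z) * (EE a s).re + a * (Complex.normSq (EE a s) *
      Complex.normSq (grad a b z)) = Complex.normSq (grad a b z) *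
      ((EE a s).re + a * Complex.normSq (EE a s)) := by ring
  rw [h4, h3, mul_zero] at h1
  linarith

/-- points on the same level are joined by the flow -/
theorem exists_flow {x y : ℂ} (hx : grad a b x ≠ 0) (h : ham a b y = ham a b x) :
    ∃ s : ℝ, flow a b s • x = y ∧ |s| * ‖grad a b x‖ ≤ Real.pi / 2 * ‖y - x‖ ∧
      ∀ s', |s'| ≤ |s| → ‖flow a b s' • x - x‖ ≤ ‖y - x‖ := by
  have hpos : 0 < ‖grad a b x‖ := norm_pos_iff.2 hx
  set w := (y - x) / grad a b x with hw
  have hyx : y - x = w * grad a b x := by rw [hw]; field_simp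
  have h1 := ham_sub' a b y x
  rw [hyx, h, sub_self] at h1
  have h2 : conj (grad a b x) * (w * grad a b x) = (Complex.normSq (grad a b x) : ℂ) * w := by
    rw [Complex.normSq_eq_conj_mul_self]; ring
  rw [h2, Complex.re_ofReal_mul, map_mul] at h1
  have h3 : Complex.normSq (grad a b x) * (w.re + a * Complex.normSq w) = 0 := by
    rw [h1]; ring
  have h4 : w.re + a * Complex.normSq w = 0 := by
    rcases mul_eq_zero.1 h3 with h5 | h5
    · exact absurd (Complex.normSq_eq_zero.1 h5) hx
    · exact h5
  obtain ⟨s, hs, hs1, hs2⟩ := exists_EE h4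
  refine ⟨s, ?_, ?_, ?_⟩
  · rw [flow_smul, hs]; linear_combination -hyx
  · have h5 := le_norm_EE hs1
    rw [hs] at h5
    rw [hyx, norm_mul]
    nlinarith
  · intro s' hs'
    rw [flow_smul_sub, hyx, norm_mul, norm_mul]
    exact mul_le_mul_of_nonneg_right (hs2 s' hs') hpos.le

theorem flow_inj {x : ℂ} (hx : grad a b x ≠ 0) {s t : ℝ} (hst : |a * (s - t)| ≤ Real.pi / 2)
    (h : flow a b s • x = flow a b t • x) : s = t := by
  have h1 : flow a b (s - t) • x = x := by
    rw [sub_eq_neg_add, flow_add, mul_smul, h, ← mul_smul, ← flow_add]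
    simp [flow_zero]
  have h2 := flow_smul_sub (a := a) (b := b) (s - t) x
  rw [h1, sub_self] at h2
  have h3 : EE a (s - t) = 0 := by
    rcases mul_eq_zero.1 h2.symm with h | h
    · exact h
    · exact absurd h hx
  linarith [EE_eq_zero h3 hst]

/-- a motion preserving `ham a b` and fixing a regular point is the identity -/
theorem eq_one_of_fix {g : Mot} {p : ℂ} (hp : grad a b p ≠ 0)
    (hg : ∀ z, ham a b (g • z) = ham a b z) (hgp : g • p = p) : g = 1 := by
  set G := grad a b p with hG
  have h1 : ∀ z : ℂ, g • z - p = g.u * (z - p) := by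
    intro z
    have := Mot.smul_sub_smul g z p
    rwa [hgp] at this
  have h2 : ∀ w : ℂ, (conj G * ((g.u : ℂ) * w)).re = (conj G * w).re := by
    intro w
    have e1 := ham_sub' a b (g • (p + w)) p
    have e2 := ham_sub' a b (p + w) p
    rw [hg, h1] at e1
    have e3 : p + w - p = w := by ring
    rw [e3] at e1 e2
    have e4 : Complex.normSq ((g.u : ℂ) * w) = Complex.normSq w := by
      rw [map_mul, Complex.normSq_eq_norm_sq, Circle.norm_coe]; ring
    rw [e4] at e1
    rw [← hG] at e1 e2
    linarith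
  have h3 : conj G * ((g.u : ℂ) - 1) = 0 := by
    apply Complex.ext
    · have := h2 1
      rw [mul_sub, Complex.sub_re]
      simp only [mul_one, Complex.zero_re] at this ⊢
      linarith
    · have := h2 Complex.I
      simp only [Complex.mul_re, Complex.mul_im, Complex.I_re, Complex.I_im, mul_zero, mul_one,
        zero_sub, zero_add, add_zero, Complex.conj_re, Complex.conj_im, Complex.sub_re,
        Complex.sub_im, Complex.one_re, Complex.one_im, sub_zero, Complex.zero_im] at this ⊢
      linarith
  have h4 : (g.u : ℂ) = 1 := by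
    rcases mul_eq_zero.1 h3 with h | h
    · exact absurd ((map_eq_zero _).1 h) hp
    · linear_combination h
  apply Mot.eq_of_two (z := p) (w := p + 1) (by simp)
  · rw [hgp, one_smul]
  · have := h1 (p + 1)
    rw [one_smul]
    rw [h4] at this
    linear_combination this

/-- a motion preserving `ham a b` belongs to the flow -/
theorem eq_flow {g : Mot} {p : ℂ} (hp : grad a b p ≠ 0)
    (hg : ∀ z, ham a b (g • z) = ham a b z) :
    ∃ s : ℝ, g = flow a b s ∧ |s| * ‖grad a b p‖ ≤ Real.pi / 2 * ‖g • p - p‖ := by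
  obtain ⟨s, hs1, hs2, -⟩ := exists_flow hp (hg p)
  refine ⟨s, ?_, hs2⟩
  have h1 : flow a b (-s) * g = 1 := by
    apply eq_one_of_fix hp
    · intro z
      rw [mul_smul, ham_flow, hg]
    · rw [mul_smul, ← hs1, ← mul_smul, ← flow_add]
      simp [flow_zero]
  rw [flow_neg, inv_mul_eq_one] at h1
  exact h1.symm

theorem EE_neg (a s : ℝ) : EE (-a) s = -EE a (-s) := by
  unfold EE
  rw [neg_mul, mul_neg]
  push_cast
  ring

theorem flow_neg_neg (s : ℝ) : flow (-a) (-b) s = flow a b (-s) := by
  unfold flow
  rw [EE_neg]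
  apply Mot.ext
  · simp only
    ring_nf
  · simp

end Pool.Agent.Lib.MP_ffe3a0_co
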