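import Pool.Agent.Lib.MP_ffe3a0_co.Through

/-!
The gap lemma: the opposite side of a level curve in the approximating tilings.
-/

set_option autoImplicit false
set_option linter.unusedSectionVars false

open Set Metric Filter Topology Pointwise ComplexConjugate

noncomputable section

namespace Pool.Agent.Lib.MP_ffe3a0_co

variable {ι : Type} [Finite ι] {Q : ι → Set ℂ} {U : Ultrafilter ℕ} {Tn : ℕ → Set (Set ℂ)}
  {T : Set (Set ℂ)} {d : Set ℂ → ℕ → Mot} {t t' : Set ℂ} {a : ℝ} {b : ℂ}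

theorem Rel.of_prop {a' : ℝ} {b' : ℂ} {l : ℝ} (R : Rel U d t t' a' b') (hab : |a| + ‖b‖ = 1)
    (h1 : a' = l * a) (h2 : b' = l * b) : Rel U d t t' a b := by
  have h3 := R.norm
  rw [h1, h2, abs_mul, norm_mul, Complex.norm_real, Real.norm_eq_abs, ← mul_add, hab,
    mul_one] at h3
  rcases (abs_eq zero_le_one).1 h3 with h4 | h4
  · rw [h4] at h1 h2
    have e1 : a' = a := by rw [h1]; ring
    have e2 : b' = b := by rw [h2]; simp
    rwa [e1, e2] at R
  · rw [h4] at h1 h2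
    have e1 : a' = -a := by rw [h1]; ring
    have e2 : b' = -b := by rw [h2]; simp
    rw [e1, e2] at R
    exact R.of_neg

namespace Sys

theorem finite_at (hQ : ∀ i, IsDisk (Q i)) (S : Sys Q U Tn T d) (p : ℂ) :
    {u ∈ T | p ∈ u}.Finite := by
  apply (S.h.finite_meet hQ {p} Bornology.isBounded_singleton).subset
  rintro u ⟨hu, hp⟩
  exact ⟨hu, p, hp, rfl⟩

theorem gap (hQ : ∀ i, IsDisk (Q i)) (S : Sys Q U Tn T d) {p : ℂ} (hG : grad a b p ≠ 0)
    (hab : |a| + ‖b‖ = 1) :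
    ∃ r > 0, ∀ᶠ n in U, ∀ y ∈ ball p r, ham a b y = ham a b p → y ∉ IsTiling.E3 (Tn n) →
      (∀ u ∈ T, p ∈ u → (d u n)⁻¹ • y ∉ IsTiling.E3 T) → ∀ w ∈ T, p ∈ w →
      Lo a b (d w n • w) y → ∃ u ∈ T, p ∈ u ∧ u ≠ w ∧ Lo (-a) (-b) (d u n • u) y ∧
        ((Sim U d u w ∧ d u n = d w n) ∨ ((∀ z, ham a b (d u n • z) = ham a b z) ∧
          ∃ v ∈ T, p ∈ v ∧ v ≠ u ∧ (d u n)⁻¹ • y ∈ v ∧ Rel U d u v a b)) := by
  have hK := S.finite_at hQ p
  obtain ⟨r₁, hr₁, n1, n2⟩ := S.near hQ p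
  -- a common radius for the contacts
  have hthr : ∃ r₂ > 0, ∀ u ∈ {u ∈ T | p ∈ u}, ∀ v ∈ {u ∈ T | p ∈ u}, ∀ z ∈ ball p r₂,
      ∀ a b, Rel U d u v a b → z ∈ u → z ∈ v → z ∉ IsTiling.E3 T →
        ham a b z = ham a b p := by
    have h1 : ∀ᶠ r₂ in 𝓝[>] (0 : ℝ), ∀ u ∈ {u ∈ T | p ∈ u}, ∀ v ∈ {u ∈ T | p ∈ u},
        ∀ z ∈ ball p r₂, ∀ a b, Rel U d u v a b → z ∈ u → z ∈ v → z ∉ IsTiling.E3 T →
        ham a b z = ham a b p := by
      rw [eventually_all_finite hK]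
      intro u hu
      rw [eventually_all_finite hK]
      intro v hv
      obtain ⟨r, hr, hh⟩ := S.through hQ hu.1 hv.1 hu.2 hv.2
      filter_upwards [Ioo_mem_nhdsGT hr] with r₂ hr₂ z hz
      exact hh z (ball_subset_ball hr₂.2.le hz)
    obtain ⟨r₂, h2, h3⟩ := (h1.and self_mem_nhdsWithin).exists
    exact ⟨r₂, h3, h2⟩
  obtain ⟨r₂, hr₂, n3⟩ := hthr
  obtain ⟨r₃, hr₃, n4⟩ := Metric.eventually_nhds_iff.1 (grad_ne_near hG)
  set ρ := min r₁ r₂ with hρ
  have hρpos : 0 < ρ := lt_min hr₁ hr₂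
  refine ⟨min (ρ / 2) r₃, by positivity, ?_⟩
  by_contra hcon
  rw [← Ultrafilter.eventually_not] at hcon
  have hinvlim : ∀ u ∈ T, Tendsto (fun n => (d u n)⁻¹) U (𝓝 1) := by
    intro u hu
    have := (S.lim u hu).inv
    rwa [inv_one] at this
  have hmove : ∀ᶠ n in U, ∀ u ∈ {u ∈ T | p ∈ u}, ∀ z ∈ ball p (ρ / 2), (d u n)⁻¹ • z ∈ ball p ρ := by
    rw [eventually_all_finite hK]
    intro u hu
    exact eventually_smul_mem_ball (hinvlim u hu.1) p (half_lt_self hρpos)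
  have hmem : ∀ᶠ n in U, ∀ u ∈ {u ∈ T | p ∈ u}, d u n • u ∈ Tn n := by
    rw [eventually_all_finite hK]
    intro u hu
    exact S.mem u hu.1
  -- extract the data
  have key : ∀ᶠ n in U, ∃ w ∈ {u ∈ T | p ∈ u}, ∃ u ∈ {u ∈ T | p ∈ u}, ∃ v ∈ {u ∈ T | p ∈ u},
      ∃ y, y ∈ ball p (ρ / 2) ∧ ham a b y = ham a b p ∧ y ∉ IsTiling.E3 (Tn n) ∧
        (d u n)⁻¹ • y ∉ IsTiling.E3 T ∧ Lo a b (d w n • w) y ∧ Lo (-a) (-b) (d u n • u) y ∧
        u ≠ w ∧ v ≠ u ∧ (d u n)⁻¹ • y ∈ v ∧ grad a b y ≠ 0 ∧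
        ¬ ((Sim U d u w ∧ d u n = d w n) ∨ ((∀ z, ham a b (d u n • z) = ham a b z) ∧
          Rel U d u v a b)) := by
    filter_upwards [hcon, n2, hmove, hmem] with n c1 c2 c3 c4
    push Not at c1
    obtain ⟨y, hy, hyF, hyE, hyE', w, hw, hpw, hLo, c5⟩ := c1
    have hy1 : y ∈ ball p (ρ / 2) := ball_subset_ball (min_le_left _ _) hy
    have hy2 : grad a b y ≠ 0 := n4 (mem_ball.1 (ball_subset_ball (min_le_right _ _) hy))
    have hTn := S.hn n
    obtain ⟨s, hs, hsw, hys, hLs⟩ := hLo.exists_other hQ hTn (c4 w ⟨hw, hpw⟩) hy2 hyE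
    obtain ⟨u, hu, hpu, rfl⟩ := c2 s hs ⟨y, hys, ball_subset_closedBall (ball_subset_ball
      (show ρ / 2 ≤ r₁ by linarith [min_le_left r₁ r₂]) hy1)⟩
    have huw : u ≠ w := by rintro rfl; exact hsw rfl
    have hzu : (d u n)⁻¹ • y ∉ interior u := by
      intro hz
      apply hLs.ne_mem_interior (grad_neg_ne hy2)
      rw [Mot.smul_set_interior, mem_smul_set_iff_inv_smul_mem]
      exact hz
    obtain ⟨v, hv, hvu, hzv⟩ := S.h.exists_other hQ hzu
    have hpv : p ∈ v := by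
      apply n1 v hv
      refine ⟨_, hzv, ball_subset_closedBall (ball_subset_ball (min_le_left r₁ r₂) ?_)⟩
      exact c3 u ⟨hu, hpu⟩ y hy1
    refine ⟨w, ⟨hw, hpw⟩, u, ⟨hu, hpu⟩, v, ⟨hv, hpv⟩, y, hy1, hyF, hyE, hyE' u hu hpu, hLo, hLs,
      huw, hvu, hzv, hy2, ?_⟩
    rintro (h6 | ⟨h6, h7⟩)
    · exact (c5 u hu hpu huw hLs).1 h6.1 h6.2
    · exact (c5 u hu hpu huw hLs).2 h6 v hv hpv hvu hzv h7
  obtain ⟨w, hw, key⟩ := (Ultrafilter.eventually_exists_mem_iff hK).1 key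
  obtain ⟨u, hu, key⟩ := (Ultrafilter.eventually_exists_mem_iff hK).1 key
  obtain ⟨v, hv, key⟩ := (Ultrafilter.eventually_exists_mem_iff hK).1 key
  have hfalse : ∀ᶠ _ in (U : Filter ℕ), False := by
    by_cases hsim : Sim U d u v
    · have hvw : v = w := by
        by_contra hvw
        have : ∀ᶠ _ in (U : Filter ℕ), False := by
          filter_upwards [key, hsim, S.inj hQ hv.1 hw.1 hvw, hmem] with n hn e1 e2 e3
          obtain ⟨y, -, -, hyE, -, hLo, hLs, huw, hvu, hzv, hGy, -⟩ := hn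
          apply hyE
          refine ⟨_, e3 w hw, _, e3 u hu, _, e3 v hv, ?_, e2.symm, ?_, hLo.mem, hLs.mem, ?_⟩
          · exact hLo.ne_neg hLs hGy
          · rw [← e1]
            intro e4
            exact hvu (smul_left_cancel _ e4).symm
          · rw [mem_smul_set_iff_inv_smul_mem, ← e1]
            exact hzv
        exact this.exists.choose_spec
      filter_upwards [key, hsim] with n hn e1
      obtain ⟨y, -, -, -, -, -, -, -, -, -, -, hno⟩ := hn
      apply hno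
      left
      rw [← hvw]
      exact ⟨hsim, e1⟩
    · obtain ⟨a', b', R⟩ := S.exists_rel hu.1 hv.1 hsim
      -- the general conclusion
      have concl : ∀ a'' b'', Rel U d u v a'' b'' →
          (∀ᶠ n in U, ∃ y, y ∈ ball p (ρ / 2) ∧ ham a b y = ham a b p ∧
            Lo (-a) (-b) (d u n • u) y ∧ (d u n)⁻¹ • y ∈ v ∧ (d u n)⁻¹ • y ∉ IsTiling.E3 T ∧
            grad a b y ≠ 0 ∧ Lo a'' b'' u ((d u n)⁻¹ • y)) →
          Rel U d u v a b ∧ ∀ᶠ n in U, ∀ z, ham a b (d u n • z) = ham a b z := by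
        intro a'' b'' R' hev
        have hab1 : |-a| + ‖-b‖ ≠ 0 := by rw [abs_neg, norm_neg, hab]; exact one_ne_zero
        have := alg (S.lim u hu.1) hab1 R'.norm_ne (c := -ham a b p)
          (c' := ham a'' b'' p) (by
            filter_upwards [hev, hmove] with n hn hm
            obtain ⟨y, y1, y2, y3, y4, y5, y6, y7⟩ := hn
            have hz := hm u hu y y1
            have e1 : ham a'' b'' ((d u n)⁻¹ • y) = ham a'' b'' p :=
              n3 u hu v hv _ (ball_subset_ball (min_le_right _ _) hz) a'' b'' R' y7.mem y4 y5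
            obtain ⟨l, hl⟩ := Lo.prop (a' := a'') (b' := b'') (c' := ham a'' b'' p) (g := d u n)
              hab1 (grad_neg_ne y6) y3 (by
                have := smul_nhds (g := d u n) y7
                rw [smul_inv_smul] at this
                filter_upwards [this] with z hz'
                rw [mem_smul_set_iff_inv_smul_mem, hz', e1])
            refine ⟨l, fun z => ?_⟩
            rw [hl z, ham_neg _ _ y, y2])
        obtain ⟨⟨l, -, l1, l2, -⟩, h2⟩ := this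
        refine ⟨R'.of_prop (l := -l) hab (by rw [l1]; ring) (by rw [l2]; push_cast; ring), ?_⟩
        filter_upwards [h2] with n hn z
        have := hn z
        rw [ham_neg, ham_neg] at this
        linarith
      have hor : ∀ᶠ n in U, (∃ y, y ∈ ball p (ρ / 2) ∧ ham a b y = ham a b p ∧
            Lo (-a) (-b) (d u n • u) y ∧ (d u n)⁻¹ • y ∈ v ∧ (d u n)⁻¹ • y ∉ IsTiling.E3 T ∧
            grad a b y ≠ 0 ∧ Lo a' b' u ((d u n)⁻¹ • y)) ∨
          (∃ y, y ∈ ball p (ρ / 2) ∧ ham a b y = ham a b p ∧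
            Lo (-a) (-b) (d u n • u) y ∧ (d u n)⁻¹ • y ∈ v ∧ (d u n)⁻¹ • y ∉ IsTiling.E3 T ∧
            grad a b y ≠ 0 ∧ Lo (-a') (-b') u ((d u n)⁻¹ • y)) := by
        filter_upwards [key] with n hn
        obtain ⟨y, y1, y2, -, y4, -, y6, -, y8, y9, y10, -⟩ := hn
        have hzu : (d u n)⁻¹ • y ∈ u := mem_smul_set_iff_inv_smul_mem.1 y6.mem
        rcases S.rel_Lo hQ hu.1 hv.1 R hzu y9 y4 with ⟨k1, -⟩ | ⟨k1, -⟩
        · left
          exact ⟨y, y1, y2, y6, y9, y4, y10, k1⟩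
        · right
          exact ⟨y, y1, y2, y6, y9, y4, y10, k1⟩
      have hfin : Rel U d u v a b ∧ ∀ᶠ n in U, ∀ z, ham a b (d u n • z) = ham a b z := by
        rcases Ultrafilter.eventually_or.1 hor with h | h
        · exact concl a' b' R h
        · exact concl (-a') (-b') R.neg h
      filter_upwards [key, hfin.2] with n hn e1
      obtain ⟨y, -, -, -, -, -, -, -, -, -, -, hno⟩ := hn
      exact hno (Or.inr ⟨e1, hfin.1⟩)
  exact hfalse.exists.choose_spec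

end Sys

end Pool.Agent.Lib.MP_ffe3a0_co
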