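import Pool.Agent.Lib.MP_ffe3a0_co.Tiling

/-!
Ultrafilter limits of tilings.
-/

set_option autoImplicit false
set_option linter.unusedSectionVars false

open Set Metric Filter Topology Pointwise

noncomputable section

namespace Pool.Agent.Lib.MP_ffe3a0_co

/-- `T` is the limit of the tilings `Tn n` along `U`, the tile `t` of `T` being displaced by
`d t n`. -/
structure Sys {ι : Type} (Q : ι → Set ℂ) (U : Ultrafilter ℕ) (Tn : ℕ → Set (Set ℂ))
    (T : Set (Set ℂ)) (d : Set ℂ → ℕ → Mot) : Prop where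
  hn : ∀ n, IsTiling Q (Tn n)
  h : IsTiling Q T
  lim : ∀ t ∈ T, Tendsto (d t) U (𝓝 1)
  mem : ∀ t ∈ T, ∀ᶠ n in U, d t n • t ∈ Tn n
  approx : ∀ W, IsCompact W → ∀ᶠ n in U, ∀ s ∈ Tn n, (s ∩ W).Nonempty →
    ∃ t ∈ T, (t ∩ W).Nonempty ∧ s = d t n • t

variable {ι : Type} [Finite ι] {Q : ι → Set ℂ} {U : Ultrafilter ℕ} {Tn : ℕ → Set (Set ℂ)}

theorem eventually_mem_interior {γ : ℕ → Mot} {g : Mot} (hγ : Tendsto γ U (𝓝 g)) {K : Set ℂ}
    {x : ℂ} (hx : x ∈ interior (g • K)) : ∀ᶠ n in U, x ∈ interior (γ n • K) := by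
  have h1 : Tendsto (fun n => (γ n)⁻¹ • x) U (𝓝 (g⁻¹ • x)) := hγ.inv.smul_const x
  rw [Mot.smul_set_interior, mem_smul_set_iff_inv_smul_mem] at hx
  filter_upwards [h1.eventually (isOpen_interior.mem_nhds hx)] with n hn
  rw [Mot.smul_set_interior, mem_smul_set_iff_inv_smul_mem]
  exact hn

theorem mem_of_tendsto_smul {γ : ℕ → Mot} {g : Mot} (hγ : Tendsto γ U (𝓝 g)) {K : Set ℂ}
    (hK : IsClosed K) {x : ℕ → ℂ} {y : ℂ} (hx : Tendsto x U (𝓝 y))
    (hm : ∀ᶠ n in U, x n ∈ γ n • K) : y ∈ g • K := by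
  have h1 : Tendsto (fun n => (γ n)⁻¹ • x n) U (𝓝 (g⁻¹ • y)) := hγ.inv.smul hx
  rw [mem_smul_set_iff_inv_smul_mem]
  apply hK.mem_of_tendsto h1
  filter_upwards [hm] with n hn
  exact mem_smul_set_iff_inv_smul_mem.1 hn

theorem smul_eq_of_tendsto {γ γ' : ℕ → Mot} {g g' : Mot} (hγ : Tendsto γ U (𝓝 g))
    (hγ' : Tendsto γ' U (𝓝 g')) {K K' : Set ℂ} (hK : IsClosed K) (hK' : IsClosed K')
    (he : ∀ᶠ n in U, γ n • K = γ' n • K') : g • K = g' • K' := by
  apply Subset.antisymm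
  · rintro _ ⟨k, hk, rfl⟩
    apply mem_of_tendsto_smul hγ' hK' (hγ.smul_const k)
    filter_upwards [he] with n hn
    rw [← hn]
    exact smul_mem_smul_set hk
  · rintro _ ⟨k, hk, rfl⟩
    apply mem_of_tendsto_smul hγ hK (hγ'.smul_const k)
    filter_upwards [he] with n hn
    rw [hn]
    exact smul_mem_smul_set hk

theorem exists_lim_tile (hQ : ∀ i, IsDisk (Q i)) (hn : ∀ n, IsTiling Q (Tn n))
    {s : ℕ → Set ℂ} (hs : ∀ᶠ n in U, s n ∈ Tn n) {x : ℕ → ℂ} (hx : ∀ᶠ n in U, x n ∈ s n) {C : ℝ}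
    (hC : ∀ᶠ n in U, ‖x n‖ ≤ C) :
    ∃ i, ∃ γ : ℕ → Mot, ∃ g, Tendsto γ U (𝓝 g) ∧ ∀ᶠ n in U, s n = γ n • Q i := by
  have h1 : ∀ n, ∃ g : Mot, ∀ i, (∃ k : Mot, s n = k • Q i) → True := fun n => ⟨1, fun _ _ => trivial⟩
  have h2 : ∀ᶠ n in U, ∃ i, ∃ k : Mot, s n = k • Q i := by
    filter_upwards [hs] with n hn'
    exact (hn n).tile _ hn'
  obtain ⟨i, hi⟩ := Ultrafilter.eventually_exists_iff.1 h2
  have h3 : ∀ n, ∃ k : Mot, (∃ k : Mot, s n = k • Q i) → s n = k • Q i := by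
    intro n
    by_cases hh : ∃ k : Mot, s n = k • Q i
    · obtain ⟨k, hk⟩ := hh
      exact ⟨k, fun _ => hk⟩
    · exact ⟨1, fun h' => absurd h' hh⟩
  choose γ hγ using h3
  have h4 : ∀ᶠ n in U, s n = γ n • Q i := by
    filter_upwards [hi] with n hn'
    exact hγ n hn'
  obtain ⟨R, hR⟩ := (hQ i).isCompact.isBounded.exists_norm_le
  obtain ⟨g, hg⟩ := Mot.exists_lim U γ (C + R) (by
    filter_upwards [h4, hx, hC] with n h5 h6 h7
    rw [h5] at h6
    obtain ⟨q, hq, hqx⟩ := h6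
    simp only [Mot.smul_def] at hqx
    have h8 : (γ n).b = x n - (γ n).u * q := by rw [← hqx]; ring
    rw [h8]
    calc ‖x n - (γ n).u * q‖ ≤ ‖x n‖ + ‖(γ n).u * q‖ := norm_sub_le _ _
      _ ≤ C + R := by
        rw [norm_mul, Circle.norm_coe, one_mul]
        exact add_le_add h7 (hR q hq))
  exact ⟨i, γ, g, hg, h4⟩

/-- Every sequence of tilings has an ultrafilter limit. -/
theorem exists_sys (hQ : ∀ i, IsDisk (Q i)) (hn : ∀ n, IsTiling Q (Tn n)) :
    ∃ T d, Sys Q U Tn T d := by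
  let IsLim : Set ℂ → Prop := fun t => ∃ i, ∃ γ : ℕ → Mot, ∃ g, Tendsto γ U (𝓝 g) ∧
    (∀ᶠ n in U, γ n • Q i ∈ Tn n) ∧ t = g • Q i
  have hdisk : ∀ (g : Mot) i, IsDisk (g • Q i) := fun g i => (hQ i).smul g
  -- uniqueness of nearby tiles
  have huniq : ∀ (i j : ι) (γ γ' : ℕ → Mot) (g g' : Mot), Tendsto γ U (𝓝 g) →
      Tendsto γ' U (𝓝 g') → (∀ᶠ n in U, γ n • Q i ∈ Tn n) → (∀ᶠ n in U, γ' n • Q j ∈ Tn n) →
      (∃ x, x ∈ interior (g • Q i) ∧ x ∈ interior (g' • Q j)) →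
      ∀ᶠ n in U, γ n • Q i = γ' n • Q j := by
    rintro i j γ γ' g g' hγ hγ' h1 h2 ⟨x, hx, hx'⟩
    filter_upwards [h1, h2, eventually_mem_interior hγ hx, eventually_mem_interior hγ' hx']
      with n a b c d
    exact (hn n).unique_of_interior hQ a b c (interior_subset d)
  let T : Set (Set ℂ) := {t | IsLim t}
  have hd : ∀ t, ∃ d : ℕ → Mot, t ∈ T → Tendsto d U (𝓝 1) ∧ ∀ᶠ n in U, d n • t ∈ Tn n := by
    intro t
    by_cases ht : t ∈ T
    · obtain ⟨i, γ, g, h1, h2, rfl⟩ := ht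
      refine ⟨fun n => γ n * g⁻¹, fun _ => ⟨?_, ?_⟩⟩
      · have := h1.mul_const g⁻¹
        rwa [mul_inv_cancel] at this
      · filter_upwards [h2] with n h3
        rw [smul_smul, inv_mul_cancel_right]
        exact h3
    · exact ⟨fun _ => 1, fun h => absurd h ht⟩
  choose d hd using hd
  refine ⟨T, d, hn, ⟨?_, ?_, ?_⟩, fun t ht => (hd t ht).1, fun t ht => (hd t ht).2, ?_⟩
  · rintro t ⟨i, γ, g, h1, h2, rfl⟩
    exact ⟨i, g, rfl⟩
  · rw [eq_univ_iff_forall]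
    intro x
    have h1 : ∀ n, ∃ s ∈ Tn n, x ∈ s := fun n => (hn n).exists_mem x
    choose s hs hxs using h1
    obtain ⟨i, γ, g, h2, h3⟩ := exists_lim_tile hQ hn (U := U) (s := s) (x := fun _ => x)
      (C := ‖x‖) (Eventually.of_forall hs) (Eventually.of_forall hxs)
      (Eventually.of_forall fun _ => le_rfl)
    refine ⟨g • Q i, ⟨i, γ, g, h2, ?_, rfl⟩, ?_⟩
    · filter_upwards [h3] with n h4
      rw [← h4]; exact hs n
    · apply mem_of_tendsto_smul h2 (hQ i).isClosed (tendsto_const_nhds (x := x))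
      filter_upwards [h3] with n h4
      rw [← h4]; exact hxs n
  · rintro _ ⟨i, γ, g, h1, h2, rfl⟩ _ ⟨j, γ', g', h1', h2', rfl⟩ hne
    rw [disjoint_left]
    intro x hx hx'
    apply hne
    exact smul_eq_of_tendsto h1 h1' (hQ i).isClosed (hQ j).isClosed
      (huniq i j γ γ' g g' h1 h1' h2 h2' ⟨x, hx, hx'⟩)
  · intro W hW
    by_contra hcon
    rw [← Ultrafilter.eventually_not] at hcon
    have h1 : ∀ n, ∃ s : Set ℂ, ∃ x : ℂ, (¬ ∀ s ∈ Tn n, (s ∩ W).Nonempty →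
        ∃ t ∈ T, (t ∩ W).Nonempty ∧ s = d t n • t) →
        s ∈ Tn n ∧ x ∈ s ∧ x ∈ W ∧ ∀ t ∈ T, (t ∩ W).Nonempty → s ≠ d t n • t := by
      intro n
      by_cases hh : ∀ s ∈ Tn n, (s ∩ W).Nonempty → ∃ t ∈ T, (t ∩ W).Nonempty ∧ s = d t n • t
      · exact ⟨∅, 0, fun h => absurd hh h⟩
      · push Not at hh
        obtain ⟨s, hs, ⟨x, hx1, hx2⟩, h⟩ := hh
        exact ⟨s, x, fun _ => ⟨hs, hx1, hx2, h⟩⟩
    choose s x hsx using h1
    have h2 : ∀ᶠ n in U, s n ∈ Tn n ∧ x n ∈ s n ∧ x n ∈ W ∧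
        ∀ t ∈ T, (t ∩ W).Nonempty → s n ≠ d t n • t := by
      filter_upwards [hcon] with n hn'
      exact hsx n hn'
    obtain ⟨C, hC⟩ := hW.isBounded.exists_norm_le
    obtain ⟨i, γ, g, h3, h4⟩ := exists_lim_tile hQ hn (h2.mono fun n h => h.1)
      (h2.mono fun n h => h.2.1) (C := C) (h2.mono fun n h => hC _ h.2.2.1)
    obtain ⟨y, hyW, hy⟩ := hW.ultrafilter_le_nhds' (U.map x) (by
      rw [Ultrafilter.mem_map]; exact h2.mono fun n h => h.2.2.1)
    have hy' : Tendsto x U (𝓝 y) := hy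
    have hyt : y ∈ g • Q i := by
      apply mem_of_tendsto_smul h3 (hQ i).isClosed hy'
      filter_upwards [h2, h4] with n h5 h6
      rw [← h6]; exact h5.2.1
    have hgT : g • Q i ∈ T := by
      refine ⟨i, γ, g, h3, ?_, rfl⟩
      filter_upwards [h2, h4] with n h5 h6
      rw [← h6]; exact h5.1
    obtain ⟨z, hz⟩ := (hdisk g i).isConnected_interior.nonempty
    have h5 := eventually_mem_interior h3 hz
    have h6 := eventually_mem_interior (hd _ hgT).1 (K := g • Q i) (x := z) (by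
      rw [one_smul]; exact hz)
    have h7 : ∀ᶠ _ in (U : Filter ℕ), False := by
      filter_upwards [h2, h4, h5, h6, (hd _ hgT).2] with n a b c e f
      apply a.2.2.2 _ hgT ⟨y, hyt, hyW⟩
      rw [b]
      rw [b] at a
      exact (hn n).unique_of_interior hQ a.1 f c (interior_subset e)
    exact h7.exists.choose_spec

/-- if displaced copies of `K` frequently meet a compact set, so does the limit -/
theorem eventually_not_meet {γ : ℕ → Mot} {g : Mot} (hγ : Tendsto γ U (𝓝 g)) {K W : Set ℂ}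
    (hK : IsClosed K) (hW : IsCompact W) (h : ¬ ((g • K) ∩ W).Nonempty) :
    ∀ᶠ n in U, ¬ ((γ n • K) ∩ W).Nonempty := by
  rw [Ultrafilter.eventually_not]
  intro hcon
  apply h
  have h1 : ∀ n, ∃ x : ℂ, ((γ n • K) ∩ W).Nonempty → x ∈ (γ n • K) ∩ W := by
    intro n
    by_cases hh : ((γ n • K) ∩ W).Nonempty
    · obtain ⟨x, hx⟩ := hh
      exact ⟨x, fun _ => hx⟩
    · exact ⟨0, fun h' => absurd h' hh⟩
  choose x hx using h1
  have h2 : ∀ᶠ n in U, x n ∈ (γ n • K) ∩ W := hcon.mono fun n h => hx n h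
  obtain ⟨y, hyW, hy⟩ := hW.ultrafilter_le_nhds' (U.map x) (by
    rw [Ultrafilter.mem_map]; exact h2.mono fun n h => h.2)
  exact ⟨y, mem_of_tendsto_smul hγ hK hy (h2.mono fun n h => h.1), hyW⟩

namespace Sys

variable {T : Set (Set ℂ)} {d : Set ℂ → ℕ → Mot}

theorem not_meet (hQ : ∀ i, IsDisk (Q i)) (S : Sys Q U Tn T d) {t : Set ℂ} (ht : t ∈ T)
    {W : Set ℂ} (hW : IsCompact W) (h : ¬ (t ∩ W).Nonempty) :
    ∀ᶠ n in U, ¬ ((d t n • t) ∩ W).Nonempty :=
  eventually_not_meet (S.lim t ht) ((S.h.tile t ht).isDisk hQ).isClosed hW (by rwa [one_smul])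

/-- conjugating a system by a sequence of motions tending to the identity -/
theorem conj (hQ : ∀ i, IsDisk (Q i)) (S : Sys Q U Tn T d) {g : ℕ → Mot}
    (hg : Tendsto g U (𝓝 1)) :
    Sys Q U (fun n => (g n)⁻¹ • Tn n) T (fun t n => (g n)⁻¹ * d t n) := by
  have hlim : ∀ t ∈ T, Tendsto (fun n => (g n)⁻¹ * d t n) U (𝓝 1) := by
    intro t ht
    have := hg.inv.mul (S.lim t ht)
    rwa [inv_one, one_mul] at this
  refine ⟨fun n => (S.hn n).smul _, S.h, hlim, ?_, ?_⟩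
  · intro t ht
    filter_upwards [S.mem t ht] with n hn
    exact ⟨d t n • t, hn, by simp only [mul_smul]⟩
  · intro W hW
    have hW' : IsCompact (cthickening 1 W) := hW.cthickening
    -- finitely many tiles meet the thickened set
    have hfin := S.h.finite_meet hQ (cthickening 1 W) hW'.isBounded
    -- the motions move points of the thickened set by at most one
    have hsmall : ∀ᶠ n in U, ∀ x ∈ W, g n • x ∈ cthickening 1 W := by
      obtain ⟨C, hC⟩ := hW.isBounded.exists_norm_le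
      rw [Mot.tendsto_iff] at hg
      have h1 : Tendsto (fun n => ‖((g n).u : ℂ) - 1‖ * |C| + ‖(g n).b‖) U
          (𝓝 (‖((1 : Mot).u : ℂ) - 1‖ * |C| + ‖(1 : Mot).b‖)) := by
        apply Tendsto.add
        · apply Tendsto.mul_const
          exact ((continuous_subtype_val.tendsto _).comp hg.1).sub_const 1 |>.norm
        · exact hg.2.norm
      have h2 : (‖((1 : Mot).u : ℂ) - 1‖ * |C| + ‖(1 : Mot).b‖) = 0 := by simp
      rw [h2] at h1
      filter_upwards [h1.eventually (ge_mem_nhds one_pos)] with n hn x hx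
      apply mem_cthickening_of_dist_le _ x _ _ hx
      rw [dist_eq_norm, Mot.smul_def]
      calc ‖(g n).u * x + (g n).b - x‖ = ‖(((g n).u : ℂ) - 1) * x + (g n).b‖ := by ring_nf
        _ ≤ ‖((g n).u : ℂ) - 1‖ * ‖x‖ + ‖(g n).b‖ := by
          refine (norm_add_le _ _).trans ?_
          rw [norm_mul]
        _ ≤ ‖((g n).u : ℂ) - 1‖ * |C| + ‖(g n).b‖ := by
          gcongr
          exact (hC x hx).trans (le_abs_self C)
        _ ≤ 1 := hn
    have hnm : ∀ᶠ n in U, ∀ t ∈ {t ∈ T | (t ∩ cthickening 1 W).Nonempty}, ¬ (t ∩ W).Nonempty →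
        ¬ ((((g n)⁻¹ * d t n) • t) ∩ W).Nonempty := by
      rw [eventually_all_finite hfin]
      rintro t ⟨ht, -⟩
      by_cases h : (t ∩ W).Nonempty
      · exact Eventually.of_forall fun n h' => absurd h h'
      · filter_upwards [eventually_not_meet (hlim t ht) ((S.h.tile t ht).isDisk hQ).isClosed hW
          (by rwa [one_smul])] with n hn _
        exact hn
    filter_upwards [S.approx _ hW', hsmall, hnm] with n h1 h2 h3
    rintro _ ⟨s, hs, rfl⟩ ⟨x, hx1, hx2⟩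
    simp only at hx1 ⊢
    rw [mem_smul_set_iff_inv_smul_mem, inv_inv] at hx1
    obtain ⟨t, ht, htW, rfl⟩ := h1 s hs ⟨g n • x, hx1, h2 x hx2⟩
    have e : (g n)⁻¹ • (d t n • t) = ((g n)⁻¹ * d t n) • t := by rw [mul_smul]
    refine ⟨t, ht, ?_, e⟩
    by_contra hcon
    apply h3 t ⟨ht, htW⟩ hcon
    refine ⟨x, ?_, hx2⟩
    rw [← e, mem_smul_set_iff_inv_smul_mem, inv_inv]
    exact hx1

/-- tiles of `Tn n` converging to a tile of the right shape: the limit is a tile of `T` -/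
theorem limit_mem (hQ : ∀ i, IsDisk (Q i)) (S : Sys Q U Tn T d) {γ : ℕ → Mot} {g : Mot}
    (hγ : Tendsto γ U (𝓝 g)) {K : Set ℂ} (hK : IsDisk K) (h : ∀ᶠ n in U, γ n • K ∈ Tn n) :
    g • K ∈ T ∧ ∀ᶠ n in U, γ n • K = d (g • K) n • (g • K) := by
  obtain ⟨x, hx⟩ := (hK.smul g).isConnected_interior.nonempty
  have h1 := eventually_mem_interior hγ hx
  have h2 : ∀ᶠ n in U, ∃ t ∈ {t ∈ T | (t ∩ {x}).Nonempty}, γ n • K = d t n • t := by
    filter_upwards [S.approx {x} isCompact_singleton, h, h1] with n h2 h3 h4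
    obtain ⟨t, ht, htx, e⟩ := h2 _ h3 ⟨x, interior_subset h4, rfl⟩
    exact ⟨t, ⟨ht, htx⟩, e⟩
  obtain ⟨t, ⟨ht, htx⟩, h3⟩ := (Ultrafilter.eventually_exists_mem_iff
    (S.h.finite_meet hQ {x} Bornology.isBounded_singleton)).1 h2
  have h4 : g • K = t := by
    have := smul_eq_of_tendsto hγ (S.lim t ht) hK.isClosed
      ((S.h.tile t ht).isDisk hQ).isClosed h3
    rwa [one_smul] at this
  rw [h4]
  exact ⟨ht, h3⟩

/-- The moving set: points common to two tiles with different displacements. -/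
def M (_S : Sys Q U Tn T d) : Set ℂ :=
  {x | ∃ t ∈ T, ∃ s ∈ T, x ∈ t ∧ x ∈ s ∧ ¬ ∀ᶠ n in U, d t n = d s n}

theorem isClosed_M (hQ : ∀ i, IsDisk (Q i)) (S : Sys Q U Tn T d) : IsClosed S.M := by
  rw [← isOpen_compl_iff, Metric.isOpen_iff]
  intro x hx
  obtain ⟨r, hr, hrs⟩ := S.h.exists_ball hQ x
  refine ⟨r, hr, ?_⟩
  rintro y hy ⟨t, ht, s, hs, hyt, hys, hne⟩
  exact hx ⟨t, ht, s, hs, hrs t ht ⟨y, hyt, ball_subset_closedBall hy⟩,
    hrs s hs ⟨y, hys, ball_subset_closedBall hy⟩, hne⟩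

end Sys

end Pool.Agent.Lib.MP_ffe3a0_co
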