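import Pool.Agent.Lib.MP_ffe3a0_co.Lo
import Pool.Agent.Lib.MP_ffe3a0_co.Sys

/-!
Good contacts: points lying in exactly two tiles which move differently.
-/

set_option autoImplicit false
set_option linter.unusedSectionVars false

open Set Metric Filter Topology Pointwise ComplexConjugate

noncomputable section

namespace Pool.Agent.Lib.MP_ffe3a0_co

theorem local_const {X : Type*} [TopologicalSpace X] {s : Set X} (hs : IsPreconnected s)
    {P : X → Prop} (h : ∀ x ∈ s, ∀ᶠ y in 𝓝[s] x, (P x ↔ P y)) {x y : X} (hx : x ∈ s)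
    (hy : y ∈ s) : P x ↔ P y :=
  hs.induction₂ (fun x y => P x ↔ P y) h (fun _ _ _ _ _ _ => Iff.trans)
    (fun _ _ _ _ => Iff.symm) hx hy

variable {ι : Type} [Finite ι] {Q : ι → Set ℂ} {U : Ultrafilter ℕ} {Tn : ℕ → Set (Set ℂ)}

namespace Sys

variable {T : Set (Set ℂ)} {d : Set ℂ → ℕ → Mot}

theorem isDisk (hQ : ∀ i, IsDisk (Q i)) (S : Sys Q U Tn T d) {t : Set ℂ} (ht : t ∈ T) :
    IsDisk t := (S.h.tile t ht).isDisk hQ

theorem inj (hQ : ∀ i, IsDisk (Q i)) (S : Sys Q U Tn T d) {t s : Set ℂ} (ht : t ∈ T)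
    (hs : s ∈ T) (hne : t ≠ s) : ∀ᶠ n in U, d t n • t ≠ d s n • s := by
  rw [Ultrafilter.eventually_not]
  intro hcon
  apply hne
  have := smul_eq_of_tendsto (S.lim t ht) (S.lim s hs) (S.isDisk hQ ht).isClosed
    (S.isDisk hQ hs).isClosed hcon
  rwa [one_smul, one_smul] at this

theorem near (hQ : ∀ i, IsDisk (Q i)) (S : Sys Q U Tn T d) (x : ℂ) :
    ∃ r > 0, (∀ s ∈ T, (s ∩ closedBall x r).Nonempty → x ∈ s) ∧
      ∀ᶠ n in U, ∀ s ∈ Tn n, (s ∩ closedBall x r).Nonempty → ∃ t ∈ T, x ∈ t ∧ s = d t n • t := by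
  obtain ⟨r, hr, hrs⟩ := S.h.exists_ball hQ x
  refine ⟨r, hr, hrs, ?_⟩
  filter_upwards [S.approx _ (isCompact_closedBall x r)] with n hn s hs hsr
  obtain ⟨t, ht, htr, e⟩ := hn s hs hsr
  exact ⟨t, ht, hrs t ht htr, e⟩

theorem eq_or_eq_of_not_E3 {x : ℂ} (hE : x ∉ IsTiling.E3 T) {t t' s : Set ℂ} (ht : t ∈ T)
    (ht' : t' ∈ T) (hne : t ≠ t') (hx : x ∈ t) (hx' : x ∈ t') (hs : s ∈ T) (hxs : x ∈ s) :
    s = t ∨ s = t' := by
  by_contra hcon
  push Not at hcon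
  exact hE ⟨t, ht, t', ht', s, hs, hne, hcon.1.symm, hcon.2.symm, hx, hx', hxs⟩

theorem good_eq (hQ : ∀ i, IsDisk (Q i)) (S : Sys Q U Tn T d) {t t' : Set ℂ} (ht : t ∈ T)
    (ht' : t' ∈ T) (hne : t ≠ t') {x : ℂ} (hx : x ∈ t) (hx' : x ∈ t')
    (hE : x ∉ IsTiling.E3 T) :
    ∃ r > 0, ∀ᶠ n in U, ∀ z ∈ ball x r, (z ∈ t' ↔ z ∈ ((d t n)⁻¹ * d t' n) • t') := by
  have S' := S.conj hQ (S.lim t ht)
  obtain ⟨r, hr, hr1, hr2⟩ := S'.near hQ x
  refine ⟨r, hr, ?_⟩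
  have hcl' := (S.isDisk hQ ht').isClosed
  filter_upwards [hr2, S'.mem t ht, S'.mem t' ht', S'.inj hQ ht ht' hne] with n h1 h2 h3 h4 z hz
  simp only [inv_mul_cancel, one_smul] at h2 h4
  set h := (d t n)⁻¹ * d t' n with hh
  have hTn := S'.hn n
  have hclh : IsClosed (h • t') := ((S.isDisk hQ ht').smul h).isClosed
  -- tiles near x
  have h5 : ∀ s ∈ (d t n)⁻¹ • Tn n, ∀ w ∈ ball x r, w ∈ s → s = t ∨ s = h • t' := by
    intro s hs w hw hws
    obtain ⟨u, hu, hxu, rfl⟩ := h1 s hs ⟨w, hws, ball_subset_closedBall hw⟩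
    rcases eq_or_eq_of_not_E3 hE ht ht' hne hx hx' hu hxu with e | e
    · left; rw [e]; simp
    · right; rw [e]
  have h6 : ∀ s ∈ T, ∀ w ∈ ball x r, w ∈ s → s = t ∨ s = t' := by
    intro s hs w hw hws
    exact eq_or_eq_of_not_E3 hE ht ht' hne hx hx' hs
      (hr1 s hs ⟨w, hws, ball_subset_closedBall hw⟩)
  constructor
  · intro hzt
    by_contra hzh
    rw [← (S.isDisk hQ ht').closure_interior, _root_.mem_closure_iff] at hzt
    obtain ⟨w, ⟨hw1, hw2⟩, hw3⟩ := hzt (ball x r ∩ (h • t')ᶜ)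
      (isOpen_ball.inter hclh.isOpen_compl) ⟨hz, hzh⟩
    obtain ⟨s, hs, hws⟩ := hTn.exists_mem w
    rcases h5 s hs w hw1 hws with e | e
    · rw [e] at hws
      exact hne (S.h.unique_of_interior hQ ht' ht hw3 hws).symm
    · rw [e] at hws
      exact hw2 hws
  · intro hzh
    by_contra hzt
    rw [← ((S.isDisk hQ ht').smul h).closure_interior, _root_.mem_closure_iff] at hzh
    obtain ⟨w, ⟨hw1, hw2⟩, hw3⟩ := hzh (ball x r ∩ t'ᶜ)
      (isOpen_ball.inter hcl'.isOpen_compl) ⟨hz, hzt⟩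
    obtain ⟨s, hs, hws⟩ := S.h.exists_mem w
    rcases h6 s hs w hw1 hws with e | e
    · rw [e] at hws
      exact h4 (hTn.unique_of_interior hQ h3 h2 hw3 hws).symm
    · rw [e] at hws
      exact hw2 hws

theorem tendsto_rel (S : Sys Q U Tn T d) {t t' : Set ℂ} (ht : t ∈ T) (ht' : t' ∈ T) :
    Tendsto (fun n => (d t n)⁻¹ * d t' n) U (𝓝 1) := by
  have := (S.lim t ht).inv.mul (S.lim t' ht')
  rwa [inv_one, one_mul] at this

theorem good_inv (hQ : ∀ i, IsDisk (Q i)) (S : Sys Q U Tn T d) {t t' : Set ℂ} (ht : t ∈ T)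
    (ht' : t' ∈ T) (hne : t ≠ t') {x : ℂ} (hx : x ∈ t) (hx' : x ∈ t')
    (hE : x ∉ IsTiling.E3 T) :
    ∃ r > 0, ∀ᶠ n in U, ∀ y ∈ ball x r, (y ∈ t' ↔ ((d t n)⁻¹ * d t' n) • y ∈ t') := by
  obtain ⟨r, hr, h1⟩ := S.good_eq hQ ht ht' hne hx hx' hE
  refine ⟨r / 2, half_pos hr, ?_⟩
  filter_upwards [h1, eventually_smul_mem_ball (S.tendsto_rel ht ht') x (half_lt_self hr)]
    with n h2 h3 y hy
  rw [h2 _ (h3 y hy), smul_mem_smul_set_iff]

/-- both tiles are locally unions of level arcs -/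
theorem good_level (hQ : ∀ i, IsDisk (Q i)) (S : Sys Q U Tn T d) {t t' : Set ℂ} (ht : t ∈ T)
    (ht' : t' ∈ T) (hne : t ≠ t') {x : ℂ} (hx : x ∈ t) (hx' : x ∈ t')
    (hE : x ∉ IsTiling.E3 T) {a : ℝ} {b : ℂ} (D : Dir U (fun n => (d t n)⁻¹ * d t' n) a b) :
    ∃ r > 0, ∀ y ∈ ball x r, grad a b y ≠ 0 → ∃ δ > 0, ∀ z ∈ ball y δ, ∀ z' ∈ ball y δ,
      ham a b z = ham a b z' → (z ∈ t' ↔ z' ∈ t') := by
  obtain ⟨r, hr, h1⟩ := S.good_inv hQ ht ht' hne hx hx' hE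
  refine ⟨r, hr, ?_⟩
  intro y hy hG
  obtain ⟨r', hr', hrr⟩ := Metric.isOpen_iff.1 (isOpen_ball (x := x) (ε := r)) y hy
  exact level_inv D hG (S.isDisk hQ ht').isClosed hr' (h1.mono fun n hn z hz => hn z (hrr hz))

theorem good_grad (hQ : ∀ i, IsDisk (Q i)) (S : Sys Q U Tn T d) {t t' : Set ℂ} (ht : t ∈ T)
    (ht' : t' ∈ T) (hne : t ≠ t') {x : ℂ} (hx : x ∈ t) (hx' : x ∈ t')
    (hE : x ∉ IsTiling.E3 T) {a : ℝ} {b : ℂ} (D : Dir U (fun n => (d t n)⁻¹ * d t' n) a b) :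
    grad a b x ≠ 0 := by
  intro hG
  obtain ⟨r, hr, h1⟩ := S.good_level hQ ht ht' hne hx hx' hE D
  have ha : a ≠ 0 := by
    intro ha
    have h2 := D.norm
    rw [grad, ha] at hG
    simp only [Complex.ofReal_zero, mul_zero, zero_mul, zero_add] at hG
    rw [ha, hG] at h2
    simp at h2
  have hF : ∀ y, ham a b y = ham a b x + a * ‖y - x‖ ^ 2 := by
    intro y
    have := ham_sub' a b y x
    rw [hG, Complex.normSq_eq_norm_sq] at this
    simp only [map_zero, zero_mul, Complex.zero_re, zero_add] at this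
    linarith
  have hd' := S.isDisk hQ ht'
  -- each small circle is contained in t' or disjoint from it
  have h2 : ∀ ρ, 0 < ρ → ρ < r → ∀ y ∈ sphere x ρ, ∀ z ∈ sphere x ρ, (y ∈ t' ↔ z ∈ t') := by
    intro ρ hρ hρr y hy z hz
    apply local_const (isPreconnected_sphere (by
      rw [Complex.rank_real_complex]; norm_num) x ρ) (P := fun y => y ∈ t') _ hy hz
    intro w hw
    have hwr : w ∈ ball x r := by rw [mem_ball, mem_sphere.1 hw]; exact hρr
    have hgw : grad a b w ≠ 0 := by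
      have := grad_sub a b w x
      rw [hG, sub_zero] at this
      rw [this]
      have hwx : w - x ≠ 0 := by
        intro e
        rw [mem_sphere, dist_eq_norm, e, norm_zero] at hw
        exact hρ.ne hw
      have : (a : ℂ) ≠ 0 := by exact_mod_cast ha
      simp [this, hwx]
    obtain ⟨δ, hδ, h3⟩ := h1 w hwr hgw
    rw [eventually_nhdsWithin_iff]
    filter_upwards [ball_mem_nhds w hδ] with v hv hvs
    apply h3 w (mem_ball_self hδ) v hv
    rw [hF w, hF v, ← dist_eq_norm, ← dist_eq_norm, mem_sphere.1 hw, mem_sphere.1 hvs]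
  -- t' meets every small circle
  obtain ⟨z₀, hz₀⟩ := hd'.isConnected_interior.nonempty
  have hz₀x : z₀ ≠ x := by
    rintro rfl
    exact hne (S.h.unique_of_interior hQ ht' ht hz₀ hx).symm
  have hpos : 0 < ‖z₀ - x‖ := norm_pos_iff.2 (sub_ne_zero.2 hz₀x)
  have h3 : ∀ ρ, 0 < ρ → ρ < ‖z₀ - x‖ → ∃ y ∈ t', y ∈ sphere x ρ := by
    intro ρ hρ hρz
    have hc : ContinuousOn (fun y : ℂ => ‖y - x‖) t' := by fun_prop
    have := hd'.isConnected.isPreconnected.intermediate_value hx' (interior_subset hz₀) hc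
    obtain ⟨y, hy, hyρ⟩ := this (show ρ ∈ Icc ‖x - x‖ ‖z₀ - x‖ by
      rw [sub_self, norm_zero]; exact ⟨hρ.le, hρz.le⟩)
    exact ⟨y, hy, by rw [mem_sphere, dist_eq_norm]; exact hyρ⟩
  -- hence x is interior
  have hint : x ∈ interior t' := by
    rw [mem_interior_iff_mem_nhds]
    filter_upwards [ball_mem_nhds x (lt_min hr hpos)] with y hy
    by_cases hyx : y = x
    · rw [hyx]; exact hx'
    · rw [mem_ball, lt_min_iff] at hy
      have hyd : 0 < dist y x := dist_pos.2 hyx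
      obtain ⟨z, hz1, hz2⟩ := h3 (dist y x) hyd hy.2
      exact (h2 (dist y x) hyd hy.1 z hz2 y rfl).1 hz1
  exact hne (S.h.unique_of_interior hQ ht' ht hint hx).symm

end Sys

/-- a disk which avoids a level near a point lies locally on one side -/
theorem side {K : Set ℂ} (hK : IsDisk K) {p : ℂ} (hp : p ∈ K) {F : ℂ → ℝ} (hF : Continuous F)
    {c ε : ℝ} (hε : 0 < ε) (hno : ∀ w ∈ ball p ε, w ∈ interior K → F w ≠ c) :
    ∃ δ > 0, (∀ w ∈ ball p δ, w ∈ interior K → F w < c) ∨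
      (∀ w ∈ ball p δ, w ∈ interior K → c < F w) := by
  obtain ⟨δ, hδ, h⟩ := hK.locally_connected p hp ε hε
  have key : ∀ w ∈ ball p δ, w ∈ interior K → ∀ v ∈ ball p δ, v ∈ interior K → F w < c →
      F v < c := by
    intro w hw hwK v hv hvK hwc
    obtain ⟨C, hC1, hC2, hC3, hC4⟩ := h w ⟨hwK, hw⟩ v ⟨hvK, hv⟩
    by_contra hvc
    push Not at hvc
    obtain ⟨u, huC, hu⟩ := hC2.intermediate_value hC3 hC4 hF.continuousOn ⟨hwc.le, hvc⟩
    exact hno u (hC1 huC).2 (hC1 huC).1 hu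
  by_cases hex : ∃ w ∈ ball p δ, w ∈ interior K ∧ F w < c
  · obtain ⟨w, hw, hwK, hwc⟩ := hex
    exact ⟨δ, hδ, Or.inl fun v hv hvK => key w hw hwK v hv hvK hwc⟩
  · push Not at hex
    have h1 : ∃ δ' > 0, δ' ≤ δ ∧ δ' ≤ ε := ⟨min δ ε, lt_min hδ hε, min_le_left _ _, min_le_right _ _⟩
    obtain ⟨δ', hδ', h2, h3⟩ := h1
    refine ⟨δ', hδ', Or.inr fun v hv hvK => ?_⟩
    exact lt_of_le_of_ne (hex v (ball_subset_ball h2 hv) hvK)
      (hno v (ball_subset_ball h3 hv) hvK).symm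

namespace Sys

variable {T : Set (Set ℂ)} {d : Set ℂ → ℕ → Mot}

theorem dir_swap {t t' : Set ℂ} {a : ℝ} {b : ℂ}
    (D : Dir U (fun n => (d t n)⁻¹ * d t' n) a b) :
    Dir U (fun n => (d t' n)⁻¹ * d t n) (-a) (-b) := by
  have := D.inv
  simpa [mul_inv_rev] using this

/-- Structure of good contacts. -/
theorem good_Lo (hQ : ∀ i, IsDisk (Q i)) (S : Sys Q U Tn T d) {t t' : Set ℂ} (ht : t ∈ T)
    (ht' : t' ∈ T) (hne : t ≠ t') {x : ℂ} (hx : x ∈ t) (hx' : x ∈ t')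
    (hE : x ∉ IsTiling.E3 T) {a : ℝ} {b : ℂ} (D : Dir U (fun n => (d t n)⁻¹ * d t' n) a b) :
    (Lo a b t x ∧ Lo (-a) (-b) t' x) ∨ (Lo (-a) (-b) t x ∧ Lo a b t' x) := by
  have hG := S.good_grad hQ ht ht' hne hx hx' hE D
  obtain ⟨r₁, hr₁, k1⟩ := S.good_level hQ ht ht' hne hx hx' hE D
  obtain ⟨r₂, hr₂, k2⟩ := S.good_level hQ ht' ht hne.symm hx' hx hE (dir_swap D)
  obtain ⟨δ₁, hδ₁, l1⟩ := k1 x (mem_ball_self hr₁) hG
  obtain ⟨δ₂, hδ₂, l2⟩ := k2 x (mem_ball_self hr₂) (grad_neg_ne hG)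
  obtain ⟨r, hr, hrs⟩ := S.h.exists_ball hQ x
  have hd := S.isDisk hQ ht
  have hd' := S.isDisk hQ ht'
  have e1 : ∀ z ∈ ball x δ₁, ham a b z = ham a b x → z ∈ t' := fun z hz e =>
    (l1 z hz x (mem_ball_self hδ₁) e).2 hx'
  have e2 : ∀ z ∈ ball x δ₂, ham a b z = ham a b x → z ∈ t := fun z hz e =>
    (l2 z hz x (mem_ball_self hδ₂) (by rw [ham_neg, ham_neg, e])).2 hx
  have hcov : ∀ z ∈ ball x r, z ∈ t ∨ z ∈ t' := by
    intro z hz
    obtain ⟨s, hs, hzs⟩ := S.h.exists_mem z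
    rcases eq_or_eq_of_not_E3 hE ht ht' hne hx hx' hs
      (hrs s hs ⟨z, hzs, ball_subset_closedBall hz⟩) with e | e
    · left; rw [← e]; exact hzs
    · right; rw [← e]; exact hzs
  obtain ⟨δ₃, hδ₃, s1⟩ := side hd hx (continuous_ham a b) (c := ham a b x) hδ₁
    (fun w hw hwt e => hne (S.h.unique_of_interior hQ ht ht' hwt (e1 w hw e)))
  obtain ⟨δ₄, hδ₄, s2⟩ := side hd' hx' (continuous_ham a b) (c := ham a b x) hδ₂
    (fun w hw hwt e => hne (S.h.unique_of_interior hQ ht' ht hwt (e2 w hw e)).symm)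
  -- closures
  have cl : ∀ K : Set ℂ, IsDisk K → ∀ δ : ℝ, (∀ w ∈ ball x δ, w ∈ interior K →
      ham a b w < ham a b x) → ∀ w ∈ ball x δ, w ∈ K → ham a b w ≤ ham a b x := by
    intro K hK δ h w hw hwK
    by_contra hcon
    push Not at hcon
    rw [← hK.closure_interior, _root_.mem_closure_iff] at hwK
    obtain ⟨v, ⟨v1, v2⟩, v3⟩ := hwK (ball x δ ∩ {v | ham a b x < ham a b v})
      (isOpen_ball.inter (isOpen_lt continuous_const (continuous_ham a b))) ⟨hw, hcon⟩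
    have := h v v1 v3
    exact absurd v2 (not_lt.2 this.le)
  have cl' : ∀ K : Set ℂ, IsDisk K → ∀ δ : ℝ, (∀ w ∈ ball x δ, w ∈ interior K →
      ham a b x < ham a b w) → ∀ w ∈ ball x δ, w ∈ K → ham a b x ≤ ham a b w := by
    intro K hK δ h w hw hwK
    by_contra hcon
    push Not at hcon
    rw [← hK.closure_interior, _root_.mem_closure_iff] at hwK
    obtain ⟨v, ⟨v1, v2⟩, v3⟩ := hwK (ball x δ ∩ {v | ham a b v < ham a b x})
      (isOpen_ball.inter (isOpen_lt (continuous_ham a b) continuous_const)) ⟨hw, hcon⟩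
    have := h v v1 v3
    exact absurd v2 (not_lt.2 this.le)
  have near : ∀ᶠ z in 𝓝 x, z ∈ ball x δ₁ ∧ z ∈ ball x δ₂ ∧ z ∈ ball x δ₃ ∧ z ∈ ball x δ₄ ∧
      z ∈ ball x r := by
    filter_upwards [ball_mem_nhds x hδ₁, ball_mem_nhds x hδ₂, ball_mem_nhds x hδ₃,
      ball_mem_nhds x hδ₄, ball_mem_nhds x hr] with z z1 z2 z3 z4 z5
    exact ⟨z1, z2, z3, z4, z5⟩
  rcases s1 with s1 | s1 <;> rcases s2 with s2 | s2
  · exfalso
    have c1 := cl t hd δ₃ s1
    have c2 := cl t' hd' δ₄ s2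
    obtain ⟨z, ⟨z1, z2, z3, z4, z5⟩, z6⟩ := exists_gt' hG near
    rcases hcov z z5 with h | h
    · exact absurd (c1 z z3 h) (not_le.2 z6)
    · exact absurd (c2 z z4 h) (not_le.2 z6)
  · left
    have c1 := cl t hd δ₃ s1
    have c2 := cl' t' hd' δ₄ s2
    constructor
    · filter_upwards [near] with z ⟨z1, z2, z3, z4, z5⟩
      refine ⟨c1 z z3, fun h => ?_⟩
      rcases h.lt_or_eq with h | h
      · rcases hcov z z5 with h' | h'
        · exact h'
        · exact absurd (c2 z z4 h') (not_le.2 h)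
      · exact e2 z z2 h
    · filter_upwards [near] with z ⟨z1, z2, z3, z4, z5⟩
      rw [ham_neg, ham_neg, neg_le_neg_iff]
      refine ⟨c2 z z4, fun h => ?_⟩
      rcases h.lt_or_eq with h | h
      · rcases hcov z z5 with h' | h'
        · exact absurd (c1 z z3 h') (not_le.2 h)
        · exact h'
      · exact e1 z z1 h.symm
  · right
    have c1 := cl' t hd δ₃ s1
    have c2 := cl t' hd' δ₄ s2
    constructor
    · filter_upwards [near] with z ⟨z1, z2, z3, z4, z5⟩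
      rw [ham_neg, ham_neg, neg_le_neg_iff]
      refine ⟨c1 z z3, fun h => ?_⟩
      rcases h.lt_or_eq with h | h
      · rcases hcov z z5 with h' | h'
        · exact h'
        · exact absurd (c2 z z4 h') (not_le.2 h)
      · exact e2 z z2 h.symm
    · filter_upwards [near] with z ⟨z1, z2, z3, z4, z5⟩
      refine ⟨c2 z z4, fun h => ?_⟩
      rcases h.lt_or_eq with h | h
      · rcases hcov z z5 with h' | h'
        · exact absurd (c1 z z3 h') (not_le.2 h)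
        · exact h'
      · exact e1 z z1 h
  · exfalso
    have c1 := cl' t hd δ₃ s1
    have c2 := cl' t' hd' δ₄ s2
    obtain ⟨z, ⟨z1, z2, z3, z4, z5⟩, z6⟩ := exists_lt hG near
    rcases hcov z z5 with h | h
    · exact absurd (c1 z z3 h) (not_le.2 z6)
    · exact absurd (c2 z z4 h) (not_le.2 z6)

/-- The relative motion preserves the invariant function. -/
theorem good_flow (hQ : ∀ i, IsDisk (Q i)) (S : Sys Q U Tn T d) {t t' : Set ℂ} (ht : t ∈ T)
    (ht' : t' ∈ T) (hne : t ≠ t') {x : ℂ} (hx : x ∈ t) (hx' : x ∈ t')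
    (hE : x ∉ IsTiling.E3 T) {a : ℝ} {b : ℂ} (D : Dir U (fun n => (d t n)⁻¹ * d t' n) a b) :
    ∀ᶠ n in U, ∀ z, ham a b (((d t n)⁻¹ * d t' n) • z) = ham a b z := by
  have hG := S.good_grad hQ ht ht' hne hx hx' hE D
  have hab : |a| + ‖b‖ ≠ 0 := by rw [D.norm]; exact one_ne_zero
  have hab' : |-a| + ‖-b‖ ≠ 0 := by rw [abs_neg, norm_neg]; exact hab
  obtain ⟨r, hr, h1⟩ := S.good_eq hQ ht ht' hne hx hx' hE
  rcases S.good_Lo hQ ht ht' hne hx hx' hE D with ⟨-, h2⟩ | ⟨-, h2⟩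
  · -- `t'` is the superlevel set
    obtain ⟨ρ, hρ, h2'⟩ := Metric.eventually_nhds_iff.1 h2
    have h3 : ∀ᶠ n in U, ∀ z ∈ ball x (ρ / 2), ((d t n)⁻¹ * d t' n)⁻¹ • z ∈ ball x ρ := by
      have : Tendsto (fun n => ((d t n)⁻¹ * d t' n)⁻¹) U (𝓝 1) := by
        have := (S.tendsto_rel ht ht').inv
        rwa [inv_one] at this
      exact eventually_smul_mem_ball this x (half_lt_self hρ)
    have := alg (S.tendsto_rel ht ht') hab' hab' (c := ham (-a) (-b) x) (c' := ham (-a) (-b) x) (by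
      filter_upwards [h1, h3] with n h4 h5
      obtain ⟨l, hl⟩ := Lo.prop (a' := -a) (b' := -b) (c' := ham (-a) (-b) x)
        (g := (d t n)⁻¹ * d t' n) hab' (grad_neg_ne hG) h2 (by
          filter_upwards [ball_mem_nhds x hr, ball_mem_nhds x (half_pos hρ)] with z z1 z2
          rw [h4 z z1, mem_smul_set_iff_inv_smul_mem]
          exact h2' (h5 z z2))
      exact ⟨l, hl⟩)
    filter_upwards [this.2] with n hn z
    have := hn z
    rw [ham_neg, ham_neg] at this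
    linarith
  · obtain ⟨ρ, hρ, h2'⟩ := Metric.eventually_nhds_iff.1 h2
    have h3 : ∀ᶠ n in U, ∀ z ∈ ball x (ρ / 2), ((d t n)⁻¹ * d t' n)⁻¹ • z ∈ ball x ρ := by
      have : Tendsto (fun n => ((d t n)⁻¹ * d t' n)⁻¹) U (𝓝 1) := by
        have := (S.tendsto_rel ht ht').inv
        rwa [inv_one] at this
      exact eventually_smul_mem_ball this x (half_lt_self hρ)
    have := alg (S.tendsto_rel ht ht') hab hab (c := ham a b x) (c' := ham a b x) (by
      filter_upwards [h1, h3] with n h4 h5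
      obtain ⟨l, hl⟩ := Lo.prop (a' := a) (b' := b) (c' := ham a b x)
        (g := (d t n)⁻¹ * d t' n) hab hG h2 (by
          filter_upwards [ball_mem_nhds x hr, ball_mem_nhds x (half_pos hρ)] with z z1 z2
          rw [h4 z z1, mem_smul_set_iff_inv_smul_mem]
          exact h2' (h5 z z2))
      exact ⟨l, hl⟩)
    exact this.2

end Sys

end Pool.Agent.Lib.MP_ffe3a0_co
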