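import Pool.Agent.Lib.MP_ffe3a0_co.Mot

/-!
Quadratic functions invariant under one-parameter groups of motions.
-/

set_option autoImplicit false
set_option linter.unusedSectionVars false

open Set Metric Filter Topology Pointwise ComplexConjugate

noncomputable section

namespace Pool.Agent.Lib.MP_ffe3a0_co

/-- the function `a |z|^2 + Re (conj b * z)` -/
def ham (a : ℝ) (b z : ℂ) : ℝ := a * Complex.normSq z + (conj b * z).re

/-- its gradient -/
def grad (a : ℝ) (b z : ℂ) : ℂ := 2 * a * z + b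

theorem ham_sub (a : ℝ) (b w z : ℂ) :
    ham a b w - ham a b z = (conj (a * (w + z) + b) * (w - z)).re := by
  simp [ham, Complex.normSq_apply]
  ring

theorem ham_sub' (a : ℝ) (b w z : ℂ) :
    ham a b w - ham a b z = (conj (grad a b z) * (w - z)).re + a * Complex.normSq (w - z) := by
  simp [ham, grad, Complex.normSq_apply]
  ring

theorem continuous_ham (a : ℝ) (b : ℂ) : Continuous (ham a b) := by
  unfold ham
  fun_prop

theorem grad_sub (a : ℝ) (b w z : ℂ) : grad a b w - grad a b z = 2 * a * (w - z) := by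
  simp [grad]; ring

theorem ham_smul (c a : ℝ) (b z : ℂ) : ham (c * a) (c * b) z = c * ham a b z := by
  simp [ham]; ring

theorem ham_neg (a : ℝ) (b z : ℂ) : ham (-a) (-b) z = - ham a b z := by
  simp [ham]; ring

theorem grad_neg (a : ℝ) (b z : ℂ) : grad (-a) (-b) z = - grad a b z := by
  simp [grad]; ring

/-- square root of the rotation part, in the right half plane -/
def hv (h : Mot) : ℂ := (1 + h.u) / ‖(1 : ℂ) + h.u‖

/-- coefficient of the invariant function of a motion -/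
def ha (h : Mot) : ℝ := (hv h).im

/-- coefficient of the invariant function of a motion -/
def hb (h : Mot) : ℂ := -(Complex.I * h.b * conj (hv h))

theorem one_add_u_ne_zero {h : Mot} (hu : (h.u : ℂ) ≠ -1) : (1 : ℂ) + h.u ≠ 0 := by
  intro e
  exact hu (by linear_combination e)

theorem hv_sq {h : Mot} (hu : (h.u : ℂ) ≠ -1) : hv h ^ 2 = h.u := by
  have h1 := one_add_u_ne_zero hu
  have h2 : (‖(1 : ℂ) + h.u‖ : ℂ) ^ 2 = (1 + h.u) * conj (1 + (h.u : ℂ)) := by
    rw [Complex.mul_conj, Complex.normSq_eq_norm_sq]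
    push_cast; rfl
  have h3 : conj (1 + (h.u : ℂ)) ≠ 0 := (map_ne_zero _).2 h1
  have h4 : (h.u : ℂ) * conj (h.u : ℂ) = 1 := by
    rw [Complex.mul_conj, Complex.normSq_eq_norm_sq, Circle.norm_coe]; simp
  rw [hv, div_pow, h2, sq, mul_div_mul_left _ _ h1, div_eq_iff h3]
  simp only [map_add, map_one]
  linear_combination -h4

theorem norm_hv {h : Mot} (hu : (h.u : ℂ) ≠ -1) : ‖hv h‖ = 1 := by
  have h1 := norm_ne_zero_iff.2 (one_add_u_ne_zero hu)
  rw [hv, norm_div, Complex.norm_real, norm_norm, div_self h1]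

theorem hv_re_pos {h : Mot} (hu : (h.u : ℂ) ≠ -1) : 0 < (hv h).re := by
  have h1 := norm_pos_iff.2 (one_add_u_ne_zero hu)
  rw [hv, Complex.div_ofReal_re]
  apply div_pos _ h1
  simp only [Complex.add_re, Complex.one_re]
  have h2 : ‖(h.u : ℂ)‖ = 1 := Circle.norm_coe _
  have h3 := Complex.abs_re_le_norm (h.u : ℂ)
  rw [h2] at h3
  have h4 : -1 ≤ (h.u : ℂ).re := (abs_le.1 h3).1
  rcases h4.lt_or_eq with h5 | h5
  · linarith
  · exfalso
    apply hu
    have h6 : Complex.normSq (h.u : ℂ) = 1 := by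
      rw [Complex.normSq_eq_norm_sq, h2]; norm_num
    rw [Complex.normSq_apply, ← h5] at h6
    have h7 : (h.u : ℂ).im = 0 := by nlinarith
    apply Complex.ext
    · simp [← h5]
    · simp [h7]

/-- the displacement of a point under a motion -/
theorem smul_sub_self {h : Mot} (hu : (h.u : ℂ) ≠ -1) (z : ℂ) :
    h • z - z = Complex.I * hv h * grad (ha h) (hb h) z := by
  have h1 := hv_sq hu
  have h2 : hv h * conj (hv h) = 1 := by
    rw [Complex.mul_conj, Complex.normSq_eq_norm_sq, norm_hv hu]; simp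
  have h3 : hv h - conj (hv h) = 2 * (ha h : ℂ) * Complex.I := by
    rw [Complex.sub_conj, ha]
    push_cast
    ring
  have h4 : Complex.I * Complex.I = -1 := Complex.I_mul_I
  rw [Mot.smul_def, grad, hb, ← h1]
  linear_combination (z * hv h) * h3 + (z - h.b) * h2 + (h.b * hv h * conj (hv h)) * h4

/-- the invariant function is invariant -/
theorem ham_smul_self {h : Mot} (hu : (h.u : ℂ) ≠ -1) (z : ℂ) :
    ham (ha h) (hb h) (h • z) = ham (ha h) (hb h) z := by
  have h1 := ham_sub' (ha h) (hb h) (h • z) z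
  have h2 := smul_sub_self hu z
  set G := grad (ha h) (hb h) z with hG
  rw [h2] at h1
  have h3 : Complex.normSq (Complex.I * hv h * G) = Complex.normSq G := by
    rw [map_mul, map_mul, Complex.normSq_I, one_mul, Complex.normSq_eq_norm_sq (hv h), norm_hv hu]
    ring
  have h4 : (conj G * (Complex.I * hv h * G)).re = - (ha h) * Complex.normSq G := by
    have : conj G * (Complex.I * hv h * G) = (Complex.normSq G : ℂ) * (Complex.I * hv h) := by
      rw [Complex.normSq_eq_conj_mul_self]; ring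
    rw [this, Complex.re_ofReal_mul, ha]
    simp
    ring
  rw [h3, h4] at h1
  linarith

/-- size of a motion -/
def nrm (h : Mot) : ℝ := |ha h| + ‖hb h‖

theorem nrm_nonneg (h : Mot) : 0 ≤ nrm h := by unfold nrm; positivity

theorem nrm_pos {h : Mot} (hu : (h.u : ℂ) ≠ -1) (hne : h ≠ 1) : 0 < nrm h := by
  rcases (nrm_nonneg h).lt_or_eq with h1 | h1
  · exact h1
  · exfalso
    apply hne
    have h2 : |ha h| = 0 := by
      have := abs_nonneg (ha h); have := norm_nonneg (hb h)
      unfold nrm at h1; linarith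
    have h3 : ‖hb h‖ = 0 := by
      have := abs_nonneg (ha h); have := norm_nonneg (hb h)
      unfold nrm at h1; linarith
    rw [abs_eq_zero] at h2
    rw [norm_eq_zero] at h3
    have h4 : ∀ z : ℂ, h • z = (1 : Mot) • z := by
      intro z
      have := smul_sub_self hu z
      rw [grad, h2, h3] at this
      rw [one_smul]
      simp at this
      linear_combination this
    exact Mot.eq_of_two (zero_ne_one) (h4 0) (h4 1)

theorem hv_one : hv 1 = 1 := by
  simp [hv]
  norm_num

theorem tendsto_hv {α : Type*} {l : Filter α} {h : α → Mot} (hh : Tendsto h l (𝓝 1)) :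
    Tendsto (fun n => hv (h n)) l (𝓝 1) := by
  rw [Mot.tendsto_iff] at hh
  have h1 : Tendsto (fun n => ((h n).u : ℂ)) l (𝓝 ((1 : Mot).u : ℂ)) :=
    (continuous_subtype_val.tendsto _).comp hh.1
  have h2 : Tendsto (fun n => (1 : ℂ) + (h n).u) l (𝓝 (1 + ((1 : Mot).u : ℂ))) :=
    tendsto_const_nhds.add h1
  have h3 : Tendsto (fun n => hv (h n)) l
      (𝓝 ((1 + ((1 : Mot).u : ℂ)) / (‖1 + ((1 : Mot).u : ℂ)‖ : ℝ))) := by
    unfold hv
    apply h2.div ((Complex.continuous_ofReal.tendsto _).comp h2.norm)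
    simp
  have h4 : (1 + ((1 : Mot).u : ℂ)) / (‖1 + ((1 : Mot).u : ℂ)‖ : ℝ) = 1 := hv_one
  rwa [h4] at h3

theorem tendsto_ha {α : Type*} {l : Filter α} {h : α → Mot} (hh : Tendsto h l (𝓝 1)) :
    Tendsto (fun n => ha (h n)) l (𝓝 0) := by
  have := (Complex.continuous_im.tendsto _).comp (tendsto_hv hh)
  rw [Complex.one_im] at this
  exact this

theorem tendsto_hb {α : Type*} {l : Filter α} {h : α → Mot} (hh : Tendsto h l (𝓝 1)) :
    Tendsto (fun n => hb (h n)) l (𝓝 0) := by
  have h1 := tendsto_hv hh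
  rw [Mot.tendsto_iff] at hh
  have h2 : Tendsto (fun n => -(Complex.I * (h n).b * conj (hv (h n)))) l
      (𝓝 (-(Complex.I * (1 : Mot).b * conj 1))) := by
    apply Tendsto.neg
    apply Tendsto.mul
    · exact hh.2.const_mul _
    · exact (Complex.continuous_conj.tendsto _).comp h1
  simpa [hb] using h2

theorem tendsto_nrm {α : Type*} {l : Filter α} {h : α → Mot} (hh : Tendsto h l (𝓝 1)) :
    Tendsto (fun n => nrm (h n)) l (𝓝 0) := by
  have := (tendsto_ha hh).abs.add (tendsto_hb hh).norm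
  simpa [nrm] using this

theorem eventually_u_ne {α : Type*} {l : Filter α} {h : α → Mot} (hh : Tendsto h l (𝓝 1)) :
    ∀ᶠ n in l, ((h n).u : ℂ) ≠ -1 := by
  rw [Mot.tendsto_iff] at hh
  have h1 : Tendsto (fun n => ((h n).u : ℂ)) l (𝓝 ((1 : Mot).u : ℂ)) :=
    (continuous_subtype_val.tendsto _).comp hh.1
  apply h1.eventually_ne
  simp
  norm_num

/-- `(a, b)` is the limit direction of the sequence `h`. -/
structure Dir (U : Ultrafilter ℕ) (h : ℕ → Mot) (a : ℝ) (b : ℂ) : Prop where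
  lim : Tendsto h U (𝓝 1)
  ne : ∀ᶠ n in U, h n ≠ 1
  norm : |a| + ‖b‖ = 1
  ta : Tendsto (fun n => ha (h n) / nrm (h n)) U (𝓝 a)
  tb : Tendsto (fun n => hb (h n) / (nrm (h n) : ℂ)) U (𝓝 b)

variable {U : Ultrafilter ℕ}

theorem exists_dir {h : ℕ → Mot} (hh : Tendsto h U (𝓝 1)) (hne : ∀ᶠ n in U, h n ≠ 1) :
    ∃ a b, Dir U h a b := by
  have hpos : ∀ᶠ n in U, 0 < nrm (h n) := by
    filter_upwards [eventually_u_ne hh, hne] with n h1 h2
    exact nrm_pos h1 h2
  let f : ℕ → ℝ × ℂ := fun n => (ha (h n) / nrm (h n), hb (h n) / (nrm (h n) : ℂ))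
  have hf : ∀ᶠ n in U, |(f n).1| + ‖(f n).2‖ = 1 := by
    filter_upwards [hpos] with n h1
    simp only [f]
    rw [abs_div, abs_of_pos h1, norm_div, Complex.norm_real, Real.norm_of_nonneg h1.le,
      ← add_div]
    exact div_self h1.ne'
  have hK : IsCompact (closedBall (0 : ℝ × ℂ) 1) := isCompact_closedBall _ _
  obtain ⟨⟨a, b⟩, -, hab⟩ := hK.ultrafilter_le_nhds' (U.map f) (by
    rw [Ultrafilter.mem_map]
    refine hf.mono fun n hn => ?_
    show f n ∈ closedBall (0 : ℝ × ℂ) 1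
    rw [mem_closedBall_zero_iff, Prod.norm_def, Real.norm_eq_abs]
    have := abs_nonneg (f n).1
    have := norm_nonneg (f n).2
    exact max_le (by linarith) (by linarith))
  have hab' : Tendsto f U (𝓝 (a, b)) := hab
  have ta : Tendsto (fun n => (f n).1) U (𝓝 a) := (continuous_fst.tendsto _).comp hab'
  have tb : Tendsto (fun n => (f n).2) U (𝓝 b) := (continuous_snd.tendsto _).comp hab'
  refine ⟨a, b, hh, hne, ?_, ta, tb⟩
  have h1 : Tendsto (fun n => |(f n).1| + ‖(f n).2‖) U (𝓝 (|a| + ‖b‖)) := ta.abs.add tb.norm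
  have h2 : Tendsto (fun n => |(f n).1| + ‖(f n).2‖) U (𝓝 1) := by
    apply Tendsto.congr' _ tendsto_const_nhds
    filter_upwards [hf] with n hn
    exact hn.symm
  exact tendsto_nhds_unique h1 h2

theorem ha_inv {h : Mot} : ha h⁻¹ = - ha h := by
  have h0 : ((h⁻¹).u : ℂ) = conj (h.u : ℂ) := by
    rw [Mot.inv_u, Circle.coe_inv, Complex.inv_def, Complex.normSq_eq_norm_sq, Circle.norm_coe]
    simp
  have h1 : (1 : ℂ) + (h⁻¹).u = conj (1 + (h.u : ℂ)) := by rw [h0]; simp
  have h2 : hv h⁻¹ = conj (hv h) := by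
    rw [hv, hv, h1, RCLike.norm_conj, map_div₀, Complex.conj_ofReal]
  rw [ha, ha, h2, Complex.conj_im]

theorem hv_inv {h : Mot} : hv h⁻¹ = conj (hv h) := by
  have h0 : ((h⁻¹).u : ℂ) = conj (h.u : ℂ) := by
    rw [Mot.inv_u, Circle.coe_inv, Complex.inv_def, Complex.normSq_eq_norm_sq, Circle.norm_coe]
    simp
  have h1 : (1 : ℂ) + (h⁻¹).u = conj (1 + (h.u : ℂ)) := by rw [h0]; simp
  rw [hv, hv, h1, RCLike.norm_conj, map_div₀, Complex.conj_ofReal]

theorem hb_inv {h : Mot} (hu : (h.u : ℂ) ≠ -1) : hb h⁻¹ = - hb h := by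
  have h0 : (((h.u)⁻¹ : Circle) : ℂ) = conj (h.u : ℂ) := by
    rw [Circle.coe_inv, Complex.inv_def, Complex.normSq_eq_norm_sq, Circle.norm_coe]
    simp
  have h2 : hv h * conj (hv h) = 1 := by
    rw [Complex.mul_conj, Complex.normSq_eq_norm_sq, norm_hv hu]; simp
  have h3 : conj (hv h) ^ 2 = conj (h.u : ℂ) := by
    rw [← map_pow, hv_sq hu]
  rw [hb, hb, hv_inv, Mot.inv_b, h0, ← h3, Complex.conj_conj]
  linear_combination (Complex.I * h.b * conj (hv h)) * h2

theorem Dir.inv {h : ℕ → Mot} {a : ℝ} {b : ℂ} (D : Dir U h a b) :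
    Dir U (fun n => (h n)⁻¹) (-a) (-b) := by
  have hn : ∀ᶠ n in U, nrm (h n)⁻¹ = nrm (h n) := by
    filter_upwards [eventually_u_ne D.lim] with n h1
    rw [nrm, nrm, ha_inv, hb_inv h1, abs_neg, norm_neg]
  refine ⟨by simpa using D.lim.inv, D.ne.mono fun n h => by simpa using h, by
    rw [abs_neg, norm_neg]; exact D.norm, ?_, ?_⟩
  · apply D.ta.neg.congr'
    filter_upwards [hn, eventually_u_ne D.lim] with n h1 h2
    rw [h1, ha_inv, neg_div]
  · apply D.tb.neg.congr'
    filter_upwards [hn, eventually_u_ne D.lim] with n h1 h2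
    rw [h1, hb_inv h2, neg_div]

end Pool.Agent.Lib.MP_ffe3a0_co
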