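import Pool.Agent.Lib.MP_ffe3a0_co.Ham

/-!
A closed set which is locally invariant under a sequence of motions tending to the identity is
locally a union of level arcs of the limiting invariant function.
-/

set_option autoImplicit false
set_option linter.unusedSectionVars false

open Set Metric Filter Topology Pointwise ComplexConjugate

noncomputable section

namespace Pool.Agent.Lib.MP_ffe3a0_co

/-- Local injectivity of the coordinates `(psi, F)`. -/
theorem coord_inj {a : ℝ} {b : ℂ} {x y y' : ℂ} (ha1 : |a| ≤ 1)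
    (hG : grad a b x ≠ 0) (hy : ‖y - x‖ ≤ ‖grad a b x‖ / 8) (hy' : ‖y' - x‖ ≤ ‖grad a b x‖ / 8)
    (hψ : (conj (Complex.I * grad a b x) * y).re = (conj (Complex.I * grad a b x) * y').re)
    (hF : ham a b y = ham a b y') : y = y' := by
  set G := grad a b x with hGdef
  have hGpos : 0 < ‖G‖ := norm_pos_iff.2 hG
  set w := y - y' with hw
  have h1 : (conj (Complex.I * G) * w).re = 0 := by
    rw [hw, mul_sub, Complex.sub_re, hψ, sub_self]
  have h2 : (conj (a * (y + y') + b) * w).re = 0 := by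
    rw [hw, ← ham_sub, hF, sub_self]
  -- conj G * w is real up to the imaginary part
  have h3 : (conj G * w).im = 0 := by
    have : conj (Complex.I * G) * w = -(Complex.I * (conj G * w)) := by
      rw [map_mul, Complex.conj_I]; ring
    rw [this] at h1
    simp only [Complex.neg_re, Complex.mul_re, Complex.I_re, Complex.I_im] at h1
    linarith
  have h4 : (conj G * w).re = -(conj (a * (y + y') + b - G) * w).re := by
    have : conj (a * (y + y') + b - G) * w = conj (a * (y + y') + b) * w - conj G * w := by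
      rw [map_sub]; ring
    rw [this, Complex.sub_re, h2]; ring
  have h5 : ‖conj G * w‖ = |(conj G * w).re| := by
    have : conj G * w = ((conj G * w).re : ℂ) := by
      apply Complex.ext
      · simp
      · rw [h3]; simp
    rw [this, Complex.norm_real]
    simp
  have h6 : ‖(a : ℂ) * (y + y') + b - G‖ ≤ ‖G‖ / 4 := by
    have : (a : ℂ) * (y + y') + b - G = a * ((y - x) + (y' - x)) := by
      rw [hGdef, grad]; ring
    rw [this, norm_mul, Complex.norm_real, Real.norm_eq_abs]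
    have h7 := norm_add_le (y - x) (y' - x)
    calc |a| * ‖y - x + (y' - x)‖ ≤ 1 * (‖G‖ / 8 + ‖G‖ / 8) := by
          apply mul_le_mul ha1 (by linarith) (norm_nonneg _) zero_le_one
      _ = ‖G‖ / 4 := by ring
  have h7 : ‖G‖ * ‖w‖ ≤ ‖G‖ / 4 * ‖w‖ := by
    calc ‖G‖ * ‖w‖ = ‖conj G * w‖ := by rw [norm_mul, RCLike.norm_conj]
      _ = |(conj (a * (y + y') + b - G) * w).re| := by rw [h5, h4, abs_neg]
      _ ≤ ‖conj (a * (y + y') + b - G) * w‖ := Complex.abs_re_le_norm _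
      _ ≤ ‖G‖ / 4 * ‖w‖ := by
        rw [norm_mul, RCLike.norm_conj]
        exact mul_le_mul_of_nonneg_right h6 (norm_nonneg _)
  have h8 : ‖w‖ = 0 := by
    have := norm_nonneg w
    nlinarith
  exact sub_eq_zero.1 (norm_eq_zero.1 h8)

variable {U : Ultrafilter ℕ}

/-- One step of a motion close to the identity. -/
theorem step_bound {h : ℕ → Mot} {a : ℝ} {b : ℂ} (D : Dir U h a b) {x : ℂ}
    (hG : grad a b x ≠ 0) :
    ∀ᶠ n in U, ∀ z, ‖z - x‖ ≤ ‖grad a b x‖ / 8 →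
      ‖h n • z - z - nrm (h n) * (Complex.I * grad a b x)‖ ≤ nrm (h n) * (‖grad a b x‖ / 2) := by
  set G := grad a b x with hGdef
  have hGpos : 0 < ‖G‖ := norm_pos_iff.2 hG
  -- uniform convergence of the normalised displacement
  set R := ‖G‖ / 8 with hR
  have ha1 : |a| ≤ 1 := by
    have h1 := D.norm
    have h2 := norm_nonneg b
    linarith
  have hb1 : ‖b‖ ≤ 1 := by
    have h1 := D.norm
    have h2 := abs_nonneg a
    linarith
  set C := ‖x‖ + R with hC
  have hCpos : 0 ≤ C := by positivity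
  have t1 : Tendsto (fun n => ‖(hv (h n) : ℂ) - 1‖ * (2 * C + 1) + 2 * |ha (h n) / nrm (h n) - a| * C
      + ‖hb (h n) / (nrm (h n) : ℂ) - b‖) U (𝓝 (‖(1 : ℂ) - 1‖ * (2 * C + 1) + 2 * |a - a| * C
      + ‖b - b‖)) := by
    apply Tendsto.add
    · apply Tendsto.add
      · exact ((tendsto_hv D.lim).sub_const 1).norm.mul_const _
      · exact ((D.ta.sub_const a).abs.const_mul 2).mul_const _
    · exact (D.tb.sub_const b).norm
  have t2 : (‖(1 : ℂ) - 1‖ * (2 * C + 1) + 2 * |a - a| * C + ‖b - b‖) = 0 := by simp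
  rw [t2] at t1
  have hpos : 0 < ‖G‖ / 4 := by positivity
  filter_upwards [t1.eventually (ge_mem_nhds hpos), eventually_u_ne D.lim, D.ne]
    with n hn hu hne z hz
  have hN := nrm_pos hu hne
  have hNc : (nrm (h n) : ℂ) ≠ 0 := by exact_mod_cast hN.ne'
  rw [smul_sub_self hu]
  have hzC : ‖z‖ ≤ C := by
    have : z = x + (z - x) := by ring
    rw [this]
    exact (norm_add_le _ _).trans (by rw [hC]; linarith)
  -- normalised quantities
  set v := hv (h n) with hv'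
  set an := ha (h n) / nrm (h n) with han
  set bn := hb (h n) / (nrm (h n) : ℂ) with hbn
  have e1 : (ha (h n) : ℂ) = nrm (h n) * an := by
    rw [han]; push_cast; field_simp
  have e2 : hb (h n) = nrm (h n) * bn := by
    rw [hbn]; field_simp
  have e3 : Complex.I * v * grad (ha (h n)) (hb (h n)) z - nrm (h n) * (Complex.I * G) =
      nrm (h n) * (Complex.I * ((v - 1) * (2 * an * z + bn) + 2 * (an - a) * z + (bn - b)
        + 2 * a * (z - x))) := by
    rw [grad, e1, e2, hGdef, grad]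
    ring
  rw [e3, norm_mul, Complex.norm_real, Real.norm_of_nonneg hN.le, norm_mul, Complex.norm_I, one_mul]
  apply mul_le_mul_of_nonneg_left _ hN.le
  have han1 : |an| ≤ 1 := by
    rw [han, abs_div, abs_of_pos hN, div_le_one hN]
    unfold nrm
    have := norm_nonneg (hb (h n))
    linarith
  have hbn1 : ‖bn‖ ≤ 1 := by
    rw [hbn, norm_div, Complex.norm_real, Real.norm_of_nonneg hN.le, div_le_one hN]
    unfold nrm
    have := abs_nonneg (ha (h n))
    linarith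
  have k1 : ‖(v - 1) * (2 * an * z + bn)‖ ≤ ‖v - 1‖ * (2 * C + 1) := by
    rw [norm_mul]
    apply mul_le_mul_of_nonneg_left _ (norm_nonneg _)
    refine (norm_add_le _ _).trans ?_
    have : ‖(2 : ℂ) * an * z‖ ≤ 2 * C := by
      rw [norm_mul, norm_mul, Complex.norm_real, Real.norm_eq_abs, Complex.norm_two]
      have := norm_nonneg z
      nlinarith [abs_nonneg an]
    linarith
  have k2 : ‖2 * ((an : ℂ) - a) * z‖ ≤ 2 * |an - a| * C := by
    rw [norm_mul, norm_mul, Complex.norm_two, ← Complex.ofReal_sub, Complex.norm_real,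
      Real.norm_eq_abs]
    exact mul_le_mul_of_nonneg_left hzC (by positivity)
  have k3 : ‖2 * (a : ℂ) * (z - x)‖ ≤ ‖G‖ / 4 := by
    rw [norm_mul, norm_mul, Complex.norm_two, Complex.norm_real, Real.norm_eq_abs]
    have := norm_nonneg (z - x)
    have := abs_nonneg a
    rw [hR] at hz
    nlinarith
  calc ‖(v - 1) * (2 * an * z + bn) + 2 * ((an : ℂ) - a) * z + (bn - b) + 2 * a * (z - x)‖
      ≤ ‖(v - 1) * (2 * an * z + bn)‖ + ‖2 * ((an : ℂ) - a) * z‖ + ‖bn - b‖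
        + ‖2 * (a : ℂ) * (z - x)‖ := by
        refine (norm_add_le _ _).trans ?_
        gcongr
        refine (norm_add_le _ _).trans ?_
        gcongr
        exact norm_add_le _ _
    _ ≤ ‖G‖ / 4 + ‖G‖ / 4 := by linarith
    _ = ‖G‖ / 2 := by ring

/-- iterate a motion until the first coordinate passes a given value -/
theorem walk {h : Mot} {N : ℝ} (hN : 0 < N) {ξ x : ℂ} (hξ : ξ ≠ 0) {R : ℝ}
    (hstep : ∀ z, ‖z - x‖ ≤ R → ‖h • z - z - N * ξ‖ ≤ N * (‖ξ‖ / 2)) {A : Set ℂ}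
    (hA : ∀ z ∈ A, ‖z - x‖ ≤ R → h • z ∈ A) {y y' : ℂ} (hy : y ∈ A) {δ : ℝ}
    (hyx : ‖y - x‖ ≤ δ) (hy'x : ‖y' - x‖ ≤ δ) (hR : 7 * δ ≤ R)
    (hψ : (conj ξ * y).re ≤ (conj ξ * y').re) :
    ∃ k : ℕ, h ^ k • y ∈ A ∧ ‖h ^ k • y - x‖ ≤ 7 * δ ∧
      (conj ξ * (h ^ k • y)).re ≤ (conj ξ * y').re ∧
      (conj ξ * y').re ≤ (conj ξ * (h ^ k • y)).re + N * (3 / 2 * ‖ξ‖ ^ 2) := by
  have hξpos : 0 < ‖ξ‖ := norm_pos_iff.2 hξ
  set ψ : ℂ → ℝ := fun z => (conj ξ * z).re with hψdef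
  -- one step
  have step : ∀ z, ‖z - x‖ ≤ R → N * ‖ξ‖ ^ 2 / 2 ≤ ψ (h • z) - ψ z ∧
      ψ (h • z) - ψ z ≤ N * (3 / 2 * ‖ξ‖ ^ 2) ∧ ‖h • z - z‖ ≤ 3 / 2 * N * ‖ξ‖ := by
    intro z hz
    have h1 := hstep z hz
    set e := h • z - z - N * ξ with he
    have h2 : h • z - z = N * ξ + e := by rw [he]; ring
    have h3 : ψ (h • z) - ψ z = N * ‖ξ‖ ^ 2 + (conj ξ * e).re := by
      have h4 : conj ξ * (h • z) - conj ξ * z = (N : ℂ) * (conj ξ * ξ) + conj ξ * e := by
        rw [← mul_sub, h2]; ring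
      have h5 : (conj ξ * ξ) = ((‖ξ‖ ^ 2 : ℝ) : ℂ) := by
        rw [Complex.conj_mul']; push_cast; rfl
      simp only [hψdef]
      rw [← Complex.sub_re, h4, h5, ← Complex.ofReal_mul, Complex.add_re, Complex.ofReal_re]
    have h6 : |(conj ξ * e).re| ≤ ‖ξ‖ * (N * (‖ξ‖ / 2)) := by
      refine (Complex.abs_re_le_norm _).trans ?_
      rw [norm_mul, RCLike.norm_conj]
      exact mul_le_mul_of_nonneg_left h1 (norm_nonneg _)
    have h7 := abs_le.1 h6
    refine ⟨by rw [h3]; nlinarith, by rw [h3]; nlinarith, ?_⟩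
    rw [h2]
    refine (norm_add_le _ _).trans ?_
    rw [norm_mul, Complex.norm_real, Real.norm_of_nonneg hN.le]
    linarith
  -- invariant
  have hdist : ψ y' - ψ y ≤ ‖ξ‖ * (2 * δ) := by
    have h1 : ψ y' - ψ y = (conj ξ * (y' - y)).re := by
      simp only [hψdef]; rw [mul_sub, Complex.sub_re]
    rw [h1]
    refine (Complex.re_le_norm _).trans ?_
    rw [norm_mul, RCLike.norm_conj]
    apply mul_le_mul_of_nonneg_left _ hξpos.le
    calc ‖y' - y‖ = ‖(y' - x) - (y - x)‖ := by ring_nf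
      _ ≤ ‖y' - x‖ + ‖y - x‖ := norm_sub_le _ _
      _ ≤ 2 * δ := by linarith
  have inv : ∀ k : ℕ, (∀ j ≤ k, ψ (h ^ j • y) ≤ ψ y') →
      h ^ k • y ∈ A ∧ ‖h ^ k • y - y‖ * ‖ξ‖ ≤ 3 * (ψ (h ^ k • y) - ψ y) ∧
      ψ y + k * (N * ‖ξ‖ ^ 2 / 2) ≤ ψ (h ^ k • y) := by
    intro k
    induction k with
    | zero => intro _; simp [hy]
    | succ k ih =>
      intro hk
      obtain ⟨h1, h2, h3⟩ := ih fun j hj => hk j (by omega)
      have h4 : ‖h ^ k • y - x‖ ≤ R := by
        have h5 := hk k (by omega)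
        have h6 : ‖h ^ k • y - y‖ * ‖ξ‖ ≤ 6 * δ * ‖ξ‖ := by nlinarith
        have h7 := le_of_mul_le_mul_right h6 hξpos
        calc ‖h ^ k • y - x‖ = ‖(h ^ k • y - y) + (y - x)‖ := by ring_nf
          _ ≤ ‖h ^ k • y - y‖ + ‖y - x‖ := norm_add_le _ _
          _ ≤ R := by linarith
      have h5 : h ^ (k + 1) • y = h • (h ^ k • y) := by rw [pow_succ', mul_smul]
      obtain ⟨s1, s2, s3⟩ := step _ h4
      rw [h5]
      refine ⟨hA _ h1 h4, ?_, ?_⟩
      · have h6 : ‖h • h ^ k • y - y‖ ≤ ‖h • h ^ k • y - h ^ k • y‖ + ‖h ^ k • y - y‖ := by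
          have : h • h ^ k • y - y = (h • h ^ k • y - h ^ k • y) + (h ^ k • y - y) := by ring
          rw [this]; exact norm_add_le _ _
        nlinarith
      · push_cast
        linarith
  -- the first time the value is passed
  have hex : ∃ k : ℕ, ¬ ψ (h ^ k • y) ≤ ψ y' := by
    by_contra hcon
    push Not at hcon
    have hc : 0 < N * ‖ξ‖ ^ 2 / 2 := by positivity
    obtain ⟨k, hk⟩ := exists_nat_gt ((ψ y' - ψ y) / (N * ‖ξ‖ ^ 2 / 2))
    rw [div_lt_iff₀ hc] at hk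
    have h1 := (inv k fun j _ => hcon j).2.2
    have h2 := hcon k
    linarith
  classical
  set m := Nat.find hex with hm
  have hm1 : ¬ ψ (h ^ m • y) ≤ ψ y' := Nat.find_spec hex
  have hm0 : m ≠ 0 := by
    intro e
    rw [e, pow_zero, one_smul] at hm1
    exact hm1 hψ
  obtain ⟨k, hk⟩ := Nat.exists_eq_succ_of_ne_zero hm0
  have hlt : ∀ j ≤ k, ψ (h ^ j • y) ≤ ψ y' := by
    intro j hj
    have h1 := Nat.find_min hex (m := j) (by rw [← hm]; omega)
    push Not at h1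
    exact h1
  obtain ⟨h1, h2, h3⟩ := inv k hlt
  have h5 := hlt k le_rfl
  have h4 : ‖h ^ k • y - x‖ ≤ 7 * δ := by
    have h6 : ‖h ^ k • y - y‖ * ‖ξ‖ ≤ 6 * δ * ‖ξ‖ := by nlinarith
    have h7 := le_of_mul_le_mul_right h6 hξpos
    calc ‖h ^ k • y - x‖ = ‖(h ^ k • y - y) + (y - x)‖ := by ring_nf
      _ ≤ ‖h ^ k • y - y‖ + ‖y - x‖ := norm_add_le _ _
      _ ≤ 7 * δ := by linarith
  refine ⟨k, h1, h4, h5, ?_⟩
  have h6 := (step _ (h4.trans hR)).2.1
  have h7 : h ^ m • y = h • (h ^ k • y) := by rw [hk, pow_succ', mul_smul]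
  rw [h7] at hm1
  push Not at hm1
  show ψ y' ≤ ψ (h ^ k • y) + _
  linarith

theorem tendsto_ham {α : Type*} {l : Filter α} {a' : α → ℝ} {b' z' : α → ℂ} {a : ℝ} {b z : ℂ}
    (ha : Tendsto a' l (𝓝 a)) (hb : Tendsto b' l (𝓝 b)) (hz : Tendsto z' l (𝓝 z)) :
    Tendsto (fun n => ham (a' n) (b' n) (z' n)) l (𝓝 (ham a b z)) := by
  unfold ham
  apply Tendsto.add
  · exact ha.mul ((Complex.continuous_normSq.tendsto _).comp hz)
  · exact (Complex.continuous_re.tendsto _).comp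
      (((Complex.continuous_conj.tendsto _).comp hb).mul hz)

theorem ham_pow_smul {h : Mot} (hu : (h.u : ℂ) ≠ -1) (k : ℕ) (z : ℂ) :
    ham (ha h) (hb h) (h ^ k • z) = ham (ha h) (hb h) z := by
  induction k with
  | zero => simp
  | succ k ih => rw [pow_succ', mul_smul, ham_smul_self hu, ih]

theorem ham_div {N : ℝ} (hN : N ≠ 0) (a : ℝ) (b z : ℂ) :
    ham (a / N) (b / (N : ℂ)) z = ham a b z / N := by
  have h1 := ham_smul N⁻¹ a b z
  rw [div_eq_inv_mul, div_eq_inv_mul, div_eq_inv_mul, ← h1, Complex.ofReal_inv]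

theorem level_forward {h : ℕ → Mot} {a : ℝ} {b : ℂ} (D : Dir U h a b) {x : ℂ}
    (hG : grad a b x ≠ 0) {A : Set ℂ} (hA : IsClosed A) {r : ℝ} (hr : 0 < r)
    (hinv : ∀ᶠ n in U, ∀ y ∈ ball x r, y ∈ A → h n • y ∈ A) :
    ∃ δ > 0, ∀ y ∈ ball x δ, ∀ y' ∈ ball x δ, ham a b y = ham a b y' →
      (conj (Complex.I * grad a b x) * y).re ≤ (conj (Complex.I * grad a b x) * y').re →
      y ∈ A → y' ∈ A := by
  set G := grad a b x with hGdef
  have hGpos : 0 < ‖G‖ := norm_pos_iff.2 hG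
  set R := min (‖G‖ / 8) (r / 2) with hR
  have hRpos : 0 < R := lt_min (by positivity) (by positivity)
  have hR1 : R ≤ ‖G‖ / 8 := min_le_left _ _
  have hR2 : R < r := (min_le_right _ _).trans_lt (by linarith)
  have hξ : Complex.I * G ≠ 0 := mul_ne_zero Complex.I_ne_zero hG
  have hξn : ‖Complex.I * G‖ = ‖G‖ := by rw [norm_mul, Complex.norm_I, one_mul]
  have ha1 : |a| ≤ 1 := by
    have h1 := D.norm
    have h2 := norm_nonneg b
    linarith
  refine ⟨R / 7, by positivity, ?_⟩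
  intro y hy y' hy' hF hψ hyA
  rw [mem_ball, dist_eq_norm] at hy hy'
  have key : ∀ᶠ n in U, ∃ w ∈ A, ‖w - x‖ ≤ R ∧
      |(conj (Complex.I * G) * w).re - (conj (Complex.I * G) * y').re| ≤
        nrm (h n) * (3 / 2 * ‖G‖ ^ 2) ∧
      ham (ha (h n) / nrm (h n)) (hb (h n) / (nrm (h n) : ℂ)) w =
        ham (ha (h n) / nrm (h n)) (hb (h n) / (nrm (h n) : ℂ)) y := by
    filter_upwards [step_bound D hG, eventually_u_ne D.lim, D.ne, hinv] with n h1 h2 h3 h4
    have hN := nrm_pos h2 h3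
    obtain ⟨k, k1, k2, k3, k4⟩ := walk hN hξ (R := R) (x := x) (h := h n)
      (fun z hz => by rw [hξn]; exact h1 z (hz.trans hR1))
      (A := A) (fun z hz hzR => h4 z (by rw [mem_ball, dist_eq_norm]; exact hzR.trans_lt hR2) hz)
      hyA hy.le hy'.le (by linarith) hψ
    refine ⟨h n ^ k • y, k1, by linarith, ?_, ?_⟩
    · rw [hξn] at k4
      rw [abs_le]
      constructor <;> nlinarith
    · rw [ham_div hN.ne', ham_div hN.ne', ham_pow_smul h2]
  have key2 : ∀ n, ∃ w : ℂ, (∃ w ∈ A, ‖w - x‖ ≤ R ∧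
      |(conj (Complex.I * G) * w).re - (conj (Complex.I * G) * y').re| ≤
        nrm (h n) * (3 / 2 * ‖G‖ ^ 2) ∧
      ham (ha (h n) / nrm (h n)) (hb (h n) / (nrm (h n) : ℂ)) w =
        ham (ha (h n) / nrm (h n)) (hb (h n) / (nrm (h n) : ℂ)) y) → (w ∈ A ∧ ‖w - x‖ ≤ R ∧
      |(conj (Complex.I * G) * w).re - (conj (Complex.I * G) * y').re| ≤
        nrm (h n) * (3 / 2 * ‖G‖ ^ 2) ∧
      ham (ha (h n) / nrm (h n)) (hb (h n) / (nrm (h n) : ℂ)) w =
        ham (ha (h n) / nrm (h n)) (hb (h n) / (nrm (h n) : ℂ)) y) := by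
    intro n
    by_cases hh : ∃ w ∈ A, ‖w - x‖ ≤ R ∧
      |(conj (Complex.I * G) * w).re - (conj (Complex.I * G) * y').re| ≤
        nrm (h n) * (3 / 2 * ‖G‖ ^ 2) ∧
      ham (ha (h n) / nrm (h n)) (hb (h n) / (nrm (h n) : ℂ)) w =
        ham (ha (h n) / nrm (h n)) (hb (h n) / (nrm (h n) : ℂ)) y
    · obtain ⟨w, hw⟩ := hh
      exact ⟨w, fun _ => hw⟩
    · exact ⟨0, fun h' => absurd h' hh⟩
  choose w hw using key2
  have key3 := key.mono fun n hn => hw n hn
  obtain ⟨w', -, hw'⟩ := (isCompact_closedBall x R).ultrafilter_le_nhds' (U.map w) (by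
    rw [Ultrafilter.mem_map]
    refine key3.mono fun n hn => ?_
    show w n ∈ closedBall x R
    rw [mem_closedBall, dist_eq_norm]
    exact hn.2.1)
  have tw : Tendsto w U (𝓝 w') := hw'
  have hwA : w' ∈ A := hA.mem_of_tendsto tw (key3.mono fun n hn => hn.1)
  have hwR : ‖w' - x‖ ≤ R := by
    have : w' ∈ closedBall x R := isClosed_closedBall.mem_of_tendsto tw
      (key3.mono fun n hn => by rw [mem_closedBall, dist_eq_norm]; exact hn.2.1)
    rwa [mem_closedBall, dist_eq_norm] at this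
  have hψw : (conj (Complex.I * G) * w').re = (conj (Complex.I * G) * y').re := by
    have t1 : Tendsto (fun n => |(conj (Complex.I * G) * w n).re -
        (conj (Complex.I * G) * y').re|) U
        (𝓝 |(conj (Complex.I * G) * w').re - (conj (Complex.I * G) * y').re|) :=
      (((Complex.continuous_re.tendsto _).comp (tw.const_mul _)).sub_const _).abs
    have t2 : Tendsto (fun n => nrm (h n) * (3 / 2 * ‖G‖ ^ 2)) U (𝓝 (0 * (3 / 2 * ‖G‖ ^ 2))) :=
      (tendsto_nrm D.lim).mul_const _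
    have h1 := le_of_tendsto_of_tendsto t1 t2 (key3.mono fun n hn => hn.2.2.1)
    rw [zero_mul] at h1
    have h2 := abs_nonneg ((conj (Complex.I * G) * w').re - (conj (Complex.I * G) * y').re)
    have h3 := abs_eq_zero.1 (le_antisymm h1 h2)
    linarith
  have hFw : ham a b w' = ham a b y := by
    have t1 := tendsto_ham D.ta D.tb tw
    have t2 := tendsto_ham D.ta D.tb (tendsto_const_nhds (x := y) (f := (U : Filter ℕ)))
    exact tendsto_nhds_unique_of_eventuallyEq t1 t2 (key3.mono fun n hn => hn.2.2.2)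
  have := coord_inj ha1 hG (hwR.trans hR1) (by linarith [hy'] : ‖y' - x‖ ≤ ‖G‖ / 8) hψw
    (hFw.trans hF)
  rw [← this]; exact hwA

/-- motions tending to the identity move bounded points uniformly little -/
theorem eventually_dist_smul_lt {α : Type*} {l : Filter α} {h : α → Mot}
    (hh : Tendsto h l (𝓝 1)) (C : ℝ) {ε : ℝ} (hε : 0 < ε) :
    ∀ᶠ n in l, ∀ z : ℂ, ‖z‖ ≤ C → ‖h n • z - z‖ < ε := by
  rw [Mot.tendsto_iff] at hh
  have h1 : Tendsto (fun n => ‖((h n).u : ℂ) - 1‖ * |C| + ‖(h n).b‖) l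
      (𝓝 (‖((1 : Mot).u : ℂ) - 1‖ * |C| + ‖(1 : Mot).b‖)) := by
    apply Tendsto.add
    · apply Tendsto.mul_const
      exact ((continuous_subtype_val.tendsto _).comp hh.1).sub_const 1 |>.norm
    · exact hh.2.norm
  have h2 : (‖((1 : Mot).u : ℂ) - 1‖ * |C| + ‖(1 : Mot).b‖) = 0 := by simp
  rw [h2] at h1
  filter_upwards [h1.eventually (gt_mem_nhds hε)] with n hn z hz
  rw [Mot.smul_def]
  calc ‖(h n).u * z + (h n).b - z‖ = ‖(((h n).u : ℂ) - 1) * z + (h n).b‖ := by ring_nf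
    _ ≤ ‖((h n).u : ℂ) - 1‖ * ‖z‖ + ‖(h n).b‖ := by
      refine (norm_add_le _ _).trans ?_
      rw [norm_mul]
    _ ≤ ‖((h n).u : ℂ) - 1‖ * |C| + ‖(h n).b‖ := by
      gcongr
      exact hz.trans (le_abs_self C)
    _ < ε := hn

theorem eventually_smul_mem_ball {α : Type*} {l : Filter α} {h : α → Mot}
    (hh : Tendsto h l (𝓝 1)) (x : ℂ) {r r' : ℝ} (hr : r < r') :
    ∀ᶠ n in l, ∀ z ∈ ball x r, h n • z ∈ ball x r' := by
  filter_upwards [eventually_dist_smul_lt hh (‖x‖ + r) (sub_pos.2 hr)] with n hn z hz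
  rw [mem_ball, dist_eq_norm] at hz ⊢
  have h1 : ‖z‖ ≤ ‖x‖ + r := by
    calc ‖z‖ = ‖x + (z - x)‖ := by ring_nf
      _ ≤ ‖x‖ + ‖z - x‖ := norm_add_le _ _
      _ ≤ ‖x‖ + r := by linarith
  calc ‖h n • z - x‖ = ‖(h n • z - z) + (z - x)‖ := by ring_nf
    _ ≤ ‖h n • z - z‖ + ‖z - x‖ := norm_add_le _ _
    _ < (r' - r) + r := add_lt_add (hn z h1) hz
    _ = r' := by ring

/-- A closed set which is locally invariant under motions tending to the identity is locally
a union of level arcs. -/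
theorem level_inv {h : ℕ → Mot} {a : ℝ} {b : ℂ} (D : Dir U h a b) {x : ℂ}
    (hG : grad a b x ≠ 0) {A : Set ℂ} (hA : IsClosed A) {r : ℝ} (hr : 0 < r)
    (hinv : ∀ᶠ n in U, ∀ y ∈ ball x r, (y ∈ A ↔ h n • y ∈ A)) :
    ∃ δ > 0, ∀ y ∈ ball x δ, ∀ y' ∈ ball x δ, ham a b y = ham a b y' → (y ∈ A ↔ y' ∈ A) := by
  obtain ⟨δ₁, hδ₁, H1⟩ := level_forward D hG hA hr
    (hinv.mono fun n hn y hy hyA => (hn y hy).1 hyA)
  have hG' : grad (-a) (-b) x ≠ 0 := by rw [grad_neg]; exact neg_ne_zero.2 hG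
  obtain ⟨δ₂, hδ₂, H2⟩ := level_forward D.inv hG' hA (half_pos hr) (by
    filter_upwards [hinv, eventually_smul_mem_ball D.inv.lim x (half_lt_self hr)]
      with n h1 h2 y hy hyA
    rw [h1 _ (h2 y hy), smul_inv_smul]
    exact hyA)
  refine ⟨min δ₁ δ₂, lt_min hδ₁ hδ₂, ?_⟩
  have main : ∀ y ∈ ball x (min δ₁ δ₂), ∀ y' ∈ ball x (min δ₁ δ₂), ham a b y = ham a b y' →
      y ∈ A → y' ∈ A := by
    intro y hy y' hy' hF hyA
    rcases le_total (conj (Complex.I * grad a b x) * y).re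
      (conj (Complex.I * grad a b x) * y').re with hψ | hψ
    · exact H1 y (ball_subset_ball (min_le_left _ _) hy) y'
        (ball_subset_ball (min_le_left _ _) hy') hF hψ hyA
    · apply H2 y (ball_subset_ball (min_le_right _ _) hy) y'
        (ball_subset_ball (min_le_right _ _) hy') _ _ hyA
      · rw [ham_neg, ham_neg, hF]
      · rw [grad_neg]
        simp only [mul_neg, map_neg, neg_mul, Complex.neg_re]
        linarith
  intro y hy y' hy' hF
  exact ⟨main y hy y' hy' hF, main y' hy' y hy hF.symm⟩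

end Pool.Agent.Lib.MP_ffe3a0_co
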