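import Pool.Agent.Lib.MP_ffe3a0_co.Quad

/-!
Tiles which are locally sublevel sets of a quadratic function.
-/

set_option autoImplicit false
set_option linter.unusedSectionVars false

open Set Metric Filter Topology Pointwise ComplexConjugate

noncomputable section

namespace Pool.Agent.Lib.MP_ffe3a0_co

/-- near `q`, the set `t` is the sublevel set of `ham a b` -/
def Lo (a : ℝ) (b : ℂ) (t : Set ℂ) (q : ℂ) : Prop :=
  ∀ᶠ z in 𝓝 q, (z ∈ t ↔ ham a b z ≤ ham a b q)

variable {a : ℝ} {b : ℂ} {t t' : Set ℂ} {q : ℂ}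

theorem Lo.mem (h : Lo a b t q) : q ∈ t := h.self_of_nhds.2 le_rfl

theorem Lo.near (h : Lo a b t q) : ∀ᶠ z in 𝓝 q, ham a b z = ham a b q → Lo a b t z := by
  filter_upwards [eventually_eventually_nhds.2 h] with z hz e
  exact hz.mono fun w hw => by rw [e]; exact hw

theorem Lo.near_mem (h : Lo a b t q) : ∀ᶠ z in 𝓝 q, ham a b z ≤ ham a b q → z ∈ t :=
  h.mono fun _ hz => hz.2

/-- points below the level are interior -/
theorem Lo.near_interior (h : Lo a b t q) :
    ∀ᶠ z in 𝓝 q, ham a b z < ham a b q → z ∈ interior t := by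
  filter_upwards [eventually_eventually_nhds.2 h] with z hz e
  rw [mem_interior_iff_mem_nhds]
  filter_upwards [hz, (continuous_ham a b).continuousAt.eventually (gt_mem_nhds e)] with w h1 h2
  exact h1.2 h2.le

theorem smul_nhds {g : Mot} {P : ℂ → Prop} (h : ∀ᶠ z in 𝓝 q, P z) :
    ∀ᶠ z in 𝓝 (g • q), P (g⁻¹ • z) := by
  have h1 : Tendsto (fun z : ℂ => g⁻¹ • z) (𝓝 (g • q)) (𝓝 q) := by
    have := (continuous_const_smul g⁻¹ : Continuous fun z : ℂ => g⁻¹ • z).tendsto (g • q)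
    rwa [inv_smul_smul] at this
  exact h1.eventually h

theorem smul_nhds' {g : Mot} {P : ℂ → Prop} (h : ∀ᶠ z in 𝓝 q, P z) :
    ∀ᶠ z in 𝓝 (g⁻¹ • q), P (g • z) := by
  have := smul_nhds (g := g⁻¹) h
  rwa [inv_inv] at this

theorem inv_inv_ham {g : Mot} (hg : ∀ z, ham a b (g • z) = ham a b z) (z : ℂ) :
    ham a b (g⁻¹ • z) = ham a b z := by
  rw [← hg (g⁻¹ • z), smul_inv_smul]

theorem Lo.smul {g : Mot} (hg : ∀ z, ham a b (g • z) = ham a b z) (h : Lo a b t q) :
    Lo a b (g • t) (g • q) := by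
  filter_upwards [smul_nhds (g := g) h] with z hz
  rw [mem_smul_set_iff_inv_smul_mem, hz, inv_inv_ham hg, hg]

theorem Lo.of_smul {g : Mot} (hg : ∀ z, ham a b (g • z) = ham a b z) (h : Lo a b (g • t) q) :
    Lo a b t (g⁻¹ • q) := by
  have := h.smul (g := g⁻¹) (inv_inv_ham hg)
  rwa [inv_smul_smul] at this

theorem ham_neg_smul {g : Mot} (hg : ∀ z, ham a b (g • z) = ham a b z) (z : ℂ) :
    ham (-a) (-b) (g • z) = ham (-a) (-b) z := by
  rw [ham_neg, ham_neg, hg]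

theorem exists_lt (hq : grad a b q ≠ 0) {s : Set ℂ} (hs : s ∈ 𝓝 q) :
    ∃ z ∈ s, ham a b z < ham a b q := by
  set G := grad a b q with hG
  have hpos : 0 < Complex.normSq G := Complex.normSq_pos.2 hq
  have h1 : Tendsto (fun ε : ℝ => q - ε * G) (𝓝[>] 0) (𝓝 q) := by
    have h2 : Continuous fun ε : ℝ => q - ε * G :=
      continuous_const.sub (Complex.continuous_ofReal.mul continuous_const)
    have h3 := (h2.tendsto 0).mono_left (nhdsWithin_le_nhds (s := Ioi 0))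
    simpa using h3
  have h4 : ∀ᶠ ε : ℝ in 𝓝[>] 0, a * ε < 1 := by
    have h5 : Tendsto (fun ε : ℝ => a * ε) (𝓝[>] 0) (𝓝 (a * 0)) :=
      ((continuous_const.mul continuous_id).tendsto 0).mono_left nhdsWithin_le_nhds
    rw [mul_zero] at h5
    exact h5.eventually (gt_mem_nhds one_pos)
  obtain ⟨ε, h5, h6, h7⟩ := ((h1.eventually hs).and (h4.and self_mem_nhdsWithin)).exists
  refine ⟨_, h5, ?_⟩
  have h8 := ham_sub' a b (q - ε * G) q
  have h9 : q - ε * G - q = -(ε * G) := by ring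
  have h7' : (0 : ℝ) < ε := h7
  rw [h9, ← hG] at h8
  have h10 : conj G * -(ε * G) = ((-(ε * Complex.normSq G) : ℝ) : ℂ) := by
    push_cast
    rw [Complex.normSq_eq_conj_mul_self]; ring
  rw [h10, Complex.ofReal_re, Complex.normSq_neg, Complex.normSq_mul, Complex.normSq_ofReal] at h8
  have h11 : 0 < Complex.normSq G * ε * (1 - a * ε) := by
    apply mul_pos (mul_pos hpos h7') (by linarith)
  nlinarith

theorem exists_gt' (hq : grad a b q ≠ 0) {s : Set ℂ} (hs : s ∈ 𝓝 q) :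
    ∃ z ∈ s, ham a b q < ham a b z := by
  obtain ⟨z, hz, h⟩ := exists_lt (a := -a) (b := -b) (q := q)
    (by rw [grad_neg]; exact neg_ne_zero.2 hq) hs
  rw [ham_neg, ham_neg] at h
  exact ⟨z, hz, by linarith⟩

theorem continuous_grad (a : ℝ) (b : ℂ) : Continuous (grad a b) := by
  unfold grad; fun_prop

theorem grad_ne_near (hq : grad a b q ≠ 0) : ∀ᶠ z in 𝓝 q, grad a b z ≠ 0 :=
  (continuous_grad a b).continuousAt.eventually_ne hq

theorem grad_neg_ne (hq : grad a b q ≠ 0) : grad (-a) (-b) q ≠ 0 := by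
  rw [grad_neg]; exact neg_ne_zero.2 hq

theorem Lo.ne_mem_interior (h : Lo a b t q) (hq : grad a b q ≠ 0) : q ∉ interior t := by
  intro hi
  rw [mem_interior_iff_mem_nhds] at hi
  obtain ⟨z, ⟨hz1, hz2⟩, hz3⟩ := exists_gt' hq (h.and hi)
  have := hz1.1 hz2
  linarith

/-- if a sublevel set coincides locally with another one, the level sets coincide -/
theorem level_coincide {H : ℂ → ℝ} (hH : Continuous H) {c' : ℝ} (hq : grad a b q ≠ 0)
    {W : Set ℂ} (h1 : Lo a b W q) (h2 : ∀ᶠ z in 𝓝 q, (z ∈ W ↔ H z ≤ c')) :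
    ∀ᶠ z in 𝓝 q, ham a b z = ham a b q → H z = c' := by
  filter_upwards [eventually_eventually_nhds.2 h1, eventually_eventually_nhds.2 h2,
    grad_ne_near hq] with z k1 k2 k3 e
  have e1 : H z ≤ c' := k2.self_of_nhds.1 (k1.self_of_nhds.2 e.le)
  by_contra hne
  have e2 : H z < c' := lt_of_le_of_ne e1 hne
  obtain ⟨w, ⟨w1, w2, w3⟩, w4⟩ := exists_gt' k3
    (k1.and (k2.and (hH.continuousAt.eventually (gt_mem_nhds e2))))
  have := w1.1 (w2.2 w3.le)
  linarith

theorem three_near (hq : grad a b q ≠ 0) {P : ℂ → Prop}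
    (hP : ∀ᶠ z in 𝓝 q, ham a b z = ham a b q → P z) :
    ∃ z₁ z₂ z₃ : ℂ, z₁ ≠ z₂ ∧ z₁ ≠ z₃ ∧ z₂ ≠ z₃ ∧ ham a b z₁ = ham a b q ∧
      ham a b z₂ = ham a b q ∧ ham a b z₃ = ham a b q ∧ P z₁ ∧ P z₂ ∧ P z₃ := by
  have h1 : Tendsto (fun s : ℝ => flow a b s • q) (𝓝 0) (𝓝 q) := by
    have h2 : Continuous fun s : ℝ => flow a b s • q := (continuous_flow a b).smul continuous_const
    have h3 := h2.tendsto 0
    rwa [flow_zero, one_smul] at h3
  have h2 : ∀ᶠ s : ℝ in 𝓝 0, P (flow a b s • q) :=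
    (h1.eventually hP).mono fun s hs => hs (ham_flow s q)
  have h3 : ∀ᶠ s : ℝ in 𝓝 0, |a * s| < 1 := by
    have h5 : Tendsto (fun ε : ℝ => |a * ε|) (𝓝 0) (𝓝 |a * 0|) :=
      ((continuous_const.mul continuous_id).abs.tendsto 0)
    rw [mul_zero, abs_zero] at h5
    exact h5.eventually (gt_mem_nhds one_pos)
  obtain ⟨ε, hε, h4⟩ := Metric.eventually_nhds_iff.1 (h2.and h3)
  have k0 := h4 (y := 0) (by simpa using hε)
  have k1 := h4 (y := ε / 2) (by rw [Real.dist_eq, sub_zero, abs_of_pos (half_pos hε)]; linarith)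
  have k2 := h4 (y := -(ε / 2)) (by
    rw [Real.dist_eq, sub_zero, abs_neg, abs_of_pos (half_pos hε)]; linarith)
  have hpi := Real.pi_gt_three
  have inj : ∀ s s' : ℝ, |a * s| < 1 → |a * s'| < 1/2 + 1/2 → s ≠ s' → |a * (s - s')| < 1 →
      flow a b s • q ≠ flow a b s' • q := by
    intro s s' _ _ hne h5 e
    exact hne (flow_inj hq (by linarith) e)
  have k3 : |a * (ε / 2)| < 1 := k1.2
  have k4 : |a * (3 * ε / 4)| < 1 :=
    (h4 (y := 3 * ε / 4) (by rw [Real.dist_eq, sub_zero, abs_of_pos (by linarith)]; linarith)).2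
  have k5 := h4 (y := ε / 4) (by rw [Real.dist_eq, sub_zero, abs_of_pos (by linarith)]; linarith)
  refine ⟨flow a b 0 • q, flow a b (ε / 2) • q, flow a b (ε / 4) • q, ?_, ?_, ?_, ham_flow _ _,
    ham_flow _ _, ham_flow _ _, k0.1, k1.1, k5.1⟩
  · intro e
    have := flow_inj hq (s := 0) (t := ε / 2) (by
      rw [zero_sub, mul_neg, abs_neg]; linarith) e
    linarith
  · intro e
    have := flow_inj hq (s := 0) (t := ε / 4) (by
      rw [zero_sub, mul_neg, abs_neg]; linarith [k5.2]) e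
    linarith
  · intro e
    have := flow_inj hq (s := ε / 2) (t := ε / 4) (by
      have : ε / 2 - ε / 4 = ε / 4 := by ring
      rw [this]; linarith [k5.2]) e
    linarith

/-- local coincidence of sublevel sets implies proportionality -/
theorem Lo.prop {a' : ℝ} {b' : ℂ} {c' : ℝ} {g : Mot} (hab : |a| + ‖b‖ ≠ 0)
    (hq : grad a b q ≠ 0) {W : Set ℂ} (h1 : Lo a b W q)
    (h2 : ∀ᶠ z in 𝓝 q, (z ∈ W ↔ ham a' b' (g⁻¹ • z) ≤ c')) :
    ∃ l : ℝ, ∀ z, ham a' b' (g⁻¹ • z) - c' = l * (ham a b z - ham a b q) := by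
  have hH : Continuous fun z : ℂ => ham a' b' (g⁻¹ • z) :=
    (continuous_ham a' b').comp (continuous_const_smul g⁻¹)
  obtain ⟨z₁, z₂, z₃, h12, h13, h23, e1, e2, e3, p1, p2, p3⟩ :=
    three_near hq (level_coincide hH hq h1 h2)
  rw [ham_inv_smul] at p1 p2 p3
  set k := ham a' b' (g⁻¹ • (0 : ℂ)) with hk
  obtain ⟨l, l1, l2, l3⟩ := three_pt (c' := c' - k) h12 h13 h23 hab e1 e2 e3 (by linarith)
    (by linarith) (by linarith)
  refine ⟨l, fun z => ?_⟩
  rw [ham_inv_smul, l2, ← hk]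
  have : ham a' (l * b) z = l * ham a b z := by rw [l1, ham_smul]
  rw [this]
  linarith

section

variable {ι : Type} [Finite ι] {Q : ι → Set ℂ} {T : Set (Set ℂ)}

theorem Lo.unique (hQ : ∀ i, IsDisk (Q i)) (h : IsTiling Q T) (ht : t ∈ T) (ht' : t' ∈ T)
    (h1 : Lo a b t q) (h2 : Lo a b t' q) (hq : grad a b q ≠ 0) : t = t' := by
  obtain ⟨z, ⟨z1, z2⟩, z3⟩ := exists_lt hq (h1.near_interior.and h2.near_interior)
  exact h.unique_of_interior hQ ht ht' (z1 z3) (interior_subset (z2 z3))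

theorem Lo.ne_neg (h1 : Lo a b t q) (h2 : Lo (-a) (-b) t' q) (hq : grad a b q ≠ 0) :
    t ≠ t' := by
  rintro rfl
  obtain ⟨z, ⟨z1, z2⟩, z3⟩ := exists_lt hq (h1.and h2)
  rw [ham_neg, ham_neg] at z2
  have := z2.1 (z1.2 z3.le)
  linarith

/-- at a point where two tiles are the two sides of a level curve, there is no other tile -/
theorem Lo.only_two (hQ : ∀ i, IsDisk (Q i)) (h : IsTiling Q T) (ht : t ∈ T) (ht' : t' ∈ T)
    (h1 : Lo a b t q) (h2 : Lo (-a) (-b) t' q) (hq : grad a b q ≠ 0) {s : Set ℂ} (hs : s ∈ T)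
    (hqs : q ∈ s) : s = t ∨ s = t' := by
  have hd := (h.tile s hs).isDisk hQ
  have h3 : q ∈ closure (interior s) := by rw [hd.closure_interior]; exact hqs
  rw [mem_closure_iff_nhds] at h3
  obtain ⟨z, ⟨z1, z2, z3⟩, z4⟩ := h3 _ (h1.near_interior.and (h2.near_interior.and
    (grad_ne_near hq)))
  have h5 : ∃ w ∈ interior s, ham a b w ≠ ham a b q ∧
      (ham a b w < ham a b q → w ∈ interior t) ∧
      (ham (-a) (-b) w < ham (-a) (-b) q → w ∈ interior t') := by
    by_cases e : ham a b z = ham a b q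
    · have h6 := (h1.near_interior.and h2.near_interior).and (grad_ne_near hq)
      obtain ⟨O, hO, hOo, hqO⟩ := _root_.mem_nhds_iff.1 h6
      have h3' : q ∈ closure (interior s) := by rw [hd.closure_interior]; exact hqs
      rw [_root_.mem_closure_iff] at h3'
      obtain ⟨z', hz'O, hz's⟩ := h3' O hOo hqO
      have hz'3 := (hO hz'O).2
      by_cases e' : ham a b z' = ham a b q
      · have hOi : O ∩ interior s ∈ 𝓝 z' := inter_mem (hOo.mem_nhds hz'O)
          (isOpen_interior.mem_nhds hz's)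
        obtain ⟨w, ⟨w1, w2⟩, w3⟩ := exists_lt hz'3 hOi
        exact ⟨w, w2, by rw [← e']; exact w3.ne, (hO w1).1.1, (hO w1).1.2⟩
      · exact ⟨z', hz's, e', (hO hz'O).1.1, (hO hz'O).1.2⟩
    · exact ⟨z, z4, e, z1, z2⟩
  obtain ⟨w, w1, w2, w3, w4⟩ := h5
  rcases lt_or_gt_of_ne w2 with e | e
  · left
    exact h.unique_of_interior hQ hs ht w1 (interior_subset (w3 e))
  · right
    exact h.unique_of_interior hQ hs ht' w1 (interior_subset (w4 (by
      rw [ham_neg, ham_neg]; linarith)))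

theorem Lo.not_E3 (hQ : ∀ i, IsDisk (Q i)) (h : IsTiling Q T) (ht : t ∈ T) (ht' : t' ∈ T)
    (h1 : Lo a b t q) (h2 : Lo (-a) (-b) t' q) (hq : grad a b q ≠ 0) : q ∉ IsTiling.E3 T := by
  rintro ⟨s, hs, u, hu, v, hv, h3, h4, h5, h6, h7, h8⟩
  rcases Lo.only_two hQ h ht ht' h1 h2 hq hs h6 with e1 | e1 <;>
  rcases Lo.only_two hQ h ht ht' h1 h2 hq hu h7 with e2 | e2 <;>
  rcases Lo.only_two hQ h ht ht' h1 h2 hq hv h8 with e3 | e3 <;> subst e1 <;> subst e2 <;>
    first | contradiction | (subst e3; contradiction)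

/-- the other side of a level curve -/
theorem Lo.exists_other (hQ : ∀ i, IsDisk (Q i)) (h : IsTiling Q T) (ht : t ∈ T)
    (h1 : Lo a b t q) (hq : grad a b q ≠ 0) (hE : q ∉ IsTiling.E3 T) :
    ∃ t' ∈ T, t' ≠ t ∧ q ∈ t' ∧ Lo (-a) (-b) t' q := by
  obtain ⟨t', ht', hne, hqt'⟩ := h.exists_other hQ (h1.ne_mem_interior hq)
  refine ⟨t', ht', hne, hqt', ?_⟩
  have hd := (h.tile t ht).isDisk hQ
  have hd' := (h.tile t' ht').isDisk hQ
  obtain ⟨r, hr, hrs⟩ := h.exists_ball hQ q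
  have hcov : ∀ᶠ z in 𝓝 q, z ∈ t ∨ z ∈ t' := by
    filter_upwards [closedBall_mem_nhds q hr] with z hz
    obtain ⟨s, hs, hzs⟩ := h.exists_mem z
    have hqs := hrs s hs ⟨z, hzs, hz⟩
    by_contra hcon
    push Not at hcon
    apply hE
    refine ⟨t, ht, t', ht', s, hs, hne.symm, ?_, ?_, h1.mem, hqt', hqs⟩
    · rintro rfl; exact hcon.1 hzs
    · rintro rfl; exact hcon.2 hzs
  filter_upwards [eventually_eventually_nhds.2 h1, eventually_eventually_nhds.2 hcov,
    h1.near_interior, grad_ne_near hq] with z k1 k2 k3 k4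
  rw [ham_neg, ham_neg, neg_le_neg_iff]
  constructor
  · intro hz
    by_contra hlt
    push Not at hlt
    exact not_mem_interior_of_disjoint hd' (h.disj t ht t' ht' hne.symm) hz (k3 hlt)
  · intro hz
    by_contra hzt'
    -- near z there are points above the level outside t
    have h5 : ∀ᶠ w in 𝓝 z, w ∉ t' := hd'.isClosed.isOpen_compl.mem_nhds hzt'
    obtain ⟨w, ⟨w1, w2, w3⟩, w4⟩ := exists_gt' k4 (k1.and (k2.and h5))
    rcases w2 with h6 | h6
    · have := w1.1 h6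
      linarith
    · exact w3 h6

end

end Pool.Agent.Lib.MP_ffe3a0_co
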