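import Mathlib

/-!
Continuous logarithms, periods of logarithms of loops, and invariance of domain in the plane.
-/

set_option autoImplicit false

open Set Metric Filter Topology

namespace Pool.Agent.Lib.MP_ffe3a0_co

/-- A continuous nonvanishing function on a simply connected, locally path connected space has a
continuous logarithm. -/
theorem exists_log {X : Type*} [TopologicalSpace X] [LocallyPathConnectedSpace X]
    [SimplyConnectedSpace X] (f : X → ℂ) (hf : Continuous f) (h0 : ∀ x, f x ≠ 0) :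
    ∃ g : X → ℂ, Continuous g ∧ ∀ x, Complex.exp (g x) = f x := by
  have x₀ : X := Classical.arbitrary X
  obtain ⟨g, hg, -⟩ := Complex.isCoveringMapOn_exp.existsUnique_continuousMap_lifts
    (f := ⟨f, hf⟩) (a₀ := x₀) (e₀ := Complex.log (f x₀)) (Complex.exp_log (h0 x₀))
    (fun a => h0 a)
  refine ⟨g, g.continuous, fun x => ?_⟩
  exact congrFun hg.2 x

/-- Two logarithms of the same function on a preconnected space differ by a constant. -/
theorem log_diff_const {X : Type*} [TopologicalSpace X] [PreconnectedSpace X]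
    (g h : X → ℂ) (hg : Continuous g) (hh : Continuous h)
    (e : ∀ x, Complex.exp (g x) = Complex.exp (h x)) (x y : X) :
    g x - h x = g y - h y := by
  -- the difference takes values in a discrete set
  have hd : ∀ x, ∃ n : ℤ, g x - h x = n * (2 * Real.pi * Complex.I) := by
    intro x
    have := Complex.exp_eq_exp_iff_exists_int.1 (e x)
    obtain ⟨n, hn⟩ := this
    exact ⟨n, by rw [hn]; ring⟩
  choose n hn using hd
  have hcont : Continuous fun x => (n x : ℝ) := by
    have h1 : (fun x => (n x : ℝ)) = fun x => ((g x - h x) / (2 * Real.pi * Complex.I)).re := by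
      funext x
      rw [hn x]
      have h2 : (2 * Real.pi * Complex.I : ℂ) ≠ 0 := by
        simp [Real.pi_ne_zero]
      rw [mul_div_assoc, div_self h2, mul_one]
      simp
    rw [h1]
    exact Complex.continuous_re.comp ((hg.sub hh).div_const _)
  have hcont' : Continuous n := by
    exact Int.isClosedEmbedding_coe_real.isEmbedding.continuous_iff.2 hcont
  have := PreconnectedSpace.constant ‹_› hcont' (x := x) (y := y)
  rw [hn x, hn y, this]

/-- `f` has a continuous logarithm on the line whose increment over `2π` is `c`. -/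
def HasPer (f : ℝ → ℂ) (c : ℂ) : Prop :=
  ∃ M : ℝ → ℂ, Continuous M ∧ (∀ θ, Complex.exp (M θ) = f θ) ∧ ∀ θ, M (θ + 2 * Real.pi) - M θ = c

theorem HasPer.unique {f : ℝ → ℂ} {c c' : ℂ} (h : HasPer f c) (h' : HasPer f c') : c = c' := by
  obtain ⟨M, hM, hMf, hMc⟩ := h
  obtain ⟨N, hN, hNf, hNc⟩ := h'
  have h1 := log_diff_const M N hM hN (fun x => by rw [hMf, hNf]) (2 * Real.pi) 0
  have h2 := hMc 0
  have h3 := hNc 0
  rw [zero_add] at h2 h3
  rw [← h2, ← h3]
  linear_combination h1

theorem hasPer_of_homotopy (F : ℝ × ℝ → ℂ) (hF : Continuous F) (h0 : ∀ x, F x ≠ 0)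
    (hper : ∀ s θ, F (s, θ + 2 * Real.pi) = F (s, θ)) :
    ∃ c, ∀ s, HasPer (fun θ => F (s, θ)) c := by
  obtain ⟨g, hg, hgF⟩ := exists_log F hF h0
  let shift : ℝ × ℝ → ℂ := fun x => g (x.1, x.2 + 2 * Real.pi)
  have hshift : Continuous shift := by
    apply hg.comp
    fun_prop
  have h1 := log_diff_const shift g hshift hg (fun x => by
    show Complex.exp (g (x.1, x.2 + 2 * Real.pi)) = _
    rw [hgF, hgF, hper])
  refine ⟨shift (0, 0) - g (0, 0), fun s => ⟨fun θ => g (s, θ), ?_, fun θ => hgF _, fun θ => ?_⟩⟩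
  · apply hg.comp
    fun_prop
  · exact h1 (s, θ) (0, 0)

theorem hasPer_odd (f : ℝ → ℂ) (hf : Continuous f) (h0 : ∀ x, f x ≠ 0)
    (hodd : ∀ θ, f (θ + Real.pi) = - f θ) : ∃ c, c ≠ 0 ∧ HasPer f c := by
  obtain ⟨g, hg, hgF⟩ := exists_log f hf h0
  -- increments over π
  have h1 := log_diff_const (fun θ => g (θ + Real.pi)) (fun θ => g θ + Real.pi * Complex.I)
    (by fun_prop) (by fun_prop) (fun x => by
      rw [hgF, Complex.exp_add, hgF, hodd, Complex.exp_pi_mul_I]
      ring)
  set d : ℂ := g (0 + Real.pi) - (g 0 + Real.pi * Complex.I) with hd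
  have hinc : ∀ θ, g (θ + Real.pi) - g θ = d + Real.pi * Complex.I := by
    intro θ
    have := h1 θ 0
    rw [hd]
    linear_combination this
  refine ⟨2 * (d + Real.pi * Complex.I), ?_, g, hg, hgF, ?_⟩
  · intro h
    have h2 : d + Real.pi * Complex.I = 0 := by
      have : (2 : ℂ) ≠ 0 := two_ne_zero
      exact (mul_eq_zero.1 h).resolve_left this
    have h3 := hinc 0
    rw [h2] at h3
    have h4 : g (0 + Real.pi) = g 0 := by linear_combination h3
    have h5 := hgF (0 + Real.pi)
    rw [h4, hgF, hodd] at h5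
    have h6 : (2 : ℂ) * f 0 = 0 := by linear_combination h5
    exact h0 0 ((mul_eq_zero.1 h6).resolve_left two_ne_zero)
  · intro θ
    have h2 := hinc θ
    have h3 := hinc (θ + Real.pi)
    have h4 : θ + 2 * Real.pi = θ + Real.pi + Real.pi := by ring
    rw [h4]
    linear_combination h2 + h3

/-- clamp to the unit interval -/
noncomputable def clamp (s : ℝ) : ℝ := max 0 (min 1 s)

theorem clamp_nonneg (s : ℝ) : 0 ≤ clamp s := le_max_left _ _
theorem clamp_le_one (s : ℝ) : clamp s ≤ 1 := max_le zero_le_one (min_le_left _ _)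
theorem clamp_zero : clamp 0 = 0 := by simp [clamp]
theorem clamp_one : clamp 1 = 1 := by simp [clamp]
theorem continuous_clamp : Continuous clamp := by unfold clamp; fun_prop

/-- the point of the unit circle with angle `θ` -/
noncomputable def cis (θ : ℝ) : ℂ := Complex.exp (θ * Complex.I)

theorem norm_cis (θ : ℝ) : ‖cis θ‖ = 1 := Complex.norm_exp_ofReal_mul_I θ

theorem continuous_cis : Continuous cis := by unfold cis; fun_prop

theorem cis_add_two_pi (θ : ℝ) : cis (θ + 2 * Real.pi) = cis θ := by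
  unfold cis
  push_cast
  rw [add_mul, Complex.exp_add]
  have : Complex.exp (2 * Real.pi * Complex.I) = 1 := Complex.exp_two_pi_mul_I
  rw [this, mul_one]

theorem cis_add_pi (θ : ℝ) : cis (θ + Real.pi) = - cis θ := by
  unfold cis
  push_cast
  rw [add_mul, Complex.exp_add, Complex.exp_pi_mul_I]
  ring

theorem cis_ne_zero (θ : ℝ) : cis θ ≠ 0 := Complex.exp_ne_zero _

theorem mem_closedBall_cis (θ : ℝ) : cis θ ∈ closedBall (0 : ℂ) 1 := by
  rw [mem_closedBall_zero_iff, norm_cis]

/-- The basic nonvanishing statement: for an injective continuous map of the closed unit disk, the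
boundary loop has nonzero period about the image of an interior point. -/
theorem hasPer_disk (φ : ℂ → ℂ) (hφ : Continuous φ) (hinj : InjOn φ (closedBall 0 1))
    (z₀ : ℂ) (hz₀ : z₀ ∈ ball (0 : ℂ) 1) :
    ∃ c, c ≠ 0 ∧ HasPer (fun θ => φ (cis θ) - φ z₀) c := by
  -- first homotopy: from the odd loop to the loop about `φ 0`
  let F : ℝ × ℝ → ℂ := fun x =>
    φ (cis x.2 * (1 / (1 + clamp x.1) : ℝ)) - φ (cis x.2 * (-(clamp x.1) / (1 + clamp x.1) : ℝ))
  have hpos : ∀ s, 0 < 1 + clamp s := fun s => by have := clamp_nonneg s; linarith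
  have hF : Continuous F := by
    have h1 : Continuous fun x : ℝ × ℝ => (1 / (1 + clamp x.1) : ℝ) := by
      apply Continuous.div continuous_const
      · exact (continuous_const.add (continuous_clamp.comp continuous_fst))
      · intro x; exact (hpos x.1).ne'
    have h2 : Continuous fun x : ℝ × ℝ => (-(clamp x.1) / (1 + clamp x.1) : ℝ) := by
      apply Continuous.div (continuous_clamp.comp continuous_fst).neg
      · exact (continuous_const.add (continuous_clamp.comp continuous_fst))
      · intro x; exact (hpos x.1).ne'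
    have h3 : Continuous fun x : ℝ × ℝ => cis x.2 := continuous_cis.comp continuous_snd
    exact (hφ.comp (h3.mul (Complex.continuous_ofReal.comp h1))).sub
      (hφ.comp (h3.mul (Complex.continuous_ofReal.comp h2)))
  have hmem : ∀ (θ t : ℝ), |t| ≤ 1 → cis θ * (t : ℝ) ∈ closedBall (0 : ℂ) 1 := by
    intro θ t ht
    rw [mem_closedBall_zero_iff, norm_mul, norm_cis, one_mul, Complex.norm_real]
    exact ht
  have hF0 : ∀ x, F x ≠ 0 := by
    intro x h
    have h1 : φ (cis x.2 * (1 / (1 + clamp x.1) : ℝ)) =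
      φ (cis x.2 * (-(clamp x.1) / (1 + clamp x.1) : ℝ)) := sub_eq_zero.1 h
    have hp := hpos x.1
    have hc := clamp_nonneg x.1
    have h2 := hinj (hmem _ _ (by
      rw [abs_of_nonneg (by positivity), div_le_one hp]; linarith)) (hmem _ _ (by
      rw [neg_div, abs_neg, abs_of_nonneg (by positivity), div_le_one hp]; linarith)) h1
    have h3 := mul_left_cancel₀ (cis_ne_zero _) h2
    have h4 : (1 / (1 + clamp x.1) : ℝ) = (-(clamp x.1) / (1 + clamp x.1) : ℝ) := by
      exact_mod_cast h3
    rw [div_left_inj' hp.ne'] at h4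
    linarith
  obtain ⟨c, hc⟩ := hasPer_of_homotopy F hF hF0 (fun s θ => by
    show φ (cis (θ + 2 * Real.pi) * _) - φ (cis (θ + 2 * Real.pi) * _) = _
    rw [cis_add_two_pi])
  obtain ⟨c', hc'0, hc'⟩ := hasPer_odd (fun θ => F (1, θ)) (hF.comp (by fun_prop))
    (fun θ => hF0 _) (fun θ => by
      show φ (cis (θ + Real.pi) * _) - φ (cis (θ + Real.pi) * _) =
        -(φ (cis θ * _) - φ (cis θ * _))
      rw [cis_add_pi]
      simp only [clamp_one]
      have e1 : -cis θ * ((1 / (1 + 1) : ℝ) : ℂ) = cis θ * ((-1 / (1 + 1) : ℝ) : ℂ) := by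
        push_cast; ring
      have e2 : -cis θ * ((-1 / (1 + 1) : ℝ) : ℂ) = cis θ * ((1 / (1 + 1) : ℝ) : ℂ) := by
        push_cast; ring
      rw [e1, e2]; ring)
  have hcc : c = c' := (hc 1).unique hc'
  -- second homotopy
  let G : ℝ × ℝ → ℂ := fun x => φ (cis x.2) - φ ((clamp x.1 : ℝ) * z₀)
  have hG : Continuous G := by
    apply (hφ.comp (continuous_cis.comp continuous_snd)).sub
    apply hφ.comp
    exact (Complex.continuous_ofReal.comp (continuous_clamp.comp continuous_fst)).mul
      continuous_const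
  have hz1 : ‖z₀‖ < 1 := mem_ball_zero_iff.1 hz₀
  have hlt : ∀ s, ‖((clamp s : ℝ) : ℂ) * z₀‖ < 1 := by
    intro s
    rw [norm_mul, Complex.norm_real, Real.norm_of_nonneg (clamp_nonneg s)]
    calc clamp s * ‖z₀‖ ≤ 1 * ‖z₀‖ := by gcongr; exact clamp_le_one s
      _ < 1 := by linarith
  have hG0 : ∀ x, G x ≠ 0 := by
    intro x h
    have h1 := hinj (mem_closedBall_cis _) (by
      rw [mem_closedBall_zero_iff]; exact (hlt x.1).le) (sub_eq_zero.1 h)
    have h2 := hlt x.1
    rw [← h1, norm_cis] at h2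
    exact lt_irrefl _ h2
  obtain ⟨c'', hc''⟩ := hasPer_of_homotopy G hG hG0 (fun s θ => by
    show φ (cis (θ + 2 * Real.pi)) - _ = _
    rw [cis_add_two_pi])
  have h0 : HasPer (fun θ => φ (cis θ) - φ 0) c := by
    have := hc 0
    simpa [F, clamp_zero] using this
  have h0' : HasPer (fun θ => φ (cis θ) - φ 0) c'' := by
    have := hc'' 0
    simpa [G, clamp_zero] using this
  have h1' : HasPer (fun θ => φ (cis θ) - φ z₀) c'' := by
    have := hc'' 1
    simpa [G, clamp_one] using this
  have : c'' = c := h0'.unique h0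
  exact ⟨c, by rw [hcc]; exact hc'0, by rw [← this]; exact h1'⟩

/-- radial retraction onto the closed unit disk -/
noncomputable def retr (z : ℂ) : ℂ := ((1 / max 1 ‖z‖ : ℝ) : ℂ) * z

theorem continuous_retr : Continuous retr := by
  unfold retr
  have h : Continuous fun z : ℂ => (1 / max 1 ‖z‖ : ℝ) := by
    apply Continuous.div continuous_const (by fun_prop)
    intro z
    have : (1 : ℝ) ≤ max 1 ‖z‖ := le_max_left _ _
    positivity
  exact (Complex.continuous_ofReal.comp h).mul continuous_id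

theorem retr_mem (z : ℂ) : retr z ∈ closedBall (0 : ℂ) 1 := by
  have h1 : (1 : ℝ) ≤ max 1 ‖z‖ := le_max_left _ _
  have h2 : ‖z‖ ≤ max 1 ‖z‖ := le_max_right _ _
  have h3 : 0 < max 1 ‖z‖ := by linarith
  rw [mem_closedBall_zero_iff, retr, norm_mul, Complex.norm_real,
    Real.norm_of_nonneg (by positivity), one_div, inv_mul_le_iff₀ h3, mul_one]
  exact h2

theorem retr_eq {z : ℂ} (hz : z ∈ closedBall (0 : ℂ) 1) : retr z = z := by
  have h1 : ‖z‖ ≤ 1 := mem_closedBall_zero_iff.1 hz
  rw [retr, max_eq_left h1]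
  simp

/-- A continuous function which does not vanish on the closed unit disk has a continuous logarithm
there. -/
theorem exists_log_disk (f : ℂ → ℂ) (hf : Continuous f)
    (h0 : ∀ z ∈ closedBall (0 : ℂ) 1, f z ≠ 0) :
    ∃ g : ℂ → ℂ, Continuous g ∧ ∀ z ∈ closedBall (0 : ℂ) 1, Complex.exp (g z) = f z := by
  obtain ⟨g, hg, hgf⟩ := exists_log (fun z => f (retr z)) (hf.comp continuous_retr)
    (fun z => h0 _ (retr_mem z))
  exact ⟨g, hg, fun z hz => by rw [hgf, retr_eq hz]⟩

/-- The boundary loop of a disk has period zero about points outside of the disk. -/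
theorem hasPer_outside (φ : ℂ → ℂ) (hφ : Continuous φ) (q : ℂ)
    (hq : q ∉ φ '' closedBall 0 1) : HasPer (fun θ => φ (cis θ) - q) 0 := by
  obtain ⟨g, hg, hgf⟩ := exists_log_disk (fun z => φ z - q) (hφ.sub continuous_const)
    (fun z hz h => hq ⟨z, hz, sub_eq_zero.1 h⟩)
  refine ⟨fun θ => g (cis θ), hg.comp continuous_cis, fun θ => hgf _ (mem_closedBall_cis θ),
    fun θ => ?_⟩
  show g (cis (θ + 2 * Real.pi)) - g (cis θ) = 0
  rw [cis_add_two_pi, sub_self]

/-- Invariance of domain for the open unit disk, local form. -/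
theorem ball_subset_image (φ : ℂ → ℂ) (hφ : Continuous φ) (hinj : InjOn φ (closedBall 0 1))
    (z₀ : ℂ) (hz₀ : z₀ ∈ ball (0 : ℂ) 1) (r : ℝ)
    (hr : ∀ θ : ℝ, r ≤ ‖φ (cis θ) - φ z₀‖) : ball (φ z₀) r ⊆ φ '' closedBall 0 1 := by
  intro q hq
  by_contra hqn
  have hqr : ‖q - φ z₀‖ < r := by rwa [mem_ball, dist_eq_norm] at hq
  let F : ℝ × ℝ → ℂ := fun x => φ (cis x.2) - (φ z₀ + (clamp x.1 : ℝ) * (q - φ z₀))
  have hF : Continuous F := by
    apply (hφ.comp (continuous_cis.comp continuous_snd)).sub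
    apply continuous_const.add
    exact (Complex.continuous_ofReal.comp (continuous_clamp.comp continuous_fst)).mul
      continuous_const
  have hF0 : ∀ x, F x ≠ 0 := by
    intro x h
    have h1 : φ (cis x.2) - φ z₀ = (clamp x.1 : ℝ) * (q - φ z₀) := by
      have : φ (cis x.2) - (φ z₀ + (clamp x.1 : ℝ) * (q - φ z₀)) = 0 := h
      linear_combination this
    have h2 := hr x.2
    rw [h1, norm_mul, Complex.norm_real, Real.norm_of_nonneg (clamp_nonneg _)] at h2
    have h3 : clamp x.1 * ‖q - φ z₀‖ ≤ 1 * ‖q - φ z₀‖ := by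
      gcongr; exact clamp_le_one _
    linarith
  obtain ⟨c, hc⟩ := hasPer_of_homotopy F hF hF0 (fun s θ => by
    show φ (cis (θ + 2 * Real.pi)) - _ = _
    rw [cis_add_two_pi])
  have h0 : HasPer (fun θ => φ (cis θ) - φ z₀) c := by
    have := hc 0
    simpa [F, clamp_zero] using this
  have h1 : HasPer (fun θ => φ (cis θ) - q) c := by
    have := hc 1
    simpa [F, clamp_one] using this
  have h2 := h1.unique (hasPer_outside φ hφ q hqn)
  obtain ⟨c', hc'0, hc'⟩ := hasPer_disk φ hφ hinj z₀ hz₀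
  exact hc'0 (by rw [← h0.unique hc', h2])

/-- Interior points of the disk are mapped to interior points of the image. -/
theorem image_mem_interior (φ : ℂ → ℂ) (hφ : Continuous φ) (hinj : InjOn φ (closedBall 0 1))
    (z₀ : ℂ) (hz₀ : z₀ ∈ ball (0 : ℂ) 1) : φ z₀ ∈ interior (φ '' closedBall 0 1) := by
  have hcomp : IsCompact (sphere (0 : ℂ) 1) := isCompact_sphere _ _
  have hne : (sphere (0 : ℂ) 1).Nonempty := ⟨1, by simp⟩
  obtain ⟨w, hw, hmin⟩ := hcomp.exists_isMinOn hne
    ((hφ.sub continuous_const).norm.continuousOn (s := sphere (0 : ℂ) 1) (f := fun z => ‖φ z - φ z₀‖))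
  have hpos : 0 < ‖φ w - φ z₀‖ := by
    rw [norm_pos_iff, sub_ne_zero]
    intro h
    have := hinj (sphere_subset_closedBall hw) (ball_subset_closedBall hz₀) h
    rw [this] at hw
    exact absurd (mem_ball.1 hz₀) (by rw [mem_sphere.1 hw]; exact lt_irrefl _)
  have := ball_subset_image φ hφ hinj z₀ hz₀ ‖φ w - φ z₀‖ (fun θ => hmin (by
    rw [mem_sphere_zero_iff_norm, norm_cis]))
  rw [mem_interior]
  exact ⟨_, this, isOpen_ball, mem_ball_self hpos⟩

end Pool.Agent.Lib.MP_ffe3a0_co
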