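import Pool.Agent.Lib.MP_ffe3a0_co.Cross

/-!
Moving disks.
-/

set_option autoImplicit false
set_option linter.unusedSectionVars false

open Set Metric Filter Topology Pointwise ComplexConjugate

noncomputable section

namespace Pool.Agent.Lib.MP_ffe3a0_co

variable {ι : Type} [Finite ι] {Q : ι → Set ℂ} {U : Ultrafilter ℕ} {Tn : ℕ → Set (Set ℂ)}
  {T : Set (Set ℂ)} {d : Set ℂ → ℕ → Mot} {a : ℝ} {b : ℂ} {c : ℝ} {t₁ t₂ : Set ℂ}

/-- a moving circle with centre `z₀` and radius `R`, with outer class `t` -/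
def MDisk (U : Ultrafilter ℕ) (d : Set ℂ → ℕ → Mot) (T : Set (Set ℂ)) (z₀ : ℂ) (R : ℝ)
    (t : Set ℂ) : Prop :=
  ∃ a b c t₁, 0 < a ∧ MCurve U d T a b c t₁ t ∧ 0 < R ∧
    ∀ z, ham a b z - c = a * (‖z - z₀‖ ^ 2 - R ^ 2)

theorem circle_form {x : ℂ} (ha : a ≠ 0) (hG : grad a b x ≠ 0) :
    ∃ z₀ : ℂ, ∃ R : ℝ, 0 < R ∧ ∀ z, ham a b z - ham a b x = a * (‖z - z₀‖ ^ 2 - R ^ 2) := by
  have ha' : (a : ℂ) ≠ 0 := by exact_mod_cast ha
  set z₀ : ℂ := -b / (2 * a) with hz₀
  have hg : grad a b z₀ = 0 := by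
    rw [grad, hz₀]; field_simp; ring
  have hF : ∀ y, ham a b y = ham a b z₀ + a * ‖y - z₀‖ ^ 2 := by
    intro y
    have := ham_sub' a b y z₀
    rw [hg, Complex.normSq_eq_norm_sq] at this
    simp only [map_zero, zero_mul, Complex.zero_re, zero_add] at this
    linarith
  refine ⟨z₀, ‖x - z₀‖, ?_, ?_⟩
  · apply norm_pos_iff.2
    intro e
    rw [sub_eq_zero] at e
    rw [e] at hG
    exact hG hg
  · intro z
    rw [hF z, hF x]; ring

theorem MCurve.toMDisk (C : MCurve U d T a b c t₁ t₂) (ha : 0 < a) :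
    ∃ z₀ R, MDisk U d T z₀ R t₂ ∧ 0 < R ∧ ∀ z, ham a b z - c = a * (‖z - z₀‖ ^ 2 - R ^ 2) := by
  obtain ⟨x, hx⟩ := C.ex
  obtain ⟨z₀, R, hR, h⟩ := circle_form ha.ne' (C.reg x hx)
  rw [hx] at h
  exact ⟨z₀, R, ⟨a, b, c, t₁, ha, C, hR, h⟩, hR, h⟩

section form

variable {z₀ : ℂ} {R : ℝ} (ha : 0 < a) (hR : 0 < R)
  (hf : ∀ z, ham a b z - c = a * (‖z - z₀‖ ^ 2 - R ^ 2))

include ha hR hf

theorem form_le (z : ℂ) : ham a b z ≤ c ↔ z ∈ closedBall z₀ R := by
  rw [mem_closedBall, dist_eq_norm]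
  have h1 := hf z
  have h2 := norm_nonneg (z - z₀)
  constructor
  · intro h
    by_contra hcon
    push Not at hcon
    have : 0 < a * (‖z - z₀‖ ^ 2 - R ^ 2) := mul_pos ha (by nlinarith)
    linarith
  · intro h
    have : a * (‖z - z₀‖ ^ 2 - R ^ 2) ≤ 0 := mul_nonpos_of_nonneg_of_nonpos ha.le (by nlinarith)
    linarith

theorem form_lt (z : ℂ) : ham a b z < c ↔ z ∈ ball z₀ R := by
  rw [mem_ball, dist_eq_norm]
  have h1 := hf z
  have h2 := norm_nonneg (z - z₀)
  constructor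
  · intro h
    by_contra hcon
    push Not at hcon
    have : 0 ≤ a * (‖z - z₀‖ ^ 2 - R ^ 2) := mul_nonneg ha.le (by nlinarith)
    linarith
  · intro h
    have : a * (‖z - z₀‖ ^ 2 - R ^ 2) < 0 := mul_neg_of_pos_of_neg ha (by nlinarith)
    linarith

theorem form_eq (z : ℂ) : ham a b z = c ↔ z ∈ sphere z₀ R := by
  have h1 := form_le ha hR hf z
  have h2 := form_lt ha hR hf z
  constructor
  · intro h
    have h3 := h1.1 h.le
    have h4 : ¬ z ∈ ball z₀ R := fun h5 => by have := h2.2 h5; linarith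
    rw [mem_sphere]
    rw [mem_closedBall] at h3
    rw [mem_ball] at h4
    push Not at h4
    exact le_antisymm h3 h4
  · intro h
    rw [mem_sphere] at h
    have h3 := h1.2 (by rw [mem_closedBall]; exact h.le)
    have h4 : ¬ ham a b z < c := fun h5 => by
      have := h2.1 h5
      rw [mem_ball] at this
      linarith
    push Not at h4
    exact le_antisymm h3 h4

theorem form_b : b = -(2 * a * z₀) := by
  obtain ⟨-, h2, -⟩ := ham_ext (a := a) (b := b) (a' := a) (b' := -(2 * a * z₀)) (k := -c)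
    (k' := a * (‖z₀‖ ^ 2 - R ^ 2)) (by
      intro z
      have h1 := hf z
      have e1 : ‖z - z₀‖ ^ 2 = Complex.normSq (z - z₀) := (Complex.normSq_eq_norm_sq _).symm
      have e2 : ‖z₀‖ ^ 2 = Complex.normSq z₀ := (Complex.normSq_eq_norm_sq _).symm
      rw [e1] at h1
      rw [e2]
      have h3 : ham a b z + -c = ham a b z - c := by ring
      rw [h3, h1]
      simp [ham, Complex.normSq_apply]
      ring)
  exact h2

theorem form_grad (z : ℂ) : grad a b z = 2 * a * (z - z₀) := by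
  have h := form_b ha hR hf
  rw [grad]
  linear_combination h

end form

/-- two circles with proportional equations are equal -/
theorem form_unique {a' : ℝ} {b' : ℂ} {c' : ℝ} {z₀ z₀' : ℂ} {R R' : ℝ} {l : ℝ}
    (ha : a ≠ 0) (ha' : a' ≠ 0) (hR : 0 < R) (hR' : 0 < R')
    (hf : ∀ z, ham a b z - c = a * (‖z - z₀‖ ^ 2 - R ^ 2))
    (hf' : ∀ z, ham a' b' z - c' = a' * (‖z - z₀'‖ ^ 2 - R' ^ 2))
    (hl : ∀ z, ham a' b' z - c' = l * (ham a b z - c)) : z₀ = z₀' ∧ R = R' := by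
  have h1 : ∀ z, a' * (‖z - z₀'‖ ^ 2 - R' ^ 2) = l * a * (‖z - z₀‖ ^ 2 - R ^ 2) := by
    intro z
    rw [← hf', hl, hf]; ring
  have h2 : ∀ z : ℂ, a' * (Complex.normSq (z - z₀') - R' ^ 2) =
      l * a * (Complex.normSq (z - z₀) - R ^ 2) := by
    intro z
    rw [Complex.normSq_eq_norm_sq, Complex.normSq_eq_norm_sq]; exact h1 z
  obtain ⟨e1, e2, e3⟩ := ham_ext (a := a') (b := -(2 * a' * z₀')) (a' := l * a)
    (b' := -(2 * (l * a) * z₀)) (k := a' * (Complex.normSq z₀' - R' ^ 2))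
    (k' := l * a * (Complex.normSq z₀ - R ^ 2)) (by
      intro z
      have h3 := h2 z
      simp only [Complex.normSq_apply, Complex.sub_re, Complex.sub_im] at h3
      simp [ham, Complex.normSq_apply]
      linear_combination h3)
  have hla : (l * a : ℂ) ≠ 0 := by
    have : (a' : ℂ) ≠ 0 := by exact_mod_cast ha'
    rw [e1] at this
    push_cast at this
    exact this
  have hz : z₀ = z₀' := by
    rw [e1] at e2
    push_cast at e2
    have h4 : (2 * (l * a) : ℂ) ≠ 0 := mul_ne_zero two_ne_zero hla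
    apply mul_left_cancel₀ h4
    linear_combination e2
  refine ⟨hz, ?_⟩
  rw [e1, hz] at e3
  have h5 : (l * a) ≠ 0 := by rw [← e1]; exact ha'
  have h6 := mul_left_cancel₀ h5 e3
  have h7 : R ^ 2 = R' ^ 2 := by linarith
  exact (sq_eq_sq₀ hR.le hR'.le).1 h7

theorem sphere_side {s : Set ℂ} (hd : IsDisk s) {z₀ : ℂ} {R : ℝ}
    (h : ∀ z ∈ interior s, z ∉ sphere z₀ R) : s ⊆ closedBall z₀ R ∨ Disjoint s (ball z₀ R) := by
  have hside : (∀ z ∈ interior s, dist z z₀ < R) ∨ (∀ z ∈ interior s, R < dist z z₀) := by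
    by_contra hcon
    push Not at hcon
    obtain ⟨⟨z, hz, hz1⟩, ⟨w, hw, hw1⟩⟩ := hcon
    have hc : ContinuousOn (fun y : ℂ => dist y z₀) (interior s) := by fun_prop
    obtain ⟨y, hy, hy1⟩ := hd.isConnected_interior.isPreconnected.intermediate_value hw hz hc
      ⟨hw1, hz1⟩
    exact h y hy hy1
  rcases hside with h1 | h1
  · left
    rw [← hd.closure_interior]
    apply closure_minimal _ isClosed_closedBall
    intro z hz
    exact (h1 z hz).le
  · right
    rw [disjoint_left]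
    intro z hz hzb
    rw [← hd.closure_interior, _root_.mem_closure_iff] at hz
    obtain ⟨w, hw1, hw2⟩ := hz _ isOpen_ball hzb
    exact absurd (h1 w hw2) (not_lt.2 (le_of_lt hw1))

namespace MDisk

variable {z₀ z₀' : ℂ} {R R' : ℝ} {t t' : Set ℂ}

theorem pos (h : MDisk U d T z₀ R t) : 0 < R := by
  obtain ⟨a, b, c, t₁, -, -, hR, -⟩ := h
  exact hR

theorem side (hQ : ∀ i, IsDisk (Q i)) (S : Sys Q U Tn T d) (h : MDisk U d T z₀ R t)
    {s : Set ℂ} (hs : s ∈ T) : s ⊆ closedBall z₀ R ∨ Disjoint s (ball z₀ R) := by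
  obtain ⟨a, b, c, t₁, ha, C, hR, hf⟩ := h
  apply sphere_side (S.isDisk hQ hs)
  intro z hz hzs
  exact C.not_interior hQ S ((form_eq ha hR hf z).2 hzs) hs hz

theorem not_both {s : Set ℂ} (hd : IsDisk s) (h1 : s ⊆ closedBall z₀ R)
    (h2 : Disjoint s (ball z₀ R)) (hR : 0 < R) : False := by
  obtain ⟨x, hx⟩ := hd.isConnected_interior.nonempty
  have h3 : interior s ⊆ interior (closedBall z₀ R) := interior_mono h1
  rw [interior_closedBall _ hR.ne'] at h3
  exact disjoint_left.1 h2 (interior_subset hx) (h3 hx)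

/-- two moving disks are nested or have disjoint interiors -/
theorem nested (hQ : ∀ i, IsDisk (Q i)) (S : Sys Q U Tn T d) (h : MDisk U d T z₀ R t)
    (h' : MDisk U d T z₀' R' t') : dist z₀ z₀' ≤ |R - R'| ∨ R + R' ≤ dist z₀ z₀' := by
  obtain ⟨a, b, c, t₁, ha, C, hR, hf⟩ := h
  obtain ⟨a', b', c', t₁', ha', C', hR', hf'⟩ := h'
  by_contra hcon
  push Not at hcon
  obtain ⟨h1, h2⟩ := hcon
  set δ := dist z₀ z₀' with hδ
  have hδpos : 0 < δ := (abs_nonneg _).trans_lt h1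
  have h3 := abs_lt.1 h1
  -- the intersection point
  set x := (δ ^ 2 + R ^ 2 - R' ^ 2) / (2 * δ) with hx
  have hxe : 2 * δ * x = δ ^ 2 + R ^ 2 - R' ^ 2 := by rw [hx]; field_simp
  have hy2 : 0 < R ^ 2 - x ^ 2 := by
    have e : 4 * δ ^ 2 * (R ^ 2 - x ^ 2) =
        ((R + δ) ^ 2 - R' ^ 2) * (R' ^ 2 - (R - δ) ^ 2) := by
      have : 4 * δ ^ 2 * (R ^ 2 - x ^ 2) = 4 * δ ^ 2 * R ^ 2 - (2 * δ * x) ^ 2 := by ring
      rw [this, hxe]; ring
    have p1 : 0 < (R + δ) ^ 2 - R' ^ 2 := by nlinarith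
    have p2 : 0 < R' ^ 2 - (R - δ) ^ 2 := by nlinarith
    have p3 := mul_pos p1 p2
    rw [← e] at p3
    exact (mul_pos_iff_of_pos_left (by positivity)).1 p3
  set y := Real.sqrt (R ^ 2 - x ^ 2) with hy
  have hypos : 0 < y := Real.sqrt_pos.2 hy2
  have hysq : y ^ 2 = R ^ 2 - x ^ 2 := Real.sq_sqrt hy2.le
  set e : ℂ := (z₀' - z₀) / δ with he
  have hδc : (δ : ℂ) ≠ 0 := by exact_mod_cast hδpos.ne'
  have hee : (z₀' - z₀) = δ * e := by rw [he]; field_simp
  have hen : ‖e‖ = 1 := by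
    rw [he, norm_div, Complex.norm_real, Real.norm_of_nonneg hδpos.le, ← dist_eq_norm,
      dist_comm, ← hδ, div_self hδpos.ne']
  set v : ℂ := (x + y * Complex.I) * e with hv
  set p := z₀ + v with hp
  have hvn : ‖v‖ ^ 2 = R ^ 2 := by
    rw [hv, norm_mul, hen, mul_one, ← Complex.normSq_eq_norm_sq, Complex.normSq_apply]
    simp
    nlinarith
  have hvn' : ‖v - δ * e‖ ^ 2 = R' ^ 2 := by
    have : v - δ * e = ((x - δ : ℝ) + y * Complex.I) * e := by rw [hv]; push_cast; ring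
    rw [this, norm_mul, hen, mul_one, ← Complex.normSq_eq_norm_sq, Complex.normSq_apply]
    simp
    nlinarith
  have hp1 : ham a b p = c := by
    have := hf p
    have e1 : p - z₀ = v := by rw [hp]; ring
    rw [e1, hvn] at this
    linarith
  have hp2 : ham a' b' p = c' := by
    have := hf' p
    have e1 : p - z₀' = v - δ * e := by rw [hp, ← hee]; ring
    rw [e1, hvn'] at this
    linarith
  have key := C.nc hQ S hp1 (a' := a') (b' := b') (g' := fun n => d t₁' n)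
    (S.lim _ C'.mem₁) one_pos (by
      filter_upwards [C'.fault hQ S (W := ball p 1) isBounded_ball] with n hn z hz hz'
      exact hn z hz (hz'.trans hp2))
  rw [form_grad ha hR hf, form_grad ha' hR' hf'] at key
  have e1 : p - z₀ = v := by rw [hp]; ring
  have e2 : p - z₀' = v - δ * e := by rw [hp, ← hee]; ring
  rw [e1, e2] at key
  have e3 : (conj (2 * (a : ℂ) * v) * (Complex.I * (2 * a' * (v - δ * e)))) =
      ((4 * a * a' : ℝ) : ℂ) * (Complex.I * (conj v * v) - Complex.I * δ * (conj v * e)) := by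
    simp only [map_mul, Complex.conj_ofReal, map_ofNat]
    push_cast
    ring
  have e4 : conj v * v = ((R ^ 2 : ℝ) : ℂ) := by
    rw [Complex.conj_mul', ← hvn]; push_cast; rfl
  have e5 : conj e * e = 1 := by
    rw [Complex.conj_mul', hen]; simp
  have e6 : conj v * e = x - y * Complex.I := by
    rw [hv]
    simp only [map_mul, map_add, Complex.conj_ofReal, Complex.conj_I]
    linear_combination (x - y * Complex.I) * e5
  rw [e3, e4, e6, Complex.re_ofReal_mul] at key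
  have e7 : (Complex.I * ((R ^ 2 : ℝ) : ℂ) - Complex.I * δ * (x - y * Complex.I)).re =
      -(δ * y) := by
    have e8 : Complex.I * ((R ^ 2 : ℝ) : ℂ) - Complex.I * δ * (x - y * Complex.I) =
        ((-(δ * y) : ℝ) : ℂ) + ((R ^ 2 - δ * x : ℝ) : ℂ) * Complex.I := by
      push_cast
      linear_combination (δ * y : ℂ) * Complex.I_mul_I
    rw [e8, Complex.add_re, Complex.ofReal_re, Complex.re_ofReal_mul, Complex.I_re]
    ring
  rw [e7] at key
  have : 0 < 4 * a * a' * (δ * y) := by positivity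
  linarith

/-- the two tiles at a regular point of the boundary circle -/
theorem at_point (hQ : ∀ i, IsDisk (Q i)) (S : Sys Q U Tn T d) (h : MDisk U d T z₀ R t)
    {x : ℂ} (hx : x ∈ sphere z₀ R) (hE : x ∉ IsTiling.E3 T) :
    ∃ u₁ ∈ T, ∃ u₂ ∈ T, u₁ ⊆ closedBall z₀ R ∧ Disjoint u₂ (ball z₀ R) ∧ Sim U d t u₂ ∧
      ¬ Sim U d u₁ u₂ ∧ x ∈ u₁ ∧ x ∈ u₂ ∧ u₁ ≠ u₂ ∧ ∀ᶠ z in 𝓝 x, z ∈ closedBall z₀ R ∨ z ∈ u₂ := by
  have hside := fun s hs => h.side hQ S (s := s) hs
  obtain ⟨a, b, c, t₁, ha, C, hR, hf⟩ := h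
  have hxc := (form_eq ha hR hf x).2 hx
  have hG := C.reg x hxc
  obtain ⟨u₁, hu₁, u₂, hu₂, s1, s2, L1, L2⟩ := C.at_point hQ S hxc hE
  have hne := L1.ne_neg L2 hG
  refine ⟨u₁, hu₁, u₂, hu₂, ?_, ?_, s2, ?_, L1.mem, L2.mem, hne, ?_⟩
  · rcases hside u₁ hu₁ with h1 | h1
    · exact h1
    · exfalso
      obtain ⟨z, hz1, hz2⟩ := exists_lt hG L1.near_mem
      apply disjoint_left.1 h1 (hz1 hz2.le)
      rw [← form_lt ha hR hf, ← hxc]
      exact hz2
  · rcases hside u₂ hu₂ with h1 | h1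
    · exfalso
      obtain ⟨z, hz1, hz2⟩ := exists_gt' hG L2.near_mem
      have h2 := h1 (hz1 (by rw [ham_neg, ham_neg]; linarith))
      rw [← form_le ha hR hf, ← hxc] at h2
      linarith
    · exact h1
  · exact (C.rel.congr s1 s2).not_sim
  · filter_upwards [L2.near_mem] with z hz
    rcases le_or_gt (ham a b z) c with h1 | h1
    · left
      exact (form_le ha hR hf z).1 h1
    · right
      apply hz
      rw [ham_neg, ham_neg, hxc]
      linarith

theorem unique_at (hQ : ∀ i, IsDisk (Q i)) (S : Sys Q U Tn T d) (h : MDisk U d T z₀ R t)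
    (h' : MDisk U d T z₀' R' t') {x : ℂ} (hx : x ∈ sphere z₀ R) (hx' : x ∈ sphere z₀' R')
    (hE : x ∉ IsTiling.E3 T) : z₀ = z₀' ∧ R = R' := by
  obtain ⟨a, b, c, t₁, ha, C, hR, hf⟩ := h
  obtain ⟨a', b', c', t₁', ha', C', hR', hf'⟩ := h'
  have hxc := (form_eq ha hR hf x).2 hx
  have hxc' := (form_eq ha' hR' hf' x).2 hx'
  have hG := C.reg x hxc
  have hG' := C'.reg x hxc'
  obtain ⟨u₁, hu₁, u₂, hu₂, s1, s2, L1, L2⟩ := C.at_point hQ S hxc hE
  obtain ⟨u₁', hu₁', u₂', hu₂', s1', s2', L1', L2'⟩ := C'.at_point hQ S hxc' hE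
  rcases Lo.only_two hQ S.h hu₁ hu₂ L1 L2 hG hu₁' L1'.mem with e | e
  · rw [e] at L1'
    obtain ⟨l, hl⟩ := Lo.prop (a' := a') (b' := b') (c' := c') (g := 1) C.rel.norm_ne hG L1 (by
      filter_upwards [L1'] with z hz
      rw [inv_one, one_smul, hz, hxc'])
    exact form_unique (l := l) ha.ne' ha'.ne' hR hR' hf hf' (fun z => by
      have := hl z
      rwa [inv_one, one_smul, hxc] at this)
  · rw [e] at L1'
    obtain ⟨l, hl⟩ := Lo.prop (a' := a') (b' := b') (c' := c') (g := 1) C.rel.norm_ne'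
      (grad_neg_ne hG) L2 (by
      filter_upwards [L1'] with z hz
      rw [inv_one, one_smul, hz, hxc'])
    exact form_unique (l := -l) ha.ne' ha'.ne' hR hR' hf hf' (fun z => by
      have := hl z
      rw [inv_one, one_smul, ham_neg, ham_neg, hxc] at this
      rw [this]; ring)

end MDisk

end Pool.Agent.Lib.MP_ffe3a0_co
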