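import Mathlib

/-!
The group of direct isometries of the complex plane.
-/

set_option autoImplicit false

open Set Metric Filter Topology Pointwise

noncomputable section

namespace Pool.Agent.Lib.MP_ffe3a0_co

/-- The direct isometry `z ↦ u z + b` with `|u| = 1`. -/
@[ext] structure Mot where
  /-- the rotation part -/
  u : Circle
  /-- the translation part -/
  b : ℂ

namespace Mot

instance : Mul Mot := ⟨fun g h => ⟨g.u * h.u, g.u * h.b + g.b⟩⟩
instance : One Mot := ⟨⟨1, 0⟩⟩
instance : Inv Mot := ⟨fun g => ⟨g.u⁻¹, -((g.u⁻¹ : Circle) * g.b)⟩⟩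

@[simp] theorem mul_u (g h : Mot) : (g * h).u = g.u * h.u := rfl
@[simp] theorem mul_b (g h : Mot) : (g * h).b = g.u * h.b + g.b := rfl
@[simp] theorem one_u : (1 : Mot).u = 1 := rfl
@[simp] theorem one_b : (1 : Mot).b = 0 := rfl
@[simp] theorem inv_u (g : Mot) : (g⁻¹).u = g.u⁻¹ := rfl
@[simp] theorem inv_b (g : Mot) : (g⁻¹).b = -((g.u⁻¹ : Circle) * g.b) := rfl

instance : Group Mot where
  mul_assoc a b c := by
    ext
    · simp [mul_assoc]
    · simp; ring
  one_mul a := by ext <;> simp
  mul_one a := by ext <;> simp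
  inv_mul_cancel a := by
    ext
    · simp
    · simp

instance : MulAction Mot ℂ where
  smul g z := g.u * z + g.b
  one_smul z := by
    show ((1 : Circle) : ℂ) * z + 0 = z
    simp
  mul_smul g h z := by
    show ((g.u * h.u : Circle) : ℂ) * z + (g.u * h.b + g.b) = g.u * (h.u * z + h.b) + g.b
    push_cast
    ring

theorem smul_def (g : Mot) (z : ℂ) : g • z = g.u * z + g.b := rfl

theorem smul_sub_smul (g : Mot) (z w : ℂ) : g • z - g • w = g.u * (z - w) := by
  rw [smul_def, smul_def]; ring

theorem dist_smul' (g : Mot) (z w : ℂ) : dist (g • z) (g • w) = dist z w := by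
  rw [dist_eq_norm, smul_sub_smul, norm_mul, Circle.norm_coe, one_mul, dist_eq_norm]

instance : IsIsometricSMul Mot ℂ := ⟨fun g => Isometry.of_dist_eq (dist_smul' g)⟩

instance : TopologicalSpace Mot := TopologicalSpace.induced (fun g => (g.u, g.b)) inferInstance

theorem isInducing : IsInducing (fun g : Mot => (g.u, g.b)) := ⟨rfl⟩

theorem continuous_u : Continuous (fun g : Mot => g.u) :=
  continuous_fst.comp isInducing.continuous

theorem continuous_b : Continuous (fun g : Mot => g.b) :=
  continuous_snd.comp isInducing.continuous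

theorem tendsto_iff {α : Type*} {l : Filter α} {f : α → Mot} {g : Mot} :
    Tendsto f l (𝓝 g) ↔ Tendsto (fun n => (f n).u) l (𝓝 g.u) ∧
      Tendsto (fun n => (f n).b) l (𝓝 g.b) := by
  rw [isInducing.tendsto_nhds_iff]
  constructor
  · intro h
    exact ⟨(continuous_fst.tendsto _).comp h, (continuous_snd.tendsto _).comp h⟩
  · rintro ⟨h1, h2⟩
    exact h1.prodMk_nhds h2

instance : T2Space Mot := by
  apply T2Space.of_injective_continuous (f := fun g : Mot => (g.u, g.b))
  · intro g h e
    simp only [Prod.mk.injEq] at e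
    exact Mot.ext e.1 e.2
  · exact isInducing.continuous

instance : IsTopologicalGroup Mot where
  continuous_mul := by
    rw [isInducing.continuous_iff]
    have h1 : Continuous fun p : Mot × Mot => p.1.u := continuous_u.comp continuous_fst
    have h2 : Continuous fun p : Mot × Mot => p.2.u := continuous_u.comp continuous_snd
    have h3 : Continuous fun p : Mot × Mot => p.1.b := continuous_b.comp continuous_fst
    have h4 : Continuous fun p : Mot × Mot => p.2.b := continuous_b.comp continuous_snd
    show Continuous fun p : Mot × Mot => (p.1.u * p.2.u, (p.1.u : ℂ) * p.2.b + p.1.b)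
    exact (h1.mul h2).prodMk (((continuous_subtype_val.comp h1).mul h4).add h3)
  continuous_inv := by
    rw [isInducing.continuous_iff]
    show Continuous fun p : Mot => (p.u⁻¹, -(((p.u⁻¹ : Circle) : ℂ) * p.b))
    exact continuous_u.inv.prodMk ((continuous_subtype_val.comp continuous_u.inv).mul
      continuous_b).neg

instance : ContinuousSMul Mot ℂ where
  continuous_smul := by
    show Continuous fun p : Mot × ℂ => (p.1.u : ℂ) * p.2 + p.1.b
    exact ((continuous_subtype_val.comp (continuous_u.comp continuous_fst)).mul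
      continuous_snd).add (continuous_b.comp continuous_fst)

/-- Bounded sets of motions are relatively compact. -/
theorem isCompact_bdd (C : ℝ) : IsCompact {g : Mot | ‖g.b‖ ≤ C} := by
  have h1 : IsCompact ((univ : Set Circle) ×ˢ closedBall (0 : ℂ) C) :=
    isCompact_univ.prod (isCompact_closedBall _ _)
  have h2 : Continuous (fun p : Circle × ℂ => (⟨p.1, p.2⟩ : Mot)) := by
    rw [isInducing.continuous_iff]
    exact continuous_id
  have h3 := h1.image h2
  convert h3
  ext g
  simp only [mem_ofPred_eq, mem_image, mem_prod, mem_univ, true_and, mem_closedBall_zero_iff]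
  constructor
  · intro h; exact ⟨(g.u, g.b), h, rfl⟩
  · rintro ⟨p, hp, rfl⟩; exact hp

/-- Ultrafilter limits of bounded sequences of motions. -/
theorem exists_lim {α : Type*} (U : Ultrafilter α) (f : α → Mot) (C : ℝ)
    (h : ∀ᶠ n in U, ‖(f n).b‖ ≤ C) : ∃ g : Mot, Tendsto f U (𝓝 g) := by
  obtain ⟨g, -, hg⟩ := (isCompact_bdd C).ultrafilter_le_nhds' (U.map f) (by
    rw [Ultrafilter.mem_map]; exact h)
  exact ⟨g, hg⟩

/-- translation by a vector -/
def tr (v : ℂ) : Mot := ⟨1, v⟩

@[simp] theorem tr_smul (v z : ℂ) : tr v • z = z + v := by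
  rw [smul_def]; simp [tr]

@[simp] theorem tr_u (v : ℂ) : (tr v).u = 1 := rfl
@[simp] theorem tr_b (v : ℂ) : (tr v).b = v := rfl

theorem tr_add (v w : ℂ) : tr (v + w) = tr v * tr w := by
  ext
  · simp
  · simp [add_comm]

theorem tr_zero : tr 0 = 1 := by ext <;> simp

theorem tr_neg (v : ℂ) : tr (-v) = (tr v)⁻¹ := by ext <;> simp

theorem continuous_tr : Continuous tr := by
  rw [isInducing.continuous_iff]
  exact continuous_const.prodMk continuous_id

end Mot

/-- Two motions which agree at two distinct points are equal. -/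
theorem Mot.eq_of_two {g h : Mot} {z w : ℂ} (hzw : z ≠ w) (h1 : g • z = h • z)
    (h2 : g • w = h • w) : g = h := by
  have h3 : (g.u : ℂ) * (z - w) = h.u * (z - w) := by
    rw [← Mot.smul_sub_smul, ← Mot.smul_sub_smul, h1, h2]
  have h4 : (g.u : ℂ) = h.u := mul_right_cancel₀ (sub_ne_zero.2 hzw) h3
  have h5 : g.u = h.u := Circle.ext h4
  have h6 : g.b = h.b := by
    rw [Mot.smul_def, Mot.smul_def, h4] at h1
    exact add_left_cancel h1
  exact Mot.ext h5 h6

theorem Mot.smul_set_interior (g : Mot) (K : Set ℂ) : interior (g • K) = g • interior K :=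
  (interior_smul g K)

end Pool.Agent.Lib.MP_ffe3a0_co
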