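import Pool.Agent.Lib.MP_ffe3a0_co.MDisk

/-!
Outer tiles and maximal moving disks.
-/

set_option autoImplicit false
set_option linter.unusedSectionVars false

open Set Metric Filter Topology Pointwise ComplexConjugate

noncomputable section

namespace Pool.Agent.Lib.MP_ffe3a0_co

variable {ι : Type} [Finite ι] {Q : ι → Set ℂ} {U : Ultrafilter ℕ} {Tn : ℕ → Set (Set ℂ)}
  {T : Set (Set ℂ)} {d : Set ℂ → ℕ → Mot} {a : ℝ} {b : ℂ} {c : ℝ} {t t' t₁ t₂ : Set ℂ}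

theorem Dir.unique {h : ℕ → Mot} {a' : ℝ} {b' : ℂ} (D : Dir U h a b) (D' : Dir U h a' b') :
    a' = a ∧ b' = b :=
  ⟨tendsto_nhds_unique D'.ta D.ta, tendsto_nhds_unique D'.tb D.tb⟩

theorem Rel.unique {a' : ℝ} {b' : ℂ} (h : Rel U d t t' a b) (h' : Rel U d t t' a' b') :
    (a' = a ∧ b' = b) ∨ (a' = -a ∧ b' = -b) := by
  rcases h with h | h <;> rcases h' with h' | h'
  · exact Or.inl (h.unique h')
  · right
    have := h.unique h'
    exact ⟨by linarith [this.1], by rw [← this.2, neg_neg]⟩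
  · exact Or.inr (h.unique h')
  · left
    have := h.unique h'
    exact ⟨neg_inj.1 this.1, neg_inj.1 this.2⟩

namespace Sys

theorem through_all (hQ : ∀ i, IsDisk (Q i)) (S : Sys Q U Tn T d) (x : ℂ) :
    ∃ r > 0, ∀ u ∈ T, x ∈ u → ∀ v ∈ T, x ∈ v → ∀ z ∈ ball x r, ∀ a b, Rel U d u v a b →
      z ∈ u → z ∈ v → z ∉ IsTiling.E3 T → ham a b z = ham a b x := by
  have hK := S.finite_at hQ x
  have h1 : ∀ᶠ r₂ in 𝓝[>] (0 : ℝ), ∀ u ∈ {u ∈ T | x ∈ u}, ∀ v ∈ {u ∈ T | x ∈ u},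
      ∀ z ∈ ball x r₂, ∀ a b, Rel U d u v a b → z ∈ u → z ∈ v → z ∉ IsTiling.E3 T →
      ham a b z = ham a b x := by
    rw [eventually_all_finite hK]
    intro u hu
    rw [eventually_all_finite hK]
    intro v hv
    obtain ⟨r, hr, hh⟩ := S.through hQ hu.1 hv.1 hu.2 hv.2
    filter_upwards [Ioo_mem_nhdsGT hr] with r₂ hr₂ z hz
    exact hh z (ball_subset_ball hr₂.2.le hz)
  obtain ⟨r₂, h2, h3⟩ := (h1.and self_mem_nhdsWithin).exists
  exact ⟨r₂, h3, fun u hu hxu v hv hxv => h2 u ⟨hu, hxu⟩ v ⟨hv, hxv⟩⟩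

end Sys

/-- moving curves meeting a small ball pass through its centre -/
theorem MCurve.through (hQ : ∀ i, IsDisk (Q i)) (S : Sys Q U Tn T d) (x : ℂ) :
    ∃ r > 0, ∀ a b c t₁ t₂, MCurve U d T a b c t₁ t₂ → (∃ q ∈ ball x r, ham a b q = c) →
      ham a b x = c ∧ ∃ u ∈ T, x ∈ u ∧ ∃ v ∈ T, x ∈ v ∧ Rel U d u v a b := by
  obtain ⟨r₁, hr₁, h1⟩ := S.through_all hQ x
  obtain ⟨r₂, hr₂, h2⟩ := S.h.exists_ball hQ x
  refine ⟨min r₁ r₂, lt_min hr₁ hr₂, ?_⟩
  rintro a b c t₁ t₂ C ⟨q, hq, hqc⟩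
  have h3 := C.bd q hqc
  rw [← hqc] at h3
  have h4 := Sys.exists_near_level (C.reg q hqc) h3
  have h5' : ∀ᶠ z in 𝓝 q, z ∈ ball x (min r₁ r₂) := isOpen_ball.mem_nhds hq
  have h5 : ∀ᶠ z in 𝓝[≠] q, z ∈ ball x (min r₁ r₂) ∧ grad a b z ≠ 0 :=
    (h5'.and (grad_ne_near (C.reg q hqc))).filter_mono nhdsWithin_le_nhds
  obtain ⟨z, ⟨hzF, u₁, hu₁, u₂, hu₂, s1, s2, L1, L2⟩, hz, hzG⟩ := (h4.and_eventually h5).exists
  have hE := Lo.not_E3 hQ S.h hu₁ hu₂ L1 L2 hzG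
  have hz1 := ball_subset_ball (min_le_left _ _) hz
  have hz2 := ball_subset_closedBall (ball_subset_ball (min_le_right _ _) hz)
  have hx1 : x ∈ u₁ := h2 u₁ hu₁ ⟨z, L1.mem, hz2⟩
  have hx2 : x ∈ u₂ := h2 u₂ hu₂ ⟨z, L2.mem, hz2⟩
  have R := C.rel.congr s1 s2
  have := h1 u₁ hu₁ hx1 u₂ hu₂ hx2 z hz1 a b R L1.mem L2.mem hE
  exact ⟨by rw [← this, hzF, hqc], u₁, hu₁, hx1, u₂, hu₂, hx2, R⟩

namespace MDisk

variable {z₀ z₁ z₂ : ℂ} {R R₁ R₂ : ℝ}

theorem finite_ball (hQ : ∀ i, IsDisk (Q i)) (S : Sys Q U Tn T d) (x : ℂ) :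
    ∃ r > 0, (∀ z₀ R t, MDisk U d T z₀ R t → (sphere z₀ R ∩ ball x r).Nonempty →
      x ∈ sphere z₀ R) ∧
      {p : ℂ × ℝ | ∃ t, MDisk U d T p.1 p.2 t ∧ (sphere p.1 p.2 ∩ ball x r).Nonempty}.Finite := by
  obtain ⟨r, hr, h⟩ := MCurve.through hQ S x
  refine ⟨r, hr, ?_, ?_⟩
  · rintro z₀ R t ⟨a, b, c, t₁, ha, C, hR, hf⟩ ⟨q, hq1, hq2⟩
    rw [← form_eq ha hR hf] at hq1 ⊢
    exact (h a b c t₁ t C ⟨q, hq2, hq1⟩).1
  · have hK := S.finite_at hQ x
    have hfin : (⋃ u ∈ {u ∈ T | x ∈ u}, ⋃ v ∈ {u ∈ T | x ∈ u},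
        {p : ℂ × ℝ | ∃ a b c, 0 < a ∧ 0 < p.2 ∧ Rel U d u v a b ∧ ham a b x = c ∧
          ∀ z, ham a b z - c = a * (‖z - p.1‖ ^ 2 - p.2 ^ 2)}).Finite := by
      apply hK.biUnion
      intro u _
      apply hK.biUnion
      intro v _
      apply Set.Subsingleton.finite
      rintro ⟨z, R⟩ ⟨a, b, c, ha, hR, hRel, hx, hf⟩ ⟨z', R'⟩ ⟨a', b', c', ha', hR', hRel', hx', hf'⟩
      simp only at hR hR' hf hf'
      have hab : a' = a ∧ b' = b := by
        rcases hRel.unique hRel' with h1 | h1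
        · exact h1
        · exfalso
          linarith [h1.1]
      rw [hab.1, hab.2] at hf' hx'
      have e1 := form_b ha hR hf
      have e2 := form_b ha hR' hf'
      have hz : z = z' := by
        have h4 : (2 * a : ℂ) ≠ 0 := by
          have : (a : ℂ) ≠ 0 := by exact_mod_cast ha.ne'
          simpa using this
        apply mul_left_cancel₀ h4
        linear_combination e1 - e2
      have k1 := hf x
      have k2 := hf' x
      rw [hx, sub_self] at k1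
      rw [hx', sub_self] at k2
      have k3 : ‖x - z‖ ^ 2 = R ^ 2 := by
        have := (mul_eq_zero.1 k1.symm).resolve_left ha.ne'
        linarith
      have k4 : ‖x - z'‖ ^ 2 = R' ^ 2 := by
        have := (mul_eq_zero.1 k2.symm).resolve_left ha.ne'
        linarith
      rw [← hz, k3] at k4
      have := (sq_eq_sq₀ hR.le hR'.le).1 k4
      rw [hz, this]
    apply hfin.subset
    rintro ⟨z, R⟩ ⟨t, ⟨a, b, c, t₁, ha, C, hR, hf⟩, ⟨q, hq1, hq2⟩⟩
    simp only at hq1 hR hf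
    rw [← form_eq ha hR hf] at hq1
    obtain ⟨h1, u, hu, hxu, v, hv, hxv, hRel⟩ := h a b c t₁ t C ⟨q, hq2, hq1⟩
    simp only [mem_iUnion]
    exact ⟨u, ⟨hu, hxu⟩, v, ⟨hv, hxv⟩, a, b, c, ha, hR, hRel, h1, hf⟩

theorem finite_compact (hQ : ∀ i, IsDisk (Q i)) (S : Sys Q U Tn T d) {W : Set ℂ}
    (hW : IsCompact W) :
    {p : ℂ × ℝ | ∃ t, MDisk U d T p.1 p.2 t ∧ (sphere p.1 p.2 ∩ W).Nonempty}.Finite := by
  have h1 := fun x => finite_ball hQ S x
  choose r hr hr1 hr2 using h1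
  obtain ⟨F, -, hF⟩ := hW.elim_nhds_subcover (fun x => ball x (r x))
    (fun x _ => ball_mem_nhds x (hr x))
  apply (F.finite_toSet.biUnion (t := fun x => {p : ℂ × ℝ | ∃ t, MDisk U d T p.1 p.2 t ∧
    (sphere p.1 p.2 ∩ ball x (r x)).Nonempty}) (fun x _ => hr2 x)).subset
  rintro p ⟨t, hD, q, hq1, hq2⟩
  obtain ⟨x, hx, hqx⟩ := mem_iUnion₂.1 (hF hq2)
  simp only [mem_iUnion]
  exact ⟨x, hx, t, hD, q, hq1, hqx⟩

theorem incl_iff (hR₁ : 0 < R₁) (h : closedBall z₁ R₁ ⊆ closedBall z₂ R₂) :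
    dist z₁ z₂ + R₁ ≤ R₂ := by
  by_cases e : z₁ = z₂
  · subst e
    rw [dist_self, zero_add]
    have h1 : z₁ + R₁ ∈ closedBall z₁ R₁ := by
      rw [mem_closedBall, dist_eq_norm]
      simp [abs_of_pos hR₁]
    have h2 := h h1
    rw [mem_closedBall, dist_eq_norm] at h2
    simpa [abs_of_pos hR₁] using h2
  · have hpos : 0 < ‖z₁ - z₂‖ := norm_pos_iff.2 (sub_ne_zero.2 e)
    set v : ℂ := (R₁ / ‖z₁ - z₂‖ : ℝ) * (z₁ - z₂) with hv
    have hvn : ‖v‖ = R₁ := by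
      rw [hv, norm_mul, Complex.norm_real, Real.norm_of_nonneg (by positivity)]
      field_simp
    have h1 : z₁ + v ∈ closedBall z₁ R₁ := by
      rw [mem_closedBall, dist_eq_norm]
      simp [hvn]
    have h2 := h h1
    rw [mem_closedBall, dist_eq_norm] at h2
    have h3 : z₁ + v - z₂ = ((1 + R₁ / ‖z₁ - z₂‖ : ℝ) : ℂ) * (z₁ - z₂) := by
      rw [hv]; push_cast; ring
    rw [h3, norm_mul, Complex.norm_real, Real.norm_of_nonneg (by positivity), add_mul,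
      one_mul, div_mul_cancel₀ _ hpos.ne'] at h2
    rw [dist_eq_norm]
    exact h2

theorem incl_of_dist (h : dist z₁ z₂ ≤ |R₁ - R₂|) :
    closedBall z₁ R₁ ⊆ closedBall z₂ R₂ ∨ closedBall z₂ R₂ ⊆ closedBall z₁ R₁ := by
  rcases le_total R₁ R₂ with h1 | h1
  · left
    apply closedBall_subset_closedBall'
    rw [abs_of_nonpos (by linarith)] at h
    linarith
  · right
    apply closedBall_subset_closedBall'
    rw [abs_of_nonneg (by linarith), dist_comm] at h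
    linarith

end MDisk

/-- maximal moving disks -/
def Maxi (U : Ultrafilter ℕ) (d : Set ℂ → ℕ → Mot) (T : Set (Set ℂ)) (z₁ : ℂ) (R₁ : ℝ) : Prop :=
  ∀ z₂ R₂ t₂, MDisk U d T z₂ R₂ t₂ → closedBall z₁ R₁ ⊆ closedBall z₂ R₂ → z₂ = z₁ ∧ R₂ = R₁

/-- outer tiles -/
def Out (U : Ultrafilter ℕ) (d : Set ℂ → ℕ → Mot) (T : Set (Set ℂ)) (s : Set ℂ) : Prop :=
  ∀ z₀ R t, MDisk U d T z₀ R t → ¬ s ⊆ closedBall z₀ R

theorem exists_maxi (hQ : ∀ i, IsDisk (Q i)) (S : Sys Q U Tn T d) {Rm : ℝ}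
    (hbdd : ∀ z₀ R t, MDisk U d T z₀ R t → R ≤ Rm) {z₀ : ℂ} {R : ℝ}
    (h : MDisk U d T z₀ R t) :
    ∃ z₁ R₁ t₁, MDisk U d T z₁ R₁ t₁ ∧ closedBall z₀ R ⊆ closedBall z₁ R₁ ∧ Maxi U d T z₁ R₁ := by
  set F : Set (ℂ × ℝ) := {p | ∃ t, MDisk U d T p.1 p.2 t ∧
    closedBall z₀ R ⊆ closedBall p.1 p.2} with hF
  have hfin : F.Finite := by
    apply (MDisk.finite_compact hQ S (isCompact_closedBall z₀ (2 * Rm))).subset
    rintro ⟨z, ρ⟩ ⟨t, hD, hsub⟩
    refine ⟨t, hD, z + ρ, ?_, ?_⟩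
    · rw [mem_sphere, dist_eq_norm]
      simp [abs_of_pos hD.pos]
    · rw [mem_closedBall]
      have h1 := hbdd _ _ _ hD
      have h2 := hsub (mem_closedBall_self h.pos.le)
      simp only at h1 h2
      rw [mem_closedBall] at h2
      calc dist (z + ρ) z₀ ≤ dist (z + ρ) z + dist z z₀ := dist_triangle _ _ _
        _ ≤ Rm + Rm := by
          apply add_le_add
          · rw [dist_eq_norm]
            have := hD.pos
            simp only at this
            simp [abs_of_pos this]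
            exact h1
          · rw [dist_comm]; linarith
        _ = 2 * Rm := by ring
  obtain ⟨⟨z₁, R₁⟩, ⟨t₁, hD₁, hsub₁⟩, hmax⟩ := Set.exists_max_image F (fun p => p.2) hfin
    ⟨(z₀, R), t, h, Subset.rfl⟩
  refine ⟨z₁, R₁, t₁, hD₁, hsub₁, ?_⟩
  intro z₂ R₂ t₂ hD₂ hsub
  have h1 : R₂ ≤ R₁ := hmax (z₂, R₂) ⟨t₂, hD₂, hsub₁.trans hsub⟩
  have h2 := MDisk.incl_iff hD₁.pos hsub
  have h3 : dist z₁ z₂ ≤ 0 := by linarith
  have h4 : z₁ = z₂ := dist_le_zero.1 h3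
  have h5 := dist_nonneg (x := z₁) (y := z₂)
  exact ⟨h4.symm, by linarith⟩

/-- the points covered by outer tiles and maximal disks of a given class -/
def GG (U : Ultrafilter ℕ) (d : Set ℂ → ℕ → Mot) (T : Set (Set ℂ)) (κ : Set ℂ) (x : ℂ) : Prop :=
  (∃ t ∈ T, x ∈ t ∧ Sim U d κ t ∧ Out U d T t) ∨
    (∃ z₀ R t, MDisk U d T z₀ R t ∧ Maxi U d T z₀ R ∧ x ∈ closedBall z₀ R ∧ Sim U d κ t)

/-- the outer neighbour of a maximal disk is an outer tile -/
theorem out_of_maxi (hQ : ∀ i, IsDisk (Q i)) (S : Sys Q U Tn T d) {z₀ : ℂ} {R : ℝ}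
    (hD : MDisk U d T z₀ R t) (hmax : Maxi U d T z₀ R) {x : ℂ} (hx : x ∈ sphere z₀ R)
    (hE : x ∉ IsTiling.E3 T) {u : Set ℂ} (hu : u ∈ T) (hxu : x ∈ u)
    (hdis : Disjoint u (ball z₀ R)) : Out U d T u := by
  intro z₂ R₂ t₂ hD₂ hsub
  rcases hD.nested hQ S hD₂ with h | h
  · rcases MDisk.incl_of_dist h with h' | h'
    · obtain ⟨e1, e2⟩ := hmax z₂ R₂ t₂ hD₂ h'
      rw [e1, e2] at hsub
      exact MDisk.not_both (S.isDisk hQ hu) hsub hdis hD.pos
    · exact MDisk.not_both (S.isDisk hQ hu) (hsub.trans h') hdis hD.pos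
  · have h1 := hsub hxu
    rw [mem_closedBall] at h1
    rw [mem_sphere] at hx
    have h2 : dist z₀ z₂ ≤ dist x z₀ + dist x z₂ := by
      rw [dist_comm x z₀]; exact dist_triangle _ _ _
    have h3 : dist x z₂ = R₂ := by linarith
    obtain ⟨e1, e2⟩ := hD.unique_at hQ S hD₂ (mem_sphere.2 hx) (mem_sphere.2 h3) hE
    rw [e1, dist_self] at h
    linarith [hD.pos, hD₂.pos]

theorem GG_open (hQ : ∀ i, IsDisk (Q i)) (S : Sys Q U Tn T d) {κ : Set ℂ} {x : ℂ}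
    (hE : x ∉ IsTiling.E3 T)
    (hcirc : ∀ a b t₁ t₂, MCurve U d T a b (ham a b x) t₁ t₂ → a ≠ 0)
    (h : GG U d T κ x) : ∀ᶠ y in 𝓝 x, GG U d T κ y := by
  rcases h with ⟨t, ht, hxt, hsim, hout⟩ | ⟨z₀, R, t, hD, hmax, hxD, hsim⟩
  · by_cases hall : ∀ s ∈ T, x ∈ s → Sim U d t s
    · obtain ⟨r, hr, hrs⟩ := S.h.exists_ball hQ x
      filter_upwards [closedBall_mem_nhds x hr] with y hy
      obtain ⟨s, hs, hys⟩ := S.h.exists_mem y
      have hxs := hrs s hs ⟨y, hys, hy⟩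
      have hts := hall s hs hxs
      refine Or.inl ⟨s, hs, hys, hsim.trans hts, ?_⟩
      intro z₀ R t₂ hD hsub
      have hxD := hsub hxs
      rcases hD.side hQ S ht with h1 | h1
      · exact hout z₀ R t₂ hD h1
      · have hx1 : x ∉ ball z₀ R := fun h2 => disjoint_left.1 h1 hxt h2
        have hx2 : x ∈ sphere z₀ R := by
          rw [mem_closedBall] at hxD
          rw [mem_ball] at hx1
          push Not at hx1
          exact le_antisymm hxD hx1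
        obtain ⟨u₁, hu₁, u₂, hu₂, -, -, -, hns, hxu₁, hxu₂, -⟩ := hD.at_point hQ S hx2 hE
        exact hns ((hall u₁ hu₁ hxu₁).symm.trans (hall u₂ hu₂ hxu₂))
    · push Not at hall
      obtain ⟨t', ht', hxt', hns⟩ := hall
      obtain ⟨a, b, C, L1, L2⟩ := S.exists_curve hQ ht ht' hxt hxt' hns hE
      have ha := hcirc a b t t' C
      rcases lt_or_gt_of_ne ha with hneg | hpos
      · obtain ⟨z₀, R, hD, hR, hf⟩ := C.symm.toMDisk (by linarith)
        have hxs : x ∈ sphere z₀ R := by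
          rw [← form_eq (show 0 < -a by linarith) hR hf, ham_neg]
        have hmax : Maxi U d T z₀ R := by
          intro z₂ R₂ t₂ hD₂ hsub
          have h1 : Disjoint t (ball z₂ R₂) := by
            rcases hD₂.side hQ S ht with h1 | h1
            · exact absurd h1 (hout z₂ R₂ t₂ hD₂)
            · exact h1
          have h2 := hsub (sphere_subset_closedBall hxs)
          have h3 : x ∉ ball z₂ R₂ := fun h3 => disjoint_left.1 h1 hxt h3
          have h4 : x ∈ sphere z₂ R₂ := by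
            rw [mem_closedBall] at h2
            rw [mem_ball] at h3
            push Not at h3
            exact le_antisymm h2 h3
          obtain ⟨e1, e2⟩ := hD.unique_at hQ S hD₂ hxs h4 hE
          exact ⟨e1.symm, e2.symm⟩
        obtain ⟨u₁, hu₁, u₂, hu₂, hin, hdis, hs2, hns', hxu₁, hxu₂, hne, hnear⟩ :=
          hD.at_point hQ S hxs hE
        have htu : t = u₂ := by
          rcases Sys.eq_or_eq_of_not_E3 hE hu₁ hu₂ hne hxu₁ hxu₂ ht hxt with e | e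
          · exfalso
            rw [e] at hout
            exact hout z₀ R _ hD hin
          · exact e
        filter_upwards [hnear] with y hy
        rcases hy with hy | hy
        · exact Or.inr ⟨z₀, R, t, hD, hmax, hy, hsim⟩
        · rw [← htu] at hy
          exact Or.inl ⟨t, ht, hy, hsim, hout⟩
      · exfalso
        obtain ⟨z₀, R, hD, hR, hf⟩ := C.toMDisk hpos
        rcases hD.side hQ S ht with h1 | h1
        · exact hout z₀ R _ hD h1
        · have hG := C.reg x rfl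
          obtain ⟨z, hz1, hz2⟩ := exists_lt hG L1.near_mem
          exact disjoint_left.1 h1 (hz1 hz2.le) ((form_lt hpos hR hf z).1 hz2)
  · by_cases hxb : x ∈ ball z₀ R
    · filter_upwards [isOpen_ball.mem_nhds hxb] with y hy
      exact Or.inr ⟨z₀, R, t, hD, hmax, ball_subset_closedBall hy, hsim⟩
    · have hxs : x ∈ sphere z₀ R := by
        rw [mem_closedBall] at hxD
        rw [mem_ball] at hxb
        push Not at hxb
        exact le_antisymm hxD hxb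
      obtain ⟨u₁, hu₁, u₂, hu₂, hin, hdis, hs2, hns', hxu₁, hxu₂, hne, hnear⟩ :=
          hD.at_point hQ S hxs hE
      filter_upwards [hnear] with y hy
      rcases hy with hy | hy
      · exact Or.inr ⟨z₀, R, t, hD, hmax, hy, hsim⟩
      · exact Or.inl ⟨u₂, hu₂, hy, hsim.trans hs2,
          out_of_maxi hQ S hD hmax hxs hE hu₂ hxu₂ hdis⟩

/-- points near `x` are covered only if `x` is -/
theorem GG_closed (hQ : ∀ i, IsDisk (Q i)) (S : Sys Q U Tn T d) {κ : Set ℂ} {x : ℂ} :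
    ∀ᶠ y in 𝓝 x, GG U d T κ y → GG U d T κ x := by
  obtain ⟨r₁, hr₁, h1⟩ := S.h.exists_ball hQ x
  obtain ⟨r₂, hr₂, h2, -⟩ := MDisk.finite_ball hQ S x
  filter_upwards [ball_mem_nhds x (lt_min hr₁ hr₂)] with y hy
  rintro (⟨t, ht, hyt, hsim, hout⟩ | ⟨z₀, R, t, hD, hmax, hyD, hsim⟩)
  · left
    exact ⟨t, ht, h1 t ht ⟨y, hyt, ball_subset_closedBall (ball_subset_ball (min_le_left _ _) hy)⟩,
      hsim, hout⟩
  · right
    refine ⟨z₀, R, t, hD, hmax, ?_, hsim⟩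
    by_contra hx
    have hy2 : y ∈ ball x r₂ := ball_subset_ball (min_le_right _ _) hy
    rw [mem_closedBall] at hx hyD
    push Not at hx
    have hc : ContinuousOn (fun q : ℂ => dist q z₀) (ball x r₂) := by fun_prop
    obtain ⟨q, hq, hq1⟩ := (convex_ball x r₂).isPreconnected.intermediate_value hy2
      (mem_ball_self hr₂) hc ⟨hyD, hx.le⟩
    have := h2 z₀ R t hD ⟨q, mem_sphere.2 hq1, hq⟩
    rw [mem_sphere] at this
    linarith

theorem GG_const (hQ : ∀ i, IsDisk (Q i)) (S : Sys Q U Tn T d) {κ : Set ℂ} {C : Set ℂ}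
    (hC : IsPreconnected C) (hE : ∀ x ∈ C, x ∉ IsTiling.E3 T)
    (hcirc : ∀ x ∈ C, ∀ a b t₁ t₂, MCurve U d T a b (ham a b x) t₁ t₂ → a ≠ 0)
    {x y : ℂ} (hx : x ∈ C) (hy : y ∈ C) (h : GG U d T κ x) : GG U d T κ y := by
  refine (local_const hC (P := GG U d T κ) ?_ hx hy).1 h
  intro z hz
  by_cases hG : GG U d T κ z
  · refine ((GG_open hQ S (hE z hz) (hcirc z hz) hG).filter_mono nhdsWithin_le_nhds).mono ?_
    intro w hw
    exact ⟨fun _ => hw, fun _ => hG⟩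
  · refine ((GG_closed hQ S (κ := κ) (x := z)).filter_mono nhdsWithin_le_nhds).mono ?_
    intro w hw
    exact ⟨fun h => absurd h hG, fun h => absurd (hw h) hG⟩

end Pool.Agent.Lib.MP_ffe3a0_co
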