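import Pool.Agent.Lib.MP_ffe3a0_co.Triple
import Pool.Agent.Lib.MP_ffe3a0_co.Mot

/-!
Tilings of the plane by direct isometric copies of finitely many topological disks.
-/

set_option autoImplicit false
set_option linter.unusedSectionVars false

open Set Metric Filter Topology Pointwise

noncomputable section

namespace Pool.Agent.Lib.MP_ffe3a0_co

/-- `t` is a direct isometric copy of one of the prototiles. -/
def IsTile {ι : Type} (Q : ι → Set ℂ) (t : Set ℂ) : Prop := ∃ i, ∃ g : Mot, t = g • Q i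

/-- `T` is a tiling by direct isometric copies of the prototiles. -/
structure IsTiling {ι : Type} (Q : ι → Set ℂ) (T : Set (Set ℂ)) : Prop where
  tile : ∀ t ∈ T, IsTile Q t
  cover : ⋃₀ T = univ
  disj : ∀ s ∈ T, ∀ t ∈ T, s ≠ t → Disjoint (interior s) (interior t)

theorem IsDisk.smul {K : Set ℂ} (h : IsDisk K) (g : Mot) : IsDisk (g • K) := by
  obtain ⟨φ, hφ, hinj, rfl⟩ := h
  refine ⟨fun z => g • φ z, hφ.const_smul g, ?_, ?_⟩
  · intro z hz w hw e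
    exact hinj hz hw (smul_left_cancel g e)
  · rw [← image_smul, image_image]

section

variable {ι : Type} [Finite ι] {Q : ι → Set ℂ} (hQ : ∀ i, IsDisk (Q i))

include hQ in
theorem IsTile.isDisk {t : Set ℂ} (h : IsTile Q t) : IsDisk t := by
  obtain ⟨i, g, rfl⟩ := h
  exact (hQ i).smul g

theorem IsTile.smul {t : Set ℂ} (h : IsTile Q t) (g : Mot) : IsTile Q (g • t) := by
  obtain ⟨i, k, rfl⟩ := h
  exact ⟨i, g * k, by rw [mul_smul]⟩

theorem smul_ball (g : Mot) (c : ℂ) (r : ℝ) : g • ball c r = ball (g • c) r :=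
  Metric.smul_ball g c r

include hQ in
/-- uniform inradius -/
theorem exists_inradius : ∃ ρ > 0, ∀ t, IsTile Q t → ∃ c, ball c ρ ⊆ interior t := by
  have h1 : ∀ i, ∃ ρ > 0, ∃ c, ball c ρ ⊆ interior (Q i) := by
    intro i
    obtain ⟨c, hc⟩ := (hQ i).isConnected_interior.nonempty
    obtain ⟨ρ, hρ, h⟩ := Metric.isOpen_iff.1 isOpen_interior c hc
    exact ⟨ρ, hρ, c, h⟩
  choose ρ hρ c hc using h1
  rcases isEmpty_or_nonempty ι with hι | hι
  · refine ⟨1, one_pos, ?_⟩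
    rintro t ⟨i, -⟩
    exact hι.elim i
  · obtain ⟨i₀, hi₀⟩ := Finite.exists_min ρ
    refine ⟨ρ i₀, hρ i₀, ?_⟩
    rintro t ⟨i, g, rfl⟩
    refine ⟨g • c i, ?_⟩
    rw [← smul_ball, Mot.smul_set_interior]
    exact smul_set_mono ((ball_subset_ball (hi₀ i)).trans (hc i))

include hQ in
/-- uniform bound on the diameters -/
theorem exists_diam : ∃ Δ > 0, ∀ t, IsTile Q t → ∀ x ∈ t, ∀ y ∈ t, dist x y ≤ Δ := by
  have h1 : ∀ i, ∃ Δ > 0, ∀ x ∈ Q i, ∀ y ∈ Q i, dist x y ≤ Δ := by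
    intro i
    obtain ⟨C, hC⟩ := Metric.isBounded_iff.1 (hQ i).isCompact.isBounded
    exact ⟨max C 1, by positivity, fun x hx y hy => (hC hx hy).trans (le_max_left _ _)⟩
  choose Δ hΔ hc using h1
  rcases isEmpty_or_nonempty ι with hι | hι
  · refine ⟨1, one_pos, ?_⟩
    rintro t ⟨i, -⟩
    exact hι.elim i
  · obtain ⟨i₀, hi₀⟩ := Finite.exists_max Δ
    refine ⟨Δ i₀, hΔ i₀, ?_⟩
    rintro t ⟨i, g, rfl⟩ x ⟨x', hx', rfl⟩ y ⟨y', hy', rfl⟩
    show dist (g • x') (g • y') ≤ _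
    rw [Mot.dist_smul']
    exact (hc i x' hx' y' hy').trans (hi₀ i)

end

namespace IsTiling

variable {ι : Type} [Finite ι] {Q : ι → Set ℂ} {T : Set (Set ℂ)}

theorem exists_mem (h : IsTiling Q T) (x : ℂ) : ∃ t ∈ T, x ∈ t := by
  have : x ∈ ⋃₀ T := by rw [h.cover]; trivial
  exact this

/-- local finiteness -/
theorem finite_meet (hQ : ∀ i, IsDisk (Q i)) (h : IsTiling Q T) (W : Set ℂ)
    (hW : Bornology.IsBounded W) : {t ∈ T | (t ∩ W).Nonempty}.Finite := by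
  obtain ⟨ρ, hρ, hin⟩ := exists_inradius hQ
  obtain ⟨Δ, hΔ, hdiam⟩ := exists_diam hQ
  obtain ⟨R, hR⟩ := hW.subset_closedBall 0
  have hc : ∀ t : Set ℂ, ∃ c : ℂ, t ∈ T → ball c ρ ⊆ interior t := by
    intro t
    by_cases ht : t ∈ T
    · obtain ⟨c, hc⟩ := hin t (h.tile t ht)
      exact ⟨c, fun _ => hc⟩
    · exact ⟨0, fun h' => absurd h' ht⟩
  choose c hc using hc
  obtain ⟨F, hFK, hF, hcov⟩ := (isCompact_closedBall (0 : ℂ) (R + Δ)).finite_cover_balls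
    (half_pos hρ)
  have hx : ∀ t : Set ℂ, ∃ x : ℂ, t ∈ T → (t ∩ W).Nonempty → x ∈ F ∧ c t ∈ ball x (ρ / 2) := by
    intro t
    by_cases ht : t ∈ T ∧ (t ∩ W).Nonempty
    · obtain ⟨ht, y, hy1, hy2⟩ := ht
      have h1 : c t ∈ t := interior_subset (hc t ht (mem_ball_self hρ))
      have h2 := hdiam t (h.tile t ht) _ h1 _ hy1
      have h3 : c t ∈ closedBall (0 : ℂ) (R + Δ) := by
        rw [mem_closedBall]
        calc dist (c t) 0 ≤ dist (c t) y + dist y 0 := dist_triangle _ _ _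
          _ ≤ Δ + R := add_le_add h2 (mem_closedBall.1 (hR hy2))
          _ = R + Δ := add_comm _ _
      obtain ⟨x, hx⟩ := mem_iUnion.1 (hcov h3)
      obtain ⟨hxF, hx⟩ := mem_iUnion.1 hx
      exact ⟨x, fun _ _ => ⟨hxF, hx⟩⟩
    · exact ⟨0, fun h1 h2 => absurd ⟨h1, h2⟩ ht⟩
  choose x hx using hx
  apply Set.Finite.of_injOn (f := x) (t := F)
  · rintro t ⟨ht, hm⟩
    exact (hx t ht hm).1
  · rintro s ⟨hs, hsm⟩ t ⟨ht, htm⟩ e
    by_contra hne
    have h1 := (hx s hs hsm).2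
    have h2 := (hx t ht htm).2
    rw [e] at h1
    have h3 : dist (c s) (c t) < ρ := by
      calc dist (c s) (c t) ≤ dist (c s) (x t) + dist (x t) (c t) := dist_triangle _ _ _
        _ < ρ / 2 + ρ / 2 := add_lt_add (mem_ball.1 h1) (by rw [dist_comm]; exact mem_ball.1 h2)
        _ = ρ := add_halves _
    exact disjoint_left.1 (h.disj s hs t ht hne) (hc s hs (show c t ∈ ball (c s) ρ by
      rw [mem_ball, dist_comm]; exact h3)) (hc t ht (mem_ball_self hρ))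
  · exact hF

theorem unique_of_interior (hQ : ∀ i, IsDisk (Q i)) (h : IsTiling Q T) {s t : Set ℂ}
    (hs : s ∈ T) (ht : t ∈ T) {x : ℂ} (hx : x ∈ interior s) (hxt : x ∈ t) : s = t := by
  by_contra hne
  exact not_mem_interior_of_disjoint ((h.tile t ht).isDisk hQ) (h.disj s hs t ht hne) hxt hx

/-- near every point only the tiles containing it are visible -/
theorem exists_ball (hQ : ∀ i, IsDisk (Q i)) (h : IsTiling Q T) (x : ℂ) :
    ∃ r > 0, ∀ t ∈ T, (t ∩ closedBall x r).Nonempty → x ∈ t := by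
  have hfin := h.finite_meet hQ (closedBall x 1) isBounded_closedBall
  have h1 : ∀ t ∈ {t ∈ T | (t ∩ closedBall x 1).Nonempty},
      ∃ r > 0, (t ∩ closedBall x r).Nonempty → x ∈ t := by
    rintro t ⟨ht, -⟩
    by_cases hx : x ∈ t
    · exact ⟨1, one_pos, fun _ => hx⟩
    · obtain ⟨r, hr, hrs⟩ := Metric.isOpen_iff.1 ((h.tile t ht).isDisk hQ).isClosed.isOpen_compl x hx
      refine ⟨r / 2, half_pos hr, ?_⟩
      rintro ⟨y, hy1, hy2⟩
      exact absurd hy1 (hrs (closedBall_subset_ball (half_lt_self hr) hy2))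
  choose! r hr hrs using h1
  by_cases hne : {t ∈ T | (t ∩ closedBall x 1).Nonempty}.Nonempty
  · obtain ⟨t₀, ht₀, hmin⟩ := Set.exists_min_image _ r hfin hne
    refine ⟨min 1 (r t₀), lt_min one_pos (hr t₀ ht₀), ?_⟩
    rintro t ht ⟨y, hy1, hy2⟩
    have h2 : t ∈ {t ∈ T | (t ∩ closedBall x 1).Nonempty} :=
      ⟨ht, y, hy1, closedBall_subset_closedBall (min_le_left _ _) hy2⟩
    apply hrs t h2
    exact ⟨y, hy1, closedBall_subset_closedBall ((min_le_right _ _).trans (hmin t h2)) hy2⟩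
  · refine ⟨1, one_pos, ?_⟩
    intro t ht hm
    exact absurd ⟨t, ht, hm⟩ hne

/-- a boundary point of a tile lies in another tile -/
theorem exists_other (hQ : ∀ i, IsDisk (Q i)) (h : IsTiling Q T) {t : Set ℂ}
    {x : ℂ} (hx : x ∉ interior t) : ∃ s ∈ T, s ≠ t ∧ x ∈ s := by
  by_contra hcon
  push Not at hcon
  obtain ⟨r, hr, hrs⟩ := h.exists_ball hQ x
  apply hx
  rw [mem_interior]
  refine ⟨ball x r, ?_, isOpen_ball, mem_ball_self hr⟩
  intro y hy
  obtain ⟨s, hs, hys⟩ := h.exists_mem y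
  have h1 := hrs s hs ⟨y, hys, ball_subset_closedBall hy⟩
  by_cases hst : s = t
  · rw [← hst]; exact hys
  · exact absurd h1 (hcon s hs hst)

theorem smul (h : IsTiling Q T) (g : Mot) : IsTiling Q (g • T) := by
  constructor
  · rintro _ ⟨t, ht, rfl⟩
    exact (h.tile t ht).smul g
  · rw [eq_univ_iff_forall]
    intro x
    obtain ⟨t, ht, hx⟩ := h.exists_mem (g⁻¹ • x)
    exact ⟨g • t, ⟨t, ht, rfl⟩, mem_smul_set_iff_inv_smul_mem.2 hx⟩
  · rintro _ ⟨s, hs, rfl⟩ _ ⟨t, ht, rfl⟩ hne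
    simp only at hne ⊢
    rw [Mot.smul_set_interior, Mot.smul_set_interior]
    have hst : s ≠ t := fun e => hne (by rw [e])
    rw [disjoint_left]
    rintro _ ⟨y, hy, rfl⟩ ⟨z, hz, e⟩
    simp only at e
    rw [smul_left_cancel g e] at hz
    exact disjoint_left.1 (h.disj s hs t ht hst) hy hz

/-- points lying in at least three tiles -/
def E3 (T : Set (Set ℂ)) : Set ℂ :=
  {x | ∃ s ∈ T, ∃ t ∈ T, ∃ u ∈ T, s ≠ t ∧ s ≠ u ∧ t ≠ u ∧ x ∈ s ∧ x ∈ t ∧ x ∈ u}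

theorem finite_triple (hQ : ∀ i, IsDisk (Q i)) (h : IsTiling Q T) {s t u : Set ℂ}
    (hs : s ∈ T) (ht : t ∈ T) (hu : u ∈ T) (hst : s ≠ t) (hsu : s ≠ u) (htu : t ≠ u) :
    (s ∩ t ∩ u).Finite := by
  by_contra hinf
  have hinf : (s ∩ t ∩ u).Infinite := hinf
  obtain ⟨A, hA, hcard⟩ := hinf.exists_subset_card_eq 3
  obtain ⟨x, y, z, hxy, hxz, hyz, rfl⟩ := Finset.card_eq_three.1 hcard
  have hx : x ∈ s ∩ t ∩ u := hA (by simp)
  have hy : y ∈ s ∩ t ∩ u := hA (by simp)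
  have hz : z ∈ s ∩ t ∩ u := hA (by simp)
  rcases three_disks ((h.tile s hs).isDisk hQ) ((h.tile t ht).isDisk hQ) ((h.tile u hu).isDisk hQ)
    (h.disj s hs t ht hst) (h.disj s hs u hu hsu) (h.disj t ht u hu htu) hx hy hz with e | e | e
  · exact hxy e
  · exact hyz e
  · exact hxz e

theorem finite_E3 (hQ : ∀ i, IsDisk (Q i)) (h : IsTiling Q T) (W : Set ℂ)
    (hW : Bornology.IsBounded W) : (E3 T ∩ W).Finite := by
  have hfin := h.finite_meet hQ W hW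
  set S := {t ∈ T | (t ∩ W).Nonempty} with hS
  have h1 : E3 T ∩ W ⊆ ⋃ s ∈ S, ⋃ t ∈ S, ⋃ u ∈ S,
      {x | s ≠ t ∧ s ≠ u ∧ t ≠ u ∧ x ∈ s ∩ t ∩ u} := by
    rintro x ⟨⟨s, hs, t, ht, u, hu, h1, h2, h3, h4, h5, h6⟩, hxW⟩
    simp only [mem_iUnion]
    exact ⟨s, ⟨hs, x, h4, hxW⟩, t, ⟨ht, x, h5, hxW⟩, u, ⟨hu, x, h6, hxW⟩, h1, h2, h3, ⟨h4, h5⟩, h6⟩
  apply Set.Finite.subset _ h1
  apply hfin.biUnion
  intro s hs
  apply hfin.biUnion
  intro t ht
  apply hfin.biUnion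
  intro u hu
  by_cases hne : s ≠ t ∧ s ≠ u ∧ t ≠ u
  · apply (h.finite_triple hQ hs.1 ht.1 hu.1 hne.1 hne.2.1 hne.2.2).subset
    rintro x ⟨-, -, -, hx⟩
    exact hx
  · convert Set.finite_empty
    ext x
    simp only [mem_empty_iff_false, iff_false]
    rintro ⟨a, b, c, -⟩
    exact hne ⟨a, b, c⟩

/-- triple points are isolated -/
theorem E3_isolated (hQ : ∀ i, IsDisk (Q i)) (h : IsTiling Q T) (p : ℂ) :
    ∃ r > 0, ∀ x ∈ E3 T, x ∈ ball p r → x = p := by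
  have hfin := (h.finite_E3 hQ (ball p 1) isBounded_ball).sdiff (t := {p})
  obtain ⟨r, hr, hrs⟩ := Metric.isOpen_iff.1 hfin.isClosed.isOpen_compl p (by simp)
  refine ⟨min r 1, lt_min hr one_pos, ?_⟩
  intro x hx hxp
  by_contra hne
  exact hrs (ball_subset_ball (min_le_left _ _) hxp)
    ⟨⟨hx, ball_subset_ball (min_le_right _ _) hxp⟩, hne⟩

end IsTiling

end Pool.Agent.Lib.MP_ffe3a0_co
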