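import Pool.Agent.Lib.MP_ffe3a0_co.Flow
import Pool.Agent.Lib.MP_ffe3a0_co.Tiling

/-!
Sublevel sets of the quadratic functions, proportionality of quadratic functions with a common
level set.
-/

set_option autoImplicit false
set_option linter.unusedSectionVars false

open Set Metric Filter Topology Pointwise ComplexConjugate

noncomputable section

namespace Pool.Agent.Lib.MP_ffe3a0_co

theorem par3 {x0 x1 x2 y0 y1 y2 n0 n1 n2 : ℝ} (hn : n0 ≠ 0 ∨ n1 ≠ 0 ∨ n2 ≠ 0)
    (hx : x0 ≠ 0 ∨ x1 ≠ 0 ∨ x2 ≠ 0)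
    (x01 : x0 * n1 = x1 * n0) (x02 : x0 * n2 = x2 * n0) (x12 : x1 * n2 = x2 * n1)
    (y01 : y0 * n1 = y1 * n0) (y02 : y0 * n2 = y2 * n0) (y12 : y1 * n2 = y2 * n1) :
    ∃ l : ℝ, y0 = l * x0 ∧ y1 = l * x1 ∧ y2 = l * x2 := by
  rcases hn with h | h | h
  · have hx0 : x0 ≠ 0 := by
      intro e
      rw [e, zero_mul] at x01 x02
      have h1 := (mul_eq_zero.1 x01.symm).resolve_right h
      have h2 := (mul_eq_zero.1 x02.symm).resolve_right h
      rcases hx with h' | h' | h' <;> contradiction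
    have k1 : y1 * x0 = y0 * x1 := mul_right_cancel₀ h (by linear_combination (-x0) * y01 + y0 * x01)
    have k2 : y2 * x0 = y0 * x2 := mul_right_cancel₀ h (by linear_combination (-x0) * y02 + y0 * x02)
    exact ⟨y0 / x0, by field_simp, by field_simp; linarith, by field_simp; linarith⟩
  · have hx0 : x1 ≠ 0 := by
      intro e
      rw [e, zero_mul] at x01 x12
      have h1 := (mul_eq_zero.1 x01).resolve_right h
      have h2 := (mul_eq_zero.1 x12.symm).resolve_right h
      rcases hx with h' | h' | h' <;> contradiction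
    have k1 : y0 * x1 = y1 * x0 := mul_right_cancel₀ h (by linear_combination x1 * y01 - y1 * x01)
    have k2 : y2 * x1 = y1 * x2 := mul_right_cancel₀ h (by linear_combination (-x1) * y12 + y1 * x12)
    exact ⟨y1 / x1, by field_simp; linarith, by field_simp, by field_simp; linarith⟩
  · have hx0 : x2 ≠ 0 := by
      intro e
      rw [e, zero_mul] at x02 x12
      have h1 := (mul_eq_zero.1 x02).resolve_right h
      have h2 := (mul_eq_zero.1 x12).resolve_right h
      rcases hx with h' | h' | h' <;> contradiction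
    have k1 : y0 * x2 = y2 * x0 := mul_right_cancel₀ h (by linear_combination x2 * y02 - y2 * x02)
    have k2 : y1 * x2 = y2 * x1 := mul_right_cancel₀ h (by linear_combination x2 * y12 - y2 * x12)
    exact ⟨y2 / x2, by field_simp; linarith, by field_simp; linarith, by field_simp⟩

theorem re_conj_mul (z w : ℂ) : (conj z * w).re = z.re * w.re + z.im * w.im := by
  simp

/-- Two quadratic functions which are constant on the same three points are proportional. -/
theorem three_pt {a a' : ℝ} {b b' : ℂ} {c c' : ℝ} {z₁ z₂ z₃ : ℂ} (h12 : z₁ ≠ z₂) (h13 : z₁ ≠ z₃)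
    (h23 : z₂ ≠ z₃) (hab : |a| + ‖b‖ ≠ 0)
    (h1 : ham a b z₁ = c) (h2 : ham a b z₂ = c) (h3 : ham a b z₃ = c)
    (h1' : ham a' b' z₁ = c') (h2' : ham a' b' z₂ = c') (h3' : ham a' b' z₃ = c') :
    ∃ l : ℝ, a' = l * a ∧ b' = l * b ∧ c' = l * c := by
  set B := grad a b z₁ with hB
  set B' := grad a' b' z₁ with hB'
  set w₂ := z₂ - z₁ with hw₂
  set w₃ := z₃ - z₁ with hw₃
  have e2 := ham_sub' a b z₂ z₁
  have e3 := ham_sub' a b z₃ z₁
  have e2' := ham_sub' a' b' z₂ z₁
  have e3' := ham_sub' a' b' z₃ z₁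
  rw [h2, h1, sub_self, ← hB, ← hw₂, re_conj_mul] at e2
  rw [h3, h1, sub_self, ← hB, ← hw₃, re_conj_mul] at e3
  rw [h2', h1', sub_self, ← hB', ← hw₂, re_conj_mul] at e2'
  rw [h3', h1', sub_self, ← hB', ← hw₃, re_conj_mul] at e3'
  set p := Complex.normSq w₂ with hp
  set q := Complex.normSq w₃ with hq
  have hp0 : 0 < p := Complex.normSq_pos.2 (sub_ne_zero.2 h12.symm)
  have hq0 : 0 < q := Complex.normSq_pos.2 (sub_ne_zero.2 h13.symm)
  have hpe : p = w₂.re * w₂.re + w₂.im * w₂.im := Complex.normSq_apply w₂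
  have hqe : q = w₃.re * w₃.re + w₃.im * w₃.im := Complex.normSq_apply w₃
  have hn : (w₂.re * w₃.im - w₂.im * w₃.re) ≠ 0 ∨ (w₂.im * q - p * w₃.im) ≠ 0 ∨
      (p * w₃.re - w₂.re * q) ≠ 0 := by
    by_contra hcon
    push Not at hcon
    obtain ⟨-, n1, n2⟩ := hcon
    have k1 : p * w₃.im = q * w₂.im := by linarith
    have k2 : p * w₃.re = q * w₂.re := by linarith
    have k3 : p * p * q = q * q * p := by
      calc p * p * q = (p * w₃.re) * (p * w₃.re) + (p * w₃.im) * (p * w₃.im) := by rw [hqe]; ring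
        _ = q * q * p := by rw [k1, k2, hpe]; ring
    have k4 : p = q := by
      have : p * q ≠ 0 := (mul_pos hp0 hq0).ne'
      apply mul_right_cancel₀ this
      linear_combination k3
    apply h23
    have k5 : w₂ = w₃ := by
      apply Complex.ext
      · apply mul_left_cancel₀ hq0.ne'
        rw [← k2, k4]
      · apply mul_left_cancel₀ hq0.ne'
        rw [← k1, k4]
    have : z₂ - z₁ = z₃ - z₁ := k5
    exact sub_left_injective this
  have hx : a ≠ 0 ∨ B.re ≠ 0 ∨ B.im ≠ 0 := by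
    by_contra hcon
    push Not at hcon
    obtain ⟨ha, hr, hi⟩ := hcon
    have hB0 : B = 0 := Complex.ext hr hi
    have hb0 : b = 0 := by
      rw [hB, grad, ha] at hB0
      simpa using hB0
    apply hab
    rw [ha, hb0]; simp
  obtain ⟨l, l0, l1, l2⟩ := par3 (x0 := a) (x1 := B.re) (x2 := B.im) (y0 := a') (y1 := B'.re)
    (y2 := B'.im) hn hx
    (by linear_combination (w₃.im) * e2 - w₂.im * e3)
    (by linear_combination (-w₃.re) * e2 + w₂.re * e3)
    (by linear_combination (q) * e2 - p * e3)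
    (by linear_combination (w₃.im) * e2' - w₂.im * e3')
    (by linear_combination (-w₃.re) * e2' + w₂.re * e3')
    (by linear_combination (q) * e2' - p * e3')
  have hBl : B' = l * B := by
    apply Complex.ext
    · rw [l1]; simp
    · rw [l2]; simp
  have hbl : b' = l * b := by
    have k1 : b = B - 2 * a * z₁ := by rw [hB, grad]; ring
    have k2 : b' = B' - 2 * a' * z₁ := by rw [hB', grad]; ring
    rw [k1, k2, hBl, l0]; push_cast; ring
  refine ⟨l, l0, hbl, ?_⟩
  rw [← h1', ← h1, l0, hbl, ham_smul]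

theorem ham_inv_smul (a : ℝ) (b : ℂ) (g : Mot) (z : ℂ) :
    ham a b (g⁻¹ • z) = ham a (g.u * b - 2 * a * g.b) z + ham a b (g⁻¹ • (0 : ℂ)) := by
  have h4 : (g.u : ℂ) * conj (g.u : ℂ) = 1 := by
    rw [Complex.mul_conj, Complex.normSq_eq_norm_sq, Circle.norm_coe]; simp
  have h0 : (((g.u)⁻¹ : Circle) : ℂ) = conj (g.u : ℂ) := by
    rw [Circle.coe_inv, Complex.inv_def, Complex.normSq_eq_norm_sq, Circle.norm_coe]
    simp
  have hu : (g.u : ℂ).re * (g.u : ℂ).re + (g.u : ℂ).im * (g.u : ℂ).im = 1 := by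
    have := congrArg Complex.re h4
    simpa using this
  rw [Mot.smul_def, Mot.smul_def, Mot.inv_u, Mot.inv_b, h0]
  simp only [ham, Complex.normSq_apply, map_sub, map_mul, map_neg, Complex.conj_ofReal,
    Complex.add_re, Complex.add_im, Complex.sub_re, Complex.sub_im, Complex.mul_re,
    Complex.mul_im, Complex.neg_re, Complex.neg_im, Complex.conj_re, Complex.conj_im,
    Complex.ofReal_re, Complex.ofReal_im, Complex.re_ofNat, Complex.im_ofNat, mul_zero, zero_mul,
    Complex.zero_re, Complex.zero_im, map_ofNat]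
  linear_combination (a * (z.re * z.re + z.im * z.im) - 2 * a * (g.b.re * z.re + g.b.im * z.im)) * hu

theorem ham_ext {a a' : ℝ} {b b' : ℂ} {k k' : ℝ} (h : ∀ z, ham a b z + k = ham a' b' z + k') :
    a = a' ∧ b = b' ∧ k = k' := by
  have h0 := h 0
  have h1 := h 1
  have h2 := h (-1)
  have h3 := h Complex.I
  have h4 := h (-Complex.I)
  simp [ham, Complex.normSq_apply] at h0 h1 h2 h3 h4
  refine ⟨by linarith, Complex.ext (by linarith) (by linarith), h0⟩

theorem exists_ham_ne {a : ℝ} {b : ℂ} (hab : |a| + ‖b‖ ≠ 0) (c : ℝ) : ∃ z, ham a b z ≠ c := by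
  by_contra hcon
  push Not at hcon
  obtain ⟨h1, h2, -⟩ := ham_ext (a := a) (b := b) (a' := 0) (b' := 0) (k := 0) (k' := c)
    (fun z => by rw [hcon z]; simp [ham])
  apply hab
  rw [h1, h2]; simp

variable {U : Ultrafilter ℕ}

/-- The rigidity lemma for invariant functions. -/
theorem alg {g : ℕ → Mot} (hg : Tendsto g U (𝓝 1)) {a a' : ℝ} {b b' : ℂ} {c c' : ℝ}
    (hab : |a| + ‖b‖ ≠ 0) (hab' : |a'| + ‖b'‖ ≠ 0)
    (h : ∀ᶠ n in U, ∃ l : ℝ, ∀ z, ham a' b' ((g n)⁻¹ • z) - c' = l * (ham a b z - c)) :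
    (∃ l : ℝ, l ≠ 0 ∧ a' = l * a ∧ b' = l * b ∧ c' = l * c) ∧
      ∀ᶠ n in U, ∀ z, ham a b (g n • z) = ham a b z := by
  obtain ⟨z₁, hz₁⟩ := exists_ham_ne hab c
  have hz₁' : ham a b z₁ - c ≠ 0 := sub_ne_zero.2 hz₁
  set l : ℝ := (ham a' b' z₁ - c') / (ham a b z₁ - c) with hl
  have hlim : ∀ z, Tendsto (fun n => ham a' b' ((g n)⁻¹ • z) - c') U (𝓝 (ham a' b' z - c')) := by
    intro z
    have h1 : Tendsto (fun n => (g n)⁻¹ • z) U (𝓝 ((1 : Mot)⁻¹ • z)) := hg.inv.smul_const z
    rw [inv_one, one_smul] at h1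
    exact (((continuous_ham a' b').tendsto z).comp h1).sub_const c'
  have hln : ∀ᶠ n in U, ∀ z, ham a' b' ((g n)⁻¹ • z) - c' =
      ((ham a' b' ((g n)⁻¹ • z₁) - c') / (ham a b z₁ - c)) * (ham a b z - c) := by
    filter_upwards [h] with n hn z
    obtain ⟨m, hm⟩ := hn
    rw [hm z, hm z₁]
    field_simp
  have hll : Tendsto (fun n => (ham a' b' ((g n)⁻¹ • z₁) - c') / (ham a b z₁ - c)) U (𝓝 l) :=
    (hlim z₁).div_const _
  have hrel : ∀ z, ham a' b' z - c' = l * (ham a b z - c) := by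
    intro z
    have t1 : Tendsto (fun n => ((ham a' b' ((g n)⁻¹ • z₁) - c') / (ham a b z₁ - c)) *
        (ham a b z - c)) U (𝓝 (l * (ham a b z - c))) := hll.mul_const _
    exact tendsto_nhds_unique_of_eventuallyEq (hlim z) t1 (hln.mono fun n hn => hn z)
  obtain ⟨k1, k2, k3⟩ := ham_ext (a := a') (b := b') (a' := l * a) (b' := l * b) (k := -c')
    (k' := -(l * c)) (fun z => by rw [ham_smul]; linarith [hrel z])
  have hl0 : l ≠ 0 := by
    intro e
    apply hab'
    rw [k1, k2, e]; simp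
  have hl0c : (l : ℂ) ≠ 0 := by exact_mod_cast hl0
  refine ⟨⟨l, hl0, k1, k2, by linarith⟩, ?_⟩
  have hc' : c' = l * c := by linarith
  -- the ratio tends to one
  have hμ : Tendsto (fun n => (ham a' b' ((g n)⁻¹ • z₁) - c') / (ham a b z₁ - c) / l) U
      (𝓝 (l / l)) := hll.div_const l
  rw [div_self hl0] at hμ
  filter_upwards [hln, hμ.eventually (lt_mem_nhds (show (0 : ℝ) < 1 by norm_num))] with n hn hpos
  set κ := (ham a' b' ((g n)⁻¹ • z₁) - c') / (ham a b z₁ - c) with hκ
  set μ := κ / l with hμdef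
  have hκμ : κ = l * μ := by rw [hμdef]; field_simp
  have e0 : ∀ w, ham a' b' w = l * ham a b w := fun w => by rw [k1, k2, ham_smul]
  have e1 : ∀ z, ham a b ((g n)⁻¹ • z) - c = μ * (ham a b z - c) := by
    intro z
    have := hn z
    rw [e0, hc', hκμ] at this
    apply mul_left_cancel₀ hl0
    linarith
  obtain ⟨f1, f2, f3⟩ := ham_ext (a := a) (b := (g n).u * b - 2 * a * (g n).b) (a' := μ * a)
    (b' := μ * b) (k := ham a b ((g n)⁻¹ • (0 : ℂ)) - c) (k' := -(μ * c)) (fun z => by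
      have := e1 z
      rw [ham_inv_smul] at this
      rw [ham_smul]
      linarith)
  have hμ1 : μ = 1 := by
    rcases eq_or_ne a 0 with ha | ha
    · rw [ha] at f2
      simp only [Complex.ofReal_zero, mul_zero, zero_mul, sub_zero] at f2
      have hb : ‖b‖ ≠ 0 := by
        intro e; apply hab; rw [ha, e]; simp
      have f4 := congrArg norm f2
      rw [norm_mul, norm_mul, Circle.norm_coe, one_mul, Complex.norm_real,
        Real.norm_of_nonneg hpos.le] at f4
      apply mul_right_cancel₀ hb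
      rw [one_mul]; exact f4.symm
    · apply mul_right_cancel₀ ha
      rw [one_mul]; exact f1.symm
  intro z
  have := e1 (g n • z)
  rw [inv_smul_smul, hμ1, one_mul] at this
  linarith

end Pool.Agent.Lib.MP_ffe3a0_co
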