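import Pool.Agent.Lib.MP_ffe3a0_co.Gap

/-!
The moving set continues straight through triple points, with constant classes on both sides.
-/

set_option autoImplicit false
set_option linter.unusedSectionVars false

open Set Metric Filter Topology Pointwise ComplexConjugate

noncomputable section

namespace Pool.Agent.Lib.MP_ffe3a0_co

variable {ι : Type} [Finite ι] {Q : ι → Set ℂ} {U : Ultrafilter ℕ} {Tn : ℕ → Set (Set ℂ)}
  {T : Set (Set ℂ)} {d : Set ℂ → ℕ → Mot} {a : ℝ} {b : ℂ}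

theorem exists_small (a : ℝ) (b p : ℂ) {r : ℝ} (hr : 0 < r) :
    ∃ δ > 0, ∀ s : ℝ, |s| < δ → |a * s| ≤ Real.pi / 4 ∧ flow a b s • p ∈ ball p r := by
  have h1 : Tendsto (fun s : ℝ => flow a b s • p) (𝓝 0) (𝓝 p) := by
    have h2 : Continuous fun s : ℝ => flow a b s • p := (continuous_flow a b).smul continuous_const
    have h3 := h2.tendsto 0
    rwa [flow_zero, one_smul] at h3
  have h3 : ∀ᶠ s : ℝ in 𝓝 0, |a * s| ≤ Real.pi / 4 := by
    have h5 : Tendsto (fun ε : ℝ => |a * ε|) (𝓝 0) (𝓝 |a * 0|) :=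
      ((continuous_const.mul continuous_id).abs.tendsto 0)
    rw [mul_zero, abs_zero] at h5
    exact h5.eventually (ge_mem_nhds (by positivity))
  obtain ⟨δ, hδ, h⟩ := Metric.eventually_nhds_iff.1 (h3.and (h1.eventually (ball_mem_nhds p hr)))
  exact ⟨δ, hδ, fun s hs => h (by rwa [Real.dist_eq, sub_zero])⟩

namespace Sys

theorem straight_aux (hQ : ∀ i, IsDisk (Q i)) (S : Sys Q U Tn T d) {p : ℂ}
    (hpE : p ∈ IsTiling.E3 T) {t₁ t₂ : Set ℂ} (ht₁ : t₁ ∈ T) (ht₂ : t₂ ∈ T)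
    (R : Rel U d t₁ t₂ a b) (hG : grad a b p ≠ 0) {η : ℝ} (hη : η = 1 ∨ η = -1)
    (hd1 : ∀ n, d t₁ n = 1) {δ : ℝ} (hδ : 0 < δ)
    (hback : ∀ s, -δ < s → s < 0 → Lo a b t₁ (flow a b (η * s) • p) ∧
      Lo (-a) (-b) t₂ (flow a b (η * s) • p)) {α : ℕ → ℝ} (hα0 : Tendsto α U (𝓝 0))
    (hα : ∀ᶠ n in U, 0 < α n ∧ d t₂ n = flow a b (η * α n)) :
    ∃ u₁ ∈ T, ∃ u₂ ∈ T, Sim U d t₁ u₁ ∧ Sim U d t₂ u₂ ∧ ∃ δ' > 0, ∀ s, 0 < s → s < δ' →
      Lo a b u₁ (flow a b (η * s) • p) ∧ Lo (-a) (-b) u₂ (flow a b (η * s) • p) := by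
  have hηη : η * η = 1 := by rcases hη with h | h <;> rw [h] <;> norm_num
  have hηabs : |η| = 1 := by rcases hη with h | h <;> rw [h] <;> simp
  have hab := R.norm
  have hK := S.finite_at hQ p
  set K := {u ∈ T | p ∈ u} with hKdef
  obtain ⟨r₁, hr₁, gap1⟩ := S.gap hQ hG hab
  obtain ⟨r₂, hr₂, gap2⟩ := S.gap (a := -a) (b := -b) hQ (grad_neg_ne hG)
    (by rw [abs_neg, norm_neg]; exact hab)
  obtain ⟨r₃, hr₃, hiso⟩ := S.h.E3_isolated hQ p
  set r := min r₁ (min r₂ r₃) with hrdef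
  have hr : 0 < r := by positivity
  obtain ⟨δ₁, hδ₁, hsmall⟩ := exists_small a b p hr
  set δ₀ := min δ δ₁ with hδ₀
  have hδ₀pos : 0 < δ₀ := lt_min hδ hδ₁
  set γ : ℝ → ℂ := fun s => flow a b (η * s) • p with hγ
  have habs : ∀ s : ℝ, |η * s| = |s| := fun s => by rw [abs_mul, hηabs, one_mul]
  have hγball : ∀ s, |s| < δ₀ → γ s ∈ ball p r := fun s hs =>
    (hsmall (η * s) (by rw [habs]; exact hs.trans_le (min_le_right _ _))).2
  have hinj : ∀ s s', |s| < δ₀ → |s'| < δ₀ → γ s = γ s' → s = s' := by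
    intro s s' hs hs' e
    have h1 := (hsmall (η * s) (by rw [habs]; exact hs.trans_le (min_le_right _ _))).1
    have h2 := (hsmall (η * s') (by rw [habs]; exact hs'.trans_le (min_le_right _ _))).1
    have h3 : η * s = η * s' := by
      apply flow_inj hG _ e
      rw [mul_sub]
      refine (abs_sub _ _).trans ?_
      linarith
    have : η * (η * s) = η * (η * s') := by rw [h3]
    rw [← mul_assoc, ← mul_assoc, hηη, one_mul, one_mul] at this
    exact this
  have hinjf : ∀ s s', |s| < δ₀ → |s'| < δ₀ → flow a b (η * s) = flow a b (η * s') → s = s' := by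
    intro s s' hs hs' e
    exact hinj s s' hs hs' (by simp only [hγ]; rw [e])
  have hγ0 : γ 0 = p := by simp [hγ, flow_zero]
  have hγE : ∀ s, |s| < δ₀ → s ≠ 0 → γ s ∉ IsTiling.E3 T := by
    intro s hs hs0 hE
    have h1 := hiso _ hE (ball_subset_ball ((min_le_right _ _).trans (min_le_right _ _))
      (hγball s hs))
    exact hs0 (hinj s 0 hs (by simpa using hδ₀pos) (by rw [h1, hγ0]))
  have hγF : ∀ s, ham a b (γ s) = ham a b p := fun s => ham_flow _ _
  have hγG : ∀ s, grad a b (γ s) ≠ 0 := fun s => grad_flow_ne hG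
  have hγcont : Continuous γ :=
    ((continuous_flow a b).comp (continuous_const.mul continuous_id)).smul continuous_const
  have hshift : ∀ β s, (flow a b (η * β))⁻¹ • γ s = γ (s - β) := by
    intro β s
    simp only [hγ]
    rw [← flow_neg, ← mul_smul, ← flow_add]
    congr 2; ring
  have hshift' : ∀ β s, flow a b (η * β) • γ (s - β) = γ s := by
    intro β s
    rw [← hshift, smul_inv_smul]
  have hflowham : ∀ β z, ham a b (flow a b (η * β) • z) = ham a b z := fun β z => ham_flow _ _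
  -- the tiles at p
  have hp₁ : p ∈ t₁ := by
    have h1 : Tendsto γ (𝓝[<] 0) (𝓝 p) := by
      rw [← hγ0]; exact (hγcont.tendsto 0).mono_left nhdsWithin_le_nhds
    apply (S.isDisk hQ ht₁).isClosed.mem_of_tendsto h1
    filter_upwards [Ioo_mem_nhdsLT (show -δ < 0 by linarith)] with s hs
    exact (hback s hs.1 hs.2).1.mem
  have hp₂ : p ∈ t₂ := by
    have h1 : Tendsto γ (𝓝[<] 0) (𝓝 p) := by
      rw [← hγ0]; exact (hγcont.tendsto 0).mono_left nhdsWithin_le_nhds
    apply (S.isDisk hQ ht₂).isClosed.mem_of_tendsto h1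
    filter_upwards [Ioo_mem_nhdsLT (show -δ < 0 by linarith)] with s hs
    exact (hback s hs.1 hs.2).2.mem
  have hback1 : ∀ s, -δ₀ < s → s < 0 → Lo a b t₁ (γ s) := fun s h1 h2 =>
    (hback s (by linarith [min_le_left δ δ₁]) h2).1
  have hback2 : ∀ s, -δ₀ < s → s < 0 → Lo (-a) (-b) t₂ (γ s) := fun s h1 h2 =>
    (hback s (by linarith [min_le_left δ δ₁]) h2).2
  -- eventual properties
  have E3' : ∀ᶠ n in U, ∀ u ∈ K, d u n • u ∈ Tn n := by
    rw [eventually_all_finite hK]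
    intro u hu
    exact S.mem u hu.1
  have E4 : ∀ᶠ n in U, ∀ u ∈ K, ∀ v ∈ K, d u n • u = d v n • v → u = v := by
    rw [eventually_all_finite hK]
    intro u hu
    rw [eventually_all_finite hK]
    intro v hv
    by_cases huv : u = v
    · exact Eventually.of_forall fun _ _ => huv
    · filter_upwards [S.inj hQ hu.1 hv.1 huv] with n hn e
      exact absurd e hn
  have E5 : ∀ᶠ n in U, ∀ u ∈ K, ∀ v ∈ K, d u n = d v n → Sim U d u v := by
    rw [eventually_all_finite hK]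
    intro u hu
    rw [eventually_all_finite hK]
    intro v hv
    by_cases huv : Sim U d u v
    · exact Eventually.of_forall fun _ _ => huv
    · have h' := huv
      unfold Sim at h'
      rw [← Ultrafilter.eventually_not] at h'
      filter_upwards [h'] with n hn e
      exact absurd e hn
  have E6 : ∀ᶠ n in U, ∀ u ∈ K, (∀ z, ham a b (d u n • z) = ham a b z) →
      ∃ β : ℝ, |β| < δ₀ / 4 ∧ d u n = flow a b (η * β) := by
    rw [eventually_all_finite hK]
    intro u hu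
    have hGpos : 0 < ‖grad a b p‖ := norm_pos_iff.2 hG
    have hε : 0 < δ₀ / 4 * ‖grad a b p‖ / (Real.pi / 2) := by positivity
    filter_upwards [eventually_dist_smul_lt (S.lim u hu.1) ‖p‖ hε] with n hn hF
    obtain ⟨s, hs1, hs2⟩ := eq_flow hG hF
    refine ⟨η * s, ?_, ?_⟩
    · rw [habs]
      have h1 := hn p le_rfl
      have h2 : Real.pi / 2 * ‖d u n • p - p‖ < δ₀ / 4 * ‖grad a b p‖ := by
        calc Real.pi / 2 * ‖d u n • p - p‖
            < Real.pi / 2 * (δ₀ / 4 * ‖grad a b p‖ / (Real.pi / 2)) :=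
              mul_lt_mul_of_pos_left h1 (by positivity)
          _ = δ₀ / 4 * ‖grad a b p‖ := by field_simp
      exact lt_of_mul_lt_mul_right (hs2.trans_lt h2) hGpos.le
    · rw [← mul_assoc, hηη, one_mul]; exact hs1
  have E7 : ∀ᶠ n in U, 0 < α n ∧ α n < δ₀ / 4 ∧ d t₂ n = flow a b (η * α n) := by
    filter_upwards [hα, hα0.eventually (gt_mem_nhds (show (0 : ℝ) < δ₀ / 4 by positivity))]
      with n h1 h2
    exact ⟨h1.1, h2, h1.2⟩
  -- generic parameters
  have generic : ∀ n : ℕ, ∀ s₁ s₂ : ℝ, s₁ < s₂ → -δ₀ < s₁ → s₂ < δ₀ → ∃ s, s₁ < s ∧ s < s₂ ∧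
      γ s ∉ IsTiling.E3 (Tn n) ∧ ∀ u ∈ K, (d u n)⁻¹ • γ s ∉ IsTiling.E3 T := by
    intro n s₁ s₂ h12 h1 h2
    have hfin1 : (IsTiling.E3 (Tn n) ∩ ball p r).Finite :=
      (S.hn n).finite_E3 hQ _ isBounded_ball
    have hfin2 : (⋃ u ∈ K, {y | (d u n)⁻¹ • y ∈ IsTiling.E3 T ∩ (d u n)⁻¹ • ball p r}).Finite := by
      apply hK.biUnion
      intro u hu
      have h3 : (IsTiling.E3 T ∩ (d u n)⁻¹ • ball p r).Finite := by
        apply S.h.finite_E3 hQ
        rw [smul_ball]
        exact isBounded_ball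
      apply h3.preimage
      intro x _ y _ e
      exact smul_left_cancel _ e
    have hinf : (Ioo s₁ s₂).Infinite := Ioo_infinite h12
    have hinjOn : InjOn γ (Ioo s₁ s₂) := by
      intro s hs s' hs' e
      exact hinj s s' (abs_lt.2 ⟨by linarith [hs.1], by linarith [hs.2]⟩)
        (abs_lt.2 ⟨by linarith [hs'.1], by linarith [hs'.2]⟩) e
    have hinf2 : (γ '' Ioo s₁ s₂).Infinite := hinf.image hinjOn
    obtain ⟨_, ⟨s, hs, rfl⟩, hs2⟩ := (hinf2.sdiff (hfin1.union hfin2)).nonempty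
    have hsb : γ s ∈ ball p r := hγball s (abs_lt.2 ⟨by linarith [hs.1], by linarith [hs.2]⟩)
    refine ⟨s, hs.1, hs.2, fun h => hs2 (Or.inl ⟨h, hsb⟩), fun u hu h => hs2 (Or.inr ?_)⟩
    simp only [mem_iUnion]
    exact ⟨u, hu, h, smul_mem_smul_set hsb⟩
  -- step A
  have stepA : ∀ᶠ n in U, ∀ s, 0 < s → s < α n → γ s ∉ IsTiling.E3 (Tn n) →
      (∀ u ∈ K, (d u n)⁻¹ • γ s ∉ IsTiling.E3 T) → ∃ u ∈ K, ∃ v ∈ K, ∃ β : ℝ, |β| < δ₀ / 4 ∧
        d u n = flow a b (η * β) ∧ β < s ∧ Lo a b u (γ (s - β)) ∧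
        Lo (-a) (-b) v (γ (s - β)) ∧ Rel U d u v a b := by
    filter_upwards [gap2, E6, E7] with n g2 e6 e7 s hs0 hsα hgen1 hgen2
    obtain ⟨e7a, e7b, e7c⟩ := e7
    have hsδ : |s| < δ₀ := abs_lt.2 ⟨by linarith, by linarith⟩
    have hLo : Lo (-a) (-b) (d t₂ n • t₂) (γ s) := by
      rw [e7c]
      have h1 := (hback2 (s - α n) (by linarith) (by linarith)).smul (g := flow a b (η * α n))
        (ham_neg_smul (hflowham _))
      rwa [hshift'] at h1
    obtain ⟨u, hu, hpu, hut₂, hLu, halt⟩ := g2 (γ s) (ball_subset_ball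
      ((min_le_right _ _).trans (min_le_left _ _)) (hγball s hsδ))
      (by rw [ham_neg, ham_neg, hγF]) hgen1 (fun u hu hpu => hgen2 u ⟨hu, hpu⟩) t₂ ht₂ hp₂ hLo
    rw [neg_neg, neg_neg] at hLu
    rcases halt with ⟨halt1, halt2⟩ | ⟨halt1, v, hv, hpv, hvu, hzv, hRel⟩
    · exfalso
      rw [halt2, e7c] at hLu
      have h1 := hLu.of_smul (hflowham _)
      rw [hshift] at h1
      have h2 := hback1 (s - α n) (by linarith) (by linarith)
      have h3 := Lo.unique hQ S.h hu ht₁ h1 h2 (hγG _)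
      rw [h3] at halt1
      exact R.not_sim halt1
    · have hF : ∀ z, ham a b (d u n • z) = ham a b z := by
        intro z
        have := halt1 z
        rw [ham_neg, ham_neg] at this
        linarith
      obtain ⟨β, hβ1, hβ2⟩ := e6 u ⟨hu, hpu⟩ hF
      have hβ := abs_lt.1 hβ1
      have hz := hgen2 u ⟨hu, hpu⟩
      rw [hβ2, hshift] at hz hzv
      rw [hβ2] at hLu
      have hLz := hLu.of_smul (hflowham _)
      rw [hshift] at hLz
      have hsβ : β < s := by
        rcases lt_trichotomy β s with h | h | h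
        · exact h
        · exfalso
          apply hz
          rw [h, sub_self, hγ0]
          exact hpE
        · exfalso
          have h2 := hback1 (s - β) (by linarith) (by linarith)
          have h3 := Lo.unique hQ S.h hu ht₁ hLz h2 (hγG _)
          rw [h3, hd1] at hβ2
          have h4 := hinjf 0 β (by simpa using hδ₀pos) (by linarith [hβ1]) (by
            rw [mul_zero, flow_zero]; exact hβ2)
          linarith
      refine ⟨u, ⟨hu, hpu⟩, v, ⟨hv, hpv⟩, β, hβ1, hβ2, hsβ, hLz, ?_, hRel.of_neg⟩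
      rcases S.rel_Lo hQ hu hv hRel.of_neg hLz.mem hzv hz with ⟨k1, k2⟩ | ⟨k1, k2⟩
      · exact k2
      · exact absurd rfl (hLz.ne_neg k1 (hγG _))
  -- front structure
  obtain ⟨u₁, hu₁, u₂, hu₂, s₀, hs₀, hs₀', hf1, hf2, hRu⟩ : ∃ u₁ ∈ K, ∃ u₂ ∈ K, ∃ s₀ : ℝ,
      0 < s₀ ∧ s₀ < δ₀ ∧ Lo a b u₁ (γ s₀) ∧ Lo (-a) (-b) u₂ (γ s₀) ∧ Rel U d u₁ u₂ a b := by
    obtain ⟨n, hA, hE7⟩ := (stepA.and E7).exists
    obtain ⟨s, s1, s2, s3, s4⟩ := generic n 0 (α n) hE7.1 (by linarith) (by linarith [hE7.2.1])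
    obtain ⟨u, hu, v, hv, β, hβ1, hβ2, hβ3, hL1, hL2, hR⟩ := hA s s1 s2 s3 s4
    have hβ := abs_lt.1 hβ1
    exact ⟨u, hu, v, hv, s - β, by linarith, by linarith [hE7.2.1], hL1, hL2, hR⟩
  have front : ∀ s, 0 < s → s < δ₀ → Lo a b u₁ (γ s) ∧ Lo (-a) (-b) u₂ (γ s) := by
    intro s hs1 hs2
    exact S.arc hQ hu₁.1 hu₂.1 hRu (C := γ '' Ioo 0 δ₀) (c := ham a b p)
      (isPreconnected_Ioo.image _ hγcont.continuousOn)
      (by rintro _ ⟨s', -, rfl⟩; exact hγF s')
      (by
        rintro _ ⟨s', hs', rfl⟩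
        exact hγE s' (abs_lt.2 ⟨by linarith [hs'.1], hs'.2⟩) hs'.1.ne')
      ⟨s₀, ⟨hs₀, hs₀'⟩, rfl⟩ ⟨s, ⟨hs1, hs2⟩, rfl⟩ hf1 hf2
  -- the lower tile does not move
  have hB : ∀ᶠ n in U, d u₁ n = 1 := by
    filter_upwards [stepA, E3', E4, E7] with n hA e3 e4 e7
    obtain ⟨e7a, e7b, e7c⟩ := e7
    -- u₁ is the tile found by step A
    have hfind : ∀ s, 0 < s → s < α n → γ s ∉ IsTiling.E3 (Tn n) →
        (∀ u ∈ K, (d u n)⁻¹ • γ s ∉ IsTiling.E3 T) →
        ∃ β : ℝ, |β| < δ₀ / 4 ∧ d u₁ n = flow a b (η * β) ∧ β < s := by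
      intro s s1 s2 s3 s4
      obtain ⟨u, hu, v, hv, β, hβ1, hβ2, hβ3, hL1, hL2, hR⟩ := hA s s1 s2 s3 s4
      have hβ := abs_lt.1 hβ1
      have h1 := (front (s - β) (by linarith) (by linarith)).1
      have h2 := Lo.unique hQ S.h hu.1 hu₁.1 hL1 h1 (hγG _)
      rw [h2] at hβ2
      exact ⟨β, hβ1, hβ2, hβ3⟩
    obtain ⟨s, s1, s2, s3, s4⟩ := generic n 0 (α n) e7a (by linarith) (by linarith)
    obtain ⟨β, hβ1, hβ2, hβ3⟩ := hfind s s1 s2 s3 s4
    have hβ := abs_lt.1 hβ1
    have hβle : β ≤ 0 := by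
      by_contra hcon
      push Not at hcon
      obtain ⟨s', s1', s2', s3', s4'⟩ := generic n 0 (min β (α n)) (lt_min hcon e7a) (by linarith)
        ((min_le_right _ _).trans_lt (by linarith))
      obtain ⟨β', hβ1', hβ2', hβ3'⟩ := hfind s' s1' (s2'.trans_le (min_le_right _ _)) s3' s4'
      have := hinjf β β' (by linarith) (by linarith) (hβ2.symm.trans hβ2')
      have h2 := s2'.trans_le (min_le_left β (α n))
      linarith
    have hβge : 0 ≤ β := by
      by_contra hcon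
      push Not at hcon
      have h1 : Lo a b (d u₁ n • u₁) (γ (β / 2)) := by
        rw [hβ2]
        have h2 := (front (β / 2 - β) (by linarith) (by linarith)).1.smul
          (g := flow a b (η * β)) (hflowham _)
        rwa [hshift'] at h2
      have h3 : Lo a b (d t₁ n • t₁) (γ (β / 2)) := by
        rw [hd1, one_smul]
        exact hback1 _ (by linarith) (by linarith)
      have h4 := Lo.unique hQ (S.hn n) (e3 u₁ hu₁) (e3 t₁ ⟨ht₁, hp₁⟩) h1 h3 (hγG _)
      have h5 := e4 u₁ hu₁ t₁ ⟨ht₁, hp₁⟩ h4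
      rw [h5, hd1] at hβ2
      have h6 := hinjf 0 β (by simpa using hδ₀pos) (by linarith) (by
            rw [mul_zero, flow_zero]; exact hβ2)
      linarith
    have : β = 0 := le_antisymm hβle hβge
    rw [hβ2, this, mul_zero, flow_zero]
  have hrelflow : ∀ᶠ n in U, ∀ z, ham a b (((d u₁ n)⁻¹ * d u₂ n) • z) = ham a b z := by
    have hsm : |δ₀ / 2| < δ₀ := abs_lt.2 ⟨by linarith, by linarith⟩
    have := front (δ₀ / 2) (by linarith) (by linarith)
    exact S.rel_flow hQ hu₁.1 hu₂.1 hRu this.1.mem this.2.mem (hγE _ hsm (by positivity))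
  have hC : ∀ᶠ n in U, d u₂ n = d t₂ n := by
    filter_upwards [hB, hrelflow, gap1, E3', E4, E6, E7] with n hb hrf g1 e3 e4 e6 e7
    obtain ⟨e7a, e7b, e7c⟩ := e7
    rw [hb, inv_one, one_mul] at hrf
    obtain ⟨κ, hκ1, hκ2⟩ := e6 u₂ hu₂ hrf
    have hκ := abs_lt.1 hκ1
    have hκα : κ = α n := by
      rcases lt_trichotomy κ (α n) with h | h | h
      · exfalso
        obtain ⟨s, hs1, hs2⟩ := exists_between (max_lt e7a h)
        rw [max_lt_iff] at hs1
        have h1 : Lo (-a) (-b) (d u₂ n • u₂) (γ s) := by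
          rw [hκ2]
          have h2 := (front (s - κ) (by linarith) (by linarith)).2.smul
            (g := flow a b (η * κ)) (ham_neg_smul (hflowham _))
          rwa [hshift'] at h2
        have h3 : Lo (-a) (-b) (d t₂ n • t₂) (γ s) := by
          rw [e7c]
          have h2 := (hback2 (s - α n) (by linarith) (by linarith)).smul
            (g := flow a b (η * α n)) (ham_neg_smul (hflowham _))
          rwa [hshift'] at h2
        have h4 := Lo.unique hQ (S.hn n) (e3 u₂ hu₂) (e3 t₂ ⟨ht₂, hp₂⟩) h1 h3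
          (grad_neg_ne (hγG _))
        have h5 := e4 u₂ hu₂ t₂ ⟨ht₂, hp₂⟩ h4
        rw [h5, e7c] at hκ2
        have h6 := hinjf (α n) κ (abs_lt.2 ⟨by linarith, by linarith⟩) (by linarith) hκ2
        linarith
      · exact h
      · exfalso
        obtain ⟨s, s1, s2, s3, s4⟩ := generic n (α n) κ h (by linarith) (by linarith)
        have hLo : Lo a b (d u₁ n • u₁) (γ s) := by
          rw [hb, one_smul]
          exact (front s (by linarith) (by linarith)).1
        obtain ⟨u, hu, hpu, huu₁, hLu, halt⟩ := g1 (γ s) (ball_subset_ball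
          (min_le_left _ _) (hγball s (abs_lt.2 ⟨by linarith, by linarith⟩)))
          (hγF s) s3 (fun u hu hpu => s4 u ⟨hu, hpu⟩) u₁ hu₁.1 hu₁.2 hLo
        rcases halt with ⟨halt1, halt2⟩ | ⟨halt1, v, hv, hpv, hvu, hzv, hRel⟩
        · rw [halt2, hb, one_smul] at hLu
          have h2 := (front s (by linarith) (by linarith)).2
          have h3 := Lo.unique hQ S.h hu hu₂.1 hLu h2 (grad_neg_ne (hγG _))
          rw [h3] at halt1
          exact hRu.not_sim halt1.symm
        · obtain ⟨β, hβ1, hβ2⟩ := e6 u ⟨hu, hpu⟩ halt1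
          have hβ := abs_lt.1 hβ1
          have hz := s4 u ⟨hu, hpu⟩
          rw [hβ2, hshift] at hz
          rw [hβ2] at hLu
          have hLz := hLu.of_smul (ham_neg_smul (hflowham _))
          rw [hshift] at hLz
          rcases lt_trichotomy β s with h' | h' | h'
          · have h2 := (front (s - β) (by linarith) (by linarith)).2
            have h3 := Lo.unique hQ S.h hu hu₂.1 hLz h2 (grad_neg_ne (hγG _))
            rw [h3, hκ2] at hβ2
            have := hinjf κ β (by linarith) (by linarith) hβ2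
            linarith
          · apply hz
            rw [h', sub_self, hγ0]
            exact hpE
          · have h2 := hback2 (s - β) (by linarith) (by linarith)
            have h3 := Lo.unique hQ S.h hu ht₂ hLz h2 (grad_neg_ne (hγG _))
            rw [h3, e7c] at hβ2
            have := hinjf (α n) β (abs_lt.2 ⟨by linarith, by linarith⟩) (by linarith) hβ2
            linarith
    rw [hκ2, e7c, hκα]
  refine ⟨u₁, hu₁.1, u₂, hu₂.1, ?_, hC.mono fun n hn => hn.symm, δ₀, hδ₀pos, front⟩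
  filter_upwards [hB] with n hn
  rw [hd1, hn]

end Sys

end Pool.Agent.Lib.MP_ffe3a0_co
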