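import Pool.Agent.Lib.MP_ffe3a0_co.Finish

/-!
Strip tilings.
-/

set_option autoImplicit false
set_option linter.unusedSectionVars false

open Set Metric Filter Topology Pointwise ComplexConjugate

noncomputable section

namespace Pool.Agent.Lib.MP_ffe3a0_co

variable {ι : Type} [Finite ι] {Q : ι → Set ℂ} {U : Ultrafilter ℕ} {Tn : ℕ → Set (Set ℂ)}
  {T T₀ : Set (Set ℂ)} {d : Set ℂ → ℕ → Mot} {a : ℝ} {b : ℂ} {c : ℝ} {t t' t₁ t₂ : Set ℂ}

/-- a disk whose interior avoids a level curve lies on one side -/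
theorem side_F {s : Set ℂ} (hd : IsDisk s) (h : ∀ z ∈ interior s, ham a b z ≠ c) :
    (∀ z ∈ s, ham a b z ≤ c) ∨ (∀ z ∈ s, c ≤ ham a b z) := by
  have hside : (∀ z ∈ interior s, ham a b z < c) ∨ (∀ z ∈ interior s, c < ham a b z) := by
    by_contra hcon
    push Not at hcon
    obtain ⟨⟨z, hz, hz1⟩, ⟨w, hw, hw1⟩⟩ := hcon
    obtain ⟨y, hy, hy1⟩ := hd.isConnected_interior.isPreconnected.intermediate_value hw hz
      (continuous_ham a b).continuousOn ⟨hw1, hz1⟩
    exact h y hy hy1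
  rcases hside with h1 | h1
  · left
    have h2 : s ⊆ {z | ham a b z ≤ c} := by
      rw [← hd.closure_interior]
      exact closure_minimal (fun z hz => (h1 z hz).le)
        (isClosed_le (continuous_ham a b) continuous_const)
    exact h2
  · right
    have h2 : s ⊆ {z | c ≤ ham a b z} := by
      rw [← hd.closure_interior]
      exact closure_minimal (fun z hz => (h1 z hz).le)
        (isClosed_le continuous_const (continuous_ham a b))
    exact h2

theorem lo_of_cover {t u : Set ℂ} {x : ℂ} (ht : IsClosed t) (hG : grad a b x ≠ 0)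
    (h1 : ∀ z ∈ t, ham a b z ≤ ham a b x) (h2 : ∀ z ∈ u, ham a b x ≤ ham a b z)
    (hcov : ∀ᶠ z in 𝓝 x, z ∈ t ∨ z ∈ u) : Lo a b t x := by
  filter_upwards [eventually_eventually_nhds.2 hcov, grad_ne_near hG] with z hz hGz
  refine ⟨h1 z, fun hzF => ?_⟩
  rw [← ht.closure_eq, mem_closure_iff_nhds]
  intro V hV
  obtain ⟨w, ⟨hw1, hw2⟩, hw3⟩ := exists_lt hGz (inter_mem hV hz)
  rcases hw2 with h3 | h3
  · exact ⟨w, hw1, h3⟩
  · have := h2 w h3
    linarith

theorem ham_vert (σ : ℝ) (z : ℂ) : ham 0 (σ : ℂ) z = σ * z.re := by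
  simp [ham]

/-- Tiles at a fault line of the approximating tilings move along the fault line. -/
theorem ham_of_fault (hQ : ∀ i, IsDisk (Q i)) (S : Sys Q U Tn T d) {x : ℂ}
    (hab : |a| + ‖b‖ ≠ 0) (hG : grad a b x ≠ 0)
    (hf : ∀ n, ∀ s ∈ Tn n, ∀ z ∈ interior s, ham a b z ≠ ham a b x)
    (hE : x ∉ IsTiling.E3 T) (ht : t ∈ T) (hxt : x ∈ t) (hlow : ∀ z ∈ t, ham a b z ≤ ham a b x) :
    ∀ᶠ n in U, ∀ z, ham a b (d t n • z) = ham a b z := by
  have hfT : ∀ s ∈ T, ∀ z ∈ interior s, ham a b z ≠ ham a b x := by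
    intro s hs z hz
    have h1 := eventually_mem_interior (S.lim s hs) (K := s) (x := z) (by rwa [one_smul])
    obtain ⟨n, hn1, hn2⟩ := (h1.and (S.mem s hs)).exists
    exact hf n _ hn2 z hn1
  have hxi : x ∉ interior t := fun h => hfT t ht x h rfl
  obtain ⟨u, hu, hut, hxu⟩ := S.h.exists_other hQ hxi
  obtain ⟨r, hr, hrs⟩ := S.h.exists_ball hQ x
  have hball : ∀ v ∈ T, (v ∩ closedBall x r).Nonempty → v = t ∨ v = u := by
    intro v hv hm
    exact Sys.eq_or_eq_of_not_E3 hE ht hu hut.symm hxt hxu hv (hrs v hv hm)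
  have hcov : ∀ z ∈ closedBall x r, z ∈ t ∨ z ∈ u := by
    intro z hz
    obtain ⟨v, hv, hzv⟩ := S.h.exists_mem z
    rcases hball v hv ⟨z, hzv, hz⟩ with e | e
    · left; rw [← e]; exact hzv
    · right; rw [← e]; exact hzv
  have hup : ∀ z ∈ u, ham a b x ≤ ham a b z := by
    rcases side_F (S.isDisk hQ hu) (hfT u hu) with h1 | h1
    · exfalso
      obtain ⟨z, hz1, hz2⟩ := exists_gt' hG (closedBall_mem_nhds x hr)
      rcases hcov z hz1 with h2 | h2
      · have := hlow z h2; linarith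
      · have := h1 z h2; linarith
    · exact h1
  have hdt := S.isDisk hQ ht
  have hdu := S.isDisk hQ hu
  have L : Lo a b t x := lo_of_cover hdt.isClosed hG hlow hup
    (by filter_upwards [closedBall_mem_nhds x hr] with z hz using hcov z hz)
  -- fixed interior points
  obtain ⟨p, hp⟩ := hdt.isConnected_interior.nonempty
  obtain ⟨q, hq⟩ := hdu.isConnected_interior.nonempty
  have e1 := eventually_mem_interior (S.lim t ht) (K := t) (x := p) (by rwa [one_smul])
  have e2 := eventually_mem_interior (S.lim u hu) (K := u) (x := q) (by rwa [one_smul])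
  have hpF : ham a b p < ham a b x :=
    lt_of_le_of_ne (hlow p (interior_subset hp)) (hfT t ht p hp)
  have hqF : ham a b x < ham a b q :=
    lt_of_le_of_ne (hup q (interior_subset hq)) (hfT u hu q hq).symm
  have e3 : ∀ᶠ n in U, Lo a b (d t n • t) x := by
    filter_upwards [e1, e2, S.mem t ht, S.mem u hu, S.approx _ (isCompact_closedBall x r)]
      with n h1 h2 h3 h4 h5
    have k1 : ∀ z ∈ d t n • t, ham a b z ≤ ham a b x := by
      rcases side_F (hdt.smul (d t n)) (hf n _ h3) with h6 | h6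
      · exact h6
      · have := h6 p (interior_subset h1)
        linarith
    have k2 : ∀ z ∈ d u n • u, ham a b x ≤ ham a b z := by
      rcases side_F (hdu.smul (d u n)) (hf n _ h4) with h6 | h6
      · have := h6 q (interior_subset h2)
        linarith
      · exact h6
    apply lo_of_cover (hdt.smul (d t n)).isClosed hG k1 k2
    filter_upwards [closedBall_mem_nhds x hr] with z hz
    obtain ⟨s, hs, hzs⟩ := (S.hn n).exists_mem z
    obtain ⟨v, hv, hvW, e⟩ := h5 s hs ⟨z, hzs, hz⟩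
    rcases hball v hv hvW with e' | e'
    · left; rw [e, e'] at hzs; exact hzs
    · right; rw [e, e'] at hzs; exact hzs
  -- the set where `t` is a sublevel set
  have e4 : ∀ᶠ n in U, ∀ᶠ z in 𝓝 x, (z ∈ d t n • t ↔ ham a b ((d t n)⁻¹ • z) ≤ ham a b x) := by
    have h1 : Tendsto (fun n => (d t n)⁻¹ • x) U (𝓝 ((1 : Mot)⁻¹ • x)) :=
      (S.lim t ht).inv.smul_const x
    rw [inv_one, one_smul] at h1
    filter_upwards [h1.eventually (eventually_eventually_nhds.2 L)] with n hn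
    have h2 := smul_nhds (g := d t n) hn
    rw [smul_inv_smul] at h2
    filter_upwards [h2] with z hz
    rw [mem_smul_set_iff_inv_smul_mem, hz]
  refine (alg (S.lim t ht) (a := a) (a' := a) (b := b) (b' := b) (c := ham a b x)
    (c' := ham a b x) hab hab ?_).2
  filter_upwards [e3, e4] with n h1 h2
  obtain ⟨l, hl⟩ := Lo.prop (g := d t n) hab hG h1 h2
  exact ⟨l, hl⟩

/-- Tiles at a vertical fault line of the approximating tilings are only translated. -/
theorem u_one_of_fault (hQ : ∀ i, IsDisk (Q i)) (S : Sys Q U Tn T d) {x : ℂ}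
    (hf : ∀ n, ∀ s ∈ Tn n, ∀ z ∈ interior s, z.re ≠ x.re)
    (hE : x ∉ IsTiling.E3 T) (ht : t ∈ T) (hxt : x ∈ t) :
    ∀ᶠ n in U, (d t n).u = 1 := by
  have hfT : ∀ s ∈ T, ∀ z ∈ interior s, z.re ≠ x.re := by
    intro s hs z hz
    have h1 := eventually_mem_interior (S.lim s hs) (K := s) (x := z) (by rwa [one_smul])
    obtain ⟨n, hn1, hn2⟩ := (h1.and (S.mem s hs)).exists
    exact hf n _ hn2 z hn1
  obtain ⟨σ, hσ, hlow⟩ : ∃ σ : ℝ, (σ = 1 ∨ σ = -1) ∧
      ∀ z ∈ t, ham 0 (σ : ℂ) z ≤ ham 0 (σ : ℂ) x := by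
    rcases side_F (a := 0) (b := ((1 : ℝ) : ℂ)) (c := x.re) (S.isDisk hQ ht) (by
      intro z hz
      rw [ham_vert, one_mul]
      exact hfT t ht z hz) with h1 | h1
    · refine ⟨1, Or.inl rfl, ?_⟩
      intro z hz
      rw [ham_vert _ x, one_mul]
      exact h1 z hz
    · refine ⟨-1, Or.inr rfl, ?_⟩
      intro z hz
      have := h1 z hz
      rw [ham_vert, one_mul] at this
      rw [ham_vert, ham_vert]
      linarith
  have hσ0 : σ ≠ 0 := by
    rcases hσ with h | h <;> rw [h] <;> norm_num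
  have hσc : (σ : ℂ) ≠ 0 := by exact_mod_cast hσ0
  have h := ham_of_fault hQ S (a := 0) (b := (σ : ℂ)) (x := x) (by simp [hσ0])
    (by simp [grad, hσ0]) (by
      intro n s hs z hz
      rw [ham_vert, ham_vert]
      intro e
      exact hf n s hs z hz (mul_left_cancel₀ hσ0 e)) hE ht hxt hlow
  filter_upwards [h] with n hn
  have h0 := hn 0
  have h1 := hn 1
  rw [ham_vert, ham_vert] at h0 h1
  have h0' := mul_left_cancel₀ hσ0 h0
  have h1' := mul_left_cancel₀ hσ0 h1
  rw [Mot.smul_def] at h0' h1'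
  simp only [mul_zero, zero_add, mul_one, Complex.add_re, Complex.zero_re, Complex.one_re]
    at h0' h1'
  have h2 : ((d t n).u : ℂ).re = 1 := by linarith
  have h3 : ‖((d t n).u : ℂ)‖ = 1 := Circle.norm_coe _
  have h4 : ((d t n).u : ℂ).im = 0 := by
    have h5 : Complex.normSq ((d t n).u : ℂ) = 1 := by
      rw [Complex.normSq_eq_norm_sq, h3]; norm_num
    rw [Complex.normSq_apply, h2] at h5
    nlinarith
  apply Circle.ext
  apply Complex.ext
  · simpa using h2
  · simpa using h4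

/-- strip tilings -/
def Strip (Q : ι → Set ℂ) (w : ℝ) : Prop :=
  0 < w ∧ ∃ T, IsTiling Q T ∧ Inv T w ∧ ∀ t ∈ T, ∀ z ∈ interior t, z.re ≠ 0

theorem side_re {s : Set ℂ} (hd : IsDisk s) {x : ℝ} (h : ∀ z ∈ interior s, z.re ≠ x) :
    (∀ z ∈ s, z.re ≤ x) ∨ (∀ z ∈ s, x ≤ z.re) := by
  have e : ∀ z : ℂ, ham 0 ((1 : ℝ) : ℂ) z = z.re := fun z => by rw [ham_vert, one_mul]
  rcases side_F (a := 0) (b := ((1 : ℝ) : ℂ)) (c := x) hd (by
    intro z hz; rw [e]; exact h z hz) with h1 | h1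
  · left; intro z hz; rw [← e]; exact h1 z hz
  · right; intro z hz; rw [← e]; exact h1 z hz

theorem strip_of_two (hQ : ∀ i, IsDisk (Q i)) (h : IsTiling Q T) {x₁ x₂ : ℝ} (hx : x₁ < x₂)
    (h1 : ∀ t ∈ T, ∀ z ∈ interior t, z.re ≠ x₁) (h2 : ∀ t ∈ T, ∀ z ∈ interior t, z.re ≠ x₂) :
    Strip Q (x₂ - x₁) := by
  set w := x₂ - x₁ with hw
  have hwpos : 0 < w := by linarith
  set P : Set ℂ → Prop := fun t => ∀ z ∈ t, x₁ ≤ z.re ∧ z.re ≤ x₂ with hP
  set T' : Set (Set ℂ) := {s | ∃ k : ℤ, ∃ t ∈ T, P t ∧ s = Mot.tr (k * w - x₁) • t} with hT'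
  have hre : ∀ (k : ℤ) (z : ℂ), (z - ((k : ℂ) * w - x₁)).re = z.re - k * w + x₁ := by
    intro k z
    simp
    ring
  -- interiors lie in open strips
  have hint : ∀ (k : ℤ), ∀ t ∈ T, P t → ∀ z ∈ interior (Mot.tr (k * w - x₁) • t),
      k * w < z.re ∧ z.re < (k + 1) * w := by
    intro k t ht hPt z hz
    rw [mem_interior_tr] at hz
    have k1 := hPt _ (interior_subset hz)
    have k2 := h1 t ht _ hz
    have k3 := h2 t ht _ hz
    rw [hre] at k1 k2 k3
    have k4 : x₁ < z.re - k * w + x₁ := lt_of_le_of_ne k1.1 (Ne.symm k2)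
    have k5 : z.re - k * w + x₁ < x₂ := lt_of_le_of_ne k1.2 k3
    constructor
    · linarith
    · linarith
  have hkk : ∀ (k k' : ℤ) (y : ℝ), k * w < y → y < (k' + 1) * w → k ≤ k' := by
    intro k k' y h1 h2
    have h3 : (k : ℝ) * w < (k' + 1) * w := h1.trans h2
    have h4 : (k : ℝ) < k' + 1 := lt_of_mul_lt_mul_right h3 hwpos.le
    have h5 : k < k' + 1 := by exact_mod_cast h4
    omega
  refine ⟨hwpos, T', ⟨?_, ?_, ?_⟩, ?_, ?_⟩
  · rintro s ⟨k, t, ht, -, rfl⟩
    exact (h.tile t ht).smul _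
  · rw [eq_univ_iff_forall]
    intro z
    set k := ⌊z.re / w⌋ with hk
    set z' : ℂ := z - ((k : ℂ) * w - x₁) with hz'
    have k1 : (k : ℝ) * w ≤ z.re := by
      have := Int.floor_le (z.re / w)
      rwa [le_div_iff₀ hwpos] at this
    have k2 : z.re < (k + 1) * w := by
      have := Int.lt_floor_add_one (z.re / w)
      rwa [div_lt_iff₀ hwpos] at this
    have k3 : z'.re = z.re - k * w + x₁ := hre k z
    obtain ⟨r, hr, hrs⟩ := h.exists_ball hQ z'
    set ε := min r ((x₂ - z'.re) / 2) with hε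
    have hx2 : z'.re < x₂ := by rw [k3]; linarith
    have hεpos : 0 < ε := lt_min hr (by linarith)
    have hε2 : ε ≤ (x₂ - z'.re) / 2 := min_le_right _ _
    obtain ⟨t, ht, hzt⟩ := h.exists_mem (z' + ε)
    have hz't : z' ∈ t := by
      apply hrs t ht
      refine ⟨z' + ε, hzt, ?_⟩
      rw [mem_closedBall, dist_eq_norm]
      simp [abs_of_pos hεpos]
      rw [hε]; exact min_le_left _ _
    have hre' : (z' + ε).re = z'.re + ε := by simp
    have hPt : P t := by
      have hd := (h.tile t ht).isDisk hQ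
      intro y hy
      constructor
      · rcases side_re hd (h1 t ht) with h3 | h3
        · have := h3 _ hzt
          rw [hre', k3] at this
          linarith
        · exact h3 y hy
      · rcases side_re hd (h2 t ht) with h3 | h3
        · exact h3 y hy
        · have := h3 _ hzt
          rw [hre'] at this
          linarith
    refine ⟨Mot.tr (k * w - x₁) • t, ⟨k, t, ht, hPt, rfl⟩, ?_⟩
    rw [mem_tr]
    exact hz't
  · rintro _ ⟨k, t, ht, hPt, rfl⟩ _ ⟨k', t', ht', hPt', rfl⟩ hne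
    rw [disjoint_left]
    intro z hz hz'
    have k1 := hint k t ht hPt z hz
    have k2 := hint k' t' ht' hPt' z hz'
    have k3 : k = k' := le_antisymm (hkk k k' _ k1.1 k2.2) (hkk k' k _ k2.1 k1.2)
    subst k3
    have htt : t ≠ t' := by rintro rfl; exact hne rfl
    rw [mem_interior_tr] at hz hz'
    exact disjoint_left.1 (h.disj t ht t' ht' htt) hz hz'
  · apply Inv.of
    · rintro _ ⟨k, t, ht, hPt, rfl⟩
      refine ⟨k + 1, t, ht, hPt, ?_⟩
      rw [tr_tr]; push_cast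
      congr 2
      ring
    · rintro _ ⟨k, t, ht, hPt, rfl⟩
      refine ⟨k - 1, t, ht, hPt, ?_⟩
      rw [tr_tr]; push_cast
      congr 2
      ring
  · rintro _ ⟨k, t, ht, hPt, rfl⟩ z hz e
    have k1 := hint k t ht hPt z hz
    rw [e] at k1
    have h3 : (k : ℝ) < 0 := by
      by_contra hcon
      push Not at hcon
      have := mul_nonneg hcon hwpos.le
      linarith [k1.1]
    have h4 : (0 : ℝ) < k + 1 := by
      by_contra hcon
      push Not at hcon
      have := mul_nonpos_of_nonpos_of_nonneg hcon hwpos.le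
      linarith [k1.2]
    have h5 : k < 0 := by exact_mod_cast h3
    have h6 : 0 < k + 1 := by exact_mod_cast h4
    omega

theorem Inv.conj {T : Set (Set ℂ)} {v : ℂ} (h : Inv T v) (g : Mot) :
    Inv (g • T) (g.u * v) := by
  have e : Mot.tr (g.u * v) * g = g * Mot.tr v := by
    ext
    · simp
    · simp [add_comm]
  have e' : Mot.tr (-(g.u * v)) * g = g * Mot.tr (-v) := by
    ext
    · simp
    · simp [add_comm]
  apply Inv.of
  · rintro _ ⟨t, ht, rfl⟩
    refine ⟨Mot.tr v • t, (h t).1 ht, ?_⟩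
    show g • Mot.tr v • t = Mot.tr (g.u * v) • g • t
    rw [← mul_smul, ← mul_smul, e]
  · rintro _ ⟨t, ht, rfl⟩
    refine ⟨Mot.tr (-v) • t, (h.neg t).1 ht, ?_⟩
    show g • Mot.tr (-v) • t = Mot.tr (-(g.u * v)) • g • t
    rw [← mul_smul, ← mul_smul, e']

/-- a moving line transversal to the period gives a strip tiling -/
theorem strip_of_line (hQ : ∀ i, IsDisk (Q i)) (S : Sys Q U Tn T d) {τ : ℝ} (hτ : 0 < τ)
    (hT : Inv T τ) (C : MCurve U d T 0 b c t₁ t₂) (hb : b.re ≠ 0) : ∃ w, Strip Q w := by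
  have hbn : ‖b‖ = 1 := by
    have := C.rel.norm
    simpa using this
  have hcn : ‖conj b‖ = 1 := by rw [Complex.norm_conj, hbn]
  set g : Mot := ⟨⟨conj b, mem_sphere_zero_iff_norm.2 hcn⟩, 0⟩ with hg
  have hgz : ∀ z, (g • z).re = ham 0 b z := by
    intro z
    rw [Mot.smul_def]
    simp [ham, hg]
  have hf1 : ∀ t ∈ T, ∀ z ∈ interior t, ham 0 b z ≠ c := fun t ht z hz e =>
    C.not_interior hQ S e ht hz
  have hf2 : ∀ t ∈ T, ∀ z ∈ interior t, ham 0 b z ≠ c + τ * b.re := by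
    intro t ht z hz e
    have h1 : z - τ ∈ interior (Mot.tr (-τ) • t) := by
      rw [mem_interior_tr]; simpa using hz
    apply hf1 _ ((hT.neg t).1 ht) _ h1
    have : ham 0 b (z - τ) = ham 0 b z - τ * b.re := by
      simp [ham]
      ring
    rw [this, e]; ring
  have hg1 : ∀ (x : ℝ), (∀ t ∈ T, ∀ z ∈ interior t, ham 0 b z ≠ x) →
      ∀ t ∈ g • T, ∀ z ∈ interior t, z.re ≠ x := by
    rintro x hx _ ⟨t, ht, rfl⟩ z hz e
    simp only at hz
    rw [Mot.smul_set_interior, mem_smul_set_iff_inv_smul_mem] at hz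
    apply hx t ht _ hz
    rw [← hgz, smul_inv_smul, e]
  have h' := S.h.smul g
  have hne : τ * b.re ≠ 0 := mul_ne_zero hτ.ne' hb
  rcases lt_or_gt_of_ne hne with h1 | h1
  · exact ⟨_, strip_of_two hQ h' (x₁ := c + τ * b.re) (x₂ := c) (by linarith) (hg1 _ hf2)
      (hg1 _ hf1)⟩
  · exact ⟨_, strip_of_two hQ h' (x₁ := c) (x₂ := c + τ * b.re) (by linarith) (hg1 _ hf1)
      (hg1 _ hf2)⟩

/-- all lines `re = k w` are fault lines -/
theorem strip_lines {w : ℝ} (hT : Inv T w) (h0 : ∀ t ∈ T, ∀ z ∈ interior t, z.re ≠ 0) (k : ℤ) :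
    ∀ t ∈ T, ∀ z ∈ interior t, z.re ≠ k * w := by
  intro t ht z hz e
  have h1 : z - k * w ∈ interior (Mot.tr (-(k * w)) • t) := by
    rw [mem_interior_tr]; simpa using hz
  apply h0 _ (((hT.int k).neg t).1 ht) _ h1
  simp [e]

theorem exists_floor {w : ℝ} (hw : 0 < w) (x : ℝ) : ∃ k : ℤ, k * w ≤ x ∧ x < (k + 1) * w := by
  refine ⟨⌊x / w⌋, ?_, ?_⟩
  · have := Int.floor_le (x / w)
    rwa [le_div_iff₀ hw] at this
  · have := Int.lt_floor_add_one (x / w)
    rwa [div_lt_iff₀ hw] at this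

theorem strip_lower (hQ : ∀ i, IsDisk (Q i)) : ∃ ρ > 0, ∀ w, Strip Q w → ρ ≤ w := by
  obtain ⟨ρ, hρ, hin⟩ := exists_inradius hQ
  refine ⟨ρ, hρ, ?_⟩
  rintro w ⟨hw, T, h, hT, h0⟩
  by_contra hcon
  push Not at hcon
  obtain ⟨t, ht, -⟩ := h.exists_mem 0
  obtain ⟨z, hz⟩ := hin t (h.tile t ht)
  obtain ⟨k, hk1, hk2⟩ := exists_floor hw z.re
  apply strip_lines hT h0 k t ht ⟨k * w, z.im⟩ _ rfl
  apply hz
  rw [mem_ball, dist_eq_norm]
  have e : (⟨k * w, z.im⟩ : ℂ) - z = ((k * w - z.re : ℝ) : ℂ) := by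
    apply Complex.ext <;> simp
  rw [e, Complex.norm_real, Real.norm_eq_abs, abs_lt]
  constructor <;> linarith

theorem exists_min_strip (hQ : ∀ i, IsDisk (Q i)) (hex : ∃ w, Strip Q w) :
    ∃ w, Strip Q w ∧ ∀ w', Strip Q w' → w / 2 < w' := by
  obtain ⟨ρ, hρ, hlow⟩ := strip_lower hQ
  set A : Set ℝ := {w | Strip Q w} with hA
  have hne : A.Nonempty := hex
  have hbd : BddBelow A := ⟨ρ, fun w hw => hlow w hw⟩
  have hm : ρ ≤ sInf A := le_csInf hne fun w hw => hlow w hw
  obtain ⟨w, hw, hlt⟩ := exists_lt_of_csInf_lt hne (show sInf A < 2 * sInf A by linarith)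
  refine ⟨w, hw, fun w' hw' => ?_⟩
  have : sInf A ≤ w' := csInf_le hbd hw'
  linarith

end Pool.Agent.Lib.MP_ffe3a0_co
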