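import Pool.Agent.Lib.MP_ffe3a0_co.Strip

/-!
Strip tilings give doubly periodic tilings.
-/

set_option autoImplicit false
set_option linter.unusedSectionVars false

open Set Metric Filter Topology Pointwise ComplexConjugate

noncomputable section

namespace Pool.Agent.Lib.MP_ffe3a0_co

variable {ι : Type} [Finite ι] {Q : ι → Set ℂ} {U : Ultrafilter ℕ} {Tn : ℕ → Set (Set ℂ)}
  {T T₀ : Set (Set ℂ)} {d : Set ℂ → ℕ → Mot} {a : ℝ} {b : ℂ} {c : ℝ} {t t' t₁ t₂ : Set ℂ}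

theorem strip_case (hQ : ∀ i, IsDisk (Q i)) (hU : ∀ N : ℕ, ∀ᶠ n in U, N ≤ n)
    (hex : ∃ w, Strip Q w) :
    ∃ T', ∃ w : ℝ, ∃ v : ℂ, 0 < w ∧ IsTiling Q T' ∧ Inv T' w ∧ Inv T' v ∧ v.im ≠ 0 := by
  obtain ⟨w, ⟨hw, T₀, h₀, hper, hf0⟩, hmin⟩ := exists_min_strip hQ hex
  set Tn : ℕ → Set (Set ℂ) := fun n => Mot.tr (-(n * Complex.I)) • T₀ with hTn
  have hn : ∀ n, IsTiling Q (Tn n) := fun n => h₀.smul _
  have hpern : ∀ n, Inv (Tn n) w := by
    intro n
    have := hper.conj (Mot.tr (-(n * Complex.I)))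
    simpa using this
  have hfn : ∀ n, ∀ s ∈ Tn n, ∀ z ∈ interior s, z.re ≠ 0 := by
    rintro n _ ⟨s, hs, rfl⟩ z hz e
    simp only at hz
    rw [mem_interior_tr] at hz
    apply hf0 s hs _ hz
    simp [e]
  obtain ⟨T, d₀, S₀⟩ := exists_sys (U := U) hQ hn
  obtain ⟨d, S, hequi⟩ := exists_equi hQ S₀ hw hpern
  have hT : Inv T w := S.inv hQ hpern
  have hfT : ∀ s ∈ T, ∀ z ∈ interior s, z.re ≠ 0 := by
    intro s hs z hz
    have h1 := eventually_mem_interior (S.lim s hs) (K := s) (x := z) (by rwa [one_smul])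
    obtain ⟨n, hn1, hn2⟩ := (h1.and (S.mem s hs)).exists
    exact hfn n _ hn2 z hn1
  have hfk : ∀ (k : ℤ), ∀ s ∈ T, ∀ z ∈ interior s, z.re ≠ k * w := strip_lines hT hfT
  have hfnk : ∀ (k : ℤ), ∀ n, ∀ s ∈ Tn n, ∀ z ∈ interior s, z.re ≠ k * w :=
    fun k n => strip_lines (hpern n) (hfn n) k
  -- transversality with the fault lines
  have hnc : ∀ a b c t₁ t₂, MCurve U d T a b c t₁ t₂ → ∀ p, ham a b p = c → ∀ k : ℤ,
      p.re = k * w → (grad a b p).im = 0 := by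
    intro a b c t₁ t₂ C p hp k hk
    have := C.nc hQ S hp (a' := 0) (b' := 1) (g' := fun _ => 1) tendsto_const_nhds one_pos
      (Eventually.of_forall fun n z _ hz s hs => by
        rw [one_smul]
        intro hi
        have e : ∀ z : ℂ, ham 0 1 z = z.re := fun z => by simp [ham]
        rw [e, e, hk] at hz
        exact hfnk k n s hs z hi hz)
    simpa [grad, add_comm] using this
  -- moving lines
  have hlines : ∀ b c t₁ t₂, MCurve U d T 0 b c t₁ t₂ → ∀ p, ham 0 b p = c →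
      ∃ k : ℤ, p.re = k * w := by
    intro b c t₁ t₂ C p hp
    have hF : ∀ z : ℂ, ham 0 b z = b.re * z.re + b.im * z.im := by
      intro z; simp [ham]
    have hbim : b.im = 0 := by
      by_contra hne
      have h1 := hnc 0 b c t₁ t₂ C ⟨0, c / b.im⟩ (by rw [hF]; simp; field_simp) 0 (by simp)
      simp [grad] at h1
      exact hne h1
    have hbre : b.re ≠ 0 := by
      intro h
      have := C.rel.norm
      have hb0 : b = 0 := Complex.ext h hbim
      rw [hb0] at this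
      simp at this
    have hfl : ∀ t ∈ T, ∀ z ∈ interior t, z.re ≠ p.re := by
      intro t ht z hz e
      apply C.not_interior hQ S _ ht hz
      rw [← hp, hF, hF, hbim, e]; ring
    obtain ⟨k, hk1, hk2⟩ := exists_floor hw p.re
    rcases hk1.eq_or_lt with e | hlt
    · exact ⟨k, e.symm⟩
    · exfalso
      have s1 := strip_of_two hQ S.h hlt (hfk k) hfl
      have s2 := strip_of_two hQ S.h (x₁ := p.re) (x₂ := (k + 1) * w) hk2 hfl (by
        have := hfk (k + 1)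
        push_cast at this
        exact this)
      have m1 := hmin _ s1
      have m2 := hmin _ s2
      linarith
  -- moving circles
  have hcircles : ∀ z₀ R t, MDisk U d T z₀ R t → ∀ k : ℤ, R ≤ |k * w - z₀.re| := by
    rintro z₀ R t ⟨a, b, c, t₁, ha, C, hR, hf⟩ k
    by_contra hcon
    push Not at hcon
    have habs := abs_lt.1 hcon
    set y := Real.sqrt (R ^ 2 - (k * w - z₀.re) ^ 2) with hy
    have hpos : 0 < R ^ 2 - (k * w - z₀.re) ^ 2 := by nlinarith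
    have hy1 : 0 < y := Real.sqrt_pos.2 hpos
    have hy2 : y ^ 2 = R ^ 2 - (k * w - z₀.re) ^ 2 := Real.sq_sqrt hpos.le
    set p : ℂ := ⟨k * w, z₀.im + y⟩ with hp
    have hps : p ∈ sphere z₀ R := by
      rw [mem_sphere, dist_eq_norm]
      have e1 : ‖p - z₀‖ ^ 2 = R ^ 2 := by
        rw [← Complex.normSq_eq_norm_sq, Complex.normSq_apply, hp]
        simp
        nlinarith
      exact (sq_eq_sq₀ (norm_nonneg _) hR.le).1 e1
    have h1 := hnc a b c t₁ t C p ((form_eq ha hR hf p).2 hps) k rfl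
    rw [form_grad ha hR hf] at h1
    have h2 : (2 * (a : ℂ) * (p - z₀)).im = 2 * a * y := by
      have : (2 * (a : ℂ) * (p - z₀)) = ((2 * a : ℝ) : ℂ) * (p - z₀) := by push_cast; ring
      rw [this, Complex.im_ofReal_mul, hp]
      simp
    rw [h2] at h1
    have : 0 < 2 * a * y := by positivity
    linarith
  have hbdd : ∀ z₀ R t, MDisk U d T z₀ R t → R ≤ w := by
    intro z₀ R t hD
    obtain ⟨k, hk1, hk2⟩ := exists_floor hw z₀.re
    refine (hcircles z₀ R t hD k).trans ?_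
    rw [abs_le]
    constructor <;> linarith
  obtain ⟨t₀, ht₀, hout⟩ := exists_out hQ S hbdd
  obtain ⟨x₁, hx₁, hheight⟩ := exists_height hQ S.h (S.isDisk hQ ht₀)
  obtain ⟨k, hk1, hk2⟩ := exists_floor hw x₁.re
  have hk1' : k * w < x₁.re := lt_of_le_of_ne hk1 (Ne.symm (hfk k t₀ ht₀ x₁ hx₁))
  set C : Set ℂ := {z | z.im = x₁.im ∧ k * w < z.re ∧ z.re < (k + 1) * w} with hC
  have hCconv : Convex ℝ C := by
    have h1 : Convex ℝ {z : ℂ | z.im = x₁.im} := by
      intro z hz w hw α β _ _ hαβ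
      simp only [mem_ofPred_eq] at hz hw ⊢
      simp only [Complex.add_im, Complex.real_smul, Complex.mul_im, Complex.ofReal_re,
        Complex.ofReal_im, zero_mul, add_zero]
      rw [hz, hw, ← add_mul, hαβ, one_mul]
    have h2 : Convex ℝ {z : ℂ | k * w < z.re} := convex_halfSpace_re_gt _
    have h3 : Convex ℝ {z : ℂ | z.re < (k + 1) * w} := convex_halfSpace_re_lt _
    exact h1.inter (h2.inter h3)
  have hG : ∀ x ∈ C, GG U d T t₀ x := by
    intro x hx
    refine GG_const hQ S hCconv.isPreconnected (fun z hz hE => hheight z hE hz.1)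
      ?_ (x := x₁) ⟨rfl, hk1', hk2⟩ hx
      (Or.inl ⟨t₀, ht₀, interior_subset hx₁, Sim.refl _ _ _, hout⟩)
    rintro z ⟨-, hz1, hz2⟩ a b t₁ t₂ hcur ha
    subst ha
    obtain ⟨j, hj⟩ := hlines b _ t₁ t₂ hcur z rfl
    rw [hj] at hz1 hz2
    have h1 : (k : ℝ) < j := lt_of_mul_lt_mul_right hz1 hw.le
    have h2 : (j : ℝ) < k + 1 := lt_of_mul_lt_mul_right hz2 hw.le
    have h1' : k < j := by exact_mod_cast h1
    have h2' : j < k + 1 := by exact_mod_cast h2
    omega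
  set x₀ : ℂ := ⟨k * w, x₁.im⟩ with hx₀
  have hpt : ∀ s : ℝ, 0 < s → s < 1 → x₀ + s * w ∈ C := by
    intro s h1 h2
    have h3 : 0 < s * w := mul_pos h1 hw
    have h4 : s * w < w := by nlinarith
    refine ⟨by simp [hx₀], ?_, ?_⟩
    · simp [hx₀]
      exact h3
    · simp [hx₀]
      linarith
  have hcl : ∀ s : ℝ, 0 ≤ s → s ≤ 1 → GG U d T t₀ (x₀ + s * w) := by
    intro s h1 h2
    have hcont : Continuous (fun s : ℝ => x₀ + (s : ℂ) * w) := by fun_prop
    have h3 : ∀ᶠ s' : ℝ in 𝓝 s, GG U d T t₀ (x₀ + (s' : ℂ) * w) → GG U d T t₀ (x₀ + s * w) :=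
      (hcont.tendsto s).eventually (GG_closed hQ S (κ := t₀) (x := x₀ + s * w))
    have h4 : s ∈ closure (Ioo (0 : ℝ) 1) := by
      rw [closure_Ioo (zero_ne_one)]; exact ⟨h1, h2⟩
    rw [mem_closure_iff_nhds] at h4
    obtain ⟨s', hs1, hs2⟩ := h4 _ h3
    exact hs1 (hG _ (hpt s' hs2.1 hs2.2))
  have hE₀ : x₀ ∉ IsTiling.E3 T := fun h => hheight x₀ h rfl
  have htile : ∃ t ∈ T, x₀ ∈ t ∧ Sim U d t₀ t := by
    have h0 := hcl 0 le_rfl zero_le_one
    rw [Complex.ofReal_zero, zero_mul, add_zero] at h0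
    rcases h0 with ⟨t, ht, hxt, hsim, -⟩ | ⟨z₀, R, t, hD, -, hx, hsim⟩
    · exact ⟨t, ht, hxt, hsim⟩
    · have h1 := hcircles z₀ R t hD k
      have h2 : |k * w - z₀.re| ≤ ‖x₀ - z₀‖ := by
        have := Complex.abs_re_le_norm (x₀ - z₀)
        rwa [Complex.sub_re] at this
      have hxs : x₀ ∈ sphere z₀ R := by
        rw [mem_sphere, dist_eq_norm]
        rw [mem_closedBall, dist_eq_norm] at hx
        exact le_antisymm hx (h1.trans h2)
      obtain ⟨u₁, hu₁, u₂, hu₂, -, -, hs2, -, -, hxu₂, -⟩ := hD.at_point hQ S hxs hE₀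
      exact ⟨u₂, hu₂, hxu₂, hsim.trans hs2⟩
  obtain ⟨t, ht, hxt, hsim⟩ := htile
  have hu := u_one_of_fault hQ S (x := x₀) (fun n s hs z hz => hfnk k n s hs z hz) hE₀ ht hxt
  have htr : ∀ᶠ n in U, (d t₀ n).u = 1 := by
    filter_upwards [hsim, hu] with n h1 h2
    rw [h1]; exact h2
  obtain ⟨T', v, h1, h2, h3, h4⟩ := finish hQ h₀ hw hper hU S ht₀ hbdd (x₀ := x₀) hcl htr
  exact ⟨T', w, v, hw, h1, h2, h3, h4⟩

/-- Weakly periodic implies strongly periodic. -/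
theorem main (hQ : ∀ i, IsDisk (Q i)) (h : IsTiling Q T) {v : ℂ} (hv : v ≠ 0) (hT : Inv T v) :
    ∃ T', ∃ w : ℝ, ∃ v : ℂ, 0 < w ∧ IsTiling Q T' ∧ Inv T' w ∧ Inv T' v ∧ v.im ≠ 0 := by
  set U : Ultrafilter ℕ := Filter.hyperfilter ℕ with hUdef
  have hU : ∀ N : ℕ, ∀ᶠ n in U, N ≤ n := by
    intro N
    have h1 : (U : Filter ℕ) ≤ atTop := by
      rw [← Nat.cofinite_eq_atTop]
      exact Filter.hyperfilter_le_cofinite
    exact h1 (eventually_ge_atTop N)
  -- rotate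
  set τ : ℝ := ‖v‖ with hτdef
  have hτ : 0 < τ := norm_pos_iff.2 hv
  have hun : ‖conj v / (τ : ℂ)‖ = 1 := by
    rw [norm_div, Complex.norm_conj, Complex.norm_real, norm_norm, ← hτdef, div_self hτ.ne']
  set g : Mot := ⟨⟨conj v / (τ : ℂ), mem_sphere_zero_iff_norm.2 hun⟩, 0⟩ with hg
  have h₀ := h.smul g
  have hper : Inv (g • T) τ := by
    have h1 := hT.conj g
    have h2 : (g.u : ℂ) * v = τ := by
      show conj v / (τ : ℂ) * v = τ
      have h3 : (τ : ℂ) ≠ 0 := by exact_mod_cast hτ.ne'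
      rw [div_mul_eq_mul_div, Complex.conj_mul', ← hτdef]
      field_simp
    rwa [h2] at h1
  set T₀ := g • T with hT₀
  set Tn : ℕ → Set (Set ℂ) := fun n => Mot.tr (-(n * Complex.I)) • T₀ with hTn
  have hn : ∀ n, IsTiling Q (Tn n) := fun n => h₀.smul _
  have hpern : ∀ n, Inv (Tn n) τ := by
    intro n
    have := hper.conj (Mot.tr (-(n * Complex.I)))
    simpa using this
  obtain ⟨T₁, d₀, S₀⟩ := exists_sys (U := U) hQ hn
  obtain ⟨d, S, hequi⟩ := exists_equi hQ S₀ hτ hpern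
  have hT₁ : Inv T₁ τ := S.inv hQ hpern
  by_cases hcirc : ∀ a b c t₁ t₂, MCurve U d T₁ a b c t₁ t₂ → a ≠ 0
  · obtain ⟨T', v, h1, h2, h3, h4⟩ := circle_case hQ h₀ hτ hper hU S hT₁ hequi hcirc
    exact ⟨T', τ, v, hτ, h1, h2, h3, h4⟩
  · push Not at hcirc
    obtain ⟨a, b, c, t₁, t₂, C, ha⟩ := hcirc
    subst ha
    by_cases hb : b.re = 0
    · obtain ⟨T', v, h1, h2, h3, h4⟩ := hline_case hQ h₀ hτ hper hU S hT₁ hequi C hb
      exact ⟨T', τ, v, hτ, h1, h2, h3, h4⟩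
    · exact strip_case hQ hU (strip_of_line hQ S hτ hT₁ C hb)

end Pool.Agent.Lib.MP_ffe3a0_co
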