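import Pool.Agent.Lib.MP_ffe3a0_co.Good

/-!
Propagation of contacts along level curves; contacts near a point lie on level curves through it.
-/

set_option autoImplicit false
set_option linter.unusedSectionVars false

open Set Metric Filter Topology Pointwise ComplexConjugate

noncomputable section

namespace Pool.Agent.Lib.MP_ffe3a0_co

/-- the relative displacement of two tiles is along the level curves of `ham a b` -/
def Rel (U : Ultrafilter ℕ) (d : Set ℂ → ℕ → Mot) (t t' : Set ℂ) (a : ℝ) (b : ℂ) : Prop :=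
  Dir U (fun n => (d t n)⁻¹ * d t' n) a b ∨ Dir U (fun n => (d t n)⁻¹ * d t' n) (-a) (-b)

/-- similar tiles: tiles with the same displacement -/
def Sim (U : Ultrafilter ℕ) (d : Set ℂ → ℕ → Mot) (t t' : Set ℂ) : Prop :=
  ∀ᶠ n in U, d t n = d t' n

section

variable {U : Ultrafilter ℕ} {d : Set ℂ → ℕ → Mot} {t t' s s' : Set ℂ} {a : ℝ} {b : ℂ}

theorem Sim.refl (U : Ultrafilter ℕ) (d : Set ℂ → ℕ → Mot) (t : Set ℂ) : Sim U d t t :=
  Eventually.of_forall fun _ => rfl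

theorem Sim.symm (h : Sim U d t t') : Sim U d t' t := h.mono fun _ e => e.symm

theorem Sim.trans (h : Sim U d t t') (h' : Sim U d t' s) : Sim U d t s := by
  filter_upwards [h, h'] with n e1 e2
  rw [e1, e2]

theorem Dir.congr {h h' : ℕ → Mot} (D : Dir U h a b) (e : ∀ᶠ n in U, h n = h' n) :
    Dir U h' a b := by
  refine ⟨D.lim.congr' e, ?_, D.norm, D.ta.congr' ?_, D.tb.congr' ?_⟩
  · filter_upwards [D.ne, e] with n h1 h2
    rwa [← h2]
  · filter_upwards [e] with n h2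
    rw [h2]
  · filter_upwards [e] with n h2
    rw [h2]

theorem Rel.symm (h : Rel U d t t' a b) : Rel U d t' t a b := by
  rcases h with h | h
  · exact Or.inr (Sys.dir_swap h)
  · left
    have := Sys.dir_swap h
    rwa [neg_neg, neg_neg] at this

theorem Rel.neg (h : Rel U d t t' a b) : Rel U d t t' (-a) (-b) := by
  rcases h with h | h
  · right
    rwa [neg_neg, neg_neg]
  · exact Or.inl h

theorem Rel.of_neg (h : Rel U d t t' (-a) (-b)) : Rel U d t t' a b := by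
  have := h.neg
  rwa [neg_neg, neg_neg] at this

theorem Rel.norm (h : Rel U d t t' a b) : |a| + ‖b‖ = 1 := by
  rcases h with h | h
  · exact h.norm
  · have := h.norm
    rwa [abs_neg, norm_neg] at this

theorem Rel.norm_ne (h : Rel U d t t' a b) : |a| + ‖b‖ ≠ 0 := by
  rw [h.norm]; exact one_ne_zero

theorem Rel.norm_ne' (h : Rel U d t t' a b) : |-a| + ‖-b‖ ≠ 0 := h.neg.norm_ne

theorem Rel.not_sim (h : Rel U d t t' a b) : ¬ Sim U d t t' := by
  intro hs
  have h1 : ∀ᶠ n in U, (d t n)⁻¹ * d t' n ≠ 1 := by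
    rcases h with h | h
    · exact h.ne
    · exact h.ne
  have h2 : ∀ᶠ _ in (U : Filter ℕ), False := by
    filter_upwards [h1, hs] with n e1 e2
    apply e1
    rw [e2]; simp
  exact h2.exists.choose_spec

theorem Rel.ne (h : Rel U d t t' a b) : t ≠ t' := by
  rintro rfl
  exact h.not_sim (Sim.refl _ _ _)

theorem Rel.congr (h : Rel U d t t' a b) (h1 : Sim U d t s) (h2 : Sim U d t' s') :
    Rel U d s s' a b := by
  have e : ∀ᶠ n in U, (d t n)⁻¹ * d t' n = (d s n)⁻¹ * d s' n := by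
    filter_upwards [h1, h2] with n e1 e2
    rw [e1, e2]
  rcases h with h | h
  · exact Or.inl (h.congr e)
  · exact Or.inr (h.congr e)

end

variable {ι : Type} [Finite ι] {Q : ι → Set ℂ} {U : Ultrafilter ℕ} {Tn : ℕ → Set (Set ℂ)}
  {T : Set (Set ℂ)} {d : Set ℂ → ℕ → Mot} {t t' : Set ℂ} {a : ℝ} {b : ℂ}

namespace Sys

theorem exists_rel (S : Sys Q U Tn T d) (ht : t ∈ T) (ht' : t' ∈ T)
    (h : ¬ Sim U d t t') : ∃ a b, Rel U d t t' a b := by
  obtain ⟨a, b, D⟩ := exists_dir (S.tendsto_rel ht ht') (by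
    have h' := h
    unfold Sim at h'
    rw [← Ultrafilter.eventually_not] at h'
    filter_upwards [h'] with n hn e
    apply hn
    rw [inv_mul_eq_one] at e
    exact e)
  exact ⟨a, b, Or.inl D⟩

theorem rel_grad (hQ : ∀ i, IsDisk (Q i)) (S : Sys Q U Tn T d) (ht : t ∈ T) (ht' : t' ∈ T)
    (R : Rel U d t t' a b) {x : ℂ} (hx : x ∈ t) (hx' : x ∈ t') (hE : x ∉ IsTiling.E3 T) :
    grad a b x ≠ 0 := by
  rcases R with D | D
  · exact S.good_grad hQ ht ht' (Rel.ne (Or.inl D)) hx hx' hE D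
  · have := S.good_grad hQ ht ht' (Rel.ne (Or.inl D)) hx hx' hE D
    rw [grad_neg] at this
    exact neg_ne_zero.1 this

theorem rel_Lo (hQ : ∀ i, IsDisk (Q i)) (S : Sys Q U Tn T d) (ht : t ∈ T) (ht' : t' ∈ T)
    (R : Rel U d t t' a b) {x : ℂ} (hx : x ∈ t) (hx' : x ∈ t') (hE : x ∉ IsTiling.E3 T) :
    (Lo a b t x ∧ Lo (-a) (-b) t' x) ∨ (Lo (-a) (-b) t x ∧ Lo a b t' x) := by
  rcases R with D | D
  · exact S.good_Lo hQ ht ht' (Rel.ne (Or.inl D)) hx hx' hE D
  · have := S.good_Lo hQ ht ht' (Rel.ne (Or.inl D)) hx hx' hE D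
    rw [neg_neg, neg_neg] at this
    exact this.symm

theorem rel_flow (hQ : ∀ i, IsDisk (Q i)) (S : Sys Q U Tn T d) (ht : t ∈ T) (ht' : t' ∈ T)
    (R : Rel U d t t' a b) {x : ℂ} (hx : x ∈ t) (hx' : x ∈ t') (hE : x ∉ IsTiling.E3 T) :
    ∀ᶠ n in U, ∀ z, ham a b (((d t n)⁻¹ * d t' n) • z) = ham a b z := by
  rcases R with D | D
  · exact S.good_flow hQ ht ht' (Rel.ne (Or.inl D)) hx hx' hE D
  · filter_upwards [S.good_flow hQ ht ht' (Rel.ne (Or.inl D)) hx hx' hE D] with n hn z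
    have := hn z
    rw [ham_neg, ham_neg] at this
    linarith

/-- a contact propagates along a level curve as long as it avoids the triple points -/
theorem arc (hQ : ∀ i, IsDisk (Q i)) (S : Sys Q U Tn T d) (ht : t ∈ T) (ht' : t' ∈ T)
    (R : Rel U d t t' a b) {C : Set ℂ} (hC : IsPreconnected C) {c : ℝ}
    (hCF : ∀ z ∈ C, ham a b z = c) (hCE : ∀ z ∈ C, z ∉ IsTiling.E3 T) {x y : ℂ} (hx : x ∈ C)
    (hy : y ∈ C) (h1 : Lo a b t x) (h2 : Lo (-a) (-b) t' x) :
    Lo a b t y ∧ Lo (-a) (-b) t' y := by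
  refine (local_const hC (P := fun z => Lo a b t z ∧ Lo (-a) (-b) t' z) ?_ hx hy).1 ⟨h1, h2⟩
  intro z hz
  rw [eventually_nhdsWithin_iff]
  by_cases hm : z ∈ t ∧ z ∈ t'
  · have hG := S.rel_grad hQ ht ht' R hm.1 hm.2 (hCE z hz)
    rcases S.rel_Lo hQ ht ht' R hm.1 hm.2 (hCE z hz) with ⟨k1, k2⟩ | ⟨k1, k2⟩
    · filter_upwards [k1.near, k2.near] with w w1 w2 hw
      have e : ham a b w = ham a b z := by rw [hCF w hw, hCF z hz]
      exact ⟨fun _ => ⟨w1 e, w2 (by rw [ham_neg, ham_neg, e])⟩, fun _ => ⟨k1, k2⟩⟩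
    · filter_upwards [k1.near, k2.near, grad_ne_near hG] with w w1 w2 w3 hw
      have e : ham a b w = ham a b z := by rw [hCF w hw, hCF z hz]
      have e' : ham (-a) (-b) w = ham (-a) (-b) z := by rw [ham_neg, ham_neg, e]
      constructor
      · rintro ⟨k3, -⟩
        exact absurd rfl (k3.ne_neg k1 hG)
      · rintro ⟨k3, -⟩
        exact absurd rfl (k3.ne_neg (w1 e') w3)
  · have h3 : ∀ᶠ w in 𝓝 z, ¬ (w ∈ t ∧ w ∈ t') :=
      (((S.isDisk hQ ht).isClosed.inter (S.isDisk hQ ht').isClosed).isOpen_compl).mem_nhds hm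
    filter_upwards [h3] with w hw _
    exact ⟨fun h => absurd ⟨h.1.mem, h.2.mem⟩ hm, fun h => absurd ⟨h.1.mem, h.2.mem⟩ hw⟩

/-- one orientation of `through` -/
theorem through_aux (hQ : ∀ i, IsDisk (Q i)) (S : Sys Q U Tn T d) (ht : t ∈ T) (ht' : t' ∈ T)
    {p : ℂ} (hp : p ∈ t) (hp' : p ∈ t') :
    ∃ r > 0, ∀ z ∈ ball p r, ∀ a b, Rel U d t t' a b → z ∉ IsTiling.E3 T → Lo a b t z →
      Lo (-a) (-b) t' z → grad a b z ≠ 0 → ham a b z = ham a b p := by
  obtain ⟨r₀, hr₀, hE⟩ := S.h.E3_isolated hQ p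
  have hε : 0 < r₀ / 3 := by positivity
  have hd := S.isDisk hQ ht
  have hd' := S.isDisk hQ ht'
  obtain ⟨δ₁, hδ₁, u1⟩ := hd.locally_connected p hp (r₀ / 3) hε
  obtain ⟨δ₂, hδ₂, u2⟩ := hd'.locally_connected p hp' (r₀ / 3) hε
  refine ⟨min (r₀ / 3) (min δ₁ δ₂), by positivity, ?_⟩
  intro z hz a b R hzE k1 k2 hG
  rw [mem_ball, lt_min_iff, lt_min_iff] at hz
  obtain ⟨hz0, hz1, hz2⟩ := hz
  by_contra hF
  have hne := R.ne
  have hno : ∀ w ∈ ball p (r₀ / 3), ham a b w = ham a b z → w ∈ t ∧ w ∈ t' := by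
    intro w hw e
    obtain ⟨s, hs1, -, hs3⟩ := exists_flow hG e
    set C := (fun s' => flow a b s' • z) '' Icc (-|s|) |s| with hC
    have hwz : ‖w - z‖ < 2 * (r₀ / 3) := by
      rw [mem_ball, dist_eq_norm] at hw
      rw [dist_eq_norm] at hz0
      calc ‖w - z‖ = ‖(w - p) - (z - p)‖ := by ring_nf
        _ ≤ ‖w - p‖ + ‖z - p‖ := norm_sub_le _ _
        _ < 2 * (r₀ / 3) := by linarith
    have h3 := S.arc hQ ht ht' R (C := C) (c := ham a b z)
      (isPreconnected_Icc.image _ ((continuous_flow a b).smul continuous_const).continuousOn)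
      (by rintro _ ⟨s', hs', rfl⟩; exact ham_flow _ _)
      (by
        rintro _ ⟨s', hs', rfl⟩ hE3
        have h4 : flow a b s' • z ∈ ball p r₀ := by
          rw [mem_ball, dist_eq_norm]
          rw [dist_eq_norm] at hz0
          have h5 := hs3 s' (abs_le.2 ⟨hs'.1, hs'.2⟩)
          calc ‖flow a b s' • z - p‖ = ‖(flow a b s' • z - z) + (z - p)‖ := by ring_nf
            _ ≤ ‖flow a b s' • z - z‖ + ‖z - p‖ := norm_add_le _ _
            _ < r₀ := by linarith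
        have h5 := hE _ hE3 h4
        apply hF
        rw [← h5]
        exact (ham_flow _ _).symm)
      (x := z) (y := w)
      ⟨0, ⟨by simp, by simp⟩, by simp [flow_zero]⟩
      ⟨s, ⟨neg_abs_le s, le_abs_self s⟩, hs1⟩ k1 k2
    exact ⟨h3.1.mem, h3.2.mem⟩
  -- all of `t` near `p` is below
  have b1 : ∀ w ∈ ball p δ₁, w ∈ interior t → ham a b w < ham a b z := by
    intro w hw hwt
    obtain ⟨v, ⟨v1, v2⟩, v3⟩ := exists_lt hG (k1.near_interior.and
      (isOpen_ball.mem_nhds (show z ∈ ball p δ₁ from hz1)))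
    obtain ⟨C, hC1, hC2, hC3, hC4⟩ := u1 v ⟨v1 v3, v2⟩ w ⟨hwt, hw⟩
    by_contra hcon
    push Not at hcon
    obtain ⟨q, hq, hqe⟩ := hC2.intermediate_value hC3 hC4 (continuous_ham a b).continuousOn
      ⟨v3.le, hcon⟩
    exact hne (S.h.unique_of_interior hQ ht ht' (hC1 hq).1 (hno q (hC1 hq).2 hqe).2)
  have b2 : ∀ w ∈ ball p δ₂, w ∈ interior t' → ham a b z < ham a b w := by
    intro w hw hwt
    obtain ⟨v, ⟨v1, v2⟩, v3⟩ := exists_gt' hG (k2.near_interior.and
      (isOpen_ball.mem_nhds (show z ∈ ball p δ₂ from hz2)))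
    have v1' := v1 (by rw [ham_neg, ham_neg]; linarith)
    obtain ⟨C, hC1, hC2, hC3, hC4⟩ := u2 w ⟨hwt, hw⟩ v ⟨v1', v2⟩
    by_contra hcon
    push Not at hcon
    obtain ⟨q, hq, hqe⟩ := hC2.intermediate_value hC3 hC4 (continuous_ham a b).continuousOn
      ⟨hcon, v3.le⟩
    exact hne (S.h.unique_of_interior hQ ht' ht (hC1 hq).1 (hno q (hC1 hq).2 hqe).1).symm
  have c1 : ham a b p ≤ ham a b z := by
    by_contra hcon
    push Not at hcon
    have hp2 : p ∈ closure (interior t) := by rw [hd.closure_interior]; exact hp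
    rw [_root_.mem_closure_iff] at hp2
    obtain ⟨v, ⟨v1, v2⟩, v3⟩ := hp2 (ball p δ₁ ∩ {v | ham a b z < ham a b v})
      (isOpen_ball.inter (isOpen_lt continuous_const (continuous_ham a b)))
      ⟨mem_ball_self hδ₁, hcon⟩
    exact absurd (b1 v v1 v3) (not_lt.2 (le_of_lt v2))
  have c2 : ham a b z ≤ ham a b p := by
    by_contra hcon
    push Not at hcon
    have hp2 : p ∈ closure (interior t') := by rw [hd'.closure_interior]; exact hp'
    rw [_root_.mem_closure_iff] at hp2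
    obtain ⟨v, ⟨v1, v2⟩, v3⟩ := hp2 (ball p δ₂ ∩ {v | ham a b v < ham a b z})
      (isOpen_ball.inter (isOpen_lt (continuous_ham a b) continuous_const))
      ⟨mem_ball_self hδ₂, hcon⟩
    exact absurd (b2 v v1 v3) (not_lt.2 (le_of_lt v2))
  exact hF (le_antisymm c2 c1)

/-- Contacts of two non-similar tiles near a common point lie on the level curve through it. -/
theorem through (hQ : ∀ i, IsDisk (Q i)) (S : Sys Q U Tn T d) (ht : t ∈ T) (ht' : t' ∈ T)
    {p : ℂ} (hp : p ∈ t) (hp' : p ∈ t') :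
    ∃ r > 0, ∀ z ∈ ball p r, ∀ a b, Rel U d t t' a b → z ∈ t → z ∈ t' → z ∉ IsTiling.E3 T →
      ham a b z = ham a b p := by
  obtain ⟨r, hr, h1⟩ := S.through_aux hQ ht ht' hp hp'
  refine ⟨r, hr, ?_⟩
  intro z hz a b R hzt hzt' hE
  have hG := S.rel_grad hQ ht ht' R hzt hzt' hE
  rcases S.rel_Lo hQ ht ht' R hzt hzt' hE with ⟨k1, k2⟩ | ⟨k1, k2⟩
  · exact h1 z hz a b R hE k1 k2 hG
  · have := h1 z hz (-a) (-b) R.neg hE k1 (by rwa [neg_neg, neg_neg]) (grad_neg_ne hG)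
    rw [ham_neg, ham_neg] at this
    linarith

end Sys

end Pool.Agent.Lib.MP_ffe3a0_co
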