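import Pool.Agent.Lib.MP_ffe3a0_co.StripCase

/-!
Transfer of the main theorem to the Euclidean plane and to arbitrary isometries.
-/

set_option autoImplicit false
set_option linter.unusedSectionVars false

open Set Metric Filter Topology Pointwise ComplexConjugate

noncomputable section

namespace Pool.Agent.Lib.MP_ffe3a0_co

theorem isDisk_of_homeo {K : Set ℂ} (h : Nonempty (K ≃ₜ closedBall (0 : ℂ) 1)) : IsDisk K := by
  obtain ⟨f⟩ := h
  refine ⟨fun z => (f.symm ⟨retr z, retr_mem z⟩ : ℂ), ?_, ?_, ?_⟩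
  · exact continuous_subtype_val.comp
      (f.symm.continuous.comp (continuous_retr.subtype_mk fun z => retr_mem z))
  · intro z hz w hw h
    have h1 := Subtype.ext h
    have h2 := f.symm.injective h1
    have h3 := congrArg Subtype.val h2
    simpa [retr_eq hz, retr_eq hw] using h3
  · ext y
    constructor
    · rintro ⟨z, hz, rfl⟩
      exact Subtype.coe_prop _
    · intro hy
      refine ⟨f ⟨y, hy⟩, (f ⟨y, hy⟩).2, ?_⟩
      have h1 : (⟨retr (f ⟨y, hy⟩ : ℂ), retr_mem _⟩ : closedBall (0 : ℂ) 1) = f ⟨y, hy⟩ := by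
        apply Subtype.ext
        exact retr_eq (f ⟨y, hy⟩).2
      simp only [h1]
      simp

/-- The Euclidean plane. -/
abbrev E2 := EuclideanSpace ℝ (Fin 2)

/-- The Euclidean plane as the complex plane. -/
def eqv : E2 ≃ₗᵢ[ℝ] ℂ := Complex.orthonormalBasisOneI.repr.symm

theorem isom_complex (g : ℂ ≃ᵢ ℂ) :
    ∃ m : Mot, (∀ z, g z = m • z) ∨ (∀ z, g z = m • conj z) := by
  obtain ⟨a, h | h⟩ := linear_isometry_complex g.toRealLinearIsometryEquiv
  · refine ⟨⟨a, g 0⟩, Or.inl fun z => ?_⟩
    have h1 : g.toRealLinearIsometryEquiv z = g z - g 0 :=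
      IsometryEquiv.toRealLinearIsometryEquiv_apply g z
    rw [h, rotation_apply] at h1
    rw [Mot.smul_def]
    simp only
    rw [h1]; ring
  · refine ⟨⟨a, g 0⟩, Or.inr fun z => ?_⟩
    have h1 : g.toRealLinearIsometryEquiv z = g z - g 0 :=
      IsometryEquiv.toRealLinearIsometryEquiv_apply g z
    rw [h] at h1
    simp only [LinearIsometryEquiv.trans_apply, rotation_apply, Complex.conjLIE_apply] at h1
    rw [Mot.smul_def]
    simp only
    rw [h1]; ring

/-- an isometry of the complex plane as an isometry of the Euclidean plane -/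
def lift (g : ℂ ≃ᵢ ℂ) : E2 ≃ᵢ E2 :=
  (eqv.toIsometryEquiv.trans g).trans eqv.symm.toIsometryEquiv

theorem lift_apply (g : ℂ ≃ᵢ ℂ) (x : E2) : eqv (lift g x) = g (eqv x) := by
  simp [lift]

/-- an isometry of the Euclidean plane as an isometry of the complex plane -/
def lower (g : E2 ≃ᵢ E2) : ℂ ≃ᵢ ℂ :=
  (eqv.symm.toIsometryEquiv.trans g).trans eqv.toIsometryEquiv

theorem lower_apply (g : E2 ≃ᵢ E2) (x : E2) : lower g (eqv x) = eqv (g x) := by
  simp [lower]

variable {n : ℕ}

/-- the doubled prototiles -/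
def dbl (P : Fin n → Set E2) : Fin n × Bool → Set ℂ := fun p =>
  if p.2 then (fun z : ℂ => conj z) '' (eqv '' P p.1) else eqv '' P p.1

theorem dbl_isDisk {P : Fin n → Set E2}
    (hP : ∀ i, Nonempty (P i ≃ₜ Metric.closedBall (0 : E2) 1)) (p : Fin n × Bool) :
    IsDisk (dbl P p) := by
  apply isDisk_of_homeo
  obtain ⟨i, β⟩ := p
  obtain ⟨f⟩ := hP i
  have h1 : eqv '' closedBall (0 : E2) 1 = closedBall (0 : ℂ) 1 := by
    rw [LinearIsometryEquiv.image_closedBall, map_zero]
  have f1 : (eqv '' P i : Set ℂ) ≃ₜ closedBall (0 : ℂ) 1 :=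
    ((eqv.toHomeomorph.image (P i)).symm.trans f).trans
      ((eqv.toHomeomorph.image _).trans (Homeomorph.setCongr h1))
  cases β with
  | false =>
    refine ⟨?_⟩
    simp only [dbl, Bool.false_eq_true, if_false]
    exact f1
  | true =>
    refine ⟨?_⟩
    simp only [dbl, if_true]
    exact (Complex.conjLIE.toHomeomorph.image (eqv '' P i)).symm.trans f1

theorem isTile_iff (P : Fin n → Set E2) (t : Set E2) :
    IsTile (dbl P) (eqv '' t) ↔ ∃ i, ∃ g : E2 ≃ᵢ E2, t = g '' P i := by
  constructor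
  · rintro ⟨⟨i, β⟩, m, h⟩
    cases β with
    | false =>
      simp only [dbl, Bool.false_eq_true, if_false] at h
      refine ⟨i, lift (IsometryEquiv.constSMul m), ?_⟩
      apply eqv.injective.image_injective
      rw [h, ← image_smul, image_image, image_image]
      apply image_congr
      intro x _
      rw [lift_apply]
      rfl
    | true =>
      simp only [dbl, if_true] at h
      refine ⟨i, lift (Complex.conjLIE.toIsometryEquiv.trans (IsometryEquiv.constSMul m)), ?_⟩
      apply eqv.injective.image_injective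
      rw [h, ← image_smul, image_image, image_image, image_image]
      apply image_congr
      intro x _
      rw [lift_apply]
      rfl
  · rintro ⟨i, g, rfl⟩
    obtain ⟨m, h | h⟩ := isom_complex (lower g)
    · refine ⟨(i, false), m, ?_⟩
      simp only [dbl, Bool.false_eq_true, if_false]
      rw [← image_smul, image_image, image_image]
      apply image_congr
      intro x _
      rw [← lower_apply, h]
    · refine ⟨(i, true), m, ?_⟩
      simp only [dbl, if_true]
      rw [← image_smul, image_image, image_image, image_image]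
      apply image_congr
      intro x _
      rw [← lower_apply, h]

theorem interior_eqv (t : Set E2) : interior (eqv '' t) = eqv '' interior t :=
  (eqv.toHomeomorph.image_interior t).symm

theorem image_image_symm (s : Set ℂ) : eqv '' (eqv.symm '' s) = s := by
  rw [image_image]; simp

theorem image_tr (v : E2) (t : Set E2) :
    eqv '' ((fun x => x + v) '' t) = Mot.tr (eqv v) • (eqv '' t) := by
  rw [← image_smul, image_image, image_image]
  apply image_congr
  intro x _
  rw [Mot.tr_smul, map_add]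

/-- The main theorem in the Euclidean plane. -/
theorem transfer (n : ℕ) (P : Fin n → Set E2)
    (hP : ∀ i, Nonempty (P i ≃ₜ Metric.closedBall (0 : E2) 1))
    (hex : ∃ T : Set (Set E2),
      (∀ t ∈ T, ∃ i, ∃ g : E2 ≃ᵢ E2, t = g '' P i) ∧
      (⋃₀ T = Set.univ) ∧
      (∀ s ∈ T, ∀ t ∈ T, s ≠ t → Disjoint (interior s) (interior t)) ∧
      ∃ v : E2, v ≠ 0 ∧ ∀ t : Set E2, t ∈ T ↔ (fun x => x + v) '' t ∈ T) :
    ∃ T : Set (Set E2),
      (∀ t ∈ T, ∃ i, ∃ g : E2 ≃ᵢ E2, t = g '' P i) ∧
      (⋃₀ T = Set.univ) ∧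
      (∀ s ∈ T, ∀ t ∈ T, s ≠ t → Disjoint (interior s) (interior t)) ∧
      ∃ u w : E2, LinearIndependent ℝ ![u, w] ∧
        (∀ t : Set E2, t ∈ T ↔ (fun x => x + u) '' t ∈ T) ∧
        (∀ t : Set E2, t ∈ T ↔ (fun x => x + w) '' t ∈ T) := by
  obtain ⟨T, h1, h2, h3, v, hv, h4⟩ := hex
  have hQ := dbl_isDisk hP
  set T₁ : Set (Set ℂ) := {s | eqv.symm '' s ∈ T} with hT₁
  have hmem : ∀ t : Set E2, eqv '' t ∈ T₁ ↔ t ∈ T := by
    intro t
    show eqv.symm '' (eqv '' t) ∈ T ↔ _
    rw [image_image]; simp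
  have hform : ∀ s : Set ℂ, ∃ t : Set E2, s = eqv '' t := fun s =>
    ⟨eqv.symm '' s, (image_image_symm s).symm⟩
  have hT : IsTiling (dbl P) T₁ := by
    refine ⟨?_, ?_, ?_⟩
    · intro s hs
      obtain ⟨t, rfl⟩ := hform s
      rw [hmem] at hs
      exact (isTile_iff P t).2 (h1 t hs)
    · rw [eq_univ_iff_forall]
      intro x
      have h5 : eqv.symm x ∈ ⋃₀ T := by rw [h2]; trivial
      obtain ⟨t, ht, hxt⟩ := h5
      exact ⟨eqv '' t, (hmem t).2 ht, eqv.symm x, hxt, by simp⟩
    · intro s hs s' hs' hne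
      obtain ⟨t, rfl⟩ := hform s
      obtain ⟨t', rfl⟩ := hform s'
      rw [hmem] at hs hs'
      rw [interior_eqv, interior_eqv, disjoint_image_iff eqv.injective]
      exact h3 t hs t' hs' (fun e => hne (by rw [e]))
  have hinv : Inv T₁ (eqv v) := by
    intro s
    obtain ⟨t, rfl⟩ := hform s
    rw [← image_tr, hmem, hmem]
    exact h4 t
  obtain ⟨T', w, u, hw, k1, k2, k3, k4⟩ := main hQ hT
    (v := eqv v) (fun e => hv (by simpa using e)) hinv
  refine ⟨{t | eqv '' t ∈ T'}, ?_, ?_, ?_, eqv.symm w, eqv.symm u, ?_, ?_, ?_⟩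
  · intro t ht
    exact (isTile_iff P t).1 (k1.tile _ ht)
  · rw [eq_univ_iff_forall]
    intro x
    obtain ⟨s, hs, hxs⟩ := k1.exists_mem (eqv x)
    obtain ⟨t, rfl⟩ := hform s
    refine ⟨t, hs, ?_⟩
    obtain ⟨y, hy, e⟩ := hxs
    rwa [← eqv.injective e]
  · intro s hs t ht hne
    have h5 := k1.disj _ hs _ ht (fun e => hne (eqv.injective.image_injective e))
    rw [interior_eqv, interior_eqv, disjoint_image_iff eqv.injective] at h5
    exact h5
  · rw [LinearIndependent.pair_iff]
    intro α β h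
    have h5 : eqv (α • eqv.symm (w : ℂ) + β • eqv.symm u) = 0 := by rw [h, map_zero]
    rw [map_add, map_smul, map_smul, LinearIsometryEquiv.apply_symm_apply,
      LinearIsometryEquiv.apply_symm_apply] at h5
    have h6 := congrArg Complex.im h5
    have h7 := congrArg Complex.re h5
    simp only [Complex.add_im, Complex.real_smul, Complex.mul_im, Complex.ofReal_re,
      Complex.ofReal_im, zero_mul, mul_zero, add_zero, zero_add, Complex.zero_im] at h6
    have hβ : β = 0 := by
      rcases mul_eq_zero.1 h6 with h8 | h8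
      · exact h8
      · exact absurd h8 k4
    rw [hβ] at h7
    simp at h7
    refine ⟨?_, hβ⟩
    rcases h7 with h8 | h8
    · exact h8
    · exact absurd h8 hw.ne'
  · intro t
    have := k2 (eqv '' t)
    show eqv '' t ∈ T' ↔ eqv '' _ ∈ T'
    rw [image_tr, LinearIsometryEquiv.apply_symm_apply]
    exact this
  · intro t
    have := k3 (eqv '' t)
    show eqv '' t ∈ T' ↔ eqv '' _ ∈ T'
    rw [image_tr, LinearIsometryEquiv.apply_symm_apply]
    exact this

end Pool.Agent.Lib.MP_ffe3a0_co
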