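import Pool.Agent.Lib.MP_ffe3a0_co.Disk

/-!
Three closed topological disks with pairwise disjoint interiors have at most two common points.
-/

set_option autoImplicit false

open Set Metric Filter Topology

namespace Pool.Agent.Lib.MP_ffe3a0_co

/-- `f` has a continuous logarithm on `[s,t]` with increment `c`. -/
def Inc (f : ℝ → ℂ) (s t : ℝ) (c : ℂ) : Prop :=
  ∃ L : ℝ → ℂ, ContinuousOn L (Icc s t) ∧ (∀ x ∈ Icc s t, Complex.exp (L x) = f x) ∧
    L t - L s = c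

theorem Inc.exists {f : ℝ → ℂ} (hf : Continuous f) {s t : ℝ} (hst : s ≤ t)
    (h0 : ∀ x ∈ Icc s t, f x ≠ 0) : ∃ c, Inc f s t c := by
  obtain ⟨g, hg, hgf⟩ := exists_log (fun x => f (projIcc s t hst x))
    (hf.comp (continuous_subtype_val.comp continuous_projIcc)) (fun x => h0 _ (projIcc s t hst x).2)
  refine ⟨g t - g s, g, hg.continuousOn, fun x hx => ?_, rfl⟩
  rw [hgf, projIcc_of_mem hst hx]

theorem Inc.unique {f : ℝ → ℂ} {s t : ℝ} (hst : s ≤ t) {c c' : ℂ} (h : Inc f s t c)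
    (h' : Inc f s t c') : c = c' := by
  obtain ⟨L, hL, hLf, rfl⟩ := h
  obtain ⟨M, hM, hMf, rfl⟩ := h'
  have : PreconnectedSpace (Icc s t) := isPreconnected_iff_preconnectedSpace.1 isPreconnected_Icc
  have h1 := log_diff_const (X := Icc s t) (fun x => L x) (fun x => M x)
    (continuousOn_iff_continuous_domRestrict.1 hL) (continuousOn_iff_continuous_domRestrict.1 hM)
    (fun x => by rw [hLf x x.2, hMf x x.2]) ⟨t, ⟨hst, le_rfl⟩⟩ ⟨s, ⟨le_rfl, hst⟩⟩
  simp only at h1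
  linear_combination h1

theorem Inc.ne_zero {f : ℝ → ℂ} {s t : ℝ} {c : ℂ} (h : Inc f s t c) :
    ∀ x ∈ Icc s t, f x ≠ 0 := by
  obtain ⟨L, hL, hLf, rfl⟩ := h
  intro x hx
  rw [← hLf x hx]
  exact Complex.exp_ne_zero _

theorem Inc.add {f : ℝ → ℂ} (hf : Continuous f) {s t u : ℝ} (hst : s ≤ t) (htu : t ≤ u)
    {c c' : ℂ} (h : Inc f s t c) (h' : Inc f t u c') : Inc f s u (c + c') := by
  have h0 : ∀ x ∈ Icc s u, f x ≠ 0 := by
    intro x hx
    rcases le_total x t with hxt | hxt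
    · exact h.ne_zero x ⟨hx.1, hxt⟩
    · exact h'.ne_zero x ⟨hxt, hx.2⟩
  obtain ⟨d, L, hL, hLf, rfl⟩ := Inc.exists hf (hst.trans htu) h0
  have h1 : Inc f s t (L t - L s) := ⟨L, hL.mono (Icc_subset_Icc_right htu),
    fun x hx => hLf x ⟨hx.1, hx.2.trans htu⟩, rfl⟩
  have h2 : Inc f t u (L u - L t) := ⟨L, hL.mono (Icc_subset_Icc_left hst),
    fun x hx => hLf x ⟨hst.trans hx.1, hx.2⟩, rfl⟩
  refine ⟨L, hL, hLf, ?_⟩
  rw [h.unique hst h1, h'.unique htu h2]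
  ring

/-- The increment changes by a quantity depending only on the endpoints when the base point is
moved a little. -/
theorem Inc.move {p : ℝ → ℂ} (hp : Continuous p) {s t : ℝ} {q : ℂ} {r : ℝ}
    (hr : ∀ x ∈ Icc s t, r ≤ ‖p x - q‖) {q' : ℂ} (hq' : ‖q' - q‖ < r) {c : ℂ}
    (h : Inc (fun x => p x - q) s t c) :
    Inc (fun x => p x - q') s t (c + (Complex.log ((p t - q') / (p t - q)) -
      Complex.log ((p s - q') / (p s - q)))) := by
  obtain ⟨L, hL, hLf, rfl⟩ := h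
  have hne : ∀ x ∈ Icc s t, p x - q ≠ 0 := by
    intro x hx h
    have := hr x hx
    rw [h, norm_zero] at this
    have h2 := norm_nonneg (q' - q)
    linarith
  have hslit : ∀ x ∈ Icc s t, (p x - q') / (p x - q) ∈ Complex.slitPlane := by
    intro x hx
    have h1 : (p x - q') / (p x - q) = 1 - (q' - q) / (p x - q) := by
      field_simp [hne x hx]
      ring
    have h2 : ‖(q' - q) / (p x - q)‖ < 1 := by
      rw [norm_div, div_lt_one (by
        rw [norm_pos_iff]; exact hne x hx)]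
      linarith [hr x hx]
    rw [h1]
    left
    have h3 := Complex.re_le_norm ((q' - q) / (p x - q))
    rw [Complex.sub_re, Complex.one_re]
    linarith
  refine ⟨fun x => L x + Complex.log ((p x - q') / (p x - q)), ?_, ?_, by ring⟩
  · apply hL.add
    apply ContinuousOn.clog
    · apply ContinuousOn.div
      · exact (hp.sub continuous_const).continuousOn
      · exact (hp.sub continuous_const).continuousOn
      · exact hne
    · exact hslit
  · intro x hx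
    have h1 := Complex.slitPlane_ne_zero (hslit x hx)
    rw [Complex.exp_add, hLf x hx, Complex.exp_log h1]
    field_simp [hne x hx]

/-- The difference of the increments of two paths with common endpoints is locally constant in the
base point. -/
theorem inc_diff_const {p₁ p₂ : ℝ → ℂ} (hp₁ : Continuous p₁) (hp₂ : Continuous p₂) {s t : ℝ}
    (hst : s ≤ t) (hs : p₁ s = p₂ s) (ht : p₁ t = p₂ t) {Q : Set ℂ} (hQ : IsPreconnected Q)
    (h₁ : ∀ x ∈ Icc s t, p₁ x ∉ Q) (h₂ : ∀ x ∈ Icc s t, p₂ x ∉ Q)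
    {q q' : ℂ} (hq : q ∈ Q) (hq' : q' ∈ Q) {c₁ c₂ c₁' c₂' : ℂ}
    (i₁ : Inc (fun x => p₁ x - q) s t c₁) (i₂ : Inc (fun x => p₂ x - q) s t c₂)
    (i₁' : Inc (fun x => p₁ x - q') s t c₁') (i₂' : Inc (fun x => p₂ x - q') s t c₂') :
    c₁ - c₂ = c₁' - c₂' := by
  have hne₁ : ∀ a ∈ Q, ∀ x ∈ Icc s t, p₁ x - a ≠ 0 := by
    intro a ha x hx h
    exact h₁ x hx (by rw [sub_eq_zero.1 h]; exact ha)
  have hne₂ : ∀ a ∈ Q, ∀ x ∈ Icc s t, p₂ x - a ≠ 0 := by
    intro a ha x hx h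
    exact h₂ x hx (by rw [sub_eq_zero.1 h]; exact ha)
  have e₁ : ∀ a : Q, ∃ c, Inc (fun x => p₁ x - a) s t c := fun a =>
    Inc.exists (hp₁.sub continuous_const) hst (hne₁ a a.2)
  have e₂ : ∀ a : Q, ∃ c, Inc (fun x => p₂ x - a) s t c := fun a =>
    Inc.exists (hp₂.sub continuous_const) hst (hne₂ a a.2)
  choose d₁ hd₁ using e₁
  choose d₂ hd₂ using e₂
  have hloc : IsLocallyConstant (fun a : Q => d₁ a - d₂ a) := by
    rw [IsLocallyConstant.iff_eventually_eq]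
    intro a
    -- positive distance to both curves
    have hK : IsCompact (p₁ '' Icc s t ∪ p₂ '' Icc s t) :=
      (isCompact_Icc.image hp₁).union (isCompact_Icc.image hp₂)
    have ha : (a : ℂ) ∉ p₁ '' Icc s t ∪ p₂ '' Icc s t := by
      rintro (⟨x, hx, h⟩ | ⟨x, hx, h⟩)
      · exact h₁ x hx (by rw [h]; exact a.2)
      · exact h₂ x hx (by rw [h]; exact a.2)
    obtain ⟨r, hr, hrs⟩ := Metric.isOpen_iff.1 hK.isClosed.isOpen_compl _ ha
    have hr₁ : ∀ x ∈ Icc s t, r ≤ ‖p₁ x - a‖ := by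
      intro x hx
      by_contra h
      push Not at h
      exact hrs (show p₁ x ∈ ball (a : ℂ) r by rw [mem_ball, dist_eq_norm]; exact h)
        (Or.inl ⟨x, hx, rfl⟩)
    have hr₂ : ∀ x ∈ Icc s t, r ≤ ‖p₂ x - a‖ := by
      intro x hx
      by_contra h
      push Not at h
      exact hrs (show p₂ x ∈ ball (a : ℂ) r by rw [mem_ball, dist_eq_norm]; exact h)
        (Or.inr ⟨x, hx, rfl⟩)
    filter_upwards [Metric.ball_mem_nhds a hr] with b hb
    have hb' : ‖(b : ℂ) - a‖ < r := by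
      rw [mem_ball, Subtype.dist_eq, dist_eq_norm] at hb
      exact hb
    have m₁ := (hd₁ a).move hp₁ hr₁ hb'
    have m₂ := (hd₂ a).move hp₂ hr₂ hb'
    rw [(hd₁ b).unique hst m₁, (hd₂ b).unique hst m₂, hs, ht]
    ring
  have : PreconnectedSpace Q := isPreconnected_iff_preconnectedSpace.1 hQ
  have h := hloc.apply_eq_of_preconnectedSpace ⟨q, hq⟩ ⟨q', hq'⟩
  rw [i₁.unique hst (hd₁ ⟨q, hq⟩), i₂.unique hst (hd₂ ⟨q, hq⟩), i₁'.unique hst (hd₁ ⟨q', hq'⟩),
    i₂'.unique hst (hd₂ ⟨q', hq'⟩), h]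

theorem cis_eq_cis {a b : ℝ} (h : cis a = cis b) (hab : a < b) (hlt : b < a + 2 * Real.pi) :
    False := by
  unfold cis at h
  obtain ⟨n, hn⟩ := Complex.exp_eq_exp_iff_exists_int.1 h
  have h1 : (a : ℂ) = b + n * (2 * Real.pi) := by
    have hI : Complex.I ≠ 0 := Complex.I_ne_zero
    apply mul_right_cancel₀ hI
    rw [hn]; ring
  have h2 : a = b + n * (2 * Real.pi) := by exact_mod_cast h1
  have hpi := Real.pi_pos
  have h3 : (n : ℝ) < 0 := by nlinarith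
  have h4 : -1 < (n : ℝ) := by nlinarith
  have h5 : n < 0 := by exact_mod_cast h3
  have h6 : -1 < n := by exact_mod_cast h4
  omega

theorem exists_cis {w : ℂ} (hw : ‖w‖ = 1) (α : ℝ) :
    ∃ β, α < β ∧ β ≤ α + 2 * Real.pi ∧ cis β = w := by
  have h0 : (0 : ℝ) < 2 * Real.pi := by positivity
  refine ⟨toIocMod h0 α (Complex.arg w), left_lt_toIocMod _ _ _, toIocMod_le_right _ _ _, ?_⟩
  have h1 : ∃ n : ℤ, toIocMod h0 α (Complex.arg w) = Complex.arg w + n * (2 * Real.pi) := by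
    refine ⟨- toIocDiv h0 α (Complex.arg w), ?_⟩
    rw [← self_sub_toIocDiv_zsmul, zsmul_eq_mul]
    push_cast
    ring
  obtain ⟨n, hn⟩ := h1
  rw [hn]
  unfold cis
  push_cast
  rw [add_mul, Complex.exp_add]
  have h2 : Complex.exp (n * (2 * Real.pi) * Complex.I) = 1 := by
    have := Complex.exp_int_mul_two_pi_mul_I n
    rw [← this]; ring_nf
  rw [h2, mul_one]
  have h3 := Complex.norm_mul_exp_arg_mul_I w
  rw [hw] at h3
  simpa using h3

/-- the angle function with prescribed values at `0,1,2,3` -/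
noncomputable def ang (α ε b c : ℝ) (t : ℝ) : ℝ :=
  α + ε * (b * clamp t + (c - b) * clamp (t - 1) + (2 * Real.pi - c) * clamp (t - 2))

theorem continuous_ang (α ε b c : ℝ) : Continuous (ang α ε b c) := by
  unfold ang
  have h := continuous_clamp
  fun_prop

theorem clamp_of_nonpos {s : ℝ} (h : s ≤ 0) : clamp s = 0 := by
  unfold clamp
  rw [max_eq_left]
  exact (min_le_right _ _).trans h

theorem clamp_of_one_le {s : ℝ} (h : 1 ≤ s) : clamp s = 1 := by
  unfold clamp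
  rw [min_eq_left h, max_eq_right zero_le_one]

theorem boundary_norm {φ : ℂ → ℂ} (hφ : Continuous φ) (hinj : InjOn φ (closedBall 0 1)) {x : ℂ}
    (hx : x ∈ φ '' closedBall 0 1) (hx' : x ∉ interior (φ '' closedBall 0 1)) :
    ∃ w, ‖w‖ = 1 ∧ φ w = x := by
  obtain ⟨w, hw, rfl⟩ := hx
  refine ⟨w, ?_, rfl⟩
  have h1 := mem_closedBall_zero_iff.1 hw
  by_contra h2
  apply hx'
  rw [interior_disk_eq φ hφ hinj]
  refine ⟨w, ?_, rfl⟩
  rw [mem_ball_zero_iff]
  exact lt_of_le_of_ne h1 h2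

/-- Parametrisation of the boundary of a disk through three given points. -/
theorem boundary_param {K : Set ℂ} (hK : IsDisk K) {x y z : ℂ} (hx : x ∈ K) (hy : y ∈ K)
    (hz : z ∈ K) (hx' : x ∉ interior K) (hy' : y ∉ interior K) (hz' : z ∉ interior K)
    (hxy : x ≠ y) (hyz : y ≠ z) (hxz : x ≠ z) :
    ∃ p : ℝ → ℂ, Continuous p ∧ p 0 = x ∧ p 1 = y ∧ p 2 = z ∧ p 3 = x ∧
      (∀ t, p t ∈ K) ∧ (∀ t, p t ∉ interior K) ∧
      (∀ t ∈ Icc (0 : ℝ) 1, p t ≠ z) ∧ (∀ t ∈ Icc (1 : ℝ) 2, p t ≠ x) ∧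
      (∀ t ∈ Icc (2 : ℝ) 3, p t ≠ y) ∧
      (∀ q ∉ K, Inc (fun t => p t - q) 0 3 0) ∧
      (∀ q ∈ interior K, ∃ c, c ≠ 0 ∧ Inc (fun t => p t - q) 0 3 c) := by
  obtain ⟨φ, hφ, hinj, rfl⟩ := hK
  obtain ⟨wx, hwx, rfl⟩ := boundary_norm hφ hinj hx hx'
  obtain ⟨wy, hwy, rfl⟩ := boundary_norm hφ hinj hy hy'
  obtain ⟨wz, hwz, rfl⟩ := boundary_norm hφ hinj hz hz'
  obtain ⟨α, -, -, rfl⟩ := exists_cis hwx 0
  obtain ⟨β, hβ1, hβ2, rfl⟩ := exists_cis hwy α
  obtain ⟨γ, hγ1, hγ2, rfl⟩ := exists_cis hwz α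
  have hpi := Real.pi_pos
  have hβ3 : β < α + 2 * Real.pi := by
    apply lt_of_le_of_ne hβ2
    rintro rfl
    exact hxy (by rw [cis_add_two_pi])
  have hγ3 : γ < α + 2 * Real.pi := by
    apply lt_of_le_of_ne hγ2
    rintro rfl
    exact hxz (by rw [cis_add_two_pi])
  have hβγ : β ≠ γ := by
    rintro rfl
    exact hyz rfl
  -- unified data
  obtain ⟨ε, b, c, hε, hb0, hbc, hc2, hb, hc⟩ : ∃ ε b c : ℝ, (ε = 1 ∨ ε = -1) ∧ 0 < b ∧ b < c ∧
      c < 2 * Real.pi ∧ cis (α + ε * b) = cis β ∧ cis (α + ε * c) = cis γ := by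
    rcases lt_or_gt_of_ne hβγ with h | h
    · refine ⟨1, β - α, γ - α, Or.inl rfl, by linarith, by linarith, by linarith, ?_, ?_⟩
      · congr 1; ring
      · congr 1; ring
    · refine ⟨-1, α + 2 * Real.pi - β, α + 2 * Real.pi - γ, Or.inr rfl, by linarith, by linarith,
        by linarith, ?_, ?_⟩
      · rw [← cis_add_two_pi (α + -1 * (α + 2 * Real.pi - β))]; congr 1; ring
      · rw [← cis_add_two_pi (α + -1 * (α + 2 * Real.pi - γ))]; congr 1; ring
  have hsep : ∀ s t : ℝ, s < t → t < s + 2 * Real.pi → cis (α + ε * s) ≠ cis (α + ε * t) := by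
    intro s t h1 h2 h3
    rcases hε with rfl | rfl
    · exact cis_eq_cis h3 (by linarith) (by linarith)
    · exact cis_eq_cis h3.symm (by linarith) (by linarith)
  have hcismem : ∀ θ, φ (cis θ) ∈ φ '' closedBall 0 1 := fun θ =>
    ⟨_, mem_closedBall_cis θ, rfl⟩
  have hnotint : ∀ θ, φ (cis θ) ∉ interior (φ '' closedBall 0 1) := by
    intro θ h
    rw [interior_disk_eq φ hφ hinj] at h
    obtain ⟨v, hv, hv'⟩ := h
    have h1 := hinj (ball_subset_closedBall hv) (mem_closedBall_cis θ) hv'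
    rw [h1, mem_ball_zero_iff, norm_cis] at hv
    exact lt_irrefl _ hv
  have hphi_ne : ∀ θ θ', cis θ ≠ cis θ' → φ (cis θ) ≠ φ (cis θ') := by
    intro θ θ' h h'
    exact h (hinj (mem_closedBall_cis _) (mem_closedBall_cis _) h')
  -- values of the angle function
  have a01 : ∀ t ∈ Icc (0 : ℝ) 1, ang α ε b c t = α + ε * (b * t) := by
    intro t ht
    unfold ang
    rw [clamp_of_nonpos (by linarith [ht.2] : t - 1 ≤ 0),
      clamp_of_nonpos (by linarith [ht.2] : t - 2 ≤ 0)]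
    have : clamp t = t := by
      unfold clamp; rw [min_eq_right ht.2, max_eq_right ht.1]
    rw [this]; ring
  have a12 : ∀ t ∈ Icc (1 : ℝ) 2, ang α ε b c t = α + ε * (b + (c - b) * (t - 1)) := by
    intro t ht
    unfold ang
    rw [clamp_of_one_le ht.1, clamp_of_nonpos (by linarith [ht.2] : t - 2 ≤ 0)]
    have : clamp (t - 1) = t - 1 := by
      unfold clamp
      rw [min_eq_right (by linarith [ht.2]), max_eq_right (by linarith [ht.1])]
    rw [this]; ring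
  have a23 : ∀ t ∈ Icc (2 : ℝ) 3,
      ang α ε b c t = α + ε * (c + (2 * Real.pi - c) * (t - 2)) := by
    intro t ht
    unfold ang
    rw [clamp_of_one_le (by linarith [ht.1] : (1 : ℝ) ≤ t),
      clamp_of_one_le (by linarith [ht.1] : (1 : ℝ) ≤ t - 1)]
    have : clamp (t - 2) = t - 2 := by
      unfold clamp
      rw [min_eq_right (by linarith [ht.2]), max_eq_right (by linarith [ht.1])]
    rw [this]; ring
  have v0 : ang α ε b c 0 = α := by rw [a01 0 ⟨le_rfl, zero_le_one⟩]; ring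
  have v3 : ang α ε b c 3 = α + ε * (2 * Real.pi) := by
    rw [a23 3 ⟨by norm_num, le_rfl⟩]; ring
  refine ⟨fun t => φ (cis (ang α ε b c t)), hφ.comp (continuous_cis.comp (continuous_ang _ _ _ _)),
    ?_, ?_, ?_, ?_, fun t => hcismem _, fun t => hnotint _, ?_, ?_, ?_, ?_, ?_⟩
  · simp only [v0]
  · simp only [a01 1 ⟨zero_le_one, le_rfl⟩, mul_one, hb]
  · show φ (cis (ang α ε b c 2)) = _
    rw [show ang α ε b c 2 = α + ε * c by rw [a12 2 ⟨by norm_num, le_rfl⟩]; ring, hc]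
  · show φ (cis (ang α ε b c 3)) = _
    rw [v3]
    congr 1
    rcases hε with rfl | rfl
    · rw [one_mul, cis_add_two_pi]
    · rw [← cis_add_two_pi (α + -1 * (2 * Real.pi))]; congr 1; ring
  · intro t ht
    simp only [a01 t ht]
    rw [← hc]
    apply hphi_ne
    apply hsep
    · nlinarith [ht.2, ht.1]
    · nlinarith [ht.1, ht.2]
  · intro t ht
    simp only [a12 t ht]
    apply hphi_ne
    have h1 := hsep 0 (b + (c - b) * (t - 1)) (by nlinarith [ht.1, ht.2])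
      (by nlinarith [ht.1, ht.2])
    rw [mul_zero, add_zero] at h1
    exact h1.symm
  · intro t ht
    simp only [a23 t ht]
    rw [← hb]
    apply hphi_ne
    apply Ne.symm
    apply hsep
    · nlinarith [ht.1, ht.2]
    · nlinarith [ht.1, ht.2]
  · intro q hq
    obtain ⟨M, hM, hMf, hMc⟩ := hasPer_outside φ hφ q hq
    refine ⟨fun t => M (ang α ε b c t), (hM.comp (continuous_ang _ _ _ _)).continuousOn,
      fun t _ => hMf _, ?_⟩
    simp only [v0, v3]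
    rcases hε with rfl | rfl
    · rw [one_mul]; exact hMc α
    · have h1 := hMc (α + -1 * (2 * Real.pi))
      rw [show α + -1 * (2 * Real.pi) + 2 * Real.pi = α by ring] at h1
      linear_combination -h1
  · intro q hq
    rw [interior_disk_eq φ hφ hinj] at hq
    obtain ⟨w, hw, rfl⟩ := hq
    obtain ⟨c', hc'0, M, hM, hMf, hMc⟩ := hasPer_disk φ hφ hinj w hw
    refine ⟨ε * c', ?_, fun t => M (ang α ε b c t), (hM.comp (continuous_ang _ _ _ _)).continuousOn,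
      fun t _ => hMf _, ?_⟩
    · rcases hε with rfl | rfl
      · simpa using hc'0
      · simpa using hc'0
    · simp only [v0, v3]
      rcases hε with rfl | rfl
      · rw [one_mul, Complex.ofReal_one, one_mul]; exact hMc α
      · have h1 := hMc (α + -1 * (2 * Real.pi))
        rw [show α + -1 * (2 * Real.pi) + 2 * Real.pi = α by ring] at h1
        push_cast
        linear_combination -h1

/-- A point of a disk which lies in another disk with disjoint interior is not interior. -/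
theorem not_mem_interior_of_disjoint {K₁ K₂ : Set ℂ} (h₂ : IsDisk K₂)
    (hd : Disjoint (interior K₁) (interior K₂)) {x : ℂ} (hx : x ∈ K₂) : x ∉ interior K₁ := by
  intro h
  rw [← h₂.closure_interior] at hx
  obtain ⟨y, hy1, hy2⟩ := mem_closure_iff.1 hx _ isOpen_interior h
  exact disjoint_left.1 hd hy1 hy2

/-- data of a parametrised boundary through three points -/
structure Par (K : Set ℂ) (x y z : ℂ) (p : ℝ → ℂ) : Prop where
  cont : Continuous p
  p0 : p 0 = x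
  p1 : p 1 = y
  p2 : p 2 = z
  p3 : p 3 = x
  mem : ∀ t, p t ∈ K
  nint : ∀ t, p t ∉ interior K
  n1 : ∀ t ∈ Icc (0 : ℝ) 1, p t ≠ z
  n2 : ∀ t ∈ Icc (1 : ℝ) 2, p t ≠ x
  n3 : ∀ t ∈ Icc (2 : ℝ) 3, p t ≠ y
  out : ∀ q ∉ K, Inc (fun t => p t - q) 0 3 0
  inn : ∀ q ∈ interior K, ∃ c, c ≠ 0 ∧ Inc (fun t => p t - q) 0 3 c

theorem exists_par {K : Set ℂ} (hK : IsDisk K) {x y z : ℂ} (hx : x ∈ K) (hy : y ∈ K)
    (hz : z ∈ K) (hx' : x ∉ interior K) (hy' : y ∉ interior K) (hz' : z ∉ interior K)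
    (hxy : x ≠ y) (hyz : y ≠ z) (hxz : x ≠ z) : ∃ p, Par K x y z p := by
  obtain ⟨p, h1, h2, h3, h4, h5, h6, h7, h8, h9, h10, h11, h12⟩ :=
    boundary_param hK hx hy hz hx' hy' hz' hxy hyz hxz
  exact ⟨p, h1, h2, h3, h4, h5, h6, h7, h8, h9, h10, h11, h12⟩

/-- Two disks with disjoint interiors and three common points: opposite orientations. -/
theorem two_disks {K₁ K₂ : Set ℂ} (h₁ : IsDisk K₁) (h₂ : IsDisk K₂)
    (hd : Disjoint (interior K₁) (interior K₂)) {x y z : ℂ} {p₁ p₂ : ℝ → ℂ}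
    (P₁ : Par K₁ x y z p₁) (P₂ : Par K₂ x y z p₂) {q₁ q₂ : ℂ} (hq₁ : q₁ ∈ interior K₁)
    (hq₂ : q₂ ∈ interior K₂) {c₁ c₂ : ℂ} (i₁ : Inc (fun t => p₁ t - q₁) 0 3 c₁)
    (i₂ : Inc (fun t => p₂ t - q₂) 0 3 c₂) : c₁ = - c₂ := by
  -- nonvanishing of all differences
  have m12 : ∀ t, p₁ t ∉ interior K₂ := fun t =>
    not_mem_interior_of_disjoint h₁ hd.symm (P₁.mem t)
  have m21 : ∀ t, p₂ t ∉ interior K₁ := fun t =>
    not_mem_interior_of_disjoint h₂ hd (P₂.mem t)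
  have e : ∀ (p : ℝ → ℂ), Continuous p → ∀ q, (∀ t, p t ≠ q) → ∀ s t : ℝ, s ≤ t →
      ∃ c, Inc (fun t => p t - q) s t c := by
    intro p hp q h s t hst
    exact Inc.exists (hp.sub continuous_const) hst (fun x _ => sub_ne_zero.2 (h x))
  have n11 : ∀ t, p₁ t ≠ q₁ := fun t h => P₁.nint t (by rw [h]; exact hq₁)
  have n12 : ∀ t, p₁ t ≠ q₂ := fun t h => m12 t (by rw [h]; exact hq₂)
  have n21 : ∀ t, p₂ t ≠ q₁ := fun t h => m21 t (by rw [h]; exact hq₁)
  have n22 : ∀ t, p₂ t ≠ q₂ := fun t h => P₂.nint t (by rw [h]; exact hq₂)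
  obtain ⟨a11, ha11⟩ := e p₁ P₁.cont q₁ n11 0 1 (by norm_num)
  obtain ⟨b11, hb11⟩ := e p₁ P₁.cont q₁ n11 1 2 (by norm_num)
  obtain ⟨d11, hd11⟩ := e p₁ P₁.cont q₁ n11 2 3 (by norm_num)
  obtain ⟨a12, ha12⟩ := e p₁ P₁.cont q₂ n12 0 1 (by norm_num)
  obtain ⟨b12, hb12⟩ := e p₁ P₁.cont q₂ n12 1 2 (by norm_num)
  obtain ⟨d12, hd12⟩ := e p₁ P₁.cont q₂ n12 2 3 (by norm_num)
  obtain ⟨a21, ha21⟩ := e p₂ P₂.cont q₁ n21 0 1 (by norm_num)
  obtain ⟨b21, hb21⟩ := e p₂ P₂.cont q₁ n21 1 2 (by norm_num)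
  obtain ⟨d21, hd21⟩ := e p₂ P₂.cont q₁ n21 2 3 (by norm_num)
  obtain ⟨a22, ha22⟩ := e p₂ P₂.cont q₂ n22 0 1 (by norm_num)
  obtain ⟨b22, hb22⟩ := e p₂ P₂.cont q₂ n22 1 2 (by norm_num)
  obtain ⟨d22, hd22⟩ := e p₂ P₂.cont q₂ n22 2 3 (by norm_num)
  have c1 : ∀ q, Continuous fun t => p₁ t - q := fun q => P₁.cont.sub continuous_const
  have c2 : ∀ q, Continuous fun t => p₂ t - q := fun q => P₂.cont.sub continuous_const
  have s11 := (ha11.add (c1 _) (by norm_num) (by norm_num) hb11).add (c1 _) (by norm_num)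
    (by norm_num) hd11
  have s12 := (ha12.add (c1 _) (by norm_num) (by norm_num) hb12).add (c1 _) (by norm_num)
    (by norm_num) hd12
  have s21 := (ha21.add (c2 _) (by norm_num) (by norm_num) hb21).add (c2 _) (by norm_num)
    (by norm_num) hd21
  have s22 := (ha22.add (c2 _) (by norm_num) (by norm_num) hb22).add (c2 _) (by norm_num)
    (by norm_num) hd22
  have hq₁' : q₁ ∉ K₂ := fun h => not_mem_interior_of_disjoint h₂ hd h hq₁
  have hq₂' : q₂ ∉ K₁ := fun h => not_mem_interior_of_disjoint h₁ hd.symm h hq₂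
  have o12 := (P₁.out q₂ hq₂').unique (by norm_num) s12
  have o21 := (P₂.out q₁ hq₁').unique (by norm_num) s21
  have o11 := i₁.unique (by norm_num) s11
  have o22 := i₂.unique (by norm_num) s22
  -- the connecting set
  have hconn : ∀ v : ℂ, v ∈ K₁ → v ∈ K₂ →
      IsPreconnected (insert v (interior K₁) ∪ insert v (interior K₂)) := by
    intro v hv1 hv2
    have k1 : IsPreconnected (insert v (interior K₁)) :=
      h₁.isConnected_interior.isPreconnected.subset_closure (subset_insert _ _)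
        (insert_subset (by rw [h₁.closure_interior]; exact hv1) subset_closure)
    have k2 : IsPreconnected (insert v (interior K₂)) :=
      h₂.isConnected_interior.isPreconnected.subset_closure (subset_insert _ _)
        (insert_subset (by rw [h₂.closure_interior]; exact hv2) subset_closure)
    exact k1.union v (mem_insert _ _) (mem_insert _ _) k2
  have hav : ∀ v t, p₁ t ≠ v → p₁ t ∉ insert v (interior K₁) ∪ insert v (interior K₂) := by
    rintro v t h ((h1 | h1) | (h1 | h1))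
    · exact h h1
    · exact P₁.nint t h1
    · exact h h1
    · exact m12 t h1
  have hav' : ∀ v t, p₂ t ≠ v → p₂ t ∉ insert v (interior K₁) ∪ insert v (interior K₂) := by
    rintro v t h ((h1 | h1) | (h1 | h1))
    · exact h h1
    · exact m21 t h1
    · exact h h1
    · exact P₂.nint t h1
  have kx1 : x ∈ K₁ := by rw [← P₁.p0]; exact P₁.mem 0
  have kx2 : x ∈ K₂ := by rw [← P₂.p0]; exact P₂.mem 0
  have ky1 : y ∈ K₁ := by rw [← P₁.p1]; exact P₁.mem 1
  have ky2 : y ∈ K₂ := by rw [← P₂.p1]; exact P₂.mem 1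
  have kz1 : z ∈ K₁ := by rw [← P₁.p2]; exact P₁.mem 2
  have kz2 : z ∈ K₂ := by rw [← P₂.p2]; exact P₂.mem 2
  have A := inc_diff_const P₁.cont P₂.cont (by norm_num : (0 : ℝ) ≤ 1) (by rw [P₁.p0, P₂.p0])
    (by rw [P₁.p1, P₂.p1]) (hconn z kz1 kz2) (fun t ht => hav z t (P₁.n1 t ht))
    (fun t ht => hav' z t (P₂.n1 t ht)) (Or.inl (Or.inr hq₁)) (Or.inr (Or.inr hq₂))
    ha11 ha21 ha12 ha22
  have B := inc_diff_const P₁.cont P₂.cont (by norm_num : (1 : ℝ) ≤ 2) (by rw [P₁.p1, P₂.p1])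
    (by rw [P₁.p2, P₂.p2]) (hconn x kx1 kx2) (fun t ht => hav x t (P₁.n2 t ht))
    (fun t ht => hav' x t (P₂.n2 t ht)) (Or.inl (Or.inr hq₁)) (Or.inr (Or.inr hq₂))
    hb11 hb21 hb12 hb22
  have C := inc_diff_const P₁.cont P₂.cont (by norm_num : (2 : ℝ) ≤ 3) (by rw [P₁.p2, P₂.p2])
    (by rw [P₁.p3, P₂.p3]) (hconn y ky1 ky2) (fun t ht => hav y t (P₁.n3 t ht))
    (fun t ht => hav' y t (P₂.n3 t ht)) (Or.inl (Or.inr hq₁)) (Or.inr (Or.inr hq₂))
    hd11 hd21 hd12 hd22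
  rw [o11, o22]
  linear_combination A + B + C - o12 - o21

/-- Three disks with pairwise disjoint interiors have at most two common points. -/
theorem three_disks {K₁ K₂ K₃ : Set ℂ} (h₁ : IsDisk K₁) (h₂ : IsDisk K₂) (h₃ : IsDisk K₃)
    (d12 : Disjoint (interior K₁) (interior K₂)) (d13 : Disjoint (interior K₁) (interior K₃))
    (d23 : Disjoint (interior K₂) (interior K₃)) {x y z : ℂ} (hx : x ∈ K₁ ∩ K₂ ∩ K₃)
    (hy : y ∈ K₁ ∩ K₂ ∩ K₃) (hz : z ∈ K₁ ∩ K₂ ∩ K₃) : x = y ∨ y = z ∨ x = z := by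
  by_contra hcon
  push Not at hcon
  obtain ⟨hxy, hyz, hxz⟩ := hcon
  have n1 : ∀ v ∈ K₁ ∩ K₂ ∩ K₃, v ∉ interior K₁ := fun v hv =>
    not_mem_interior_of_disjoint h₂ d12 hv.1.2
  have n2 : ∀ v ∈ K₁ ∩ K₂ ∩ K₃, v ∉ interior K₂ := fun v hv =>
    not_mem_interior_of_disjoint h₁ d12.symm hv.1.1
  have n3 : ∀ v ∈ K₁ ∩ K₂ ∩ K₃, v ∉ interior K₃ := fun v hv =>
    not_mem_interior_of_disjoint h₁ d13.symm hv.1.1
  obtain ⟨p₁, P₁⟩ := exists_par h₁ hx.1.1 hy.1.1 hz.1.1 (n1 x hx) (n1 y hy) (n1 z hz) hxy hyz hxz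
  obtain ⟨p₂, P₂⟩ := exists_par h₂ hx.1.2 hy.1.2 hz.1.2 (n2 x hx) (n2 y hy) (n2 z hz) hxy hyz hxz
  obtain ⟨p₃, P₃⟩ := exists_par h₃ hx.2 hy.2 hz.2 (n3 x hx) (n3 y hy) (n3 z hz) hxy hyz hxz
  obtain ⟨q₁, hq₁⟩ := h₁.isConnected_interior.nonempty
  obtain ⟨q₂, hq₂⟩ := h₂.isConnected_interior.nonempty
  obtain ⟨q₃, hq₃⟩ := h₃.isConnected_interior.nonempty
  obtain ⟨c₁, hc₁, i₁⟩ := P₁.inn q₁ hq₁
  obtain ⟨c₂, hc₂, i₂⟩ := P₂.inn q₂ hq₂
  obtain ⟨c₃, hc₃, i₃⟩ := P₃.inn q₃ hq₃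
  have e12 := two_disks h₁ h₂ d12 P₁ P₂ hq₁ hq₂ i₁ i₂
  have e13 := two_disks h₁ h₃ d13 P₁ P₃ hq₁ hq₃ i₁ i₃
  have e23 := two_disks h₂ h₃ d23 P₂ P₃ hq₂ hq₃ i₂ i₃
  apply hc₁
  have h2 : (2 : ℂ) * c₁ = 0 := by linear_combination e12 + e13 - e23
  exact (mul_eq_zero.1 h2).resolve_left two_ne_zero

end Pool.Agent.Lib.MP_ffe3a0_co
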